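import Pool.Agent.Lib.MP_0e6cae_nt.AmbA

/-!
Galois invariant ideal classes of the `p^(k+1)`-th cyclotomic field: `d σ(J) = v J` implies that
`J` is principal.
-/

open NumberField Ideal

namespace Pool.Agent.Lib.MP_0e6cae_nt.Amb

section

variable {p k : ℕ} [hp : Fact p.Prime] {K : Type} [Field K] [NumberField K]

theorem absNorm_map_res (σ : K ≃ₐ[ℚ] K) (J : Ideal (𝓞 K)) :
    absNorm (J.map (res σ : 𝓞 K →+* 𝓞 K)) = absNorm J := by
  rw [absNorm_apply, absNorm_apply, Submodule.cardQuot_apply, Submodule.cardQuot_apply]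
  exact Nat.card_congr (Ideal.quotientEquiv J (J.map (res σ : 𝓞 K →+* 𝓞 K))
    (res σ : 𝓞 K ≃+* 𝓞 K) rfl).toEquiv.symm

variable [hK : IsCyclotomicExtension {p ^ (k + 1)} ℚ K] {ζ : K}
  (hζ : IsPrimitiveRoot ζ (p ^ (k + 1)))

include hζ in
theorem norm_congr (v : 𝓞 K) (c : ℤ) (hv : hζ.toInteger - 1 ∣ v - (c : 𝓞 K)) :
    (p : ℤ) ∣ Algebra.norm ℤ v - c ^ Module.finrank ℚ K := by
  have hgal : IsGalois ℚ K := IsCyclotomicExtension.isGalois {p ^ (k + 1)} ℚ K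
  have h1 : ((Algebra.norm ℤ v : ℤ) : 𝓞 K) = ∏ τ : K ≃ₐ[ℚ] K, res τ v := by
    apply RingOfIntegers.coe_injective
    rw [map_prod, map_intCast]
    have h2 : ((Algebra.norm ℤ v : ℤ) : K) = algebraMap ℚ K (Algebra.norm ℚ (v : K)) := by
      rw [← Algebra.coe_norm_int]
      simp
    rw [h2, Algebra.norm_eq_prod_automorphisms]
    exact Finset.prod_congr rfl fun τ _ => (coe_res τ v).symm
  have h2 : ∀ τ : K ≃ₐ[ℚ] K, (hζ.toInteger - 1) ∣ res τ v - (c : 𝓞 K) := by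
    intro τ
    obtain ⟨s, hs⟩ := hv
    have h3 : res τ v - (c : 𝓞 K) = (res τ hζ.toInteger - 1) * res τ s := by
      have h4 := congrArg (res τ) hs
      rw [map_sub, map_intCast, map_mul, map_sub, map_one] at h4
      exact h4
    rw [h3]
    refine Dvd.dvd.mul_right ?_ _
    have hz : hζ.toInteger ^ (p ^ (k + 1)) = 1 := hζ.toInteger_isPrimitiveRoot.pow_eq_one
    have h5 : (res τ hζ.toInteger) ^ (p ^ (k + 1)) = 1 := by rw [← map_pow, hz, map_one]
    obtain ⟨j, -, hj⟩ := hζ.toInteger_isPrimitiveRoot.eq_pow_of_pow_eq_one h5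
    rw [← hj]
    simpa using sub_dvd_pow_sub_pow hζ.toInteger 1 j
  rw [← IsCyclotomicExtension.Rat.zeta_sub_one_dvd_intCast_iff p k hζ]
  have h3 : (Ideal.Quotient.mk (span {hζ.toInteger - 1})) ((Algebra.norm ℤ v : ℤ) : 𝓞 K) =
      (Ideal.Quotient.mk (span {hζ.toInteger - 1})) ((c : 𝓞 K) ^ Module.finrank ℚ K) := by
    rw [h1, map_prod, map_pow]
    rw [Finset.prod_congr rfl (g := fun _ => (Ideal.Quotient.mk (span {hζ.toInteger - 1}))
      (c : 𝓞 K))]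
    · rw [Finset.prod_const, Finset.card_univ, ← IsGalois.card_aut_eq_finrank,
        Nat.card_eq_fintype_card]
    · intro τ _
      rw [Ideal.Quotient.mk_eq_mk_iff_sub_mem, Ideal.mem_span_singleton]
      exact h2 τ
  rw [Ideal.Quotient.mk_eq_mk_iff_sub_mem, Ideal.mem_span_singleton] at h3
  push_cast
  exact h3

include hζ in
theorem norm_eq (hp2 : p ≠ 2) (σ : K ≃ₐ[ℚ] K) (J : Ideal (𝓞 K)) (hJ0 : J ≠ ⊥) (d : ℤ)
    (hd : ¬ (p : ℤ) ∣ d) (v : 𝓞 K)
    (hv : span {(d : 𝓞 K)} * J.map (res σ : 𝓞 K →+* 𝓞 K) = span {v} * J) (c : ℤ)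
    (hc : hζ.toInteger - 1 ∣ v - (c : 𝓞 K)) (hcd : (p : ℤ) ∣ c - d ∨ (p : ℤ) ∣ c + d) :
    Algebra.norm ℤ v = d ^ Module.finrank ℚ K := by
  have h1 := congrArg absNorm hv
  rw [map_mul, map_mul, absNorm_map_res, absNorm_span_singleton, absNorm_span_singleton] at h1
  have h2 : absNorm J ≠ 0 := by
    rw [Ne, absNorm_eq_zero_iff]
    exact hJ0
  have h3 : (Algebra.norm ℤ (d : 𝓞 K)).natAbs = (Algebra.norm ℤ v).natAbs :=
    Nat.eq_of_mul_eq_mul_right (Nat.pos_of_ne_zero h2) h1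
  have h4 : Algebra.norm ℤ (d : 𝓞 K) = d ^ Module.finrank ℚ K := by
    have h5 := Algebra.norm_algebraMap (S := 𝓞 K) d
    rw [RingOfIntegers.rank] at h5
    simpa using h5
  rw [h4] at h3
  have hev : Even (Module.finrank ℚ K) := by
    rw [IsCyclotomicExtension.Rat.finrank (p ^ (k + 1)) K]
    refine Nat.totient_even ?_
    have h6 : 2 < p := lt_of_le_of_ne hp.out.two_le (Ne.symm hp2)
    exact h6.trans_le (Nat.le_self_pow (Nat.succ_ne_zero k) p)
  have h5 := norm_congr hζ v c hc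
  have h6 : (p : ℤ) ∣ c ^ Module.finrank ℚ K - d ^ Module.finrank ℚ K := by
    rcases hcd with h | h
    · exact h.trans (sub_dvd_pow_sub_pow c d _)
    · have h7 := sub_dvd_pow_sub_pow c (-d) (Module.finrank ℚ K)
      rw [sub_neg_eq_add, hev.neg_pow] at h7
      exact h.trans h7
  rcases Int.natAbs_eq_natAbs_iff.1 h3.symm with h | h
  · exact h
  · exfalso
    have h7 := dvd_add h5 h6
    rw [h] at h7
    have h8 : -d ^ Module.finrank ℚ K - c ^ Module.finrank ℚ K +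
        (c ^ Module.finrank ℚ K - d ^ Module.finrank ℚ K) = -(2 * d ^ Module.finrank ℚ K) := by
      ring
    rw [h8, dvd_neg] at h7
    have hpp : Prime (p : ℤ) := Nat.prime_iff_prime_int.1 hp.out
    rcases hpp.dvd_or_dvd h7 with h9 | h9
    · have h10 : p ∣ 2 := by exact_mod_cast h9
      exact hp2 ((Nat.prime_dvd_prime_iff_eq hp.out Nat.prime_two).1 h10)
    · exact hd (hpp.dvd_of_dvd_pow h9)

include hζ in
theorem principal_of_eq (hp2 : p ≠ 2) (σ : K ≃ₐ[ℚ] K) (hσ : ∀ τ : K ≃ₐ[ℚ] K, ∃ j : ℕ, τ = σ ^ j)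
    (J : Ideal (𝓞 K)) (hJ0 : J ≠ ⊥) (d : ℤ)
    (hd : ¬ (p : ℤ) ∣ d) (v : 𝓞 K)
    (hv : span {(d : 𝓞 K)} * J.map (res σ : 𝓞 K →+* 𝓞 K) = span {v} * J) (c : ℤ)
    (hc : hζ.toInteger - 1 ∣ v - (c : 𝓞 K)) (hcd : (p : ℤ) ∣ c - d ∨ (p : ℤ) ∣ c + d) :
    ∃ w, J = span {w} := by
  have hgal : IsGalois ℚ K := IsCyclotomicExtension.isGalois {p ^ (k + 1)} ℚ K
  have hd0 : d ≠ 0 := by
    rintro rfl
    exact hd (dvd_zero _)
  have hdK : (d : K) ≠ 0 := Int.cast_ne_zero.2 hd0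
  have hdO : (d : 𝓞 K) ≠ 0 := Int.cast_ne_zero.2 hd0
  have hN := norm_eq hζ hp2 σ J hJ0 d hd v hv c hc hcd
  have hN1 : Algebra.norm ℚ ((v : K) / (d : K)) = 1 := by
    have h1 : Algebra.norm ℚ (d : K) = (d : ℚ) ^ Module.finrank ℚ K := by
      have h2 := Algebra.norm_algebraMap (S := K) (d : ℚ)
      simpa using h2
    have h2 : Algebra.norm ℚ ((v : K) / (d : K)) * Algebra.norm ℚ (d : K) =
        Algebra.norm ℚ (d : K) := by
      rw [← map_mul, div_mul_cancel₀ _ hdK, ← Algebra.coe_norm_int, hN, h1]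
      push_cast
      rfl
    have h3 : Algebra.norm ℚ (d : K) ≠ 0 := by
      rw [h1]
      exact pow_ne_zero _ (Int.cast_ne_zero.2 hd0)
    exact (mul_eq_right₀ h3).1 h2
  have hcyc : IsCyclic (K ≃ₐ[ℚ] K) :=
    ⟨σ, fun τ => by
      obtain ⟨j, rfl⟩ := hσ τ
      exact Subgroup.npow_mem_zpowers σ j⟩
  obtain ⟨y, hy⟩ := groupCohomology.exists_div_of_norm_eq_one (K := ℚ) (L := K) (g := σ)
    (fun τ => by
      obtain ⟨j, rfl⟩ := hσ τ
      exact Subgroup.npow_mem_zpowers σ j) hN1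
  -- an integral multiple of `y`
  obtain ⟨m, hm, hmy⟩ := ((IsFractionRing.isAlgebraic_iff ℤ ℚ K).2
    (Algebra.IsAlgebraic.isAlgebraic (R := ℚ) (y : K))).exists_integral_multiple
  obtain ⟨b, hb⟩ : ∃ b : 𝓞 K, (b : K) = m • (y : K) := ⟨⟨_, hmy⟩, rfl⟩
  have hb0 : b ≠ 0 := by
    rintro rfl
    have h1 : (m : ℤ) • (y : K) = 0 := by rw [← hb]; rfl
    rcases smul_eq_zero.1 h1 with h2 | h2
    · exact hm h2
    · exact y.ne_zero h2
  have hbσ : v * res σ b = (d : 𝓞 K) * b := by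
    apply RingOfIntegers.coe_injective
    rw [map_mul, map_mul, map_intCast]
    change (v : K) * ((res σ b : 𝓞 K) : K) = (d : K) * (b : K)
    rw [coe_res, hb, map_zsmul]
    have h1 : σ (y : K) ≠ 0 := (map_ne_zero σ).2 y.ne_zero
    rw [div_eq_div_iff h1 hdK] at hy
    rw [mul_smul_comm, mul_smul_comm, mul_comm (d : K), hy]
  set J' : Ideal (𝓞 K) := span {b} * J with hJ'
  have hJ'σ : J'.map (res σ : 𝓞 K →+* 𝓞 K) = J' := by
    have h1 : span {(d : 𝓞 K)} * J'.map (res σ : 𝓞 K →+* 𝓞 K) = span {(d : 𝓞 K)} * J' := by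
      rw [hJ', Ideal.map_mul, Ideal.map_span, Set.image_singleton]
      change span {(d : 𝓞 K)} * (span {res σ b} * _) = _
      rw [mul_left_comm, hv, ← mul_assoc, ← mul_assoc, Ideal.span_singleton_mul_span_singleton,
        Ideal.span_singleton_mul_span_singleton, mul_comm (res σ b), hbσ]
    refine mul_left_cancel₀ ?_ h1
    rw [Ne, Ideal.zero_eq_bot, Ideal.span_singleton_eq_bot]
    exact hdO
  have hinv : ∀ τ : K ≃ₐ[ℚ] K, ∀ x ∈ J', res τ x ∈ J' := by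
    intro τ
    obtain ⟨j, rfl⟩ := hσ τ
    induction j with
    | zero =>
      intro x hx
      have h1 : res (1 : K ≃ₐ[ℚ] K) x = x := by
        apply RingOfIntegers.coe_injective
        exact (coe_res 1 x)
      rw [pow_zero, h1]
      exact hx
    | succ j ih =>
      intro x hx
      have h1 : res (σ ^ (j + 1)) x = res σ (res (σ ^ j) x) := by
        apply RingOfIntegers.coe_injective
        change ((res (σ ^ (j + 1)) x : 𝓞 K) : K) = ((res σ (res (σ ^ j) x) : 𝓞 K) : K)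
        rw [coe_res, coe_res, coe_res, pow_succ', AlgEquiv.mul_apply]
      rw [h1, ← hJ'σ]
      exact Ideal.mem_map_of_mem (res σ : 𝓞 K →+* 𝓞 K) (ih x hx)
  have hJ'0 : J' ≠ ⊥ := by
    rw [hJ', ← Ideal.zero_eq_bot]
    refine mul_ne_zero ?_ ?_
    · rw [Ne, Ideal.zero_eq_bot, Ideal.span_singleton_eq_bot]
      exact hb0
    · rw [Ideal.zero_eq_bot]
      exact hJ0
  obtain ⟨c', hc'⟩ := principal_of_inv hζ J' hJ'0 hinv
  have h1 : c' ∈ span {b} := by
    have h2 : c' ∈ J' := by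
      rw [hc']
      exact Ideal.mem_span_singleton_self _
    rw [hJ'] at h2
    have h3 : span {b} * J ≤ span {b} := Ideal.mul_le_left
    exact h3 h2
  obtain ⟨w, hw⟩ := Ideal.mem_span_singleton.1 h1
  refine ⟨w, ?_⟩
  rw [hJ', hw, ← Ideal.span_singleton_mul_span_singleton] at hc'
  refine mul_left_cancel₀ ?_ hc'
  rw [Ne, Ideal.zero_eq_bot, Ideal.span_singleton_eq_bot]
  exact hb0

end

end Pool.Agent.Lib.MP_0e6cae_nt.Amb
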