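import Mathlib
import Pool.Agent.Lib.MP_0e6cae_nt.AmbB

/-!
Ideals of `ℤ[ζ]`, `ζ` a primitive `p^a`-th root of unity, in terms of the ideals of `ℤ[X]` which
contain the cyclotomic polynomial.
-/

open Polynomial

namespace Pool.Agent.Lib.MP_0e6cae_nt

section

variable {p k : ℕ} [hp : Fact p.Prime] {K : Type} [Field K] [NumberField K]
  [hK : IsCyclotomicExtension {p ^ (k + 1)} ℚ K] {ζ : K} (hζ : IsPrimitiveRoot ζ (p ^ (k + 1)))

include hζ in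
open NumberField in
theorem amb_aux (hp2 : p ≠ 2) (g : ℕ)
    (hg : ∀ u : (ZMod (p ^ (k + 1)))ˣ, ∃ j : ℕ,
      (u : ZMod (p ^ (k + 1))) = (g : ZMod (p ^ (k + 1))) ^ j)
    (I : Ideal ℤ[X]) (hΦ : cyclotomic (p ^ (k + 1)) ℤ ∈ I) (n : ℤ) (hn : ¬ (p : ℤ) ∣ n)
    (hnI : C n ∈ I) (d : ℤ) (v : ℤ[X]) (hd : ¬ (p : ℤ) ∣ d)
    (hv : Ideal.span {C d} * I.map (expand ℤ g : ℤ[X] →ₐ[ℤ] ℤ[X]) ⊔
        Ideal.span {cyclotomic (p ^ (k + 1)) ℤ} =
      Ideal.span {v} * I ⊔ Ideal.span {cyclotomic (p ^ (k + 1)) ℤ})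
    (hv0 : (p : ℤ) ∣ v.eval 1 - d ∨ (p : ℤ) ∣ v.eval 1 + d) :
    ∃ w : ℤ[X], I = Ideal.span {w} ⊔ Ideal.span {cyclotomic (p ^ (k + 1)) ℤ} := by
  have hp3 : 2 < p := lt_of_le_of_ne hp.out.two_le (Ne.symm hp2)
  have hN3 : 2 < p ^ (k + 1) := hp3.trans_le (Nat.le_self_pow (Nat.succ_ne_zero k) p)
  have : NeZero (p ^ (k + 1)) := ⟨by omega⟩
  -- `g` is a unit modulo `p ^ (k + 1)`
  have hgc : g.Coprime (p ^ (k + 1)) := by
    rw [← ZMod.isUnit_iff_coprime]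
    obtain ⟨j, hj⟩ := hg (-1)
    rcases Nat.eq_zero_or_pos j with rfl | hj0
    · exfalso
      rw [pow_zero] at hj
      have : Fact (2 < p ^ (k + 1)) := ⟨hN3⟩
      exact ZMod.neg_one_ne_one (by simpa using hj)
    · have h1 : IsUnit ((g : ZMod (p ^ (k + 1))) ^ j) := by
        rw [← hj]
        exact Units.isUnit _
      exact (isUnit_pow_iff (by omega)).1 h1
  let E := IsCyclotomicExtension.Rat.galEquivZMod (p ^ (k + 1)) K
  let σ : K ≃ₐ[ℚ] K := E.symm (ZMod.unitOfCoprime g hgc)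
  have hEσ : E σ = ZMod.unitOfCoprime g hgc := E.apply_symm_apply _
  have hσ : ∀ τ : K ≃ₐ[ℚ] K, ∃ j : ℕ, τ = σ ^ j := by
    intro τ
    obtain ⟨j, hj⟩ := hg (E τ)
    refine ⟨j, E.injective ?_⟩
    rw [map_pow, hEσ]
    apply Units.ext
    rw [Units.val_pow_eq_pow_val, ZMod.coe_unitOfCoprime]
    exact hj
  have hσζ : σ ζ = ζ ^ g := by
    rw [IsCyclotomicExtension.Rat.galEquivZMod_apply_of_pow_eq (p ^ (k + 1)) K σ hζ.pow_eq_one]
    change ζ ^ (E σ).val.val = _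
    rw [hEσ, ZMod.coe_unitOfCoprime, ZMod.val_natCast]
    conv_rhs => rw [← Nat.mod_add_div g (p ^ (k + 1)), pow_add, pow_mul, hζ.pow_eq_one, one_pow,
      mul_one]
  -- the map to `𝓞 K`
  let φ : ℤ[X] →+* 𝓞 K := (aeval (R := ℤ) hζ.toInteger : ℤ[X] →ₐ[ℤ] 𝓞 K)
  have hφ : ∀ f : ℤ[X], φ f = aeval hζ.toInteger f := fun f => rfl
  have hφC : ∀ m : ℤ, φ (C m) = (m : 𝓞 K) := by
    intro m
    rw [hφ, aeval_C]
    rfl
  have hsurj : Function.Surjective φ := by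
    intro x
    obtain ⟨f, hf⟩ := (hζ.integralPowerBasisOfPrimePow).exists_eq_aeval' x
    rw [hζ.integralPowerBasisOfPrimePow_gen] at hf
    exact ⟨f, hf.symm⟩
  have hcyc : φ (cyclotomic (p ^ (k + 1)) ℤ) = 0 := by
    rw [hφ]
    have h1 := hζ.toInteger_isPrimitiveRoot.isRoot_cyclotomic (NeZero.pos _)
    rw [← map_cyclotomic_int, IsRoot.def, eval_map] at h1
    exact h1
  have hker : RingHom.ker φ = Ideal.span {cyclotomic (p ^ (k + 1)) ℤ} := by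
    apply le_antisymm
    · intro f hf
      rw [RingHom.mem_ker, hφ] at hf
      rw [Ideal.mem_span_singleton, cyclotomic_eq_minpoly hζ (NeZero.pos _)]
      refine minpoly.isIntegrallyClosed_dvd (hζ.isIntegral (NeZero.pos _)) ?_
      have h1 := congrArg (algebraMap (𝓞 K) K) hf
      rw [map_zero, ← aeval_algebraMap_apply] at h1
      exact h1
    · rw [Ideal.span_singleton_le_iff_mem]
      exact hcyc
  have hφσ : ∀ f : ℤ[X], φ (expand ℤ g f) = Amb.res σ (φ f) := by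
    intro f
    rw [hφ, hφ, expand_aeval]
    have h1 : Amb.res σ hζ.toInteger = hζ.toInteger ^ g := by
      apply RingOfIntegers.coe_injective
      rw [map_pow]
      change ((Amb.res σ hζ.toInteger : 𝓞 K) : K) = _
      rw [Amb.coe_res]
      exact hσζ
    rw [← h1]
    exact aeval_algHom_apply ((Amb.res σ : 𝓞 K ≃ₐ[ℤ] 𝓞 K) : 𝓞 K →ₐ[ℤ] 𝓞 K) hζ.toInteger f
  -- the ideal of `𝓞 K`
  obtain ⟨J, hJ⟩ : ∃ J, J = I.map φ := ⟨_, rfl⟩
  have hn0 : n ≠ 0 := by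
    rintro rfl
    exact hn (dvd_zero _)
  have hJ0 : J ≠ ⊥ := by
    intro h
    have h1 : φ (C n) ∈ J := by
      rw [hJ]
      exact Ideal.mem_map_of_mem φ hnI
    rw [h, Ideal.mem_bot, hφC] at h1
    exact hn0 (Int.cast_eq_zero.1 h1)
  have hspan : (Ideal.span {cyclotomic (p ^ (k + 1)) ℤ}).map φ = ⊥ := by
    rw [Ideal.map_span, Set.image_singleton, hcyc, Ideal.span_singleton_eq_bot]
  have hvJ : Ideal.span {(d : 𝓞 K)} * J.map (Amb.res σ : 𝓞 K →+* 𝓞 K) =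
      Ideal.span {φ v} * J := by
    have h1 := congrArg (Ideal.map φ) hv
    rw [Ideal.map_sup, Ideal.map_sup, hspan, sup_bot_eq, sup_bot_eq, Ideal.map_mul, Ideal.map_mul,
      Ideal.map_span, Ideal.map_span, Set.image_singleton, Set.image_singleton, hφC, ← hJ] at h1
    rw [← h1, hJ, Ideal.map_map]
    congr 1
    change _ = (Ideal.map ((expand ℤ g : ℤ[X] →ₐ[ℤ] ℤ[X]) : ℤ[X] →+* ℤ[X]) I).map φ
    rw [Ideal.map_map]
    congr 1
    ext f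
    · simp
    · exact congrArg (fun x : 𝓞 K => (x : K)) (hφσ X).symm
  have hc : hζ.toInteger - 1 ∣ φ v - ((v.eval 1 : ℤ) : 𝓞 K) := by
    have h1 := sub_dvd_eval_sub hζ.toInteger 1 (v.map (algebraMap ℤ (𝓞 K)))
    rw [eval_map_algebraMap] at h1
    have h2 : eval 1 (v.map (algebraMap ℤ (𝓞 K))) = ((v.eval 1 : ℤ) : 𝓞 K) := by
      rw [eval_map, ← map_one (algebraMap ℤ (𝓞 K)), eval₂_at_apply]
      rfl
    rw [h2] at h1
    exact h1
  obtain ⟨c, hcJ⟩ := Amb.principal_of_eq hζ hp2 σ hσ J hJ0 d hd (φ v) hvJ (v.eval 1) hc hv0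
  obtain ⟨w, rfl⟩ := hsurj c
  refine ⟨w, ?_⟩
  have hIc : I = (I.map φ).comap φ := by
    rw [Ideal.comap_map_of_surjective φ hsurj]
    symm
    rw [sup_eq_left]
    change RingHom.ker φ ≤ I
    rw [hker, Ideal.span_singleton_le_iff_mem]
    exact hΦ
  rw [hIc, ← hJ, hcJ]
  have h1 : Ideal.span {φ w} = (Ideal.span {w}).map φ := by
    rw [Ideal.map_span, Set.image_singleton]
  rw [h1, Ideal.comap_map_of_surjective φ hsurj]
  congr 1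


end

/-- Galois invariant ideal classes of `ℤ[ζ]` of ideals prime to `p` are trivial: if
`d σ(I) = v I` where `σ : ζ ↦ ζ^g` generates the Galois group, `d` is an integer prime to `p` and
`v ≡ ± d` modulo `ζ - 1`, then `I` is principal. -/
theorem amb_cyclotomic (p a : ℕ) (hp : p.Prime) (hp2 : p ≠ 2) (ha : 1 ≤ a) (g : ℕ)
    (hg : ∀ u : (ZMod (p ^ a))ˣ, ∃ j : ℕ, (u : ZMod (p ^ a)) = (g : ZMod (p ^ a)) ^ j)
    (I : Ideal ℤ[X]) (hΦ : cyclotomic (p ^ a) ℤ ∈ I) (n : ℤ) (hn : ¬ (p : ℤ) ∣ n) (hnI : C n ∈ I)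
    (d : ℤ) (v : ℤ[X]) (hd : ¬ (p : ℤ) ∣ d)
    (hv : Ideal.span {C d} * I.map (expand ℤ g : ℤ[X] →ₐ[ℤ] ℤ[X]) ⊔
        Ideal.span {cyclotomic (p ^ a) ℤ} =
      Ideal.span {v} * I ⊔ Ideal.span {cyclotomic (p ^ a) ℤ})
    (hv0 : (p : ℤ) ∣ v.eval 1 - d ∨ (p : ℤ) ∣ v.eval 1 + d) :
    ∃ w : ℤ[X], I = Ideal.span {w} ⊔ Ideal.span {cyclotomic (p ^ a) ℤ} := by
  obtain ⟨k, rfl⟩ : ∃ k, a = k + 1 := ⟨a - 1, by omega⟩
  have : Fact p.Prime := ⟨hp⟩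
  have : NeZero (p ^ (k + 1)) := ⟨pow_ne_zero _ hp.ne_zero⟩
  have : NeZero ((p ^ (k + 1) : ℕ) : ℚ) := ⟨Nat.cast_ne_zero.2 (pow_ne_zero _ hp.ne_zero)⟩
  have hK : @IsCyclotomicExtension {p ^ (k + 1)} ℚ (CyclotomicField (p ^ (k + 1)) ℚ) _ _
      DivisionRing.toRatAlgebra := by
    have h1 := CyclotomicField.isCyclotomicExtension (p ^ (k + 1)) ℚ
    convert h1
    · rfl
    · exact Subsingleton.elim _ _
  obtain ⟨ζ, hζ⟩ : ∃ ζ : CyclotomicField (p ^ (k + 1)) ℚ, IsPrimitiveRoot ζ (p ^ (k + 1)) :=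
    ⟨_, IsCyclotomicExtension.zeta_spec (p ^ (k + 1)) ℚ (CyclotomicField (p ^ (k + 1)) ℚ)⟩
  exact amb_aux (K := CyclotomicField (p ^ (k + 1)) ℚ) (hK := hK) hζ hp2 g hg I hΦ n hn hnI d v hd
    hv hv0

end Pool.Agent.Lib.MP_0e6cae_nt
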