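import Mathlib

/-!
Galois invariant ideals of the ring of integers of the `p^(k+1)`-th cyclotomic field are principal.
-/

open NumberField Ideal

namespace Pool.Agent.Lib.MP_0e6cae_nt.Amb

/-- The restriction of an automorphism to the integers. -/
noncomputable abbrev res {K : Type} [Field K] [NumberField K] (τ : K ≃ₐ[ℚ] K) : 𝓞 K ≃ₐ[ℤ] 𝓞 K :=
  galRestrict ℤ ℚ K (𝓞 K) τ

theorem coe_res {K : Type} [Field K] [NumberField K] (τ : K ≃ₐ[ℚ] K) (x : 𝓞 K) :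
    ((res τ x : 𝓞 K) : K) = τ (x : K) :=
  algebraMap_galRestrict_apply ℤ τ x

section

variable {p k : ℕ} [hp : Fact p.Prime] {K : Type} [Field K] [NumberField K]
  [hK : IsCyclotomicExtension {p ^ (k + 1)} ℚ K] {ζ : K} (hζ : IsPrimitiveRoot ζ (p ^ (k + 1)))

include hζ in
theorem eq_one_of_zeta {τ : K ≃ₐ[ℚ] K} (h : τ ζ = ζ) : τ = 1 := by
  have h1 : (τ : K →ₐ[ℚ] K) = (AlgEquiv.refl : K ≃ₐ[ℚ] K) :=
    (hζ.powerBasis ℚ).algHom_ext (by simpa using h)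
  ext x
  exact congrArg (fun f : K →ₐ[ℚ] K => f x) h1

include hζ in
open Classical in
theorem inner_sum (τ : K ≃ₐ[ℚ] K) :
    ∑ n ∈ Finset.range (p ^ (k + 1)), τ ζ ^ (p ^ (k + 1) - n) * ζ ^ n =
      if τ = 1 then (p : K) ^ (k + 1) else 0 := by
  have hN : 0 < p ^ (k + 1) := pow_pos hp.out.pos _
  split_ifs with h
  · subst h
    rw [Finset.sum_congr rfl (g := fun _ => (1 : K))]
    · simp
    · intro n hn
      rw [AlgEquiv.one_apply, ← pow_add, Nat.sub_add_cancel (Finset.mem_range.1 hn).le,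
        hζ.pow_eq_one]
  · have h1 : τ ζ ≠ ζ := fun h2 => h (eq_one_of_zeta hζ h2)
    have h2 := geom_sum₂_mul ζ (τ ζ) (p ^ (k + 1))
    rw [hζ.pow_eq_one, ← map_pow, hζ.pow_eq_one, map_one, sub_self] at h2
    have h3 := (mul_eq_zero.1 h2).resolve_right (sub_ne_zero.2 h1.symm)
    rw [Finset.sum_congr rfl (g := fun n => τ ζ * (ζ ^ n * τ ζ ^ (p ^ (k + 1) - 1 - n)))]
    · rw [← Finset.mul_sum, h3, mul_zero]
    · intro n hn
      have h4 : p ^ (k + 1) - n = (p ^ (k + 1) - 1 - n) + 1 := by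
        have := Finset.mem_range.1 hn
        omega
      rw [h4, pow_succ]
      ring

theorem sum_trace (x : 𝓞 K) : ∑ n ∈ Finset.range (p ^ (k + 1)),
    ((Algebra.trace ℤ (𝓞 K) (x * hζ.toInteger ^ (p ^ (k + 1) - n)) : ℤ) : 𝓞 K) *
      hζ.toInteger ^ n = (p : 𝓞 K) ^ (k + 1) * x := by
  have hgal : IsGalois ℚ K := IsCyclotomicExtension.isGalois {p ^ (k + 1)} ℚ K
  apply RingOfIntegers.coe_injective
  rw [map_sum, map_mul, map_pow, map_natCast]
  have h1 : ∀ y : 𝓞 K, (algebraMap (𝓞 K) K) ((Algebra.trace ℤ (𝓞 K) y : ℤ) : 𝓞 K) =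
      ∑ τ : K ≃ₐ[ℚ] K, τ (y : K) := by
    intro y
    rw [map_intCast, ← trace_eq_sum_automorphisms, ← Algebra.coe_trace_int]
    simp
  have h2 : ∀ n, (algebraMap (𝓞 K) K) (((Algebra.trace ℤ (𝓞 K)
      (x * hζ.toInteger ^ (p ^ (k + 1) - n)) : ℤ) : 𝓞 K) * hζ.toInteger ^ n) =
      ∑ τ : K ≃ₐ[ℚ] K, τ (x : K) * (τ ζ ^ (p ^ (k + 1) - n) * ζ ^ n) := by
    intro n
    rw [map_mul, h1, Finset.sum_mul]
    refine Finset.sum_congr rfl fun τ _ => ?_
    have h3 : ((x * hζ.toInteger ^ (p ^ (k + 1) - n) : 𝓞 K) : K) =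
        (x : K) * ζ ^ (p ^ (k + 1) - n) := by
      change (algebraMap (𝓞 K) K) (x * hζ.toInteger ^ (p ^ (k + 1) - n)) = _
      rw [map_mul, map_pow]
      rfl
    have h4 : (algebraMap (𝓞 K) K) (hζ.toInteger ^ n) = ζ ^ n := by
      rw [map_pow]
      rfl
    rw [h3, h4, map_mul, map_pow, mul_assoc]
  rw [Finset.sum_congr rfl fun n _ => h2 n, Finset.sum_comm]
  rw [Finset.sum_congr rfl fun τ _ => (Finset.mul_sum _ _ _).symm]
  rw [Finset.sum_congr rfl fun τ _ => by rw [inner_sum hζ τ]]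
  rw [Finset.sum_eq_single (1 : K ≃ₐ[ℚ] K) (fun τ _ hτ => by rw [if_neg hτ, mul_zero])
    (fun h => absurd (Finset.mem_univ _) h), if_pos rfl]
  rw [AlgEquiv.one_apply, mul_comm]

include hζ in
/-- Galois invariant ideals are principal. -/
theorem principal_of_inv (J : Ideal (𝓞 K)) (hJ0 : J ≠ ⊥)
    (hJ : ∀ τ : K ≃ₐ[ℚ] K, ∀ x ∈ J, res τ x ∈ J) : ∃ c, J = span {c} := by
  have hgal : IsGalois ℚ K := IsCyclotomicExtension.isGalois {p ^ (k + 1)} ℚ K
  obtain ⟨n0, hn0⟩ := (IsPrincipalIdealRing.principal (J.comap (algebraMap ℤ (𝓞 K)))).principal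
  have hmem : ∀ m : ℤ, (m : 𝓞 K) ∈ J → n0 ∣ m := by
    intro m hm
    have h1 : m ∈ J.comap (algebraMap ℤ (𝓞 K)) := hm
    rw [hn0] at h1
    exact Ideal.mem_span_singleton.1 h1
  have hn0J : (n0 : 𝓞 K) ∈ J := by
    have h1 : n0 ∈ J.comap (algebraMap ℤ (𝓞 K)) := by
      rw [hn0]
      exact Submodule.mem_span_singleton_self n0
    exact h1
  -- traces
  have htr : ∀ x ∈ J, ((Algebra.trace ℤ (𝓞 K) x : ℤ) : 𝓞 K) ∈ J := by
    intro x hx
    have h1 : ((Algebra.trace ℤ (𝓞 K) x : ℤ) : 𝓞 K) = ∑ τ : K ≃ₐ[ℚ] K, res τ x := by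
      apply RingOfIntegers.coe_injective
      rw [map_sum, map_intCast]
      have h2 : ((Algebra.trace ℤ (𝓞 K) x : ℤ) : K) =
          algebraMap ℚ K (Algebra.trace ℚ K (x : K)) := by
        rw [← Algebra.coe_trace_int]
        simp
      rw [h2, trace_eq_sum_automorphisms]
      exact Finset.sum_congr rfl fun τ _ => (coe_res τ x).symm
    rw [h1]
    exact sum_mem fun τ _ => hJ τ x hx
  have hle : span {((p : 𝓞 K)) ^ (k + 1)} * J ≤ span {(n0 : 𝓞 K)} := by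
    rw [Ideal.mul_le]
    intro r hr x hx
    obtain ⟨s, rfl⟩ := Ideal.mem_span_singleton.1 hr
    have h1 : (p : 𝓞 K) ^ (k + 1) * s * x = s * ((p : 𝓞 K) ^ (k + 1) * x) := by ring
    rw [h1, ← sum_trace hζ]
    refine Ideal.mul_mem_left _ _ (sum_mem fun n _ => Ideal.mul_mem_right _ _ ?_)
    rw [Ideal.mem_span_singleton]
    obtain ⟨c, hc⟩ := hmem _ (htr (x * hζ.toInteger ^ (p ^ (k + 1) - n))
      (Ideal.mul_mem_right _ _ hx))
    exact ⟨(c : 𝓞 K), by rw [hc]; push_cast; rfl⟩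
  -- the ideal `D`
  obtain ⟨D, hD⟩ : J ∣ span {(n0 : 𝓞 K)} := by
    rw [Ideal.dvd_iff_le, Ideal.span_singleton_le_iff_mem]
    exact hn0J
  have hDp : D ∣ span {((p : 𝓞 K)) ^ (k + 1)} := by
    have h1 : span {(n0 : 𝓞 K)} ∣ span {((p : 𝓞 K)) ^ (k + 1)} * J := Ideal.dvd_iff_le.2 hle
    rw [hD, mul_comm _ J] at h1
    exact (mul_dvd_mul_iff_left (by rwa [Ne, ← Ideal.zero_eq_bot] at hJ0)).1 h1
  have hpl : span {((p : 𝓞 K)) ^ (k + 1)} =
      span {hζ.toInteger - 1} ^ (Module.finrank ℚ K * (k + 1)) := by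
    have h1 := IsCyclotomicExtension.Rat.map_eq_span_zeta_sub_one_pow p k hζ
    rw [Ideal.map_span, Set.image_singleton] at h1
    have h2 : (algebraMap ℤ (𝓞 K)) (p : ℤ) = (p : 𝓞 K) := by simp
    rw [h2] at h1
    rw [← Ideal.span_singleton_pow, h1, ← pow_mul]
  have hprime : Prime (span {hζ.toInteger - 1}) := by
    have := IsCyclotomicExtension.Rat.isPrime_span_zeta_sub_one p k hζ
    exact Ideal.prime_of_isPrime (IsCyclotomicExtension.Rat.span_zeta_sub_one_ne_bot p k hζ) this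
  rw [hpl] at hDp
  obtain ⟨i, -, hi⟩ := (dvd_prime_pow hprime _).1 hDp
  rw [associated_iff_eq, Ideal.span_singleton_pow] at hi
  rw [hi] at hD
  have h1 : (n0 : 𝓞 K) ∈ span {(hζ.toInteger - 1) ^ i} := by
    have h2 : (n0 : 𝓞 K) ∈ J * span {(hζ.toInteger - 1) ^ i} := by
      rw [← hD]
      exact Ideal.mem_span_singleton_self _
    exact Ideal.mul_le_right h2
  obtain ⟨c, hc⟩ := Ideal.mem_span_singleton.1 h1
  refine ⟨c, ?_⟩
  rw [hc, ← Ideal.span_singleton_mul_span_singleton, mul_comm] at hD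
  have h3 : span {(hζ.toInteger - 1) ^ i} ≠ (0 : Ideal (𝓞 K)) := by
    rw [← Ideal.span_singleton_pow]
    exact pow_ne_zero _ hprime.ne_zero
  exact (mul_right_cancel₀ h3 hD).symm

end

end Pool.Agent.Lib.MP_0e6cae_nt.Amb
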