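import Mathlib

/-!
Ideals of `ℤ[ζ]`, `ζ` a primitive `p^a`-th root of unity, in terms of the ideals of `ℤ[X]` which
contain the cyclotomic polynomial.
-/

open Polynomial

namespace Pool.Agent.Lib.MP_0e6cae_nt

/-- `ℤ[X]` modulo the cyclotomic polynomial is the ring of integers of the cyclotomic field. -/
theorem ambI_hom (q : ℕ) [NeZero q] : ∃ f : ℤ[X] →+* NumberField.RingOfIntegers
    (CyclotomicField q ℚ), Function.Surjective f ∧
      RingHom.ker f = Ideal.span {cyclotomic q ℤ} := by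
  have hne : NeZero ((q : ℕ) : ℚ) := ⟨Nat.cast_ne_zero.2 (NeZero.ne q)⟩
  have hcy : IsCyclotomicExtension {q} ℚ (CyclotomicField q ℚ) :=
    CyclotomicField.isCyclotomicExtension q ℚ
  have hζ := IsCyclotomicExtension.zeta_spec q ℚ (CyclotomicField q ℚ)
  refine ⟨(aeval hζ.toInteger).toRingHom, ?_, ?_⟩
  · intro x
    obtain ⟨g, hg⟩ := hζ.integralPowerBasis.exists_eq_aeval' x
    refine ⟨g, ?_⟩
    rw [hζ.integralPowerBasis_gen] at hg
    exact hg.symm
  · ext P
    rw [RingHom.mem_ker, Ideal.mem_span_singleton,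
      cyclotomic_eq_minpoly hζ (NeZero.pos q),
      ← minpoly.isIntegrallyClosed_dvd_iff (hζ.isIntegral (NeZero.pos q))]
    have e : eval₂ (Int.castRingHom _) (IsCyclotomicExtension.zeta q ℚ (CyclotomicField q ℚ)) P =
        algebraMap (NumberField.RingOfIntegers (CyclotomicField q ℚ))
          (CyclotomicField q ℚ) (eval₂ (Int.castRingHom _) hζ.toInteger P) := by
      rw [hom_eval₂]
      congr 1
    have e2 : (aeval (IsCyclotomicExtension.zeta q ℚ (CyclotomicField q ℚ))) P =
        eval₂ (Int.castRingHom _) (IsCyclotomicExtension.zeta q ℚ (CyclotomicField q ℚ)) P := by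
      rw [aeval_def]
      congr 1
    have e3 : (aeval hζ.toInteger).toRingHom P =
        eval₂ (Int.castRingHom _) hζ.toInteger P := by
      change aeval hζ.toInteger P = _
      rw [aeval_def]
      congr 1
    rw [e3]
    refine Iff.trans ?_ (Iff.of_eq (congrArg (fun z => z = 0) e2.symm))
    rw [e, map_eq_zero_iff _ (FaithfulSMul.algebraMap_injective _ _)]

/-- `ℤ[ζ]` is a Dedekind ring: ideals containing a nonzero integer are invertible. -/
theorem inv_cyclotomic (p a : ℕ) (hp : p.Prime) (ha : 1 ≤ a) (I : Ideal ℤ[X])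
    (hΦ : cyclotomic (p ^ a) ℤ ∈ I) (n : ℤ) (hn : n ≠ 0) (hnI : C n ∈ I) :
    ∃ J : Ideal ℤ[X], I * J ⊔ Ideal.span {cyclotomic (p ^ a) ℤ} =
      Ideal.span {C n} ⊔ Ideal.span {cyclotomic (p ^ a) ℤ} := by
  have : NeZero (p ^ a) := ⟨pow_ne_zero a hp.ne_zero⟩
  obtain ⟨f, hf, hk⟩ := ambI_hom (p ^ a)
  have hfn : f (C n) ∈ I.map f := Ideal.mem_map_of_mem f hnI
  obtain ⟨J', hJ'⟩ : I.map f ∣ Ideal.span {f (C n)} := by
    rw [Ideal.dvd_iff_le, Ideal.span_singleton_le_iff_mem]
    exact hfn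
  refine ⟨J'.comap f, ?_⟩
  have e : (I * J'.comap f).map f = (Ideal.span {C n}).map f := by
    rw [Ideal.map_mul, Ideal.map_comap_of_surjective f hf, Ideal.map_span, Set.image_singleton,
      ← hJ']
  have h1 := Ideal.comap_map_of_surjective f hf (I * J'.comap f)
  have h2 := Ideal.comap_map_of_surjective f hf (Ideal.span {C n})
  rw [← hk]
  rw [e] at h1
  exact h1.symm.trans h2

end Pool.Agent.Lib.MP_0e6cae_nt
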