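import Pool.Agent.Lib.MP_0e6cae_nt.Fin

/-!
The statement of the theorem in terms of types with short names.
-/

open CategoryTheory NumberField IsDedekindDomain

namespace Pool.Agent.Lib.MP_0e6cae_nt.St

/-! ### Group rings -/

section zg

variable {H : Type} [Group H]

/-- The group ring `ℤ[Γ]` of a subgroup `Γ` of the group `H`. -/
def ZG (Γ : Subgroup H) : Type := MonoidAlgebra ℤ Γ

noncomputable instance ZG.ring (Γ : Subgroup H) : Ring (ZG Γ) :=
  (inferInstance : Ring (MonoidAlgebra ℤ Γ))

/-- The element `g` of `ℤ[Γ]`, for `g ∈ Γ`. -/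
noncomputable def ZG.of {Γ : Subgroup H} (g : Γ) : ZG Γ := MonoidAlgebra.single g (1 : ℤ)

/-- The inclusion `ℤ[N] → ℤ[Γ]` for a subgroup `N` of `Γ`. -/
noncomputable def ZG.incl {Γ N : Subgroup H} (h : N ≤ Γ) : ZG N →+* ZG Γ :=
  MonoidAlgebra.mapDomainRingHom ℤ (Subgroup.inclusion h)

/-- The `ℤ[Γ]`-module `M` regarded as a `ℤ[N]`-module, where `N` is a subgroup of `Γ`. -/
def Res {Γ N : Subgroup H} (_ : N ≤ Γ) (M : Type) : Type := M

instance Res.grp {Γ N : Subgroup H} (h : N ≤ Γ) (M : Type) [AddCommGroup M] :
    AddCommGroup (Res h M) := (inferInstance : AddCommGroup M)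

noncomputable instance Res.mod {Γ N : Subgroup H} (h : N ≤ Γ) (M : Type)
    [AddCommGroup M] [Module (ZG Γ) M] : Module (ZG N) (Res h M) :=
  Module.compHom M (ZG.incl h)

end zg

/-- The `R`-module `M` has finite projective dimension. -/
def FPD (R : Type) [Ring R] (M : Type) [AddCommGroup M] [Module R M] : Prop :=
  ∃ n : ℕ, HasProjectiveDimensionLE (ModuleCat.of R M) n

/-! ### Automorphisms of number fields, places, `S`-units and `X_S` -/

section places

variable (F : Type) [Field F]

/-- The group of the automorphisms of the field `F`. -/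
def FAut : Type := F ≃+* F

instance FAut.grp : Group (FAut F) := (inferInstance : Group (F ≃+* F))

variable {F} in
/-- An automorphism of `F` as a ring isomorphism. -/
def FAut.toEquiv (γ : FAut F) : F ≃+* F := γ

/-- The finite places of the number field `F`: the maximal ideals of its ring of integers. -/
def FinPl : Type := HeightOneSpectrum (𝓞 F)

/-- The places of the number field `F`. -/
def Pl : Type := FinPl F ⊕ InfinitePlace F

/-- The group of the formal `ℤ`-linear combinations of the places of `F`. -/
def Y : Type := Pl F →₀ ℤ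

noncomputable instance Y.grp : AddCommGroup (Y F) := (inferInstance : AddCommGroup (Pl F →₀ ℤ))

variable [NumberField F]

variable {F}

/-- The action of an automorphism `γ` of the field `F` on the finite places (maximal ideals of
the ring of integers): `w ↦ γ(w)`. -/
noncomputable def actFin (γ : FAut F) (w : FinPl F) : FinPl F :=
  HeightOneSpectrum.equivOfRingEquiv (RingOfIntegers.mapRingEquiv γ.toEquiv) w

/-- The action of an automorphism `γ` of the field `F` on the infinite places:
`|x|_{γ w} = |γ⁻¹ x|_w`. -/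
noncomputable def actInf (γ : FAut F) (w : InfinitePlace F) : InfinitePlace F :=
  w.comap (γ.toEquiv.symm : F →+* F)

/-- The action of an automorphism of `F` on the places of `F`. -/
noncomputable def actPl (γ : FAut F) : Pl F → Pl F := Sum.map (actFin γ) (actInf γ)

/-- The action of an automorphism of `F` on the group of the `ℤ`-linear combinations of the
places of `F`. -/
noncomputable def actY (γ : FAut F) : Y F → Y F := Finsupp.mapDomain (actPl γ)

variable (S : Set (FinPl F))

/-- The group of `S`-units of `F` (`S` is a set of finite places, all infinite places being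
understood to belong to it): the elements of `Fˣ` which are units at all finite places outside
`S`. -/
def US : Type := Additive (Set.unit (R := 𝓞 F) S F)

noncomputable instance US.grp : AddCommGroup (US S) :=
  (inferInstance : AddCommGroup (Additive (Set.unit (R := 𝓞 F) S F)))

/-- An `S`-unit as an element of `Fˣ`. -/
noncomputable def US.unit {S : Set (FinPl F)} (u : US S) : Fˣ :=
  Subtype.val (Additive.toMul (α := Set.unit (R := 𝓞 F) S F) u)

/-- An `S`-unit as an element of `F`. -/
noncomputable def US.val {S : Set (FinPl F)} (u : US S) : F := u.unit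

/-- The formal `ℤ`-linear combination `f` of places of `F` has total degree zero and only the
places in `S` and the infinite places occur in it. -/
def IsXS (f : Pl F →₀ ℤ) : Prop :=
  (∀ w : FinPl F, f (Sum.inl w) ≠ 0 → w ∈ S) ∧ (f.sum fun _ n => n) = 0

theorem IsXS.zero : IsXS S (0 : Pl F →₀ ℤ) :=
  (Pool.Agent.Lib.MP_0e6cae_nt.XS (F := F) S).zero_mem

theorem IsXS.add {f g : Pl F →₀ ℤ} (hf : IsXS S f) (hg : IsXS S g) : IsXS S (f + g) :=
  (Pool.Agent.Lib.MP_0e6cae_nt.XS (F := F) S).add_mem hf hg

theorem IsXS.neg {f : Pl F →₀ ℤ} (hf : IsXS S f) : IsXS S (-f) :=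
  (Pool.Agent.Lib.MP_0e6cae_nt.XS (F := F) S).neg_mem hf

/-- `X_S`: the formal `ℤ`-linear combinations of total degree zero of the places in `S` and the
infinite places, as a subgroup. -/
def XSub : AddSubgroup (Y F) where
  carrier := {f | IsXS S f}
  zero_mem' := IsXS.zero S
  add_mem' := IsXS.add S
  neg_mem' := IsXS.neg S

/-- `X_S`: the formal `ℤ`-linear combinations of total degree zero of the places in `S` and the
infinite places. -/
def XS : Type := XSub S

noncomputable instance XS.grp : AddCommGroup (XS S) := (inferInstance : AddCommGroup (XSub S))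

/-- An element of `X_S` as a linear combination of places. -/
def XS.val {S : Set (FinPl F)} (x : XS S) : Y F := Subtype.val x

end places

/-! ### 2-extensions of `X_S` by the `S`-units over `ℤ[Γ]` -/

section ext

variable {F : Type} [Field F] [NumberField F] {Γ : Subgroup (FAut F)} {S : Set (FinPl F)}

/-- The map `i : U_S → A` is compatible with the action of `Γ`: `i(g(u)) = g i(u)`. -/
def EqvU {A : Type} [AddCommGroup A] [Module (ZG Γ) A] (i : US S →+ A) : Prop :=
  ∀ (g : Γ) (u u' : US S), u'.val = g.1.toEquiv u.val → i u' = ZG.of g • i u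

/-- The map `e : B → X_S` is compatible with the action of `Γ`: `e(g b) = g(e(b))`. -/
def EqvX {B : Type} [AddCommGroup B] [Module (ZG Γ) B] (e : B →+ XS S) : Prop :=
  ∀ (g : Γ) (b : B), (e (ZG.of g • b)).val = actY g.1 (e b).val

/-- Exactness of `U → A → B` at `A`. -/
def ExAt {U A B : Type} [AddCommGroup U] [AddCommGroup A] [AddCommGroup B] (i : U →+ A)
    (d : A →+ B) : Prop :=
  ∀ a : A, d a = 0 ↔ ∃ u, i u = a

/-- Injectivity. -/
def Inj {U A : Type} [AddCommGroup U] [AddCommGroup A] (i : U →+ A) : Prop :=
  Function.Injective i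

/-- Surjectivity. -/
def Surj {U A : Type} [AddCommGroup U] [AddCommGroup A] (i : U →+ A) : Prop :=
  Function.Surjective i

variable (Γ S) in
/-- An exact sequence `0 → U_S → A → B → X_S → 0` of `ℤ[Γ]`-modules, where `Γ` is a group of
automorphisms of the number field `F` and `S` is a set of finite places of `F`. -/
structure TwoExt where
  /-- the module `A` -/
  A : Type
  /-- the module `B` -/
  B : Type
  [grpA : AddCommGroup A]
  [grpB : AddCommGroup B]
  [modA : Module (ZG Γ) A]
  [modB : Module (ZG Γ) B]
  /-- the map `U_S → A` -/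
  i : US S →+ A
  /-- the map `A → B` -/
  d : A →ₗ[ZG Γ] B
  /-- the map `B → X_S` -/
  e : B →+ XS S
  i_equiv : EqvU (Γ := Γ) i
  e_equiv : EqvX (Γ := Γ) e
  inj : Inj i
  exA : ExAt i d.toAddMonoidHom
  exB : ExAt d.toAddMonoidHom e
  surj : Surj e

attribute [instance] TwoExt.grpA TwoExt.grpB TwoExt.modA TwoExt.modB

/-- The same 2-extension in terms of the definitions of the library. -/
noncomputable def TwoExt.toLib (E : TwoExt Γ S) :
    Pool.Agent.Lib.MP_0e6cae_nt.TwoExt (F := F) Γ S where
  A := E.A
  B := E.B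
  grpA := E.grpA
  grpB := E.grpB
  modA := E.modA
  modB := E.modB
  i := E.i
  d := E.d
  e := E.e
  i_equiv := E.i_equiv
  e_equiv := E.e_equiv
  inj := E.inj
  exA := E.exA
  exB := E.exB
  surj := E.surj

end ext

/-- The theorem `main_gal` in terms of the types with short names. -/
theorem main_st (p a : ℕ) (hp : p.Prime) (hp2 : p ≠ 2) (F : Type) [Field F] [NumberField F]
    (Γ N : Subgroup (FAut F)) (hN : N ≤ Γ) (hcyc : IsCyclic N) (hcard : Nat.card N = p ^ a)
    (hfull : ∀ φ : N ≃* N, ∃ γ ∈ Γ, ∀ g : N, ((φ g : N) : FAut F) = γ * g * γ⁻¹)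
    (S : Set (FinPl F)) (hSfin : S.Finite)
    (hS : ∀ γ ∈ Γ, ∀ w ∈ S, actFin γ w ∈ S) (E : TwoExt Γ S)
    (hA : Module.Finite (ZG N) (Res hN E.A)) (hA' : FPD (ZG N) (Res hN E.A))
    (hB : Module.Finite (ZG N) (Res hN E.B)) (hB' : FPD (ZG N) (Res hN E.B)) :
    K0.mk (⟨Res hN E.A, hA, hA'⟩ : FPMod (ZG N)) = K0.mk ⟨Res hN E.B, hB, hB'⟩ :=
  main_gal p a hp hp2 F Γ N hN hcyc hcard hfull S hSfin hS E.toLib hA hA' hB hB'

end Pool.Agent.Lib.MP_0e6cae_nt.St
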