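import Mathlib

/-!
Definitions for the hand-in on Chinburg's conjecture (MP_0e6cae_nt).
-/

open CategoryTheory NumberField IsDedekindDomain

namespace Pool.Agent.Lib.MP_0e6cae_nt

/-! ### The Grothendieck group of modules of finite projective dimension -/

/-- A finitely generated `R`-module of finite projective dimension. -/
structure FPMod (R : Type) [Ring R] where
  /-- the underlying type -/
  carrier : Type
  /-- the additive group -/
  [grp : AddCommGroup carrier]
  /-- the module structure -/
  [mod : Module R carrier]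
  /-- finite generation -/
  fg : Module.Finite R carrier
  /-- finite projective dimension -/
  fpd : ∃ n : ℕ, HasProjectiveDimensionLE (ModuleCat.of R carrier) n

attribute [instance] FPMod.grp FPMod.mod

/-- The elements `[M] - [M'] - [M'']` for the short exact sequences `0 → M' → M → M'' → 0` of
finitely generated modules of finite projective dimension. -/
def K0Rel (R : Type) [Ring R] : Set (FreeAbelianGroup (FPMod R)) :=
  {x | ∃ (M' M M'' : FPMod R) (f : M'.carrier →ₗ[R] M.carrier) (g : M.carrier →ₗ[R] M''.carrier),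
    Function.Injective f ∧ Function.Exact f g ∧ Function.Surjective g ∧
    x = FreeAbelianGroup.of M - FreeAbelianGroup.of M' - FreeAbelianGroup.of M''}

/-- `K₀(R)`: the Grothendieck group of the finitely generated `R`-modules of finite projective
dimension. -/
def K0 (R : Type) [Ring R] : Type 1 :=
  FreeAbelianGroup (FPMod R) ⧸ AddSubgroup.closure (K0Rel R)

noncomputable instance (R : Type) [Ring R] : AddCommGroup (K0 R) :=
  inferInstanceAs (AddCommGroup (FreeAbelianGroup (FPMod R) ⧸ AddSubgroup.closure (K0Rel R)))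

/-- The class in `K₀(R)` of a finitely generated module of finite projective dimension. -/
noncomputable def K0.mk {R : Type} [Ring R] (M : FPMod R) : K0 R :=
  QuotientAddGroup.mk (FreeAbelianGroup.of M)

/-! ### Places, `S`-units and the module `X_S` -/

section places

variable {F : Type} [Field F] [NumberField F]

/-- The action of an automorphism `γ` of the field `F` on the finite places (maximal ideals of
the ring of integers): `w ↦ γ(w)`. -/
noncomputable def actFin (γ : F ≃+* F) (w : HeightOneSpectrum (𝓞 F)) : HeightOneSpectrum (𝓞 F) :=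
  HeightOneSpectrum.equivOfRingEquiv (RingOfIntegers.mapRingEquiv γ) w

/-- The action of an automorphism `γ` of the field `F` on the infinite places:
`|x|_{γ w} = |γ⁻¹ x|_w`. -/
noncomputable def actInf (γ : F ≃+* F) (w : InfinitePlace F) : InfinitePlace F :=
  w.comap (γ.symm : F →+* F)

variable (F) in
/-- The places of `F`. -/
abbrev Pl : Type := HeightOneSpectrum (𝓞 F) ⊕ InfinitePlace F

/-- The action of an automorphism of `F` on the places of `F`. -/
noncomputable def actPl (γ : F ≃+* F) : Pl F → Pl F := Sum.map (actFin γ) (actInf γ)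

variable (S : Set (HeightOneSpectrum (𝓞 F)))

/-- The group of `S`-units of `F` (`S` is a set of finite places, all infinite places being
understood to belong to it): the elements of `Fˣ` which are units at all finite places outside
`S`. -/
abbrev US : Type := Additive (S.unit F)

/-- `X_S`: the formal `ℤ`-linear combinations of total degree zero of the places in `S` and the
infinite places. -/
def XS : AddSubgroup (Pl F →₀ ℤ) where
  carrier := {f | (∀ w : HeightOneSpectrum (𝓞 F), f (Sum.inl w) ≠ 0 → w ∈ S) ∧
    (f.sum fun _ n => n) = 0}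
  zero_mem' := by simp
  add_mem' := by
    rintro f g ⟨hf, hf'⟩ ⟨hg, hg'⟩
    refine ⟨fun w hw => ?_, ?_⟩
    · by_cases h : f (Sum.inl w) = 0
      · exact hg w (by simpa [h] using hw)
      · exact hf w h
    · rw [Finsupp.sum_add_index' (fun _ => rfl) (fun _ _ _ => rfl), hf', hg', add_zero]
  neg_mem' := by
    rintro f ⟨hf, hf'⟩
    refine ⟨fun w hw => hf w (by simpa using hw), ?_⟩
    rw [Finsupp.sum_neg_index (fun _ => rfl)]
    simpa [Finsupp.sum] using hf'

end places

/-! ### 2-extensions of `X_S` by the `S`-units over `ℤ[G]` -/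

section ext

variable {F : Type} [Field F] [NumberField F]

/-- An exact sequence `0 → U_S → A → B → X_S → 0` of `ℤ[G]`-modules, where `G` is a group of
automorphisms of the number field `F` and `S` is a set of finite places of `F`. -/
structure TwoExt (G : Subgroup (F ≃+* F)) (S : Set (HeightOneSpectrum (𝓞 F))) where
  /-- the module `A` -/
  A : Type
  /-- the module `B` -/
  B : Type
  [grpA : AddCommGroup A]
  [grpB : AddCommGroup B]
  [modA : Module (MonoidAlgebra ℤ G) A]
  [modB : Module (MonoidAlgebra ℤ G) B]
  /-- the map `U_S → A` -/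
  i : US S →+ A
  /-- the map `A → B` -/
  d : A →ₗ[MonoidAlgebra ℤ G] B
  /-- the map `B → X_S` -/
  e : B →+ XS S
  i_equiv : ∀ (g : G) (u u' : US S),
    (((Additive.toMul u' : S.unit F) : Fˣ) : F) = g.1 (((Additive.toMul u : S.unit F) : Fˣ) : F) →
      i u' = MonoidAlgebra.single g (1 : ℤ) • i u
  e_equiv : ∀ (g : G) (b : B), ((e (MonoidAlgebra.single g (1 : ℤ) • b) : XS S) : Pl F →₀ ℤ) =
    Finsupp.mapDomain (actPl g.1) ((e b : XS S) : Pl F →₀ ℤ)
  inj : Function.Injective i
  exA : ∀ a : A, d a = 0 ↔ ∃ u, i u = a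
  exB : ∀ b : B, e b = 0 ↔ ∃ a, d a = b
  surj : Function.Surjective e

attribute [instance] TwoExt.grpA TwoExt.grpB TwoExt.modA TwoExt.modB

variable {G : Subgroup (F ≃+* F)} {S : Set (HeightOneSpectrum (𝓞 F))}

/-- There is a morphism of 2-extensions `E → E'` which is the identity on `U_S` and on `X_S`. -/
def TwoExt.Hom (E E' : TwoExt G S) : Prop :=
  ∃ (f : E.A →ₗ[MonoidAlgebra ℤ G] E'.A) (g : E.B →ₗ[MonoidAlgebra ℤ G] E'.B),
    (∀ u, f (E.i u) = E'.i u) ∧ (∀ a, g (E.d a) = E'.d (f a)) ∧ (∀ b, E'.e (g b) = E.e b)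

/-- Yoneda equivalence of 2-extensions, the equivalence relation generated by the morphisms which
are the identity on both ends: `E` and `E'` define the same class in
`Ext²_{ℤ[G]}(X_S, U_S)`. -/
def TwoExt.Equiv (E E' : TwoExt G S) : Prop := Relation.EqvGen TwoExt.Hom E E'

/-- `E'` is the 2-extension obtained from `E` by transport along the automorphism `γ` of `F`
(which normalizes `G` and stabilizes `S`): there are isomorphisms of groups `A → A'`, `B → B'`,
semilinear with respect to `g ↦ γ g γ⁻¹` and compatible with the action of `γ` on `U_S` and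
`X_S`. -/
def TwoExt.Transport (γ : F ≃+* F) (E E' : TwoExt G S) : Prop :=
  ∃ (f : E.A ≃+ E'.A) (h : E.B ≃+ E'.B),
    (∀ (g g' : G) (a : E.A), (g' : F ≃+* F) = γ * g * γ⁻¹ →
      f (MonoidAlgebra.single g (1 : ℤ) • a) = MonoidAlgebra.single g' (1 : ℤ) • f a) ∧
    (∀ (g g' : G) (b : E.B), (g' : F ≃+* F) = γ * g * γ⁻¹ →
      h (MonoidAlgebra.single g (1 : ℤ) • b) = MonoidAlgebra.single g' (1 : ℤ) • h b) ∧
    (∀ u u' : US S, (((Additive.toMul u' : S.unit F) : Fˣ) : F) =
      γ (((Additive.toMul u : S.unit F) : Fˣ) : F) → f (E.i u) = E'.i u') ∧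
    (∀ a, h (E.d a) = E'.d (f a)) ∧
    (∀ b, ((E'.e (h b) : XS S) : Pl F →₀ ℤ) =
      Finsupp.mapDomain (actPl γ) ((E.e b : XS S) : Pl F →₀ ℤ))

/-- The class of `E` in `Ext²_{ℤ[G]}(X_S, U_S)` is invariant under the automorphism `γ` of `F`. -/
def TwoExt.InvUnder (E : TwoExt G S) (γ : F ≃+* F) : Prop :=
  ∃ E' : TwoExt G S, E.Transport γ E' ∧ E.Equiv E'

end ext

end Pool.Agent.Lib.MP_0e6cae_nt
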