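import Pool.Agent.Lib.MP_0e6cae_nt.GR

/-!
Isomorphic direct sums of good ideals have isomorphic products (determinant).
-/

namespace Pool.Agent.Lib.MP_0e6cae_nt

variable {p : ℕ} {R : Type} [CommRing R]

theorem det_ne_zero_of_not_dvd {n : ℤ} (hn : ¬ (p : ℤ) ∣ n) : n ≠ 0 := by
  rintro rfl
  exact hn (dvd_zero _)

/-- integers prime to `p` are not zero divisors -/
theorem det_cancel (h : GR p R) {n : ℤ} (hn : n ≠ 0) {x y : R} (hxy : (n : R) * x = (n : R) * y) :
    x = y := by
  have := h.free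
  have h1 : n • (x - y) = 0 := by
    rw [zsmul_eq_mul, mul_sub, hxy, sub_self]
  rcases smul_eq_zero.1 h1 with h2 | h2
  · exact absurd h2 hn
  · exact sub_eq_zero.1 h2

/-- a common integer in finitely many good ideals -/
theorem det_exists_common (h : GR p R) {κ : Type*} [Fintype κ] (I : κ → Ideal R)
    (hI : ∀ j, Good p (I j)) : ∃ n : ℤ, ¬ (p : ℤ) ∣ n ∧ ∀ j, (n : R) ∈ I j := by
  classical
  choose n hn hn' using hI
  refine ⟨∏ j, n j, ?_, fun j => ?_⟩
  · rw [(Nat.prime_iff_prime_int.1 h.prime).dvd_finsetProd_iff]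
    rintro ⟨j, -, hj⟩
    exact hn j hj
  · rw [← Finset.mul_prod_erase Finset.univ n (Finset.mem_univ j), Int.cast_mul]
    exact Ideal.mul_mem_right _ _ (hn' j)

theorem det_finrank (h : GR p R) (I : Ideal R) (hI : Good p I) :
    Module.Finite ℤ I ∧ Module.finrank ℤ I = Module.finrank ℤ R := by
  have := h.fin
  have := h.free
  obtain ⟨n, hn, hnI⟩ := hI
  have hn0 := det_ne_zero_of_not_dvd hn
  have hfin : Module.Finite ℤ I :=
    Module.Finite.of_injective (M := I) (N := R) ((Submodule.subtype I).restrictScalars ℤ)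
      Subtype.val_injective
  refine ⟨hfin, le_antisymm ?_ ?_⟩
  · exact LinearMap.finrank_le_finrank_of_injective
      (f := ((Submodule.subtype I).restrictScalars ℤ)) Subtype.val_injective
  · let f : R →ₗ[ℤ] I :=
      { toFun := fun x => ⟨(n : R) * x, I.mul_mem_right _ hnI⟩
        map_add' := fun x y => Subtype.ext (mul_add _ _ _)
        map_smul' := fun c x => Subtype.ext (by
          change (n : R) * (c • x) = c • ((n : R) * x)
          rw [mul_smul_comm]) }
    refine LinearMap.finrank_le_finrank_of_injective (f := f) fun x y hxy => ?_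
    exact det_cancel h hn0 (congrArg Subtype.val hxy)

/-- Isomorphic direct sums of good ideals have the same number of summands. -/
theorem card_eq_of_equiv (h : GR p R) {r s : ℕ} (I : Fin r → Ideal R) (J : Fin s → Ideal R)
    (hI : ∀ j, Good p (I j)) (hJ : ∀ j, Good p (J j)) (e : (∀ j, I j) ≃ₗ[R] (∀ j, J j)) :
    r = s := by
  have := h.fin
  have := h.free
  have := h.nontriv
  have hfI : ∀ j, Module.Finite ℤ (I j) := fun j => (det_finrank h (I j) (hI j)).1
  have hfJ : ∀ j, Module.Finite ℤ (J j) := fun j => (det_finrank h (J j) (hJ j)).1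
  have hfrI : ∀ j, Module.Free ℤ (I j) := fun j =>
    Module.free_of_finite_type_torsion_free'
  have hfrJ : ∀ j, Module.Free ℤ (J j) := fun j =>
    Module.free_of_finite_type_torsion_free'
  have h1 : Module.finrank ℤ (∀ j, I j) = Module.finrank ℤ (∀ j, J j) :=
    (e.restrictScalars ℤ).finrank_eq
  rw [Module.finrank_pi_fintype, Module.finrank_pi_fintype,
    Finset.sum_congr rfl fun j _ => (det_finrank h (I j) (hI j)).2,
    Finset.sum_congr rfl fun j _ => (det_finrank h (J j) (hJ j)).2, Finset.sum_const,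
    Finset.sum_const, Finset.card_univ, Finset.card_univ, Fintype.card_fin, Fintype.card_fin,
    smul_eq_mul, smul_eq_mul] at h1
  exact Nat.eq_of_mul_eq_mul_right Module.finrank_pos h1

section gen

variable {κ : Type} [Fintype κ] [DecidableEq κ]

/-- the vector with the entry `x` at `i` -/
def det_sg (I : κ → Ideal R) (i : κ) (x : I i) : ∀ j, I j := Pi.single i x

theorem det_det_mem (J : κ → Ideal R) (E : Matrix κ κ R) (hE : ∀ j i, E j i ∈ J j) :
    E.det ∈ ∏ j, J j := by
  rw [Matrix.det_apply]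
  refine Ideal.sum_mem _ fun σ _ => ?_
  have h1 : ∏ i, E (σ i) i ∈ ∏ j, J j := by
    rw [← Equiv.prod_comp σ J]
    exact Ideal.prod_mem_prod fun i _ => hE _ _
  rw [Units.smul_def, zsmul_eq_mul]
  exact Ideal.mul_mem_left _ _ h1

/-- the matrix of `n e` -/
def det_mat {I J : κ → Ideal R} (e : (∀ j, I j) →ₗ[R] (∀ j, J j)) (n : R) (hn : ∀ j, n ∈ I j) :
    Matrix κ κ R := fun j i => (e (det_sg I i ⟨n, hn i⟩) j : R)

theorem det_mat_mulVec {I J : κ → Ideal R} (e : (∀ j, I j) →ₗ[R] (∀ j, J j)) (n : R)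
    (hn : ∀ j, n ∈ I j) (x : ∀ j, I j) (j : κ) :
    ∑ i, det_mat e n hn j i * (x i : R) = n * (e x j : R) := by
  have h1 : n • x = ∑ i, (x i : R) • det_sg I i ⟨n, hn i⟩ := by
    funext k
    apply Subtype.ext
    rw [Finset.sum_apply, Finset.sum_eq_single k]
    · simp only [det_sg, Pi.smul_apply, Pi.single_eq_same]
      change n * (x k : R) = (x k : R) * n
      ring
    · intro i _ hi
      simp only [det_sg, Pi.smul_apply]
      rw [Pi.single_eq_of_ne (Ne.symm hi), smul_zero]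
    · intro hk
      exact absurd (Finset.mem_univ _) hk
  have h2 : n • e x = ∑ i, (x i : R) • e (det_sg I i ⟨n, hn i⟩) := by
    rw [← map_smul, h1, map_sum]
    exact Finset.sum_congr rfl fun i _ => map_smul _ _ _
  have h3 := congrArg (fun y : ∀ j, J j => (y j : R)) h2
  simp only [Finset.sum_apply, Pi.smul_apply] at h3
  have h4 : ((n • e x j : J j) : R) = n * (e x j : R) := rfl
  rw [h4] at h3
  rw [h3]
  push_cast
  refine Finset.sum_congr rfl fun i _ => ?_
  rw [smul_eq_mul, mul_comm]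
  rfl

open scoped Pointwise in
theorem det_le {I J : κ → Ideal R} (e : (∀ j, I j) →ₗ[R] (∀ j, J j)) (n : R)
    (hn : ∀ j, n ∈ I j) :
    Ideal.span {(det_mat e n hn).det} * ∏ j, I j ≤
      Ideal.span {n ^ Fintype.card κ} * ∏ j, J j := by
  have key : ∏ j, I j ≤ Submodule.comap (LinearMap.mulLeft R (det_mat e n hn).det)
      (Ideal.span {n ^ Fintype.card κ} * ∏ j, J j) := by
    have h1 : ∏ j, I j = Ideal.span (∏ j, (I j : Set R)) := by
      rw [← Ideal.prod_span]
      exact Finset.prod_congr rfl fun j _ => (Ideal.span_eq _).symm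
    rw [h1]
    refine Ideal.span_le.2 fun z hz => ?_
    rw [Set.mem_fintype_prod] at hz
    obtain ⟨x, hx, rfl⟩ := hz
    change (det_mat e n hn).det * ∏ i, x i ∈ Ideal.span {n ^ Fintype.card κ} * ∏ j, J j
    have h2 : (det_mat e n hn).det * ∏ i, x i =
        n ^ Fintype.card κ * (Matrix.of fun j i => (e (det_sg I i ⟨x i, hx i⟩) j : R)).det := by
      rw [← Matrix.det_diagonal, ← Matrix.det_mul, ← Matrix.det_smul]
      congr 1
      ext j i
      rw [Matrix.mul_diagonal, Matrix.smul_apply, Matrix.of_apply, smul_eq_mul,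
        ← det_mat_mulVec e n hn, Finset.sum_eq_single i]
      · simp [det_sg]
      · intro k _ hk
        simp only [det_sg]
        rw [Pi.single_eq_of_ne hk]
        simp
      · intro hk
        exact absurd (Finset.mem_univ _) hk
    rw [h2]
    exact Ideal.mul_mem_mul (Ideal.mem_span_singleton_self _)
      (det_det_mem J _ fun j i => (e (det_sg I i ⟨x i, hx i⟩) j).2)
  rw [Ideal.span_singleton_mul_le_iff]
  intro z hz
  exact key hz

theorem prod_of_equiv_gen (h : GR p R) (I J : κ → Ideal R)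
    (hI : ∀ j, Good p (I j)) (hJ : ∀ j, Good p (J j)) (e : (∀ j, I j) ≃ₗ[R] (∀ j, J j)) :
    ∃ (d : ℤ) (v : R), ¬ (p : ℤ) ∣ d ∧
      Ideal.span {(d : R)} * ∏ j, J j = Ideal.span {v} * ∏ j, I j := by
  obtain ⟨n1, hn1, hn1'⟩ := det_exists_common h I hI
  obtain ⟨n2, hn2, hn2'⟩ := det_exists_common h J hJ
  have hp := Nat.prime_iff_prime_int.1 h.prime
  obtain ⟨n, hn⟩ : ∃ n, n = n1 * n2 := ⟨_, rfl⟩
  have hnp : ¬ (p : ℤ) ∣ n := by
    rw [hn]
    intro h1
    rcases hp.dvd_or_dvd h1 with h2 | h2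
    · exact hn1 h2
    · exact hn2 h2
  have hnI : ∀ j, (n : R) ∈ I j := fun j => by
    rw [hn, Int.cast_mul]
    exact Ideal.mul_mem_right _ _ (hn1' j)
  have hnJ : ∀ j, (n : R) ∈ J j := fun j => by
    rw [hn, Int.cast_mul]
    exact Ideal.mul_mem_left _ _ (hn2' j)
  have hn0 := det_ne_zero_of_not_dvd hnp
  have hdp : ¬ (p : ℤ) ∣ n ^ Fintype.card κ := fun h1 => hnp (hp.dvd_of_dvd_pow h1)
  have hd0 := det_ne_zero_of_not_dvd hdp
  obtain ⟨G, hG⟩ : ∃ G, G = det_mat e.toLinearMap (n : R) hnI := ⟨_, rfl⟩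
  obtain ⟨H, hH⟩ : ∃ H, H = det_mat e.symm.toLinearMap (n : R) hnJ := ⟨_, rfl⟩
  have hHG : H * G = Matrix.diagonal fun _ => (n : R) * n := by
    ext i k
    rw [Matrix.mul_apply, hG, hH]
    have h1 := det_mat_mulVec e.symm.toLinearMap (n : R) hnJ
      (e (det_sg I k ⟨(n : R), hnI k⟩)) i
    have h2 : e.symm.toLinearMap (e (det_sg I k ⟨(n : R), hnI k⟩)) =
        det_sg I k ⟨(n : R), hnI k⟩ := e.symm_apply_apply _
    rw [h2] at h1
    have h3 : ∑ j, det_mat e.symm.toLinearMap (n : R) hnJ i j *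
        det_mat e.toLinearMap (n : R) hnI j k =
        (n : R) * (det_sg I k ⟨(n : R), hnI k⟩ i : R) := h1
    rw [h3]
    by_cases hik : i = k
    · subst hik
      simp [det_sg]
    · rw [Matrix.diagonal_apply_ne _ hik]
      simp only [det_sg]
      rw [Pi.single_eq_of_ne hik]
      simp
  have hdet : H.det * G.det = (n : R) ^ Fintype.card κ * (n : R) ^ Fintype.card κ := by
    rw [← Matrix.det_mul, hHG, Matrix.det_diagonal, Finset.prod_const, Finset.card_univ, mul_pow]
  have h1 := det_le e.toLinearMap (n : R) hnI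
  have h2 := det_le e.symm.toLinearMap (n : R) hnJ
  rw [← hG] at h1
  rw [← hH] at h2
  refine ⟨n ^ Fintype.card κ, G.det, hdp, le_antisymm ?_ ?_⟩
  · rw [Ideal.span_singleton_mul_le_iff]
    intro z hz
    have h3 : H.det * z ∈ Ideal.span {(n : R) ^ Fintype.card κ} * ∏ j, I j :=
      h2 (Ideal.mul_mem_mul (Ideal.mem_span_singleton_self _) hz)
    rw [Ideal.mem_span_singleton_mul] at h3
    obtain ⟨y, hy, hy'⟩ := h3
    have h4 : ((n ^ Fintype.card κ : ℤ) : R) * (((n ^ Fintype.card κ : ℤ) : R) * z) =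
        ((n ^ Fintype.card κ : ℤ) : R) * (G.det * y) := by
      rw [Int.cast_pow]
      linear_combination (-z) * hdet - G.det * hy'
    rw [det_cancel h hd0 h4]
    exact Ideal.mul_mem_mul (Ideal.mem_span_singleton_self _) hy
  · rw [Int.cast_pow]
    exact h1

end gen

/-- Isomorphic direct sums of good ideals have isomorphic products: if `⊕ I_j ≅ ⊕ J_j` then
`d ∏ J_j = v ∏ I_j` for an integer `d` prime to `p` and an element `v`. -/
theorem prod_of_equiv (h : GR p R) {r : ℕ} (I J : Fin r → Ideal R)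
    (hI : ∀ j, Good p (I j)) (hJ : ∀ j, Good p (J j)) (e : (∀ j, I j) ≃ₗ[R] (∀ j, J j)) :
    ∃ (d : ℤ) (v : R), ¬ (p : ℤ) ∣ d ∧
      Ideal.span {(d : R)} * ∏ j, J j = Ideal.span {v} * ∏ j, I j :=
  prod_of_equiv_gen h I J hI hJ e

/-- The same for stably isomorphic direct sums. -/
theorem prod_of_stable_equiv (h : GR p R) {r m : ℕ} (I J : Fin r → Ideal R)
    (hI : ∀ j, Good p (I j)) (hJ : ∀ j, Good p (J j))
    (e : ((∀ j, I j) × (Fin m → R)) ≃ₗ[R] ((∀ j, J j) × (Fin m → R))) :
    ∃ (d : ℤ) (v : R), ¬ (p : ℤ) ∣ d ∧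
      Ideal.span {(d : R)} * ∏ j, J j = Ideal.span {v} * ∏ j, I j := by
  have hp1 : ¬ (p : ℤ) ∣ 1 := fun h1 => (Nat.prime_iff_prime_int.1 h.prime).not_isUnit
    (isUnit_of_dvd_one h1)
  let ex : (Fin r → Ideal R) → (Fin r ⊕ Fin m → Ideal R) := fun I => Sum.elim I fun _ => ⊤
  have hex : ∀ I : Fin r → Ideal R, (∀ j, Good p (I j)) → ∀ j, Good p (ex I j) := by
    intro I hI j
    rcases j with j | j
    · exact hI j
    · exact ⟨1, hp1, Submodule.mem_top⟩
  have hprod : ∀ I : Fin r → Ideal R, ∏ j, ex I j = ∏ j, I j := by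
    intro I
    rw [Fintype.prod_sum_type]
    simp [ex, ← Ideal.one_eq_top]
  let E : ∀ I : Fin r → Ideal R, (∀ j, ex I j) ≃ₗ[R] ((∀ j, I j) × (Fin m → R)) := fun I =>
    (LinearEquiv.sumPiEquivProdPi R (Fin r) (Fin m) fun j => ex I j).trans
      (LinearEquiv.prodCongr (LinearEquiv.refl R _)
        (LinearEquiv.piCongrRight fun _ => Submodule.topEquiv))
  obtain ⟨d, v, hd, hv⟩ := prod_of_equiv_gen h (ex I) (ex J) (hex I hI) (hex J hJ)
    (((E I).trans e).trans (E J).symm)
  rw [hprod, hprod] at hv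
  exact ⟨d, v, hd, hv⟩

end Pool.Agent.Lib.MP_0e6cae_nt
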