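import Pool.Agent.Lib.MP_0e6cae_nt.Main

/-!
The form of the main theorem for the Galois extension `F/k` with group `Γ` and its subextension
`F/K` with group `N`.
-/

open CategoryTheory NumberField IsDedekindDomain

namespace Pool.Agent.Lib.MP_0e6cae_nt

/-- The `ℤ[Γ]`-module `M` regarded as a `ℤ[N]`-module, where `N` is a subgroup of `Γ`. -/
def Res {H : Type} [Group H] {Γ N : Subgroup H} (_ : N ≤ Γ) (M : Type) : Type := M

instance Res.grp {H : Type} [Group H] {Γ N : Subgroup H} (h : N ≤ Γ) (M : Type)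
    [AddCommGroup M] : AddCommGroup (Res h M) := (inferInstance : AddCommGroup M)

noncomputable instance Res.mod {H : Type} [Group H] {Γ N : Subgroup H} (h : N ≤ Γ) (M : Type)
    [AddCommGroup M] [Module (MonoidAlgebra ℤ Γ) M] :
    Module (MonoidAlgebra ℤ N) (Res h M) :=
  Module.compHom M (MonoidAlgebra.mapDomainRingHom ℤ (Subgroup.inclusion h))

theorem Res.single_smul {H : Type} [Group H] {Γ N : Subgroup H} (h : N ≤ Γ) (M : Type)
    [AddCommGroup M] [Module (MonoidAlgebra ℤ Γ) M] (g : N) (x : M) :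
    @HSMul.hSMul (MonoidAlgebra ℤ N) (Res h M) (Res h M) instHSMul
      (MonoidAlgebra.single g (1 : ℤ)) x =
      (MonoidAlgebra.single (Subgroup.inclusion h g) (1 : ℤ) • x : M) := by
  change (MonoidAlgebra.mapDomainRingHom ℤ (Subgroup.inclusion h)
    (MonoidAlgebra.single g (1 : ℤ)) • x : M) = _
  congr 1
  simp

section

variable {F : Type} [Field F] [NumberField F] {G : Subgroup (F ≃+* F)}
  {S : Set (HeightOneSpectrum (𝓞 F))}

theorem stable_of_mem (Γ : Subgroup (F ≃+* F)) (hS : ∀ γ ∈ Γ, ∀ w ∈ S, actFin γ w ∈ S)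
    (γ : F ≃+* F) (hγ : γ ∈ Γ) (w : HeightOneSpectrum (𝓞 F)) :
    w ∈ S ↔ actFin γ w ∈ S := by
  refine ⟨hS γ hγ w, fun hw => ?_⟩
  have h1 := hS γ.symm (Γ.inv_mem hγ) _ hw
  rwa [actFin_symm_actFin] at h1

end

/-- The theorem `main` with the automorphisms taken in a subgroup `Γ`. -/
theorem main_gen (p a : ℕ) (hp : p.Prime) (hp2 : p ≠ 2) (F : Type) [Field F] [NumberField F]
    (G : Subgroup (F ≃+* F)) (hcyc : IsCyclic G) (hcard : Nat.card G = p ^ a)
    (Γ : Subgroup (F ≃+* F))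
    (hfull : ∀ φ : G ≃* G, ∃ γ ∈ Γ, ∀ g : G, ((φ g : G) : F ≃+* F) = γ * g * γ⁻¹)
    (S : Set (HeightOneSpectrum (𝓞 F))) (hSfin : S.Finite)
    (hS : ∀ γ ∈ Γ, ∀ w ∈ S, actFin γ w ∈ S)
    (E : TwoExt G S)
    (hA : Module.Finite (MonoidAlgebra ℤ G) E.A)
    (hA' : ∃ n : ℕ, HasProjectiveDimensionLE (ModuleCat.of (MonoidAlgebra ℤ G) E.A) n)
    (hB : Module.Finite (MonoidAlgebra ℤ G) E.B)
    (hB' : ∃ n : ℕ, HasProjectiveDimensionLE (ModuleCat.of (MonoidAlgebra ℤ G) E.B) n)
    (hE : ∀ γ ∈ Γ, (∀ g, g ∈ G ↔ γ * g * γ⁻¹ ∈ G) → E.InvUnder γ) :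
    K0.mk (⟨E.A, hA, hA'⟩ : FPMod (MonoidAlgebra ℤ G)) = K0.mk ⟨E.B, hB, hB'⟩ := by
  letI := crG G
  have h : GR p (MonoidAlgebra ℤ G) := gr_monoidAlgebra p a hp G hcard
  have hGfin : Finite G := Nat.finite_of_card_ne_zero (by rw [hcard]; exact pow_ne_zero _ hp.ne_zero)
  have hnoeth : IsNoetherianRing (MonoidAlgebra ℤ G) := h.noeth
  have hRZ : Module.Finite ℤ (MonoidAlgebra ℤ G) := h.fin
  -- the cover of `B`
  obtain ⟨k, π, hπ⟩ := Module.Finite.exists_fin' (MonoidAlgebra ℤ G) E.B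
  obtain ⟨E₁, b, j, f, hom1, hj, hjf, hf⟩ := E.exists_cover (Fin k → MonoidAlgebra ℤ G) π hπ
  have hK : Module.Finite (MonoidAlgebra ℤ G) (LinearMap.ker π) := inferInstance
  have hK' := fpd_left (LinearMap.ker π).subtype π Subtype.val_injective
    (LinearMap.exact_subtype_ker_map π) hπ hB'
  have hA1' := fpd_mid j f hj hjf hf hK' hA'
  have hA1 : Module.Finite (MonoidAlgebra ℤ G) E₁.A :=
    Module.Finite.of_exact hjf hf
  -- the cover of `A`
  obtain ⟨l, q, hq⟩ := Module.Finite.exists_fin' (MonoidAlgebra ℤ G) E₁.A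
  have hL : Module.Finite (MonoidAlgebra ℤ G) (LinearMap.ker q) := inferInstance
  obtain ⟨n, hn⟩ := fpd_left (LinearMap.ker q).subtype q Subtype.val_injective
    (LinearMap.exact_subtype_ker_map q) hq hA1'
  have hLp : Module.Projective (MonoidAlgebra ℤ G) (LinearMap.ker q) :=
    projective_of_lattice (LinearMap.ker q)
      (fun m x hm hx => Subtype.ext (free_torsion m _ hm (congrArg Subtype.val hx))) n hn
  obtain ⟨s, I, hI, ⟨e⟩⟩ := exists_decomp h (LinearMap.ker q)
  -- the product of the ideals is principal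
  obtain ⟨w, hw⟩ := principal_monoidAlgebra p a hp hp2 G hcard (∏ j, I j) (good_prod h I hI) (by
    intro φ
    obtain ⟨γ, hγΓ, hγ⟩ := hfull φ
    have hγn := norm_of_full φ γ hγ
    have hγS := stable_of_mem Γ hS γ hγΓ
    obtain ⟨E', hE1, hE2⟩ := hE γ hγΓ hγn
    obtain ⟨E₂, hE₂⟩ := E₁.exists_transport γ hγn hγS
    have hom2 : E₂.Hom E' := TwoExt.Transport.hom hγn hγS hom1 hE₂ hE1
    have heq : E₁.Equiv E₂ :=
      (Relation.EqvGen.rel _ _ hom1).trans _ _ _ (hE2.trans _ _ _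
        ((Relation.EqvGen.rel _ _ hom2).symm _ _))
    obtain ⟨f₁, g₁, hf₁, hg₁, -⟩ := hE₂
    have hf₁' := semilinear_of_single φ f₁ (fun g a => hf₁ g (φ g) a (hγ g))
    have hg₁' := semilinear_of_single φ g₁ (fun g a => hg₁ g (φ g) a (hγ g))
    obtain ⟨b₂⟩ := free_of_semilinear (autZ φ) g₁ hg₁' b
    have hp1 : Module.Projective (MonoidAlgebra ℤ G) E₁.B := Module.Projective.of_equiv b.symm
    have hp2 : Module.Projective (MonoidAlgebra ℤ G) E₂.B := Module.Projective.of_equiv b₂.symm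
    obtain ⟨c⟩ := TwoExt.cone E₁ E₂ hp2 (TwoExt.hom_of_equiv E₁ E₂ hp1 heq)
    exact stable_key h (autZ φ) f₁ hf₁' b b₂ c q hq I hI e)
  -- the ranks
  have hAZ : Module.Finite ℤ E.A := Module.Finite.trans (MonoidAlgebra ℤ G) E.A
  have hBZ : Module.Finite ℤ E.B := Module.Finite.trans (MonoidAlgebra ℤ G) E.B
  have hr := finrank_exact4 E.i E.d.toAddMonoidHom E.e E.inj E.exA E.exB E.surj
  have hUS := finrank_US hSfin
  have hXS := finrank_XS hSfin
  have hrk : Module.finrank ℤ E.A = Module.finrank ℤ E.B := by omega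
  have hls := rank_final h (LinearMap.ker π).subtype π Subtype.val_injective
    (LinearMap.exact_subtype_ker_map π) hπ j f hj hjf hf (LinearMap.ker q).subtype q
    Subtype.val_injective (LinearMap.exact_subtype_ker_map q) hq I hI e hrk
  exact k0_final (s := s) ⟨E.A, hA, hA'⟩ ⟨E.B, hB, hB'⟩ ⟨E₁.A, hA1, hA1'⟩
    ⟨LinearMap.ker π, hK, hK'⟩ (FPMod.ofProj (MonoidAlgebra ℤ G) (LinearMap.ker q))
    (LinearMap.ker π).subtype π Subtype.val_injective
    (LinearMap.exact_subtype_ker_map π) hπ j f hj hjf hf (LinearMap.ker q).subtype q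
    Subtype.val_injective (LinearMap.exact_subtype_ker_map q) hq
    (K0.mk_of_decomp h (LinearMap.ker q) I hI e w hw) hls

/-- The 2-extension of `ℤ[N]`-modules obtained from a 2-extension of `ℤ[Γ]`-modules. -/
noncomputable def TwoExt.res {F : Type} [Field F] [NumberField F] {Γ : Subgroup (F ≃+* F)}
    {S : Set (HeightOneSpectrum (𝓞 F))} (E : TwoExt Γ S) {N : Subgroup (F ≃+* F)} (h : N ≤ Γ) :
    TwoExt N S where
  A := Res h E.A
  B := Res h E.B
  i := E.i
  d := { toFun := E.d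
         map_add' := fun x y => map_add E.d x y
         map_smul' := fun r x => LinearMap.map_smul E.d
          (MonoidAlgebra.mapDomainRingHom ℤ (Subgroup.inclusion h) r) x }
  e := E.e
  i_equiv := fun g u u' hu => (E.i_equiv (Subgroup.inclusion h g) u u' hu).trans
    (Res.single_smul h E.A g _).symm
  e_equiv := fun g b => (congrArg (fun x : E.B => ((E.e x : XS S) : Pl F →₀ ℤ))
    (Res.single_smul h E.B g b)).trans (E.e_equiv (Subgroup.inclusion h g) b)
  inj := E.inj
  exA := E.exA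
  exB := E.exB
  surj := E.surj

/-- The restriction to `N` is invariant under the elements of `Γ`. -/
theorem TwoExt.res_inv {F : Type} [Field F] [NumberField F] {Γ : Subgroup (F ≃+* F)}
    {S : Set (HeightOneSpectrum (𝓞 F))} (E : TwoExt Γ S) {N : Subgroup (F ≃+* F)} (h : N ≤ Γ)
    (γ : F ≃+* F) (hγ : γ ∈ Γ) : (E.res h).InvUnder γ := by
  refine ⟨E.res h, ?_, Relation.EqvGen.refl _⟩
  let c : Γ := ⟨γ, hγ⟩
  have hc1 : MonoidAlgebra.single c⁻¹ (1 : ℤ) * MonoidAlgebra.single c 1 = 1 := by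
    rw [MonoidAlgebra.single_mul_single, inv_mul_cancel, mul_one]
    rfl
  have hc2 : MonoidAlgebra.single c (1 : ℤ) * MonoidAlgebra.single c⁻¹ 1 = 1 := by
    rw [MonoidAlgebra.single_mul_single, mul_inv_cancel, mul_one]
    rfl
  let fA : E.A ≃+ E.A :=
    { toFun := fun x => MonoidAlgebra.single c (1 : ℤ) • x
      invFun := fun x => MonoidAlgebra.single c⁻¹ (1 : ℤ) • x
      left_inv := fun x => by
        change MonoidAlgebra.single c⁻¹ (1 : ℤ) • MonoidAlgebra.single c (1 : ℤ) • x = x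
        rw [← mul_smul, hc1, one_smul]
      right_inv := fun x => by
        change MonoidAlgebra.single c (1 : ℤ) • MonoidAlgebra.single c⁻¹ (1 : ℤ) • x = x
        rw [← mul_smul, hc2, one_smul]
      map_add' := fun x y => smul_add _ x y }
  let fB : E.B ≃+ E.B :=
    { toFun := fun x => MonoidAlgebra.single c (1 : ℤ) • x
      invFun := fun x => MonoidAlgebra.single c⁻¹ (1 : ℤ) • x
      left_inv := fun x => by
        change MonoidAlgebra.single c⁻¹ (1 : ℤ) • MonoidAlgebra.single c (1 : ℤ) • x = x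
        rw [← mul_smul, hc1, one_smul]
      right_inv := fun x => by
        change MonoidAlgebra.single c (1 : ℤ) • MonoidAlgebra.single c⁻¹ (1 : ℤ) • x = x
        rw [← mul_smul, hc2, one_smul]
      map_add' := fun x y => smul_add _ x y }
  have key : ∀ g g' : N, (g' : F ≃+* F) = γ * g * γ⁻¹ →
      MonoidAlgebra.single c (1 : ℤ) * MonoidAlgebra.single (Subgroup.inclusion h g) (1 : ℤ) =
      MonoidAlgebra.single (Subgroup.inclusion h g') (1 : ℤ) * MonoidAlgebra.single c (1 : ℤ) := by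
    intro g g' hg
    rw [MonoidAlgebra.single_mul_single, MonoidAlgebra.single_mul_single]
    congr 1
    apply Subtype.ext
    change γ * (g : F ≃+* F) = (g' : F ≃+* F) * γ
    rw [hg]
    group
  refine ⟨fA, fB, ?_, ?_, ?_, ?_, ?_⟩
  · intro g g' (x : E.A) hg
    have h1 := Res.single_smul h E.A g x
    have h2 := Res.single_smul h E.A g' (MonoidAlgebra.single c (1 : ℤ) • x : E.A)
    refine (congrArg (fun y : E.A => (MonoidAlgebra.single c (1 : ℤ) • y : E.A)) h1).trans
      (Eq.trans ?_ h2.symm)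
    change (MonoidAlgebra.single c (1 : ℤ) •
      MonoidAlgebra.single (Subgroup.inclusion h g) (1 : ℤ) • x : E.A) =
      MonoidAlgebra.single (Subgroup.inclusion h g') (1 : ℤ) • MonoidAlgebra.single c (1 : ℤ) • x
    rw [← mul_smul, ← mul_smul, key g g' hg]
  · intro g g' (x : E.B) hg
    have h1 := Res.single_smul h E.B g x
    have h2 := Res.single_smul h E.B g' (MonoidAlgebra.single c (1 : ℤ) • x : E.B)
    refine (congrArg (fun y : E.B => (MonoidAlgebra.single c (1 : ℤ) • y : E.B)) h1).trans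
      (Eq.trans ?_ h2.symm)
    change (MonoidAlgebra.single c (1 : ℤ) •
      MonoidAlgebra.single (Subgroup.inclusion h g) (1 : ℤ) • x : E.B) =
      MonoidAlgebra.single (Subgroup.inclusion h g') (1 : ℤ) • MonoidAlgebra.single c (1 : ℤ) • x
    rw [← mul_smul, ← mul_smul, key g g' hg]
  · intro u u' hu
    exact (E.i_equiv c u u' hu).symm
  · intro x
    exact (LinearMap.map_smul E.d (MonoidAlgebra.single c (1 : ℤ)) x).symm
  · intro b
    exact E.e_equiv c b

/-- Let `Γ` be a group of automorphisms of the number field `F`, `k` its fixed field, `N` a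
subgroup of `Γ`, cyclic of odd prime power order `p ^ a`, such that every automorphism of `N` is
the conjugation by some element of `Γ`, and `K` the fixed field of `N`. Let `S` be a finite
`Γ`-stable set of finite places of `F` and `0 → U_S → A → B → X_S → 0` an exact sequence of
`ℤ[Γ]`-modules, with `A` and `B` finitely generated and of finite projective dimension over
`ℤ[N]`. Then `[A] = [B]` in `K₀(ℤ[N])`. -/
theorem main_gal (p a : ℕ) (hp : p.Prime) (hp2 : p ≠ 2) (F : Type) [Field F] [NumberField F]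
    (Γ N : Subgroup (F ≃+* F)) (hN : N ≤ Γ) (hcyc : IsCyclic N) (hcard : Nat.card N = p ^ a)
    (hfull : ∀ φ : N ≃* N, ∃ γ ∈ Γ, ∀ g : N, ((φ g : N) : F ≃+* F) = γ * g * γ⁻¹)
    (S : Set (HeightOneSpectrum (𝓞 F))) (hSfin : S.Finite)
    (hS : ∀ γ ∈ Γ, ∀ w ∈ S, actFin γ w ∈ S) (E : TwoExt Γ S)
    (hA : Module.Finite (MonoidAlgebra ℤ N) (Res hN E.A))
    (hA' : ∃ n : ℕ, HasProjectiveDimensionLE (ModuleCat.of (MonoidAlgebra ℤ N) (Res hN E.A)) n)
    (hB : Module.Finite (MonoidAlgebra ℤ N) (Res hN E.B))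
    (hB' : ∃ n : ℕ, HasProjectiveDimensionLE (ModuleCat.of (MonoidAlgebra ℤ N) (Res hN E.B)) n) :
    K0.mk (⟨Res hN E.A, hA, hA'⟩ : FPMod (MonoidAlgebra ℤ N)) = K0.mk ⟨Res hN E.B, hB, hB'⟩ :=
  main_gen p a hp hp2 F N hcyc hcard Γ hfull S hSfin hS (E.res hN) hA hA' hB hB'
    (fun γ hγ _ => E.res_inv hN γ hγ)

end Pool.Agent.Lib.MP_0e6cae_nt
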