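import Pool.Agent.Lib.MP_0e6cae_nt.Defs

/-!
Abstract layer: commutative rings `R`, finite and free over `ℤ`, local at `p`, in which all ideals
containing an integer prime to `p` (good ideals) are invertible. The example is `ℤ[G]` for a finite
cyclic `p`-group `G`.
-/

open CategoryTheory

namespace Pool.Agent.Lib.MP_0e6cae_nt

/-- An ideal is good (at `p`) if it contains an integer prime to `p`. -/
def Good (p : ℕ) {R : Type} [CommRing R] (I : Ideal R) : Prop :=
  ∃ n : ℤ, ¬ (p : ℤ) ∣ n ∧ (n : R) ∈ I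

/-- Good ideals are invertible. -/
def Inv (p : ℕ) (R : Type) [CommRing R] : Prop :=
  ∀ (I : Ideal R) (n : ℤ), ¬ (p : ℤ) ∣ n → (n : R) ∈ I → ∃ J : Ideal R, I * J = Ideal.span {(n : R)}

/-- The standing assumptions on the ring. -/
structure GR (p : ℕ) (R : Type) [CommRing R] : Prop where
  prime : p.Prime
  fin : Module.Finite ℤ R
  free : Module.Free ℤ R
  nontriv : Nontrivial R
  inv : Inv p R
  loc : ∃ aug : R →+* ZMod p, ∀ y, aug y ≠ 0 → ∃ z t : R, y * z = 1 + (p : R) * t

end Pool.Agent.Lib.MP_0e6cae_nt
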