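import Pool.Agent.Lib.MP_0e6cae_nt.Defs

/-!
Lattices of finite projective dimension over `ℤ[G]` are projective.
-/

open CategoryTheory

namespace Pool.Agent.Lib.MP_0e6cae_nt

/-- The `ℤ[G]`-linear map with prescribed coefficient at `1`. -/
noncomputable def gorExt {G : Type} [Group G] [Fintype G] {P : Type} [AddCommGroup P]
    [Module (MonoidAlgebra ℤ G) P] (c : P →+ ℤ) : P →ₗ[MonoidAlgebra ℤ G] MonoidAlgebra ℤ G where
  toFun x := ∑ g : G, MonoidAlgebra.single g (c (MonoidAlgebra.single g⁻¹ (1 : ℤ) • x))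
  map_add' x y := by
    rw [← Finset.sum_add_distrib]
    refine Finset.sum_congr rfl fun g _ => ?_
    rw [smul_add, map_add, MonoidAlgebra.single_add]
  map_smul' r x := by
    rw [RingHom.id_apply]
    induction r using MonoidAlgebra.induction_linear with
    | zero =>
      rw [zero_smul, zero_smul]
      refine Finset.sum_eq_zero fun g _ => ?_
      rw [smul_zero, map_zero, MonoidAlgebra.single_zero]
    | add a b ha hb =>
      rw [add_smul, add_smul, ← ha, ← hb, ← Finset.sum_add_distrib]
      refine Finset.sum_congr rfl fun g _ => ?_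
      rw [smul_add, map_add, MonoidAlgebra.single_add]
    | single a n =>
      rw [Finset.smul_sum]
      refine Fintype.sum_equiv (Equiv.mulLeft a⁻¹) _ _ fun g => ?_
      rw [Equiv.coe_mulLeft, smul_eq_mul, MonoidAlgebra.single_mul_single, smul_smul,
        MonoidAlgebra.single_mul_single, mul_inv_cancel_left, mul_inv_rev, inv_inv, one_mul]
      have e : (MonoidAlgebra.single (g⁻¹ * a) n : MonoidAlgebra ℤ G) =
          n • MonoidAlgebra.single (g⁻¹ * a) (1 : ℤ) := by
        rw [MonoidAlgebra.smul_single, smul_eq_mul, mul_one]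
      rw [e, smul_assoc, map_zsmul, smul_eq_mul]

theorem gorExt_apply {G : Type} [Group G] [Fintype G] {Q P : Type} [AddCommGroup Q]
    [Module (MonoidAlgebra ℤ G) Q] [AddCommGroup P] [Module (MonoidAlgebra ℤ G) P] (c : P →+ ℤ)
    (f : Q →ₗ[MonoidAlgebra ℤ G] P) (h : Q →ₗ[MonoidAlgebra ℤ G] MonoidAlgebra ℤ G)
    (hc : ∀ q, c (f q) = (h q).coeff 1) (q : Q) : gorExt c (f q) = h q := by
  change ∑ g : G, MonoidAlgebra.single g (c (MonoidAlgebra.single g⁻¹ (1 : ℤ) • f q)) = h q
  have h1 : ∀ g : G, c (MonoidAlgebra.single g⁻¹ (1 : ℤ) • f q) = (h q).coeff g := by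
    intro g
    rw [← map_smul, hc, map_smul, smul_eq_mul, MonoidAlgebra.coeff_single_mul_apply]
    simp
  simp only [h1]
  ext g
  simp [MonoidAlgebra.coeff_sum]

/-- A short exact sequence `0 → Q → P → L → 0` of finitely generated `ℤ[G]`-modules with `Q`
projective and `L` torsion free splits. -/
theorem exists_retraction {G : Type} [Group G] [Finite G] (Q P L : Type)
    [AddCommGroup Q] [Module (MonoidAlgebra ℤ G) Q] [Module.Finite (MonoidAlgebra ℤ G) Q]
    [Module.Projective (MonoidAlgebra ℤ G) Q]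
    [AddCommGroup P] [Module (MonoidAlgebra ℤ G) P] [Module.Finite (MonoidAlgebra ℤ G) P]
    [AddCommGroup L] [Module (MonoidAlgebra ℤ G) L]
    (hL : ∀ (n : ℤ) (x : L), n ≠ 0 → n • x = 0 → x = 0)
    (f : Q →ₗ[MonoidAlgebra ℤ G] P) (g : P →ₗ[MonoidAlgebra ℤ G] L)
    (hf : Function.Injective f) (hfg : Function.Exact f g) (hg : Function.Surjective g) :
    ∃ r : P →ₗ[MonoidAlgebra ℤ G] Q, r.comp f = LinearMap.id := by
  have := Fintype.ofFinite G
  have hPf : Module.Finite ℤ P := Module.Finite.trans (MonoidAlgebra ℤ G) P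
  have hLf : Module.Finite ℤ L := Module.Finite.of_surjective g.toAddMonoidHom.toIntLinearMap hg
  have hLt : Module.IsTorsionFree ℤ L := ⟨fun n hn x y hxy => by
    have h1 : n • (x - y) = 0 := by
      rw [smul_sub]
      exact sub_eq_zero.2 hxy
    exact sub_eq_zero.1 (hL n _ hn.ne_zero h1)⟩
  -- a retraction over the integers
  obtain ⟨ρ, hρ⟩ : ∃ ρ : P →ₗ[ℤ] Q, ρ ∘ₗ f.toAddMonoidHom.toIntLinearMap = LinearMap.id := by
    have hex : Function.Exact f.toAddMonoidHom.toIntLinearMap g.toAddMonoidHom.toIntLinearMap := hfg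
    obtain ⟨s, hs⟩ := Module.projective_lifting_property g.toAddMonoidHom.toIntLinearMap
      (LinearMap.id : L →ₗ[ℤ] L) hg
    exact ((hex.split_tfae hf hg).out 0 1 rfl rfl).1 ⟨s, hs⟩
  have hρ' : ∀ q, ρ (f q) = q := fun q => LinearMap.congr_fun hρ q
  -- `Q` is a summand of a free module
  obtain ⟨k, π, hπ⟩ := Module.Finite.exists_fin' (MonoidAlgebra ℤ G) Q
  obtain ⟨σ, hσ⟩ := Module.projective_lifting_property π
    (LinearMap.id : Q →ₗ[MonoidAlgebra ℤ G] Q) hπ
  let c : Fin k → P →+ ℤ := fun i =>
    { toFun := fun x => (σ (ρ x) i).coeff 1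
      map_zero' := by simp
      map_add' := fun x y => by simp }
  have hc : ∀ i q, c i (f q) = (((LinearMap.proj i).comp σ) q).coeff 1 := by
    intro i q
    change (σ (ρ (f q)) i).coeff 1 = (σ q i).coeff 1
    rw [hρ']
  refine ⟨π.comp (LinearMap.pi fun i => gorExt (c i)), ?_⟩
  ext q
  change π (fun i => gorExt (c i) (f q)) = q
  have h1 : (fun i => gorExt (c i) (f q)) = σ q := by
    funext i
    exact gorExt_apply (c i) f ((LinearMap.proj i).comp σ) (hc i) q
  rw [h1]
  exact LinearMap.congr_fun hσ q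

/-- A finitely generated torsion free `ℤ[G]`-module of finite projective dimension is
projective. -/
theorem projective_of_lattice {G : Type} [Group G] [Finite G] (L : Type) [AddCommGroup L]
    [Module (MonoidAlgebra ℤ G) L] [Module.Finite (MonoidAlgebra ℤ G) L]
    (hL : ∀ (n : ℤ) (x : L), n ≠ 0 → n • x = 0 → x = 0) (n : ℕ)
    (h : HasProjectiveDimensionLE (ModuleCat.of (MonoidAlgebra ℤ G) L) n) :
    Module.Projective (MonoidAlgebra ℤ G) L := by
  induction n generalizing L with
  | zero =>
    rw [IsProjective.iff_projective]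
    exact (projective_iff_hasProjectiveDimensionLE_zero _).2 h
  | succ n ih =>
    obtain ⟨k, g, hg⟩ := Module.Finite.exists_fin' (MonoidAlgebra ℤ G) L
    have hfin : Module.Finite ℤ (Fin k → MonoidAlgebra ℤ G) :=
      Module.Finite.trans (MonoidAlgebra ℤ G) _
    have hker : Module.Finite (MonoidAlgebra ℤ G) (LinearMap.ker g) := by
      have : Module.Finite ℤ (LinearMap.ker g) := by
        have h1 : Module.Finite ℤ (LinearMap.ker g.toAddMonoidHom.toIntLinearMap) :=
          inferInstance
        exact h1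
      exact Module.Finite.of_restrictScalars_finite ℤ _ _
    have htf : ∀ (n : ℤ) (x : LinearMap.ker g), n ≠ 0 → n • x = 0 → x = 0 := by
      intro n x hn hx
      apply Subtype.ext
      funext i
      have h1 : n • (x : Fin k → MonoidAlgebra ℤ G) = 0 := congrArg Subtype.val hx
      have h2 : n • (x : Fin k → MonoidAlgebra ℤ G) i = 0 := congrFun h1 i
      ext a
      let φ : MonoidAlgebra ℤ G →+ ℤ :=
        { toFun := fun y => y.coeff a
          map_zero' := by simp
          map_add' := fun y z => by simp }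
      have h3 : n * ((x : Fin k → MonoidAlgebra ℤ G) i).coeff a = 0 := by
        have h4 := map_zsmul φ n ((x : Fin k → MonoidAlgebra ℤ G) i)
        rw [h2, map_zero, smul_eq_mul] at h4
        exact h4.symm
      exact (mul_eq_zero.1 h3).resolve_left hn
    have hS := LinearMap.shortExact_shortComplexKer hg
    have hP : Module.Projective (MonoidAlgebra ℤ G) (Fin k → MonoidAlgebra ℤ G) := inferInstance
    have hP2 : Projective (ModuleCat.of (MonoidAlgebra ℤ G) (Fin k → MonoidAlgebra ℤ G)) :=
      (IsProjective.iff_projective _).1 hP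
    have h1 : HasProjectiveDimensionLE
        (ModuleCat.of (MonoidAlgebra ℤ G) (LinearMap.ker g)) n :=
      hS.hasProjectiveDimensionLT_X₁ (n + 1)
        (hasProjectiveDimensionLT_of_ge _ 1 (n + 1) (by omega)) h
    have h2 : Module.Projective (MonoidAlgebra ℤ G) (LinearMap.ker g) := ih _ htf h1
    obtain ⟨r, hr⟩ := exists_retraction (LinearMap.ker g) (Fin k → MonoidAlgebra ℤ G) L hL
      (LinearMap.ker g).subtype g Subtype.val_injective (LinearMap.exact_subtype_ker_map g) hg
    obtain ⟨s, hs⟩ := (((LinearMap.exact_subtype_ker_map g).split_tfae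
      Subtype.val_injective hg).out 1 0 rfl rfl).1 ⟨r, hr⟩
    exact Module.Projective.of_split s g hs

end Pool.Agent.Lib.MP_0e6cae_nt
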