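import Pool.Agent.Lib.MP_0e6cae_nt.UE

/-!
The units of `F_p[ε]/(ε^m)`, `m = p^b`, which are invariant modulo the units lifting to
`ℤ[X]/(X^m - 1)` or to `ℤ[ζ]` are products of such units; gluing of principal ideals.
-/

open Polynomial

namespace Pool.Agent.Lib.MP_0e6cae_nt

/-- Gluing of principal ideals. -/
theorem principal_glue (p : ℕ) (hp : p.Prime) (f g : ℤ[X])
    (hfg : C (p : ℤ) ∈ Ideal.span {f} ⊔ Ideal.span {g})
    (hlcm : ∀ x, f ∣ x → g ∣ x → f * g ∣ x)
    (I : Ideal ℤ[X]) (hI : f * g ∈ I) (n : ℤ) (hn : ¬ (p : ℤ) ∣ n) (hnI : C n ∈ I) (W : ℤ[X])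
    (h1 : I ⊔ Ideal.span {f} = Ideal.span {W} ⊔ Ideal.span {f})
    (h2 : I ⊔ Ideal.span {g} = Ideal.span {W} ⊔ Ideal.span {g}) :
    I = Ideal.span {W} ⊔ Ideal.span {f * g} := by
  obtain ⟨u, v, huv⟩ : ∃ u v : ℤ[X], C (p : ℤ) = f * u + g * v := by
    obtain ⟨a, ha, b, hb, hab⟩ := Submodule.mem_sup.1 hfg
    obtain ⟨u, rfl⟩ := Ideal.mem_span_singleton'.1 ha
    obtain ⟨v, rfl⟩ := Ideal.mem_span_singleton'.1 hb
    exact ⟨u, v, by rw [← hab]; ring⟩
  have key : ∀ (J : Ideal ℤ[X]) (h x : ℤ[X]), x ∈ J ⊔ Ideal.span {h} → ∃ i ∈ J, ∃ s, x = i + h * s := by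
    intro J h x hx
    obtain ⟨a, ha, b, hb, hab⟩ := Submodule.mem_sup.1 hx
    obtain ⟨u, rfl⟩ := Ideal.mem_span_singleton'.1 hb
    exact ⟨a, ha, u, by rw [← hab]; ring⟩
  obtain ⟨α, β, hαβ⟩ : ∃ α β : ℤ, α * p + β * n = 1 := by
    have : IsCoprime (p : ℤ) n :=
      (Nat.prime_iff_prime_int.1 hp).irreducible.coprime_iff_not_dvd.2 hn
    exact this
  apply le_antisymm
  · intro x hx
    obtain ⟨i1, hi1, s1, hs1⟩ := key (Ideal.span {W}) f x (h1 ▸ Ideal.mem_sup_left hx)
    obtain ⟨r1, rfl⟩ := Ideal.mem_span_singleton'.1 hi1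
    obtain ⟨i2, hi2, s2, hs2⟩ := key (Ideal.span {W}) g x (h2 ▸ Ideal.mem_sup_left hx)
    obtain ⟨r2, rfl⟩ := Ideal.mem_span_singleton'.1 hi2
    obtain ⟨i3, hi3, s3, hs3⟩ := key (Ideal.span {W}) f (C n) (h1 ▸ Ideal.mem_sup_left hnI)
    obtain ⟨k, rfl⟩ := Ideal.mem_span_singleton'.1 hi3
    -- `W` is invertible modulo `(f, g)`
    have hα : (C α : ℤ[X]) * C (p : ℤ) + C β * C n = 1 := by
      rw [← C_mul, ← C_mul, ← C_add, hαβ, C_1]
    -- 1 = k' W + f a + g b
    have hone : (1 : ℤ[X]) = W * (C β * k) + f * (C β * s3 + C α * u) + g * (C α * v) := by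
      rw [← hα, huv, hs3]; ring
    have hdiff : r1 - r2 = f * ((C β * s3 + C α * u) * (r1 - r2) - C β * k * s1) +
        g * (C α * v * (r1 - r2) + C β * k * s2) := by
      have e1 : W * (r1 - r2) = g * s2 - f * s1 := by linear_combination hs2 - hs1
      calc r1 - r2 = 1 * (r1 - r2) := by ring
        _ = (W * (C β * k) + f * (C β * s3 + C α * u) + g * (C α * v)) * (r1 - r2) := by rw [← hone]
        _ = C β * k * (W * (r1 - r2)) + (f * (C β * s3 + C α * u) + g * (C α * v)) * (r1 - r2) := by ring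
        _ = _ := by rw [e1]; ring
    set A := (C β * s3 + C α * u) * (r1 - r2) - C β * k * s1 with hA
    set B := C α * v * (r1 - r2) + C β * k * s2 with hB
    have hx1 : f ∣ x - W * (r1 - f * A) := ⟨s1 + W * A, by rw [hs1]; ring⟩
    have hx2 : g ∣ x - W * (r1 - f * A) := ⟨s2 - W * B, by
      have : r1 - f * A = r2 + g * B := by linear_combination hdiff
      rw [this, hs2]; ring⟩
    obtain ⟨t, ht⟩ := hlcm _ hx1 hx2
    have : x = W * (r1 - f * A) + f * g * t := by linear_combination ht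
    rw [this]
    exact Ideal.add_mem _ (Ideal.mem_sup_left (Ideal.mul_mem_right _ _ (Ideal.mem_span_singleton_self W)))
      (Ideal.mem_sup_right (Ideal.mul_mem_right _ _ (Ideal.mem_span_singleton_self _)))
  · refine sup_le ?_ ?_
    · rw [Ideal.span_singleton_le_iff_mem]
      obtain ⟨i1, hi1, s1, hs1⟩ := key I f W (h1 ▸ Ideal.mem_sup_left (Ideal.mem_span_singleton_self W))
      obtain ⟨i2, hi2, s2, hs2⟩ := key I g W (h2 ▸ Ideal.mem_sup_left (Ideal.mem_span_singleton_self W))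
      have hg : g * W ∈ I := by
        have : g * W = g * i1 + s1 * (f * g) := by rw [hs1]; ring
        rw [this]
        exact Ideal.add_mem _ (Ideal.mul_mem_left _ _ hi1) (Ideal.mul_mem_left _ _ hI)
      have hf : f * W ∈ I := by
        have : f * W = f * i2 + s2 * (f * g) := by rw [hs2]; ring
        rw [this]
        exact Ideal.add_mem _ (Ideal.mul_mem_left _ _ hi2) (Ideal.mul_mem_left _ _ hI)
      have : W = C α * (u * (f * W) + v * (g * W)) + C β * W * C n := by
        have hα : (C α : ℤ[X]) * C (p : ℤ) + C β * C n = 1 := by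
          rw [← C_mul, ← C_mul, ← C_add, hαβ, C_1]
        calc W = (C α * C (p : ℤ) + C β * C n) * W := by rw [hα, one_mul]
          _ = _ := by rw [huv]; ring
      rw [this]
      exact Ideal.add_mem _ (Ideal.mul_mem_left _ _ (Ideal.add_mem _ (Ideal.mul_mem_left _ _ hf)
        (Ideal.mul_mem_left _ _ hg))) (Ideal.mul_mem_left _ _ hnI)
    · rwa [Ideal.span_singleton_le_iff_mem]

/-- `X^m - 1` divides its expansions. -/
theorem modulus_dvd_expand (q k : ℕ) : (X : ℤ[X]) ^ q - 1 ∣ expand ℤ k (X ^ q - 1) := by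
  have := sub_dvd_pow_sub_pow ((X : ℤ[X]) ^ q) 1 k
  rw [one_pow] at this
  rw [map_sub, map_pow, expand_X, map_one, ← pow_mul, mul_comm k q, pow_mul]
  exact this

/-- `Φ_q` divides its expansions with exponent prime to `q`. -/
theorem cyclo_dvd_expand {q k : ℕ} (hq : 0 < q) (hk : Nat.Coprime k q) :
    cyclotomic q ℤ ∣ expand ℤ k (cyclotomic q ℤ) := by
  have hζ := Complex.isPrimitiveRoot_exp q hq.ne'
  set ζ := Complex.exp (2 * Real.pi * Complex.I / q) with hζdef
  have h1 : cyclotomic q ℤ = minpoly ℤ ζ := cyclotomic_eq_minpoly hζ hq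
  nth_rewrite 1 [h1]
  have hint : IsIntegral ℤ ζ := hζ.isIntegral hq
  refine minpoly.isIntegrallyClosed_dvd hint ?_
  rw [expand_aeval]
  have h2 : IsPrimitiveRoot (ζ ^ k) q := hζ.pow_of_coprime k hk
  have h3 := h2.isRoot_cyclotomic hq
  rw [aeval_def, ← eval_map, map_cyclotomic]
  exact h3

variable {p : ℕ}

/-- The subgroup `H` generated by the two groups of liftable units, and invariance. -/
theorem mem_sup_of_inv [Fact p.Prime] (hp2 : p ≠ 2) (b g : ℕ)
    (hg : ∀ u : (ZMod (p ^ (b + 1)))ˣ, ∃ j : ℕ, (u : ZMod (p ^ (b + 1))) = (g : ZMod (p ^ (b + 1))) ^ j)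
    (c : (TT p (p ^ b))ˣ)
    (hc : skU p (p ^ b) g c / c ∈ UL p (p ^ b) (X ^ (p ^ b) - 1) (rho_modulus b) ⊔
      UL p (p ^ b) (cyclotomic (p ^ (b + 1)) ℤ) (rho_cyclo b)) :
    c ∈ UL p (p ^ b) (X ^ (p ^ b) - 1) (rho_modulus b) ⊔
      UL p (p ^ b) (cyclotomic (p ^ (b + 1)) ℤ) (rho_cyclo b) := by
  have hp := (Fact.out : p.Prime)
  have hp2' := hp.two_le
  have hp3 : 3 ≤ p := by omega
  set q := p ^ (b + 1) with hq
  have hq1 : 1 < q := Nat.one_lt_pow (by omega) hp.one_lt
  set H := UL p (p ^ b) (X ^ (p ^ b) - 1) (rho_modulus b) ⊔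
      UL p (p ^ b) (cyclotomic q ℤ) (rho_cyclo b) with hH
  -- g is prime to p
  have hgu : IsUnit (g : ZMod q) := by
    -- the unit -1 is a power of g with positive exponent
    obtain ⟨j, hj⟩ := hg (-1)
    have hj0 : j ≠ 0 := by
      rintro rfl
      rw [pow_zero] at hj
      have h1 : (-1 : ZMod q) = 1 := by simpa using hj
      have h2 : ((2 : ℕ) : ZMod q) = 0 := by
        push_cast
        linear_combination -h1
      rw [ZMod.natCast_eq_zero_iff] at h2
      have h3 : p ∣ 2 := (dvd_pow_self p (by omega)).trans h2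
      have := Nat.le_of_dvd (by omega) h3
      omega
    have h4 : IsUnit ((g : ZMod q) ^ j) := by rw [← hj]; exact Units.isUnit _
    exact (isUnit_pow_iff hj0).1 h4
  have hgc : Nat.Coprime g q := (ZMod.isUnit_iff_coprime g q).1 hgu
  have hgp : ¬ p ∣ g := by
    intro h
    have : p ∣ Nat.gcd g q := Nat.dvd_gcd h (dvd_pow_self p (by omega))
    rw [hgc] at this
    exact hp.one_lt.ne' (Nat.dvd_one.1 this)
  -- H is stable
  have hstab : ∀ k, Nat.Coprime k q → ∀ w ∈ H, skU p (p ^ b) k w ∈ H := by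
    intro k hk w hw
    have hle : H ≤ H.comap (skU p (p ^ b) k) := by
      rw [hH]
      refine sup_le ?_ ?_
      · intro w hw
        exact Subgroup.mem_sup_left (skU_mem_UL (modulus_dvd_expand _ _) hw)
      · intro w hw
        exact Subgroup.mem_sup_right (skU_mem_UL (cyclo_dvd_expand (by omega) hk) hw)
    exact hle hw
  have hpow : ∀ t, skU p (p ^ b) (g ^ t) c / c ∈ H := by
    intro t
    induction t with
    | zero =>
      have : skU p (p ^ b) (g ^ 0) c = c := by
        ext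
        have : sk p (p ^ b) 1 = AlgHom.id (ZMod p) (TT p (p ^ b)) := by
          apply sk_ext
          rw [sk_one_add, pow_one]; rfl
        simp only [pow_zero, Units.coe_map, MonoidHom.coe_coe]
        rw [this]; rfl
      rw [this, div_self']; exact one_mem _
    | succ t ih =>
      have h1 := hstab (g ^ t) (Nat.Coprime.pow_left t hgc) _ hc
      rw [_root_.map_div, skU_mul, ← pow_succ] at h1
      have h2 := mul_mem h1 ih
      rwa [div_mul_div_cancel] at h2
  -- the element of order p - 1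
  set δ := g ^ (p ^ b) with hδdef
  have hδg : (δ : ZMod p) = g := by
    rw [hδdef]
    push_cast
    have : ∀ t, (g : ZMod p) ^ (p ^ t) = g := by
      intro t
      induction t with
      | zero => simp
      | succ t ih => rw [pow_succ, pow_mul, ih, ZMod.pow_card]
    exact this b
  have hord : ∀ n, (δ : ZMod p) ^ n = 1 → (p - 1) ∣ n := by
    intro n hn
    rw [hδg] at hn
    -- every unit mod p is a power of g
    have hall : ∀ u : (ZMod p)ˣ, ∃ j : ℕ, (u : ZMod p) = (g : ZMod p) ^ j := by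
      intro u
      obtain ⟨v, hv⟩ := ZMod.unitsMap_surjective (show p ∣ q from dvd_pow_self p (by omega)) u
      obtain ⟨j, hj⟩ := hg v
      refine ⟨j, ?_⟩
      have h5 := map_pow (ZMod.castHom (show p ∣ q from dvd_pow_self p (by omega)) (ZMod p))
        (g : ZMod q) j
      rw [map_natCast, ← hj] at h5
      rw [← h5, ← hv]
      rfl
    have hgu' : IsUnit (g : ZMod p) := by
      rw [ZMod.isUnit_iff_coprime]
      exact (Nat.coprime_comm.1 ((Nat.Prime.coprime_iff_not_dvd hp).2 hgp))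
    set γ : (ZMod p)ˣ := hgu'.unit with hγ
    have hgen : ∀ u : (ZMod p)ˣ, u ∈ Subgroup.zpowers γ := by
      intro u
      obtain ⟨j, hj⟩ := hall u
      refine ⟨j, ?_⟩
      ext
      simp only [zpow_natCast, Units.val_pow_eq_pow_val, hγ, IsUnit.unit_spec]
      exact hj.symm
    have h1 : orderOf γ = p - 1 := by
      rw [orderOf_eq_card_of_forall_mem_zpowers hgen, Nat.card_eq_fintype_card, ZMod.card_units p]
    have h2 : γ ^ n = 1 := by
      ext
      rw [Units.val_pow_eq_pow_val, hγ, IsUnit.unit_spec, hn]; rfl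
    rw [← h1]
    exact orderOf_dvd_of_pow_eq_one h2
  have hδ0 : ¬ p ∣ δ := fun h => hgp (hp.dvd_of_dvd_pow h)
  have hδM : sk p (p ^ (b + 1)) (δ ^ (p - 1)) = AlgHom.id (ZMod p) (TT p (p ^ (b + 1))) := by
    have h1 : (δ ^ (p - 1)) ≡ 1 [MOD q] := by
      rw [hδdef, ← pow_mul]
      have h2 : p ^ b * (p - 1) = Nat.totient q := by
        rw [hq, Nat.totient_prime_pow_succ hp]
      rw [h2]
      exact Nat.ModEq.pow_totient hgc
    have h1' : 1 ≤ δ ^ (p - 1) := Nat.one_le_pow _ _ (Nat.pos_of_ne_zero (fun h => hδ0 (h ▸ dvd_zero p)))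
    obtain ⟨j, hj⟩ := (Nat.modEq_iff_dvd' h1').1 h1.symm
    have hj' : δ ^ (p - 1) = 1 + q * j := by omega
    have := charP_TT (p := p) (M := p ^ (b + 1)) (pow_pos hp.pos _)
    have : ExpChar (TT p (p ^ (b + 1))) p := ExpChar.prime hp
    apply sk_ext
    have h5 : (1 + ep p (p ^ (b + 1))) ^ (p ^ (b + 1)) = 1 := by
      rw [add_pow_expChar_pow, ep_pow, one_pow, add_zero]
    rw [sk_one_add, hj', pow_add (1 + ep p (p ^ (b + 1))) 1 (q * j),
      pow_mul (1 + ep p (p ^ (b + 1))) q j, hq, h5, one_pow, mul_one, pow_one]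
    rfl
  refine mem_of_inv_mod hp2 (pow_pos hp.pos b) (Nat.pow_le_pow_right hp.pos (Nat.le_succ b)) ?_
    hord hδ0 hδM H ((CT_le_UL b).trans le_sup_right) c ?_
  · intro i hi hib
    have h1 : p ^ (b + 1) = p ^ b * (p - 1) + p ^ b := by
      obtain ⟨r, rfl⟩ : ∃ r, p = r + 1 := ⟨p - 1, by omega⟩
      simp only [Nat.add_sub_cancel]
      ring
    have h2 : p - 1 ≤ p ^ b * (p - 1) := Nat.le_mul_of_pos_left _ (pow_pos hp.pos b)
    rw [h1]
    have h3 : (p - 1) * (i + 1) = (p - 1) * i + (p - 1) := by ring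
    omega
  · intro j
    rw [hδdef, ← pow_mul]
    exact hpow _

end Pool.Agent.Lib.MP_0e6cae_nt
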