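import Pool.Agent.Lib.MP_0e6cae_nt.Amb
import Pool.Agent.Lib.MP_0e6cae_nt.IndA

/-!
Invariant good ideal classes of `ℤ[X]/(X^(p^a) - 1)` are trivial.
-/

open Polynomial

namespace Pool.Agent.Lib.MP_0e6cae_nt

theorem mem_sup_span {J : Ideal ℤ[X]} {h x : ℤ[X]} :
    x ∈ J ⊔ Ideal.span {h} ↔ ∃ i ∈ J, h ∣ x - i := by
  constructor
  · intro hx
    obtain ⟨a, ha, b, hb, hab⟩ := Submodule.mem_sup.1 hx
    exact ⟨a, ha, by rw [← hab, add_sub_cancel_left]; exact Ideal.mem_span_singleton.1 hb⟩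
  · rintro ⟨i, hi, hd⟩
    have : x = i + (x - i) := by ring
    rw [this]
    exact Ideal.add_mem _ (Ideal.mem_sup_left hi) (Ideal.mem_sup_right (Ideal.mem_span_singleton.2 hd))

theorem mem_span_sup_span {A h x : ℤ[X]} :
    x ∈ Ideal.span {A} ⊔ Ideal.span {h} ↔ ∃ t, h ∣ x - A * t := by
  rw [mem_sup_span]
  constructor
  · rintro ⟨i, hi, hd⟩
    obtain ⟨t, rfl⟩ := Ideal.mem_span_singleton.1 hi
    exact ⟨t, hd⟩
  · rintro ⟨t, ht⟩
    exact ⟨A * t, Ideal.mul_mem_right _ _ (Ideal.mem_span_singleton_self A), ht⟩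

theorem span_sup_le {A B h : ℤ[X]} (t : ℤ[X]) (ht : h ∣ A - B * t) :
    Ideal.span {A} ⊔ Ideal.span {h} ≤ Ideal.span {B} ⊔ Ideal.span {h} := by
  refine sup_le ?_ le_sup_right
  rw [Ideal.span_singleton_le_iff_mem]
  exact mem_span_sup_span.2 ⟨t, ht⟩

/-- Ratio of two generators. -/
theorem exists_unit_ratio (h A B : ℤ[X]) (hm : h.Monic) (N : ℤ) (hN : N ≠ 0)
    (hNA : C N ∈ Ideal.span {A} ⊔ Ideal.span {h})
    (hAB : Ideal.span {A} ⊔ Ideal.span {h} = Ideal.span {B} ⊔ Ideal.span {h}) :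
    ∃ t t' : ℤ[X], h ∣ A - B * t ∧ h ∣ t * t' - 1 := by
  obtain ⟨t, ht⟩ := mem_span_sup_span.1 (hAB ▸ Ideal.mem_sup_left (Ideal.mem_span_singleton_self A) :
    A ∈ Ideal.span {B} ⊔ Ideal.span {h})
  obtain ⟨t', ht'⟩ := mem_span_sup_span.1 (hAB ▸ Ideal.mem_sup_left (Ideal.mem_span_singleton_self B) :
    B ∈ Ideal.span {A} ⊔ Ideal.span {h})
  obtain ⟨k, hk⟩ := mem_span_sup_span.1 hNA
  refine ⟨t, t', ht, ?_⟩
  have h1 : h ∣ C N * (t * t' - 1) := by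
    have e : C N * (t * t' - 1) = (C N - A * k) * (t * t' - 1) - k * (A - B * t) -
        k * t * (B - A * t') := by ring
    rw [e]
    exact dvd_sub (dvd_sub (hk.mul_right _) (ht.mul_left _)) (ht'.mul_left _)
  rw [← modByMonic_eq_zero_iff_dvd hm] at h1 ⊢
  rw [← smul_eq_C_mul, smul_modByMonic] at h1
  exact (smul_eq_zero.1 h1).resolve_left hN

theorem span_mul_unit {w u u' h : ℤ[X]} (hu : h ∣ u * u' - 1) :
    Ideal.span {w * u} ⊔ Ideal.span {h} = Ideal.span {w} ⊔ Ideal.span {h} := by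
  apply le_antisymm
  · exact span_sup_le u (by simp)
  · refine span_sup_le u' ?_
    have : w - w * u * u' = -(w * (u * u' - 1)) := by ring
    rw [this]
    exact (hu.mul_left _).neg_right

/-- Passing the invariance relation to a larger ideal. -/
theorem relation_sup {s : ℤ[X] →ₐ[ℤ] ℤ[X]} {I : Ideal ℤ[X]} {d : ℤ} {v M h : ℤ[X]}
    (hv : Ideal.span {C d} * I.map s ⊔ Ideal.span {M} = Ideal.span {v} * I ⊔ Ideal.span {M})
    (hM : h ∣ M) (hs : h ∣ s h) :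
    Ideal.span {C d} * (I ⊔ Ideal.span {h}).map s ⊔ Ideal.span {h} =
      Ideal.span {v} * (I ⊔ Ideal.span {h}) ⊔ Ideal.span {h} := by
  have h1 : Ideal.span {M} ≤ Ideal.span {h} := Ideal.span_singleton_le_span_singleton.2 hM
  have h2 : Ideal.span {C d} * Ideal.span {s h} ≤ Ideal.span {h} :=
    Ideal.mul_le_right.trans (Ideal.span_singleton_le_span_singleton.2 hs)
  have h3 : Ideal.span {v} * Ideal.span {h} ≤ Ideal.span {h} := Ideal.mul_le_right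
  have h4 : (I ⊔ Ideal.span {h}).map s = I.map s ⊔ Ideal.span {s h} := by
    rw [Ideal.map_sup, Ideal.map_span, Set.image_singleton]
  have h5 := congrArg (· ⊔ Ideal.span {h}) hv
  simp only [sup_assoc, sup_eq_right.2 h1] at h5
  rw [h4, Ideal.mul_sup, Ideal.mul_sup, sup_assoc, sup_assoc, sup_eq_right.2 h2, sup_eq_right.2 h3, h5]

/-- The relation for principal ideals. -/
theorem relation_gen {s : ℤ[X] →ₐ[ℤ] ℤ[X]} {d : ℤ} {v w h : ℤ[X]} (hs : h ∣ s h)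
    (hv : Ideal.span {C d} * (Ideal.span {w} ⊔ Ideal.span {h}).map s ⊔ Ideal.span {h} =
      Ideal.span {v} * (Ideal.span {w} ⊔ Ideal.span {h}) ⊔ Ideal.span {h}) :
    Ideal.span {C d * s w} ⊔ Ideal.span {h} = Ideal.span {v * w} ⊔ Ideal.span {h} := by
  have h2 : Ideal.span {C d} * Ideal.span {s h} ≤ Ideal.span {h} :=
    Ideal.mul_le_right.trans (Ideal.span_singleton_le_span_singleton.2 hs)
  have h3 : Ideal.span {v} * Ideal.span {h} ≤ Ideal.span {h} := Ideal.mul_le_right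
  rw [Ideal.map_sup, Ideal.map_span, Set.image_singleton, Ideal.map_span, Set.image_singleton,
    Ideal.mul_sup, Ideal.mul_sup, sup_assoc, sup_assoc, sup_eq_right.2 h2, sup_eq_right.2 h3,
    Ideal.span_singleton_mul_span_singleton, Ideal.span_singleton_mul_span_singleton] at hv
  exact hv

/-- Evaluation at `1`. -/
theorem eval_one_eq {g : ℕ} {I : Ideal ℤ[X]} {n : ℤ} (hn : n ≠ 0) (hnI : C n ∈ I) {d : ℤ} {v M : ℤ[X]}
    (hM : M.eval 1 = 0)
    (hv : Ideal.span {C d} * I.map (expand ℤ g : ℤ[X] →ₐ[ℤ] ℤ[X]) ⊔ Ideal.span {M} =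
      Ideal.span {v} * I ⊔ Ideal.span {M}) : v.eval 1 = d ∨ v.eval 1 = -d := by
  have h1 := congrArg (Ideal.map (evalRingHom (1 : ℤ))) hv
  have h2 : (I.map (expand ℤ g : ℤ[X] →ₐ[ℤ] ℤ[X])).map (evalRingHom (1 : ℤ)) =
      I.map (evalRingHom (1 : ℤ)) := by
    have : (evalRingHom (1 : ℤ)).comp ((expand ℤ g : ℤ[X] →ₐ[ℤ] ℤ[X]) : ℤ[X] →+* ℤ[X]) =
        evalRingHom (1 : ℤ) := by
      ext
      · simp
      · simp
    have e : I.map (expand ℤ g : ℤ[X] →ₐ[ℤ] ℤ[X]) =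
        I.map ((expand ℤ g : ℤ[X] →ₐ[ℤ] ℤ[X]) : ℤ[X] →+* ℤ[X]) := rfl
    rw [e, Ideal.map_map, this]
  rw [Ideal.map_sup, Ideal.map_sup, Ideal.map_mul, Ideal.map_mul, h2, Ideal.map_span, Ideal.map_span,
    Ideal.map_span, Set.image_singleton, Set.image_singleton, Set.image_singleton] at h1
  simp only [coe_evalRingHom, eval_C, hM] at h1
  obtain ⟨n0, hn0⟩ := (IsPrincipalIdealRing.principal (I.map (evalRingHom (1 : ℤ)))).principal
  rw [hn0] at h1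
  have hn0' : n0 ≠ 0 := by
    rintro rfl
    have h3 : eval 1 (C n : ℤ[X]) ∈ I.map (evalRingHom (1 : ℤ)) := Ideal.mem_map_of_mem (evalRingHom (1 : ℤ)) hnI
    rw [hn0, eval_C] at h3
    simp at h3
    exact hn h3
  change Ideal.span {d} * Ideal.span {n0} ⊔ Ideal.span {0} = Ideal.span {eval 1 v} * Ideal.span {n0} ⊔
    Ideal.span {0} at h1
  rw [Ideal.span_singleton_mul_span_singleton, Ideal.span_singleton_mul_span_singleton,
    Ideal.span_singleton_zero, sup_bot_eq, sup_bot_eq, Ideal.span_singleton_eq_span_singleton] at h1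
  have h4 : Associated d (eval 1 v) := by
    obtain ⟨u, hu⟩ := h1
    refine ⟨u, ?_⟩
    have : n0 * (d * u) = n0 * eval 1 v := by linear_combination hu
    exact mul_left_cancel₀ hn0' this
  rcases Int.associated_iff.1 h4 with h | h
  · exact Or.inl h.symm
  · right; rw [h]; ring

theorem rho_C {p m : ℕ} (n : ℤ) : rho p m (C n) = (n : TT p m) := by
  rw [show (C n : ℤ[X]) = algebraMap ℤ ℤ[X] n from rfl, AlgHom.commutes]
  simp

theorem isUnit_intCast {p m : ℕ} [Fact p.Prime] {n : ℤ} (hn : ¬ (p : ℤ) ∣ n) :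
    IsUnit (n : TT p m) := by
  have : IsUnit (n : ZMod p) := by
    rw [isUnit_iff_ne_zero, Ne, ZMod.intCast_zmod_eq_zero_iff_dvd]
    exact hn
  have h3 := this.map (algebraMap (ZMod p) (TT p m))
  rwa [map_intCast] at h3

/-- the coprimality of the two factors -/
theorem lcm_dvd {p : ℕ} (hp : p.Prime) (b : ℕ) (x : ℤ[X]) (h1 : (X : ℤ[X]) ^ (p ^ b) - 1 ∣ x)
    (h2 : cyclotomic (p ^ (b + 1)) ℤ ∣ x) :
    ((X : ℤ[X]) ^ (p ^ b) - 1) * cyclotomic (p ^ (b + 1)) ℤ ∣ x := by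
  have hq : 0 < p ^ (b + 1) := pow_pos hp.pos _
  obtain ⟨y, rfl⟩ := h1
  have hprime : Prime (cyclotomic (p ^ (b + 1)) ℤ) := (cyclotomic.irreducible hq).prime
  rcases hprime.dvd_or_dvd h2 with h | h
  · exfalso
    have hζ := Complex.isPrimitiveRoot_exp (p ^ (b + 1)) hq.ne'
    set ζ := Complex.exp (2 * Real.pi * Complex.I / (p ^ (b + 1) : ℕ)) with hζdef
    have h3 := hζ.isRoot_cyclotomic hq
    obtain ⟨t, ht⟩ := h
    have h4 := congrArg (aeval ζ) ht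
    rw [map_mul, map_sub, map_pow, aeval_X, map_one] at h4
    have h5 : aeval ζ (cyclotomic (p ^ (b + 1)) ℤ) = 0 := by
      rw [aeval_def, ← eval_map, map_cyclotomic]; exact h3
    rw [h5, zero_mul, sub_eq_zero] at h4
    have h6 := hζ.dvd_of_pow_eq_one _ h4
    have h7 := (Nat.pow_dvd_pow_iff_le_right hp.one_lt).1 h6
    omega
  · exact mul_dvd_mul_left _ h

/-- The step of the induction. -/
theorem principal_step (p b : ℕ) [Fact p.Prime] (hp2 : p ≠ 2) (g : ℕ)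
    (hg : ∀ u : (ZMod (p ^ (b + 1)))ˣ, ∃ j : ℕ, (u : ZMod (p ^ (b + 1))) = (g : ZMod (p ^ (b + 1))) ^ j)
    (hgq : Nat.Coprime g (p ^ (b + 1)))
    (I : Ideal ℤ[X]) (hI : X ^ (p ^ (b + 1)) - 1 ∈ I) (n : ℤ) (hn : ¬ (p : ℤ) ∣ n) (hnI : C n ∈ I)
    (d : ℤ) (v : ℤ[X]) (hd : ¬ (p : ℤ) ∣ d)
    (hv : Ideal.span {C d} * I.map (expand ℤ g : ℤ[X] →ₐ[ℤ] ℤ[X]) ⊔
        Ideal.span {X ^ (p ^ (b + 1)) - 1} =
      Ideal.span {v} * I ⊔ Ideal.span {X ^ (p ^ (b + 1)) - 1})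
    (w1 w2 : ℤ[X])
    (h1 : I ⊔ Ideal.span {X ^ (p ^ b) - 1} = Ideal.span {w1} ⊔ Ideal.span {X ^ (p ^ b) - 1})
    (h2 : I ⊔ Ideal.span {cyclotomic (p ^ (b + 1)) ℤ} =
      Ideal.span {w2} ⊔ Ideal.span {cyclotomic (p ^ (b + 1)) ℤ}) :
    ∃ w : ℤ[X], I = Ideal.span {w} ⊔ Ideal.span {X ^ (p ^ (b + 1)) - 1} := by
  have hp := (Fact.out : p.Prime)
  have hq : 0 < p ^ (b + 1) := pow_pos hp.pos _
  set f : ℤ[X] := X ^ (p ^ b) - 1 with hf
  set Φ : ℤ[X] := cyclotomic (p ^ (b + 1)) ℤ with hΦ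
  have hmod : (X : ℤ[X]) ^ (p ^ (b + 1)) - 1 = f * Φ := modulus_succ hp b
  have hfm : f.Monic := monic_X_pow_sub_C 1 (pow_pos hp.pos b).ne'
  have hΦm : Φ.Monic := cyclotomic.monic _ _
  have hfs : f ∣ (expand ℤ g : ℤ[X] →ₐ[ℤ] ℤ[X]) f := modulus_dvd_expand _ _
  have hΦs : Φ ∣ (expand ℤ g : ℤ[X] →ₐ[ℤ] ℤ[X]) Φ := cyclo_dvd_expand hq hgq
  have hn0 : n ≠ 0 := by rintro rfl; exact hn (dvd_zero _)
  have hd0 : d ≠ 0 := by rintro rfl; exact hd (dvd_zero _)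
  rw [hmod] at hI hv ⊢
  -- for a factor h and a generator w
  have main : ∀ (h w : ℤ[X]), h.Monic → h ∣ f * Φ → h ∣ (expand ℤ g : ℤ[X] →ₐ[ℤ] ℤ[X]) h →
      rho p (p ^ b) h = 0 → I ⊔ Ideal.span {h} = Ideal.span {w} ⊔ Ideal.span {h} →
      ∃ (wu : (TT p (p ^ b))ˣ) (t t' : ℤ[X]), rho p (p ^ b) w = wu ∧ h ∣ t * t' - 1 ∧
        (d : TT p (p ^ b)) * sk p (p ^ b) g wu = rho p (p ^ b) v * wu * rho p (p ^ b) t := by
    intro h w hm hh hs hr hw
    have e1 := relation_sup hv hh hs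
    rw [hw] at e1
    have e2 := relation_gen hs e1
    have e3 : C n ∈ Ideal.span {w} ⊔ Ideal.span {h} := hw ▸ Ideal.mem_sup_left hnI
    obtain ⟨k, hk⟩ := mem_span_sup_span.1 e3
    have e4 : C (d * n) ∈ Ideal.span {C d * (expand ℤ g : ℤ[X] →ₐ[ℤ] ℤ[X]) w} ⊔ Ideal.span {h} := by
      refine mem_span_sup_span.2 ⟨(expand ℤ g : ℤ[X] →ₐ[ℤ] ℤ[X]) k, ?_⟩
      obtain ⟨r, hr⟩ := hk
      have e5 := congrArg (expand ℤ g : ℤ[X] →ₐ[ℤ] ℤ[X]) hr
      rw [map_sub, map_mul, map_mul, expand_C] at e5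
      have e6 : C (d * n) - C d * (expand ℤ g : ℤ[X] →ₐ[ℤ] ℤ[X]) w * (expand ℤ g : ℤ[X] →ₐ[ℤ] ℤ[X]) k =
          C d * ((expand ℤ g : ℤ[X] →ₐ[ℤ] ℤ[X]) h * (expand ℤ g : ℤ[X] →ₐ[ℤ] ℤ[X]) r) := by
        rw [← e5, C_mul]; ring
      rw [e6]
      exact (hs.mul_right _).mul_left _
    obtain ⟨t, t', ht, htt⟩ := exists_unit_ratio h _ _ hm (d * n) (mul_ne_zero hd0 hn0) e4 e2
    have hwu : IsUnit (rho p (p ^ b) w) := by
      obtain ⟨r, hr'⟩ := hk
      have e5 := congrArg (rho p (p ^ b)) hr'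
      rw [map_mul, hr, zero_mul, map_sub, map_mul, rho_C, sub_eq_zero] at e5
      exact isUnit_of_mul_isUnit_left (e5 ▸ isUnit_intCast hn)
    refine ⟨hwu.unit, t, t', rfl, htt, ?_⟩
    obtain ⟨r, hr'⟩ := ht
    have e5 := congrArg (rho p (p ^ b)) hr'
    rw [map_mul, hr, zero_mul, map_sub, map_mul, map_mul, map_mul, rho_C, sub_eq_zero] at e5
    rw [IsUnit.unit_spec, ← rho_expand]
    exact e5
  obtain ⟨u1, t1, t1', hu1, ht1, hr1⟩ := main f w1 hfm (dvd_mul_right _ _) hfs (rho_modulus b) h1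
  obtain ⟨u2, t2, t2', hu2, ht2, hr2⟩ := main Φ w2 hΦm (dvd_mul_left _ _) hΦs (rho_cyclo b) h2
  -- units
  have hlift : ∀ (h t t' : ℤ[X]), rho p (p ^ b) h = 0 → h ∣ t * t' - 1 →
      rho p (p ^ b) t * rho p (p ^ b) t' = 1 := by
    intro h t t' hr htt
    obtain ⟨r, hr'⟩ := htt
    have e5 := congrArg (rho p (p ^ b)) hr'
    rw [map_mul, hr, zero_mul, map_sub, map_mul, map_one, sub_eq_zero] at e5
    exact e5
  have hT1 := hlift f t1 t1' (rho_modulus b) ht1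
  have hT2 := hlift Φ t2 t2' (rho_cyclo b) ht2
  set T1 : (TT p (p ^ b))ˣ := ⟨_, _, hT1, by rw [mul_comm]; exact hT1⟩ with hT1def
  set T2 : (TT p (p ^ b))ˣ := ⟨_, _, hT2, by rw [mul_comm]; exact hT2⟩ with hT2def
  have hDu : IsUnit (d : TT p (p ^ b)) := isUnit_intCast hd
  have hVu : IsUnit (rho p (p ^ b) v) := by
    have e1 : IsUnit ((d : TT p (p ^ b)) * sk p (p ^ b) g u1) :=
      hDu.mul ((skU p (p ^ b) g u1).isUnit)
    rw [hr1, mul_assoc] at e1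
    exact isUnit_of_mul_isUnit_left e1
  have hR1 : hDu.unit * skU p (p ^ b) g u1 = hVu.unit * u1 * T1 := by
    ext; exact hr1
  have hR2 : hDu.unit * skU p (p ^ b) g u2 = hVu.unit * u2 * T2 := by
    ext; exact hr2
  have hc : skU p (p ^ b) g (u1 / u2) / (u1 / u2) = T1 * T2⁻¹ := by
    rw [_root_.map_div]
    have e1 : skU p (p ^ b) g u1 = hDu.unit⁻¹ * (hVu.unit * u1 * T1) := by
      rw [← hR1, inv_mul_cancel_left]
    have e2 : skU p (p ^ b) g u2 = hDu.unit⁻¹ * (hVu.unit * u2 * T2) := by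
      rw [← hR2, inv_mul_cancel_left]
    rw [e1, e2, mul_div_mul_left_eq_div, mul_assoc, mul_assoc, mul_div_mul_left_eq_div,
      mul_div_mul_comm, mul_comm, mul_div_assoc, div_self', mul_one, div_eq_mul_inv]
  have hcH : u1 / u2 ∈ UL p (p ^ b) (X ^ (p ^ b) - 1) (rho_modulus b) ⊔
      UL p (p ^ b) (cyclotomic (p ^ (b + 1)) ℤ) (rho_cyclo b) := by
    refine mem_sup_of_inv hp2 b g hg _ ?_
    rw [hc]
    refine mul_mem (Subgroup.mem_sup_left ⟨t1, t1', rfl, ht1⟩)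
      (inv_mem (Subgroup.mem_sup_right ⟨t2, t2', rfl, ht2⟩))
  obtain ⟨a1, ⟨f1, f1', hf1, hf1'⟩, a2, ⟨f2, f2', hf2, hf2'⟩, ha⟩ := Subgroup.mem_sup.1 hcH
  -- corrected generators
  have hL1 := hlift f f1 f1' (rho_modulus b) hf1'
  have heq : rho p (p ^ b) (w1 * f1') = rho p (p ^ b) (w2 * f2) := by
    rw [map_mul, map_mul, hu1, hu2, hf2]
    have e1 : (u1 : TT p (p ^ b)) = a1 * a2 * u2 := by
      have : u1 = a1 * a2 * u2 := by rw [ha, div_mul_cancel]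
      rw [this]; rfl
    rw [hf1] at hL1
    calc (u1 : TT p (p ^ b)) * rho p (p ^ b) f1' = (a1 * rho p (p ^ b) f1') * (a2 * u2) := by
          rw [e1]; ring
      _ = _ := by rw [hL1]; ring
  have hker : rho p (p ^ b) (w1 * f1' - w2 * f2) = 0 := by rw [map_sub, heq, sub_self]
  obtain ⟨s0, s1, hs⟩ := rho_ker b _ hker
  obtain ⟨e, he⟩ := modulus_dvd_cyclo_sub hp b
  have hs' : w1 * f1' - w2 * f2 = Φ * s0 + f * (s1 - e * s0) := by
    rw [hs, hΦ, hf]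
    linear_combination (-s0) * he
  set W := w1 * f1' - f * (s1 - e * s0) with hW
  have hW2 : W = w2 * f2 + Φ * s0 := by rw [hW]; linear_combination hs'
  have hf1c : f ∣ f1' * f1 - 1 := by rw [mul_comm]; exact hf1'
  have k1 : I ⊔ Ideal.span {f} = Ideal.span {W} ⊔ Ideal.span {f} := by
    rw [h1, ← span_mul_unit (w := w1) hf1c]
    apply le_antisymm
    · exact span_sup_le 1 (by rw [hW]; exact ⟨s1 - e * s0, by ring⟩)
    · exact span_sup_le 1 (by rw [hW]; exact ⟨-(s1 - e * s0), by ring⟩)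
  have k2 : I ⊔ Ideal.span {Φ} = Ideal.span {W} ⊔ Ideal.span {Φ} := by
    rw [h2, ← span_mul_unit (w := w2) hf2']
    apply le_antisymm
    · exact span_sup_le 1 (by rw [hW2]; exact ⟨-s0, by ring⟩)
    · exact span_sup_le 1 (by rw [hW2]; exact ⟨s0, by ring⟩)
  refine ⟨W, principal_glue p hp f Φ ?_ (lcm_dvd hp b) I hI n hn hnI W k1 k2⟩
  have : C (p : ℤ) = f * (-e) + Φ * 1 := by rw [hf, hΦ]; linear_combination -he
  rw [this]
  exact Ideal.add_mem _ (Ideal.mem_sup_left (Ideal.mul_mem_right _ _ (Ideal.mem_span_singleton_self f)))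
    (Ideal.mem_sup_right (Ideal.mul_mem_right _ _ (Ideal.mem_span_singleton_self Φ)))

/-- Base of the induction. -/
theorem principal_base (I : Ideal ℤ[X]) (hI : (X : ℤ[X]) ^ (1 : ℕ) - 1 ∈ I) :
    ∃ w : ℤ[X], I = Ideal.span {w} ⊔ Ideal.span {X ^ (1 : ℕ) - 1} := by
  obtain ⟨n0, hn0⟩ := (IsPrincipalIdealRing.principal (I.map (evalRingHom (1 : ℤ)))).principal
  have hsurj : Function.Surjective (evalRingHom (1 : ℤ)) := fun c => ⟨C c, by simp⟩
  have hdiv : ∀ y : ℤ[X], (X : ℤ[X]) ^ (1 : ℕ) - 1 ∣ y - C (y.eval 1) := by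
    intro y
    rw [pow_one, ← C_1, dvd_iff_isRoot]
    simp
  refine ⟨C n0, le_antisymm ?_ ?_⟩
  · intro x hx
    have h1 : x.eval 1 ∈ Ideal.span {n0} := by
      have := Ideal.mem_map_of_mem (evalRingHom (1 : ℤ)) hx
      rw [hn0] at this
      exact this
    obtain ⟨t, ht⟩ := Ideal.mem_span_singleton.1 h1
    refine mem_span_sup_span.2 ⟨C t, ?_⟩
    rw [← C_mul, ← ht]
    exact hdiv x
  · refine sup_le ?_ (by rwa [Ideal.span_singleton_le_iff_mem])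
    rw [Ideal.span_singleton_le_iff_mem]
    have h1 : n0 ∈ I.map (evalRingHom (1 : ℤ)) := by
      rw [hn0]; exact Ideal.mem_span_singleton_self n0
    obtain ⟨y, hy, hy'⟩ := (Ideal.mem_map_iff_of_surjective _ hsurj).1 h1
    obtain ⟨t, ht⟩ := hdiv y
    have h2 : y.eval 1 = n0 := hy'
    have : C n0 = y - (X ^ (1 : ℕ) - 1) * t := by rw [← ht, h2]; ring
    rw [this]
    exact Ideal.sub_mem _ hy (Ideal.mul_mem_right _ _ hI)

/-- reduction of primitive roots -/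
theorem prim_root_reduce {p b g : ℕ} (hp : p.Prime)
    (hg : ∀ u : (ZMod (p ^ (b + 1)))ˣ, ∃ j : ℕ, (u : ZMod (p ^ (b + 1))) = (g : ZMod (p ^ (b + 1))) ^ j)
    {k : ℕ} (hk : k ≤ b + 1) :
    ∀ u : (ZMod (p ^ k))ˣ, ∃ j : ℕ, (u : ZMod (p ^ k)) = (g : ZMod (p ^ k)) ^ j := by
  intro u
  have hd : p ^ k ∣ p ^ (b + 1) := pow_dvd_pow p hk
  have : NeZero (p ^ (b + 1)) := ⟨(pow_pos hp.pos _).ne'⟩
  obtain ⟨v, hv⟩ := ZMod.unitsMap_surjective hd u
  obtain ⟨j, hj⟩ := hg v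
  refine ⟨j, ?_⟩
  have h5 := map_pow (ZMod.castHom hd (ZMod (p ^ k))) (g : ZMod (p ^ (b + 1))) j
  rw [map_natCast, ← hj] at h5
  rw [← h5, ← hv]
  rfl

theorem prim_root_coprime {p b g : ℕ} (hp : p.Prime) (hp2 : p ≠ 2)
    (hg : ∀ u : (ZMod (p ^ (b + 1)))ˣ, ∃ j : ℕ, (u : ZMod (p ^ (b + 1))) = (g : ZMod (p ^ (b + 1))) ^ j) :
    Nat.Coprime g (p ^ (b + 1)) := by
  have hp2' := hp.two_le
  obtain ⟨j, hj⟩ := hg (-1)
  have hj0 : j ≠ 0 := by
    rintro rfl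
    rw [pow_zero] at hj
    have h1 : (-1 : ZMod (p ^ (b + 1))) = 1 := by simpa using hj
    have h2 : ((2 : ℕ) : ZMod (p ^ (b + 1))) = 0 := by
      push_cast
      linear_combination -h1
    rw [ZMod.natCast_eq_zero_iff] at h2
    have h3 : p ∣ 2 := (dvd_pow_self p (by omega)).trans h2
    have := Nat.le_of_dvd (by omega) h3
    omega
  have h4 : IsUnit ((g : ZMod (p ^ (b + 1))) ^ j) := by rw [← hj]; exact Units.isUnit _
  exact (ZMod.isUnit_iff_coprime g _).1 ((isUnit_pow_iff hj0).1 h4)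

/-- If `d σ(I) = v I` modulo `X^(p^a) - 1`, where `σ : X ↦ X^g`, `g` a primitive root modulo all
powers of `p` up to `p^a`, `d` and an element of `I` being integers prime to `p`, then `I` is
principal modulo `X^(p^a) - 1`. -/
theorem principal_poly (p a : ℕ) (hp : p.Prime) (hp2 : p ≠ 2) (g : ℕ)
    (hg : ∀ u : (ZMod (p ^ (a + 1)))ˣ, ∃ j : ℕ, (u : ZMod (p ^ (a + 1))) = (g : ZMod (p ^ (a + 1))) ^ j)
    (I : Ideal ℤ[X]) (hI : X ^ (p ^ a) - 1 ∈ I) (n : ℤ) (hn : ¬ (p : ℤ) ∣ n) (hnI : C n ∈ I)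
    (d : ℤ) (v : ℤ[X]) (hd : ¬ (p : ℤ) ∣ d)
    (hv : Ideal.span {C d} * I.map (expand ℤ g : ℤ[X] →ₐ[ℤ] ℤ[X]) ⊔
        Ideal.span {X ^ (p ^ a) - 1} =
      Ideal.span {v} * I ⊔ Ideal.span {X ^ (p ^ a) - 1}) :
    ∃ w : ℤ[X], I = Ideal.span {w} ⊔ Ideal.span {X ^ (p ^ a) - 1} := by
  have : Fact p.Prime := ⟨hp⟩
  have hn0 : n ≠ 0 := by rintro rfl; exact hn (dvd_zero _)
  induction a generalizing I with
  | zero =>
    rw [pow_zero] at hI ⊢
    exact principal_base I hI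
  | succ b ih =>
    have hgb := prim_root_reduce hp hg (k := b + 1) (by omega)
    have hgc := prim_root_coprime hp hp2 hgb
    have hmod := modulus_succ hp b
    obtain ⟨w1, h1⟩ := ih hgb (I ⊔ Ideal.span {X ^ (p ^ b) - 1})
      (Ideal.mem_sup_right (Ideal.mem_span_singleton_self _)) (Ideal.mem_sup_left hnI)
      (relation_sup hv (by rw [hmod]; exact dvd_mul_right _ _) (modulus_dvd_expand _ _))
    have hv1 := eval_one_eq hn0 hnI (M := X ^ (p ^ (b + 1)) - 1) (by simp) hv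
    obtain ⟨w2, h2⟩ := amb_cyclotomic p (b + 1) hp hp2 (by omega) g hgb
      (I ⊔ Ideal.span {cyclotomic (p ^ (b + 1)) ℤ})
      (Ideal.mem_sup_right (Ideal.mem_span_singleton_self _)) n hn (Ideal.mem_sup_left hnI) d v hd
      (relation_sup hv (by rw [hmod]; exact dvd_mul_left _ _)
        (cyclo_dvd_expand (pow_pos hp.pos _) hgc)) (by
        rcases hv1 with h | h
        · left; rw [h]; simp
        · right; rw [h]; simp)
    exact principal_step p b hp2 g hgb hgc I hI n hn hnI d v hd hv w1 w2 h1 h2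

end Pool.Agent.Lib.MP_0e6cae_nt
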