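import Pool.Agent.Lib.MP_0e6cae_nt.AmbI

/-!
Good ideals of `ℤ[X]/(X^(p^a) - 1)` are invertible.
-/

open Polynomial

namespace Pool.Agent.Lib.MP_0e6cae_nt

/-- One half of the gluing step. -/
theorem inv_glue_aux (f g : ℤ[X]) (I J : Ideal ℤ[X]) (n : ℤ)
    (hJ : ∀ K : Ideal ℤ[X], I * K ≤ Ideal.span {C n} ⊔ Ideal.span {f * g} → K ≤ J)
    (h1 : ∃ J : Ideal ℤ[X], (I ⊔ Ideal.span {f}) * J ⊔ Ideal.span {f} =
      Ideal.span {C n} ⊔ Ideal.span {f}) :
    C n * g ∈ I * J ⊔ Ideal.span {f * g} := by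
  obtain ⟨J₁, h⟩ := h1
  have hIJ : I * J₁ ⊔ Ideal.span {f} = Ideal.span {C n} ⊔ Ideal.span {f} := by
    rw [← h, Ideal.sup_mul]
    refine le_antisymm (sup_le_sup_right le_sup_left _) (sup_le (sup_le le_sup_left ?_)
      le_sup_right)
    exact Ideal.mul_le_left.trans le_sup_right
  have h2 : Ideal.span {g} * (I * J₁) ≤ Ideal.span {C n} ⊔ Ideal.span {f * g} := by
    have h3 : I * J₁ ≤ Ideal.span {C n} ⊔ Ideal.span {f} := hIJ ▸ le_sup_left
    refine (Ideal.mul_mono_right h3).trans ?_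
    rw [Ideal.mul_sup, Ideal.span_singleton_mul_span_singleton g f, mul_comm g f]
    exact sup_le_sup_right Ideal.mul_le_right _
  have h4 : Ideal.span {g} * J₁ ≤ J := by
    refine hJ _ ?_
    rw [← mul_assoc, mul_comm I (Ideal.span {g}), mul_assoc]
    exact h2
  have h5 : C n ∈ I * J₁ ⊔ Ideal.span {f} := by
    rw [hIJ]
    exact Ideal.mem_sup_left (Ideal.mem_span_singleton_self _)
  have h6 : C n * g ∈ (I * J₁ ⊔ Ideal.span {f}) * Ideal.span {g} :=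
    Ideal.mul_mem_mul h5 (Ideal.mem_span_singleton_self _)
  rw [Ideal.sup_mul, Ideal.span_singleton_mul_span_singleton, mul_assoc,
    mul_comm J₁ (Ideal.span {g})] at h6
  exact sup_le_sup_right (Ideal.mul_mono_right h4) _ h6

/-- Gluing step, `f g` = modulus, `p ∈ (f) + (g)`. -/
theorem inv_glue (p : ℕ) (f g : ℤ[X]) (hfg : C (p : ℤ) ∈ Ideal.span {f} ⊔ Ideal.span {g})
    (I : Ideal ℤ[X]) (hI : f * g ∈ I) (n : ℤ) (hn : ¬ (p : ℤ) ∣ n) (hp : p.Prime) (hnI : C n ∈ I)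
    (h1 : ∃ J : Ideal ℤ[X], (I ⊔ Ideal.span {f}) * J ⊔ Ideal.span {f} =
      Ideal.span {C n} ⊔ Ideal.span {f})
    (h2 : ∃ J : Ideal ℤ[X], (I ⊔ Ideal.span {g}) * J ⊔ Ideal.span {g} =
      Ideal.span {C n} ⊔ Ideal.span {g}) :
    ∃ J : Ideal ℤ[X], I * J ⊔ Ideal.span {f * g} = Ideal.span {C n} ⊔ Ideal.span {f * g} := by
  obtain ⟨J, hJ1, hJ⟩ : ∃ J : Ideal ℤ[X], I * J ≤ Ideal.span {C n} ⊔ Ideal.span {f * g} ∧
      ∀ K : Ideal ℤ[X], I * K ≤ Ideal.span {C n} ⊔ Ideal.span {f * g} → K ≤ J := by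
    refine ⟨sSup {K | I * K ≤ Ideal.span {C n} ⊔ Ideal.span {f * g}}, ?_, fun K hK =>
      le_sSup hK⟩
    rw [Ideal.mul_le]
    intro r hr s hs
    have hle : sSup {K | I * K ≤ Ideal.span {C n} ⊔ Ideal.span {f * g}} ≤
        Submodule.comap (LinearMap.mulLeft ℤ[X] r) (Ideal.span {C n} ⊔ Ideal.span {f * g}) := by
      refine sSup_le ?_
      intro K hK x hx
      exact hK (Ideal.mul_mem_mul hr hx)
    exact hle hs
  refine ⟨J, le_antisymm (sup_le hJ1 le_sup_right) (sup_le ?_ le_sup_right)⟩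
  rw [Ideal.span_singleton_le_iff_mem]
  have e1 : C n * g ∈ I * J ⊔ Ideal.span {f * g} := inv_glue_aux f g I J n hJ h1
  have e2 : C n * f ∈ I * J ⊔ Ideal.span {f * g} := by
    have h := inv_glue_aux g f I J n (by rw [mul_comm g f]; exact hJ) h2
    rwa [mul_comm g f] at h
  have e3 : C n * C n ∈ I * J ⊔ Ideal.span {f * g} := by
    refine Ideal.mem_sup_left (Ideal.mul_mem_mul hnI ?_)
    have : Ideal.span {C n} ≤ J := hJ _ (Ideal.mul_le_right.trans le_sup_left)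
    exact this (Ideal.mem_span_singleton_self _)
  have e4 : C n * C (p : ℤ) ∈ I * J ⊔ Ideal.span {f * g} := by
    obtain ⟨x, hx, y, hy, hxy⟩ := Submodule.mem_sup.1 hfg
    obtain ⟨u, rfl⟩ := Ideal.mem_span_singleton'.1 hx
    obtain ⟨v, rfl⟩ := Ideal.mem_span_singleton'.1 hy
    rw [← hxy]
    have : C n * (u * f + v * g) = u * (C n * f) + v * (C n * g) := by ring
    rw [this]
    exact Ideal.add_mem _ (Ideal.mul_mem_left _ _ e2) (Ideal.mul_mem_left _ _ e1)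
  have hco : IsCoprime n (p : ℤ) :=
    (((Nat.prime_iff_prime_int.1 hp).coprime_iff_not_dvd).2 hn).symm
  obtain ⟨a, b, hab⟩ := hco
  have e5 : C n = C a * (C n * C n) + C b * (C n * C (p : ℤ)) := by
    rw [← C_mul, ← C_mul, ← C_mul, ← C_mul, ← C_add]
    congr 1
    linear_combination (-n) * hab
  rw [e5]
  exact Ideal.add_mem _ (Ideal.mul_mem_left _ _ e3) (Ideal.mul_mem_left _ _ e4)

/-- The quotient `ℤ = ℤ[X]/(X - 1)`. -/
theorem inv_poly_zero (I : Ideal ℤ[X]) (n : ℤ) (hnI : C n ∈ I) :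
    ∃ J : Ideal ℤ[X], I * J ⊔ Ideal.span {X - 1} =
      Ideal.span {C n} ⊔ Ideal.span {X - 1} := by
  have hf : Function.Surjective (evalRingHom (1 : ℤ)) := fun z => ⟨C z, by simp⟩
  have hk : RingHom.ker (evalRingHom (1 : ℤ)) = Ideal.span {X - 1} := by
    rw [ker_evalRingHom, C_1]
  have hfn : evalRingHom (1 : ℤ) (C n) ∈ I.map (evalRingHom (1 : ℤ)) :=
    Ideal.mem_map_of_mem _ hnI
  obtain ⟨J', hJ'⟩ : I.map (evalRingHom (1 : ℤ)) ∣ Ideal.span {evalRingHom (1 : ℤ) (C n)} := by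
    rw [Ideal.dvd_iff_le, Ideal.span_singleton_le_iff_mem]
    exact hfn
  refine ⟨J'.comap (evalRingHom (1 : ℤ)), ?_⟩
  have e : (I * J'.comap (evalRingHom (1 : ℤ))).map (evalRingHom (1 : ℤ)) =
      (Ideal.span {C n}).map (evalRingHom (1 : ℤ)) := by
    rw [Ideal.map_mul, Ideal.map_comap_of_surjective _ hf, Ideal.map_span, Set.image_singleton,
      ← hJ']
  have h1 := Ideal.comap_map_of_surjective _ hf (I * J'.comap (evalRingHom (1 : ℤ)))
  have h2 := Ideal.comap_map_of_surjective _ hf (Ideal.span {C n})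
  rw [← hk]
  rw [e] at h1
  exact h1.symm.trans h2

theorem inv_poly (p a : ℕ) (hp : p.Prime) (I : Ideal ℤ[X]) (hI : X ^ (p ^ a) - 1 ∈ I) (n : ℤ)
    (hn : ¬ (p : ℤ) ∣ n) (hnI : C n ∈ I) :
    ∃ J : Ideal ℤ[X], I * J ⊔ Ideal.span {X ^ (p ^ a) - 1} =
      Ideal.span {C n} ⊔ Ideal.span {X ^ (p ^ a) - 1} := by
  induction a generalizing I with
  | zero =>
    rw [pow_zero, pow_one]
    exact inv_poly_zero I n hnI
  | succ a ih =>
    have hpF : Fact p.Prime := ⟨hp⟩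
    have hmul : (X ^ (p ^ a) - 1 : ℤ[X]) * cyclotomic (p ^ (a + 1)) ℤ = X ^ (p ^ (a + 1)) - 1 := by
      rw [mul_comm]
      exact cyclotomic_prime_pow_mul_X_pow_sub_one ℤ p a
    have hn0 : n ≠ 0 := by
      rintro rfl
      exact hn (dvd_zero _)
    rw [← hmul] at hI ⊢
    refine inv_glue p _ _ ?_ I hI n hn hp hnI ?_ ?_
    · have hg : (cyclotomic (p ^ (a + 1)) ℤ) =
          ∑ i ∈ Finset.range p, (X ^ (p ^ a) : ℤ[X]) ^ i :=
        cyclotomic_prime_pow_eq_geom_sum hp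
      have hd : (X ^ (p ^ a) - 1 : ℤ[X]) ∣ C (p : ℤ) - cyclotomic (p ^ (a + 1)) ℤ := by
        have : C (p : ℤ) - cyclotomic (p ^ (a + 1)) ℤ =
            ∑ i ∈ Finset.range p, (1 - (X ^ (p ^ a) : ℤ[X]) ^ i) := by
          rw [Finset.sum_sub_distrib, hg]
          simp
        rw [this]
        refine Finset.dvd_sum fun i _ => ?_
        rw [← neg_sub ((X ^ (p ^ a) : ℤ[X]) ^ i) 1, dvd_neg]
        exact sub_one_dvd_pow_sub_one _ i
      obtain ⟨c, hc⟩ := hd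
      refine Submodule.mem_sup.2 ⟨(X ^ (p ^ a) - 1) * c, ?_, cyclotomic (p ^ (a + 1)) ℤ,
        Ideal.mem_span_singleton_self _, ?_⟩
      · exact Ideal.mul_mem_right _ _ (Ideal.mem_span_singleton_self _)
      · rw [← hc]
        ring
    · exact ih _ (Ideal.mem_sup_right (Ideal.mem_span_singleton_self _))
        (Ideal.mem_sup_left hnI)
    · exact inv_cyclotomic p (a + 1) hp (Nat.le_add_left 1 a) _
        (Ideal.mem_sup_right (Ideal.mem_span_singleton_self _)) n hn0 (Ideal.mem_sup_left hnI)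

end Pool.Agent.Lib.MP_0e6cae_nt
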