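import Pool.Agent.Lib.MP_0e6cae_nt.Proj

/-!
Computations in `K₀(R)`.
-/

open CategoryTheory

namespace Pool.Agent.Lib.MP_0e6cae_nt

/-- The class of a short exact sequence. -/
theorem K0.mk_exact {R : Type} [Ring R] {M' M M'' : FPMod R} (f : M'.carrier →ₗ[R] M.carrier)
    (g : M.carrier →ₗ[R] M''.carrier) (hf : Function.Injective f) (hfg : Function.Exact f g)
    (hg : Function.Surjective g) : K0.mk M = K0.mk M' + K0.mk M'' := by
  have h : FreeAbelianGroup.of M - FreeAbelianGroup.of M' - FreeAbelianGroup.of M'' ∈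
      AddSubgroup.closure (K0Rel R) :=
    AddSubgroup.subset_closure ⟨M', M, M'', f, g, hf, hfg, hg, rfl⟩
  have h2 : K0.mk M - K0.mk M' - K0.mk M'' = 0 := (QuotientAddGroup.eq_zero_iff _).2 h
  rw [sub_sub, sub_eq_zero] at h2
  exact h2

/-- The zero module. -/
def k0z (R : Type) [Ring R] : FPMod R where
  carrier := PUnit
  fg := inferInstance
  fpd := ⟨0, by
    have : Projective (ModuleCat.of R PUnit) :=
      (IsProjective.iff_projective (R := R) PUnit).1 inferInstance
    exact (projective_iff_hasProjectiveDimensionLE_zero (ModuleCat.of R PUnit)).1 this⟩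

theorem k0z_sub {R : Type} [Ring R] (x y : (k0z R).carrier) : x = y :=
  Subsingleton.elim (α := PUnit) x y

theorem k0z_mk {R : Type} [Ring R] : K0.mk (k0z R) = 0 := by
  have h := K0.mk_exact (M' := k0z R) (M := k0z R) (M'' := k0z R) 0 0
    (fun x y _ => k0z_sub x y) (fun x => ⟨fun _ => ⟨0, k0z_sub _ _⟩, fun _ => rfl⟩)
    (fun x => ⟨0, k0z_sub _ _⟩)
  exact left_eq_add.1 h

/-- Isomorphic modules have the same class. -/
theorem K0.mk_equiv {R : Type} [Ring R] {M M' : FPMod R} (e : M.carrier ≃ₗ[R] M'.carrier) :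
    K0.mk M = K0.mk M' := by
  have h := K0.mk_exact (M' := M) (M := M') (M'' := k0z R) e.toLinearMap 0
    e.injective (fun x => ⟨fun _ => e.surjective x, fun _ => rfl⟩)
    (fun x => ⟨0, k0z_sub _ _⟩)
  rw [k0z_mk, add_zero] at h
  exact h.symm

/-- A finitely generated projective module as an object of `FPMod`. -/
def FPMod.ofProj (R : Type) [Ring R] (P : Type) [AddCommGroup P] [Module R P] [Module.Finite R P]
    [Module.Projective R P] : FPMod R where
  carrier := P
  fg := inferInstance
  fpd := ⟨0, by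
    have : Projective (ModuleCat.of R P) := (IsProjective.iff_projective (R := R) P).1 inferInstance
    exact (projective_iff_hasProjectiveDimensionLE_zero (ModuleCat.of R P)).1 this⟩

variable {p : ℕ} {R : Type} [CommRing R]

section classes

/-- The class of a finitely generated projective module. -/
noncomputable def kcl (R : Type) [CommRing R] (P : Type) [AddCommGroup P] [Module R P]
    (h1 : Module.Finite R P) (h2 : Module.Projective R P) : K0 R :=
  K0.mk (FPMod.ofProj R P)

theorem kcl_equiv {P Q : Type} [AddCommGroup P] [Module R P] [AddCommGroup Q] [Module R Q]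
    (h1 : Module.Finite R P) (h2 : Module.Projective R P) (h3 : Module.Finite R Q)
    (h4 : Module.Projective R Q) (e : P ≃ₗ[R] Q) : kcl R P h1 h2 = kcl R Q h3 h4 :=
  K0.mk_equiv (M := FPMod.ofProj R P) (M' := FPMod.ofProj R Q) e

theorem kcl_exact {P Q S : Type} [AddCommGroup P] [Module R P] [AddCommGroup Q] [Module R Q]
    [AddCommGroup S] [Module R S]
    (h1 : Module.Finite R P) (h2 : Module.Projective R P) (h3 : Module.Finite R Q)
    (h4 : Module.Projective R Q) (h5 : Module.Finite R S) (h6 : Module.Projective R S)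
    (f : P →ₗ[R] Q) (g : Q →ₗ[R] S) (hf : Function.Injective f) (hfg : Function.Exact f g)
    (hg : Function.Surjective g) : kcl R Q h3 h4 = kcl R P h1 h2 + kcl R S h5 h6 :=
  K0.mk_exact (M' := FPMod.ofProj R P) (M := FPMod.ofProj R Q) (M'' := FPMod.ofProj R S)
    f g hf hfg hg

theorem proj_pi {s : ℕ} (M : Fin s → Type) [∀ j, AddCommGroup (M j)] [∀ j, Module R (M j)]
    (h2 : ∀ j, Module.Projective R (M j)) : Module.Projective R (∀ j, M j) :=
  Module.Projective.of_equiv (DirectSum.linearEquivFunOnFintype R (Fin s) M)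

theorem kcl_prod {P Q : Type} [AddCommGroup P] [Module R P] [AddCommGroup Q] [Module R Q]
    (h1 : Module.Finite R P) (h2 : Module.Projective R P) (h3 : Module.Finite R Q)
    (h4 : Module.Projective R Q) (h5 : Module.Finite R (P × Q)) (h6 : Module.Projective R (P × Q)) :
    kcl R (P × Q) h5 h6 = kcl R P h1 h2 + kcl R Q h3 h4 :=
  kcl_exact h1 h2 h5 h6 h3 h4 (LinearMap.inl R P Q) (LinearMap.snd R P Q)
    LinearMap.inl_injective Function.Exact.inl_snd LinearMap.snd_surjective

theorem kcl_zero {P : Type} [AddCommGroup P] [Module R P] [Subsingleton P]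
    (h1 : Module.Finite R P) (h2 : Module.Projective R P) : kcl R P h1 h2 = 0 := by
  rw [← k0z_mk]
  exact K0.mk_equiv (M := FPMod.ofProj R P) (M' := k0z R)
    (LinearEquiv.ofBijective (0 : P →ₗ[R] (k0z R).carrier)
      ⟨fun x y _ => Subsingleton.elim x y, fun x => ⟨0, k0z_sub _ _⟩⟩)

theorem kcl_pi {s : ℕ} (M : Fin s → Type) [∀ j, AddCommGroup (M j)] [∀ j, Module R (M j)]
    (h1 : ∀ j, Module.Finite R (M j)) (h2 : ∀ j, Module.Projective R (M j))
    (h3 : Module.Finite R (∀ j, M j)) (h4 : Module.Projective R (∀ j, M j)) :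
    kcl R (∀ j, M j) h3 h4 = ∑ j, kcl R (M j) (h1 j) (h2 j) := by
  induction s with
  | zero =>
    rw [kcl_zero, Finset.univ_eq_empty, Finset.sum_empty]
  | succ s ih =>
    have h5 : Module.Finite R (∀ j : Fin s, M j.succ) := inferInstance
    have h6 : Module.Projective R (∀ j : Fin s, M j.succ) := proj_pi _ fun j => h2 j.succ
    have h7 : Module.Finite R (M 0 × (∀ j : Fin s, M j.succ)) := inferInstance
    have h8 : Module.Projective R (M 0 × (∀ j : Fin s, M j.succ)) := inferInstance
    rw [← kcl_equiv h7 h8 h3 h4 (Fin.consLinearEquiv R M), kcl_prod (h1 0) (h2 0) h5 h6,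
      ih _ (fun j => h1 j.succ) (fun j => h2 j.succ), Fin.sum_univ_succ]

end classes

section ideals

theorem GR.reg (h : GR p R) {n : ℤ} (hn : ¬ (p : ℤ) ∣ n) {a : R} (ha : (n : R) * a = 0) : a = 0 := by
  have hfree := h.free
  have hn0 : n ≠ 0 := by
    rintro rfl
    exact hn (dvd_zero _)
  have h1 : n • a = 0 := by
    rw [zsmul_eq_mul]
    exact ha
  exact (smul_eq_zero.1 h1).resolve_left hn0

theorem GR.cancel_span (h : GR p R) {n : ℤ} (hn : ¬ (p : ℤ) ∣ n) {A B : Ideal R}
    (hle : Ideal.span {(n : R)} * A ≤ Ideal.span {(n : R)} * B) : A ≤ B := by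
  intro a ha
  have h1 : (n : R) * a ∈ Ideal.span {(n : R)} * B :=
    hle (Ideal.mul_mem_mul (Ideal.mem_span_singleton_self _) ha)
  obtain ⟨z, hz, hz2⟩ := Ideal.mem_span_singleton_mul.1 h1
  have h2 : z = a := by
    rw [← sub_eq_zero]
    refine h.reg hn ?_
    rw [mul_sub, hz2, sub_self]
  rwa [← h2]

theorem Good.cancel (h : GR p R) {I A B : Ideal R} (hI : Good p I) (hle : I * A ≤ I * B) :
    A ≤ B := by
  obtain ⟨n, hn, hnI⟩ := hI
  obtain ⟨J, hJ⟩ := h.inv I n hn hnI
  refine h.cancel_span hn ?_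
  rw [← hJ, mul_comm I J, mul_assoc, mul_assoc]
  exact Ideal.mul_mono_right hle

theorem Good.div (h : GR p R) {I A : Ideal R} (hI : Good p I) (hA : A ≤ I) :
    ∃ K : Ideal R, I * K = A := by
  obtain ⟨n, hn, hnI⟩ := hI
  obtain ⟨J, hJ⟩ := h.inv I n hn hnI
  let K : Ideal R := Submodule.comap (LinearMap.mulLeft R (n : R)) (J * A)
  have hK : Ideal.span {(n : R)} * K = J * A := by
    apply le_antisymm
    · intro y hy
      obtain ⟨z, hz, rfl⟩ := Ideal.mem_span_singleton_mul.1 hy
      exact hz
    · intro y hy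
      have h1 : y ∈ Ideal.span {(n : R)} := by
        rw [← hJ, mul_comm I J]
        exact Ideal.mul_mono_right hA hy
      obtain ⟨a, rfl⟩ := Ideal.mem_span_singleton'.1 h1
      refine Ideal.mem_span_singleton_mul.2 ⟨a, ?_, mul_comm _ _⟩
      change (n : R) * a ∈ J * A
      rw [mul_comm (n : R) a]
      exact hy
  have h2 : Ideal.span {(n : R)} * (I * K) = Ideal.span {(n : R)} * A := by
    rw [mul_left_comm, hK, ← mul_assoc, hJ]
  exact ⟨K, le_antisymm (h.cancel_span hn h2.le) (h.cancel_span hn h2.ge)⟩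

theorem Good.mono {I J : Ideal R} (hI : Good p I) (hle : I ≤ J) : Good p J := by
  obtain ⟨n, hn, hnI⟩ := hI
  exact ⟨n, hn, hle hnI⟩

theorem Good.mul (h : GR p R) {I J : Ideal R} (hI : Good p I) (hJ : Good p J) : Good p (I * J) := by
  obtain ⟨n, hn, hnI⟩ := hI
  obtain ⟨m, hm, hmJ⟩ := hJ
  refine ⟨n * m, fun hd => ?_, ?_⟩
  · rcases (Nat.prime_iff_prime_int.1 h.prime).dvd_or_dvd hd with h1 | h1
    · exact hn h1
    · exact hm h1
  · rw [Int.cast_mul]
    exact Ideal.mul_mem_mul hnI hmJ

theorem Good.top (h : GR p R) : Good p (⊤ : Ideal R) :=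
  ⟨1, fun hd => (Nat.prime_iff_prime_int.1 h.prime).not_isUnit (isUnit_of_dvd_one hd), trivial⟩

theorem GR.noeth (h : GR p R) : IsNoetherianRing R := by
  have := h.fin
  exact IsNoetherianRing.of_finite ℤ R

theorem GR.finI (h : GR p R) (I : Ideal R) : Module.Finite R I := by
  have := h.noeth
  infer_instance

/-- The class of a good ideal. -/
noncomputable def gcl (h : GR p R) {I : Ideal R} (hI : Good p I) : K0 R :=
  kcl R I (h.finI I) (hI.projective h)

theorem gcl_congr (h : GR p R) {I J : Ideal R} (hI : Good p I) (hJ : Good p J) (e : I = J) :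
    gcl h hI = gcl h hJ := by
  subst e
  rfl

theorem gcl_top (h : GR p R) (hI : Good p (⊤ : Ideal R)) :
    gcl h hI = kcl R R inferInstance inferInstance :=
  kcl_equiv _ _ _ _ Submodule.topEquiv

/-- The case of a maximal ideal. -/
theorem gcl_max (h : GR p R) {I m : Ideal R} (hI : Good p I) (hm : Good p m)
    (hmax : m.IsMaximal) (hIm : Good p (I * m)) :
    gcl h hI + gcl h hm = kcl R R inferInstance inferInstance + gcl h hIm := by
  have hle : I * m ≤ I := Ideal.mul_le_left
  obtain ⟨x, hx, hxm⟩ : ∃ x ∈ I, x ∉ I * m := by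
    by_contra hcon
    push Not at hcon
    have h1 : I * ⊤ ≤ I * m := by
      rw [Ideal.mul_top]
      exact hcon
    exact hmax.ne_top (top_le_iff.1 (hI.cancel h h1))
  obtain ⟨K, hK⟩ := hI.div h (A := Ideal.span {x}) ((Ideal.span_singleton_le_iff_mem _).2 hx)
  have hKm : ¬ K ≤ m := by
    intro h1
    apply hxm
    have h2 : Ideal.span {x} ≤ I * m := by
      rw [← hK]
      exact Ideal.mul_mono_right h1
    exact h2 (Ideal.mem_span_singleton_self x)
  have hsup : K ⊔ m = ⊤ := by
    by_contra h1
    have h2 : m = K ⊔ m := hmax.eq_of_le h1 le_sup_right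
    exact hKm (h2 ▸ le_sup_left)
  have hgen : Ideal.span {x} ⊔ I * m = I := by
    rw [← hK, ← Ideal.mul_sup, hsup, Ideal.mul_top]
  have hker : ∀ r : R, r * x ∈ I * m ↔ r ∈ m := by
    intro r
    constructor
    · intro hr
      have h1 : I * (Ideal.span {r} * K) ≤ I * m := by
        rw [mul_left_comm, hK, Ideal.span_singleton_mul_span_singleton,
          Ideal.span_singleton_le_iff_mem]
        exact hr
      have h2 : Ideal.span {r} * (K ⊔ m) ≤ m := by
        rw [Ideal.mul_sup]
        exact sup_le (hI.cancel h h1) Ideal.mul_le_right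
      rw [hsup, Ideal.mul_top, Ideal.span_singleton_le_iff_mem] at h2
      exact h2
    · intro hr
      rw [mul_comm r x]
      exact Ideal.mul_mem_mul hx hr
  -- the quotient
  have hfinI := h.finI I
  have hfinm := h.finI m
  have hfinIm := h.finI (I * m)
  have hpI := hI.projective h
  have hpm := hm.projective h
  have hpIm := hIm.projective h
  let W : Submodule R I := Submodule.comap I.subtype (I * m)
  let g1 : R →ₗ[R] (I ⧸ W) := LinearMap.toSpanSingleton R (I ⧸ W) (Submodule.Quotient.mk ⟨x, hx⟩)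
  have hg1 : ∀ r, g1 r = 0 ↔ r ∈ m := by
    intro r
    have h1 : g1 r = Submodule.Quotient.mk (r • (⟨x, hx⟩ : I)) := rfl
    rw [h1, Submodule.Quotient.mk_eq_zero, ← hker r]
    exact Iff.rfl
  have hex1 : Function.Exact (Submodule.subtype m) g1 := by
    intro r
    rw [hg1]
    constructor
    · intro hr
      exact ⟨⟨r, hr⟩, rfl⟩
    · rintro ⟨y, rfl⟩
      exact y.2
  have hsurj1 : Function.Surjective g1 := by
    intro q
    obtain ⟨⟨y, hy⟩, rfl⟩ := Submodule.Quotient.mk_surjective W q
    have h1 := hy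
    rw [← hgen] at h1
    obtain ⟨a, ha, b, hb, hab⟩ := Submodule.mem_sup.1 h1
    obtain ⟨r, rfl⟩ := Ideal.mem_span_singleton'.1 ha
    refine ⟨r, ?_⟩
    have h2 : g1 r = Submodule.Quotient.mk (r • (⟨x, hx⟩ : I)) := rfl
    rw [h2, Submodule.Quotient.eq]
    change (r • (⟨x, hx⟩ : I) - ⟨y, hy⟩ : I).1 ∈ I * m
    have h3 : (r • (⟨x, hx⟩ : I) - ⟨y, hy⟩ : I).1 = - b := by
      change r * x - y = - b
      rw [← hab]
      ring
    rw [h3]
    exact Submodule.neg_mem _ hb
  have hpd : ∃ n : ℕ, HasProjectiveDimensionLE (ModuleCat.of R (I ⧸ W)) n := by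
    refine ⟨1, ?_⟩
    have hS : (ModuleCat.shortComplexOfCompEqZero (Submodule.subtype m) g1
        (LinearMap.ext fun y => (hg1 y).2 y.2)).ShortExact :=
      ModuleCat.shortComplex_shortExact _ hex1 (Submodule.subtype_injective m) hsurj1
    refine hS.hasProjectiveDimensionLT_X₃ 1 ?_ ?_
    · have : Projective (ModuleCat.of R m) := (IsProjective.iff_projective (R := R) m).1 inferInstance
      exact (projective_iff_hasProjectiveDimensionLE_zero (ModuleCat.of R m)).1 this
    · have : Projective (ModuleCat.of R R) := (IsProjective.iff_projective (R := R) R).1 inferInstance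
      have h0 : HasProjectiveDimensionLT (ModuleCat.of R R) 1 :=
        (projective_iff_hasProjectiveDimensionLE_zero (ModuleCat.of R R)).1 this
      exact hasProjectiveDimensionLT_of_ge (ModuleCat.of R R) 1 2 (by omega)
  let Q : FPMod R := { carrier := I ⧸ W, fg := inferInstance, fpd := hpd }
  have e1 : kcl R R inferInstance inferInstance = gcl h hm + K0.mk Q :=
    K0.mk_exact (M' := FPMod.ofProj R m) (M := FPMod.ofProj R R) (M'' := Q)
      (Submodule.subtype m) g1 (Submodule.subtype_injective m) hex1 hsurj1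
  have hex2 : Function.Exact (Submodule.inclusion hle) (Submodule.mkQ W) := by
    intro y
    rw [Submodule.mkQ_apply, Submodule.Quotient.mk_eq_zero]
    constructor
    · intro hy
      exact ⟨⟨y.1, hy⟩, rfl⟩
    · rintro ⟨z, rfl⟩
      exact z.2
  have e2 : gcl h hI = gcl h hIm + K0.mk Q :=
    K0.mk_exact (M' := FPMod.ofProj R (I * m : Ideal R)) (M := FPMod.ofProj R I) (M'' := Q)
      (Submodule.inclusion hle) (Submodule.mkQ W) (Submodule.inclusion_injective hle) hex2
      (Submodule.mkQ_surjective W)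
  rw [e1, e2]
  abel

theorem gcl_mul (h : GR p R) (J : Ideal R) : ∀ (hJ : Good p J) (I : Ideal R) (hI : Good p I)
    (hIJ : Good p (I * J)),
    gcl h hI + gcl h hJ = kcl R R inferInstance inferInstance + gcl h hIJ := by
  have hnoeth := h.noeth
  induction J using WellFoundedGT.induction with
  | ind J ih =>
    intro hJ I hI hIJ
    by_cases hJt : J = ⊤
    · subst hJt
      rw [gcl_top, gcl_congr h hIJ hI (Ideal.mul_top I)]
      abel
    · obtain ⟨m, hmax, hJm⟩ := Ideal.exists_le_maximal J hJt
      have hm : Good p m := hJ.mono hJm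
      obtain ⟨J2, hJ2⟩ := hm.div h hJm
      have hle : J ≤ J2 := by
        rw [← hJ2]
        exact Ideal.mul_le_right
      have hne : J ≠ J2 := by
        intro he
        have h1 : J * ⊤ ≤ J * m := by
          rw [Ideal.mul_top, mul_comm J m]
          conv_lhs => rw [← hJ2]
          rw [he]
        exact hmax.ne_top (top_le_iff.1 (hJ.cancel h h1))
      have hgJ2 : Good p J2 := hJ.mono hle
      have hgIm : Good p (I * m) := hI.mul h hm
      have hgmJ : Good p (m * J2) := hm.mul h hgJ2
      have hgImJ : Good p (I * m * J2) := hgIm.mul h hgJ2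
      have e1 := ih J2 (lt_of_le_of_ne hle hne) hgJ2 (I * m) hgIm hgImJ
      have e2 := ih J2 (lt_of_le_of_ne hle hne) hgJ2 m hm hgmJ
      have e3 := gcl_max h hI hm hmax hgIm
      have c1 : gcl h hIJ = gcl h hgImJ := gcl_congr h _ _ (by rw [← hJ2, mul_assoc])
      have c2 : gcl h hJ = gcl h hgmJ := gcl_congr h _ _ hJ2.symm
      rw [c1, c2]
      have f1 := sub_eq_zero.2 e1
      have f2 := sub_eq_zero.2 e2
      have f3 := sub_eq_zero.2 e3
      refine sub_eq_zero.1 ?_
      calc gcl h hI + gcl h hgmJ - (kcl R R inferInstance inferInstance + gcl h hgImJ)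
          = (gcl h hgIm + gcl h hgJ2 - (kcl R R inferInstance inferInstance + gcl h hgImJ)) -
            (gcl h hm + gcl h hgJ2 - (kcl R R inferInstance inferInstance + gcl h hgmJ)) +
            (gcl h hI + gcl h hm - (kcl R R inferInstance inferInstance + gcl h hgIm)) := by abel
        _ = 0 := by rw [f1, f2, f3]; abel

theorem good_prod (h : GR p R) {s : ℕ} (I : Fin s → Ideal R) (hI : ∀ j, Good p (I j)) :
    Good p (∏ j, I j) := by
  induction s with
  | zero =>
    rw [Finset.univ_eq_empty, Finset.prod_empty, Ideal.one_eq_top]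
    exact Good.top h
  | succ s ih =>
    rw [Fin.prod_univ_succ]
    exact (hI 0).mul h (ih _ fun j => hI j.succ)

theorem gcl_prod (h : GR p R) {s : ℕ} (I : Fin s → Ideal R) (hI : ∀ j, Good p (I j))
    (hp : Good p (∏ j, I j)) :
    ∑ j, gcl h (hI j) + kcl R R inferInstance inferInstance =
      s • kcl R R inferInstance inferInstance + gcl h hp := by
  induction s with
  | zero =>
    have e : gcl h hp = gcl h (Good.top h) := gcl_congr h _ _ (by
      rw [Finset.univ_eq_empty, Finset.prod_empty, Ideal.one_eq_top])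
    rw [e, gcl_top, Finset.univ_eq_empty, Finset.sum_empty, zero_smul]
  | succ s ih =>
    have hp2 : Good p (∏ j : Fin s, I j.succ) := good_prod h _ fun j => hI j.succ
    have hp3 : Good p (I 0 * ∏ j : Fin s, I j.succ) := (hI 0).mul h hp2
    have e : gcl h hp = gcl h hp3 := gcl_congr h _ _ (Fin.prod_univ_succ _)
    have e1 := gcl_mul h _ hp2 (I 0) (hI 0) hp3
    have e2 := ih _ (fun j => hI j.succ) hp2
    rw [e, Fin.sum_univ_succ]
    have f1 := sub_eq_zero.2 e1
    have f2 := sub_eq_zero.2 e2
    refine sub_eq_zero.1 ?_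
    rw [succ_nsmul]
    calc gcl h (hI 0) + ∑ j : Fin s, gcl h (hI j.succ) + kcl R R inferInstance inferInstance -
          (s • kcl R R inferInstance inferInstance + kcl R R inferInstance inferInstance +
            gcl h hp3)
        = (gcl h (hI 0) + gcl h hp2 - (kcl R R inferInstance inferInstance + gcl h hp3)) +
          (∑ j : Fin s, gcl h (hI j.succ) + kcl R R inferInstance inferInstance -
            (s • kcl R R inferInstance inferInstance + gcl h hp2)) := by abel
      _ = 0 := by rw [f1, f2]; abel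

theorem gcl_span (h : GR p R) {I : Ideal R} (hI : Good p I) (w : R) (hw : I = Ideal.span {w}) :
    gcl h hI = kcl R R inferInstance inferInstance := by
  subst hw
  obtain ⟨n, hn, hnI⟩ := id hI
  obtain ⟨t, ht⟩ := Ideal.mem_span_singleton'.1 hnI
  refine (kcl_equiv _ _ _ _ (LinearEquiv.ofBijective
    (LinearMap.toSpanSingleton R (Ideal.span {w} : Ideal R)
      ⟨w, Ideal.mem_span_singleton_self w⟩) ⟨?_, ?_⟩)).symm
  · rw [injective_iff_map_eq_zero]
    intro r hr
    have h1 : r * w = 0 := congrArg Subtype.val hr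
    refine h.reg hn ?_
    rw [← ht, mul_assoc, mul_comm w r, h1, mul_zero]
  · rintro ⟨y, hy⟩
    obtain ⟨r, rfl⟩ := Ideal.mem_span_singleton'.1 hy
    exact ⟨r, rfl⟩

end ideals

/-- The class of a direct sum of good ideals with principal product. -/
theorem K0.mk_of_decomp (h : GR p R) (P : Type) [AddCommGroup P] [Module R P] [Module.Finite R P]
    [Module.Projective R P] {s : ℕ} (I : Fin s → Ideal R) (hI : ∀ j, Good p (I j))
    (e : P ≃ₗ[R] (∀ j, I j)) (w : R) (hw : ∏ j, I j = Ideal.span {w}) :
    K0.mk (FPMod.ofProj R P) = s • K0.mk (FPMod.ofProj R R) := by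
  have hf := fun j => h.finI (I j)
  have hp := fun j => (hI j).projective h
  have e1 : kcl R P inferInstance inferInstance = ∑ j, gcl h (hI j) := by
    rw [kcl_equiv _ _ (inferInstance : Module.Finite R (∀ j, I j))
      (proj_pi (fun j => (I j : Type)) hp) e, kcl_pi (fun j => (I j : Type)) hf hp]
    rfl
  have hg := good_prod h I hI
  have e2 := gcl_prod h I hI hg
  rw [gcl_span h hg w hw, ← e1] at e2
  exact add_right_cancel e2

end Pool.Agent.Lib.MP_0e6cae_nt
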