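import Pool.Agent.Lib.MP_0e6cae_nt.K0c
import Pool.Agent.Lib.MP_0e6cae_nt.Det

/-!
Abstract part of the main theorem: projective dimensions, ranks and classes.
-/

open CategoryTheory

namespace Pool.Agent.Lib.MP_0e6cae_nt

section pd

variable {R : Type} [Ring R]

/-- The kernel of a surjection of a projective module onto a module of finite projective
dimension. -/
theorem fpd_left {K P M : Type} [AddCommGroup K] [Module R K] [AddCommGroup P] [Module R P]
    [AddCommGroup M] [Module R M] (i : K →ₗ[R] P) (q : P →ₗ[R] M) (hi : Function.Injective i)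
    (hex : Function.Exact i q) (hq : Function.Surjective q) [Module.Projective R P]
    (hM : ∃ n : ℕ, HasProjectiveDimensionLE (ModuleCat.of R M) n) :
    ∃ n : ℕ, HasProjectiveDimensionLE (ModuleCat.of R K) n := by
  obtain ⟨n, hn⟩ := hM
  have hS : (ModuleCat.shortComplexOfCompEqZero i q
      (LinearMap.ext fun y => hex.apply_apply_eq_zero y)).ShortExact :=
    ModuleCat.shortComplex_shortExact _ hex hi hq
  have hP : Projective (ModuleCat.of R P) := (IsProjective.iff_projective (R := R) P).1 inferInstance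
  have h0 : HasProjectiveDimensionLT (ModuleCat.of R P) 1 :=
    (projective_iff_hasProjectiveDimensionLE_zero (ModuleCat.of R P)).1 hP
  refine ⟨n, ?_⟩
  exact hS.hasProjectiveDimensionLT_X₁ (n + 1)
    (hasProjectiveDimensionLT_of_ge (ModuleCat.of R P) 1 (n + 1) (by omega))
    (hasProjectiveDimensionLT_of_ge (ModuleCat.of R M) (n + 1) (n + 1 + 1) (by omega))

/-- Extensions. -/
theorem fpd_mid {K N M : Type} [AddCommGroup K] [Module R K] [AddCommGroup N] [Module R N]
    [AddCommGroup M] [Module R M] (i : K →ₗ[R] N) (q : N →ₗ[R] M) (hi : Function.Injective i)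
    (hex : Function.Exact i q) (hq : Function.Surjective q)
    (hK : ∃ n : ℕ, HasProjectiveDimensionLE (ModuleCat.of R K) n)
    (hM : ∃ n : ℕ, HasProjectiveDimensionLE (ModuleCat.of R M) n) :
    ∃ n : ℕ, HasProjectiveDimensionLE (ModuleCat.of R N) n := by
  obtain ⟨n, hn⟩ := hM
  obtain ⟨m, hm⟩ := hK
  have hS : (ModuleCat.shortComplexOfCompEqZero i q
      (LinearMap.ext fun y => hex.apply_apply_eq_zero y)).ShortExact :=
    ModuleCat.shortComplex_shortExact _ hex hi hq
  refine ⟨n + m, ?_⟩
  exact hS.hasProjectiveDimensionLT_X₂ (n + m + 1)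
    (hasProjectiveDimensionLT_of_ge (ModuleCat.of R K) (m + 1) (n + m + 1) (by omega))
    (hasProjectiveDimensionLT_of_ge (ModuleCat.of R M) (n + 1) (n + m + 1) (by omega))

end pd

section rk

/-- Additivity of the rank over `ℤ`. -/
theorem finrank_exact {A B C : Type} [AddCommGroup A] [AddCommGroup B] [AddCommGroup C]
    [Module.Finite ℤ B] (f : A →+ B) (g : B →+ C) (hf : Function.Injective f)
    (hex : Function.Exact f g) (hg : Function.Surjective g) :
    Module.finrank ℤ B = Module.finrank ℤ A + Module.finrank ℤ C := by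
  have h1 := (LinearMap.range f.toIntLinearMap).finrank_quotient_add_finrank
  have h2 : Module.finrank ℤ A = Module.finrank ℤ (LinearMap.range f.toIntLinearMap) :=
    (LinearEquiv.ofInjective f.toIntLinearMap hf).finrank_eq
  have h3 : LinearMap.range f.toIntLinearMap = LinearMap.ker g.toIntLinearMap := by
    ext x
    exact (hex x).symm
  have h4 : Module.finrank ℤ (B ⧸ LinearMap.range f.toIntLinearMap) = Module.finrank ℤ C := by
    rw [h3]
    exact (g.toIntLinearMap.quotKerEquivOfSurjective hg).finrank_eq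
  omega

/-- The alternating sum of the ranks of an exact sequence `0 → U → A → B → X → 0`. -/
theorem finrank_exact4 {U A B X : Type} [AddCommGroup U] [AddCommGroup A] [AddCommGroup B]
    [AddCommGroup X] [Module.Finite ℤ A] [Module.Finite ℤ B] (i : U →+ A) (d : A →+ B)
    (e : B →+ X) (hi : Function.Injective i) (hA : ∀ a, d a = 0 ↔ ∃ u, i u = a)
    (hB : ∀ b, e b = 0 ↔ ∃ a, d a = b) (he : Function.Surjective e) :
    Module.finrank ℤ A + Module.finrank ℤ X = Module.finrank ℤ B + Module.finrank ℤ U := by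
  have h1 := finrank_exact i d.rangeRestrict hi (fun a => by
    constructor
    · intro h
      exact (hA a).1 (congrArg Subtype.val h)
    · intro h
      exact Subtype.ext ((hA a).2 h)) d.rangeRestrict_surjective
  have h2 := finrank_exact d.range.subtype e Subtype.val_injective (fun b => by
    rw [hB]
    constructor
    · rintro ⟨a, rfl⟩
      exact ⟨⟨d a, ⟨a, rfl⟩⟩, rfl⟩
    · rintro ⟨⟨_, ⟨a, rfl⟩⟩, rfl⟩
      exact ⟨a, rfl⟩) he
  omega

end rk

variable {p : ℕ} {R : Type} [CommRing R]

theorem finrank_pi_good (h : GR p R) {s : ℕ} (I : Fin s → Ideal R) (hI : ∀ j, Good p (I j)) :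
    Module.finrank ℤ (∀ j, I j) = s * Module.finrank ℤ R := by
  have := h.fin
  have := h.free
  have := h.nontriv
  have hfI : ∀ j, Module.Finite ℤ (I j) := fun j => (det_finrank h (I j) (hI j)).1
  have hfrI : ∀ j, Module.Free ℤ (I j) := fun j =>
    Module.free_of_finite_type_torsion_free'
  rw [Module.finrank_pi_fintype, Finset.sum_congr rfl fun j _ => (det_finrank h (I j) (hI j)).2,
    Finset.sum_const, Finset.card_univ, Fintype.card_fin, smul_eq_mul]

theorem finrank_pi_ring (h : GR p R) (k : ℕ) :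
    Module.finrank ℤ (Fin k → R) = k * Module.finrank ℤ R := by
  have := h.fin
  have := h.free
  rw [Module.finrank_pi_fintype, Finset.sum_const, Finset.card_univ, Fintype.card_fin, smul_eq_mul]

/-- The ranks. -/
theorem rank_final (h : GR p R) {k l s : ℕ} {A B A₁ K L : Type}
    [AddCommGroup A] [Module R A] [AddCommGroup B] [Module R B] [AddCommGroup A₁] [Module R A₁]
    [AddCommGroup K] [Module R K] [AddCommGroup L] [Module R L]
    [Module.Finite R A₁]
    (jK : K →ₗ[R] (Fin k → R)) (π : (Fin k → R) →ₗ[R] B) (h1 : Function.Injective jK)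
    (h2 : Function.Exact jK π) (h3 : Function.Surjective π)
    (j : K →ₗ[R] A₁) (f : A₁ →ₗ[R] A) (h4 : Function.Injective j)
    (h5 : Function.Exact j f) (h6 : Function.Surjective f)
    (iL : L →ₗ[R] (Fin l → R)) (q : (Fin l → R) →ₗ[R] A₁) (h7 : Function.Injective iL)
    (h8 : Function.Exact iL q) (h9 : Function.Surjective q)
    (I : Fin s → Ideal R) (hI : ∀ j, Good p (I j)) (e : L ≃ₗ[R] (∀ j, I j))
    (hr : Module.finrank ℤ A = Module.finrank ℤ B) : l = s + k := by
  have := h.fin
  have := h.free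
  have := h.nontriv
  have hA₁ : Module.Finite ℤ A₁ := Module.Finite.trans R A₁
  have e1 := finrank_exact jK.toAddMonoidHom π.toAddMonoidHom h1 h2 h3
  have e2 := finrank_exact j.toAddMonoidHom f.toAddMonoidHom h4 h5 h6
  have e3 := finrank_exact iL.toAddMonoidHom q.toAddMonoidHom h7 h8 h9
  have e4 : Module.finrank ℤ L = s * Module.finrank ℤ R := by
    rw [← finrank_pi_good h I hI]
    exact (e.restrictScalars ℤ).finrank_eq
  rw [finrank_pi_ring h] at e1 e3
  have hpos : 0 < Module.finrank ℤ R := Module.finrank_pos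
  refine Nat.eq_of_mul_eq_mul_right hpos ?_
  rw [add_mul]
  omega

theorem kcl_free (k : ℕ) (h1 : Module.Finite R (Fin k → R)) (h2 : Module.Projective R (Fin k → R)) :
    kcl R (Fin k → R) h1 h2 = k • kcl R R inferInstance inferInstance := by
  rw [kcl_pi (fun _ => R) (fun _ => inferInstance) (fun _ => inferInstance), Finset.sum_const,
    Finset.card_univ, Fintype.card_fin]

/-- The classes. -/
theorem k0_final {k l s : ℕ} (MA MB MA1 MK ML : FPMod R)
    (jK : MK.carrier →ₗ[R] (Fin k → R)) (π : (Fin k → R) →ₗ[R] MB.carrier)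
    (h1 : Function.Injective jK) (h2 : Function.Exact jK π) (h3 : Function.Surjective π)
    (j : MK.carrier →ₗ[R] MA1.carrier) (f : MA1.carrier →ₗ[R] MA.carrier)
    (h4 : Function.Injective j) (h5 : Function.Exact j f) (h6 : Function.Surjective f)
    (iL : ML.carrier →ₗ[R] (Fin l → R)) (q : (Fin l → R) →ₗ[R] MA1.carrier)
    (h7 : Function.Injective iL) (h8 : Function.Exact iL q) (h9 : Function.Surjective q)
    (hL : K0.mk ML = s • K0.mk (FPMod.ofProj R R)) (hls : l = s + k) :
    K0.mk MA = K0.mk MB := by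
  have e1 : K0.mk (FPMod.ofProj R (Fin k → R)) = K0.mk MK + K0.mk MB :=
    K0.mk_exact (M' := MK) (M := FPMod.ofProj R (Fin k → R)) (M'' := MB) jK π h1 h2 h3
  have e2 : K0.mk MA1 = K0.mk MK + K0.mk MA := K0.mk_exact j f h4 h5 h6
  have e3 : K0.mk (FPMod.ofProj R (Fin l → R)) = K0.mk ML + K0.mk MA1 :=
    K0.mk_exact (M' := ML) (M := FPMod.ofProj R (Fin l → R)) (M'' := MA1) iL q h7 h8 h9
  have f1 : K0.mk (FPMod.ofProj R (Fin k → R)) = k • K0.mk (FPMod.ofProj R R) :=
    kcl_free k inferInstance inferInstance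
  have f3 : K0.mk (FPMod.ofProj R (Fin l → R)) = l • K0.mk (FPMod.ofProj R R) :=
    kcl_free l inferInstance inferInstance
  rw [f1] at e1
  rw [f3, hL, hls, add_smul, e1, e2] at e3
  have e4 : s • K0.mk (FPMod.ofProj R R) + (K0.mk MK + K0.mk MB) =
      s • K0.mk (FPMod.ofProj R R) + (K0.mk MK + K0.mk MA) := e3
  exact (add_left_cancel (add_left_cancel e4)).symm

end Pool.Agent.Lib.MP_0e6cae_nt
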