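import Mathlib

/-!
Kummer extensions satisfying the hypothesis of the main theorem.
-/

open Polynomial

namespace Pool.Agent.Lib.MP_0e6cae_nt

/-- `Gal(F/K)` as a group of automorphisms of the field `F`. -/
def galSub (K F : Type) [Field K] [Field F] [Algebra K F] : Subgroup (F ≃+* F) where
  carrier := {γ | ∀ x : K, γ (algebraMap K F x) = algebraMap K F x}
  mul_mem' := by
    intro a b ha hb x
    change a (b (algebraMap K F x)) = _
    rw [hb, ha]
  one_mem' := fun _ => rfl
  inv_mem' := by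
    intro a ha x
    have h := ha x
    have : a.symm (a (algebraMap K F x)) = algebraMap K F x := a.symm_apply_apply _
    rw [h] at this
    exact this

/-- `Gal(F/K)` and `galSub K F`. -/
def galSubEquiv (K F : Type) [Field K] [Field F] [Algebra K F] : (F ≃ₐ[K] F) ≃* galSub K F where
  toFun σ := ⟨σ.toRingEquiv, fun x => σ.commutes x⟩
  invFun γ := AlgEquiv.ofRingEquiv (f := γ.1) γ.2
  left_inv _ := by ext; rfl
  right_inv _ := by ext; rfl
  map_mul' _ _ := rfl

variable {k K F : Type} [Field k] [Field K] [Field F] [Algebra k K] [Algebra K F] [Algebra k F]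
  [IsScalarTower k K F]

/-- The lift to `F = K(b^{1/q})` of an automorphism of `K` over `k`, `b ∈ k`. -/
theorem exists_lift (q : ℕ) [NeZero q] [FiniteDimensional k K] [FiniteDimensional K F]
    (hK : (primitiveRoots q K).Nonempty)
    (b : k) (β : F) (hβ : β ^ q = algebraMap k F b)
    (H : Irreducible (X ^ q - C (algebraMap k K b)))
    [IsSplittingField K F (X ^ q - C (algebraMap k K b))] (τ : K ≃ₐ[k] K) :
    ∃ γ : F ≃+* F, (∀ x : K, γ (algebraMap K F x) = algebraMap K F (τ x)) ∧ γ β = β := by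
  have hβ' : β ^ q = algebraMap K F (algebraMap k K b) := by
    rw [hβ, IsScalarTower.algebraMap_apply k K F]
  let e0 : AdjoinRoot (X ^ q - C (algebraMap k K b)) ≃ₐ[K] F := adjoinRootXPowSubCEquiv hK H hβ'
  let γ0 : AdjoinRoot (X ^ q - C (algebraMap k K b)) →+* F :=
    AdjoinRoot.lift ((algebraMap K F).comp (τ : K →+* K)) β (by
      rw [eval₂_sub, eval₂_pow, eval₂_X, eval₂_C, hβ']
      simp)
  let γ1 : F →+* F := γ0.comp (e0.symm : F →+* _)
  have h1 : ∀ x : K, γ1 (algebraMap K F x) = algebraMap K F (τ x) := by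
    intro x
    change γ0 (e0.symm (algebraMap K F x)) = _
    rw [AlgEquiv.commutes]
    change γ0 (AdjoinRoot.of _ x) = _
    rw [AdjoinRoot.lift_of]; rfl
  have h2 : γ1 β = β := by
    change γ0 (e0.symm β) = _
    have : e0.symm β = AdjoinRoot.root _ := by
      rw [AlgEquiv.symm_apply_eq]
      exact (adjoinRootXPowSubCEquiv_root hK H hβ').symm
    rw [this]
    exact AdjoinRoot.lift_root _
  have : FiniteDimensional k F := FiniteDimensional.trans k K F
  let γ2 : F →ₐ[k] F := { γ1 with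
    commutes' := by
      intro c
      change γ1 (algebraMap k F c) = _
      rw [IsScalarTower.algebraMap_apply k K F, h1, AlgEquiv.commutes] }
  have hb : Function.Bijective γ2 := Algebra.IsAlgebraic.algHom_bijective γ2
  exact ⟨RingEquiv.ofBijective γ1 hb, h1, h2⟩

/-- Kummer extensions `F = K(b^{1/q})`, `K/k` Galois containing the `q`-th roots of unity,
`b ∈ k`, `Φ_q` irreducible over `k`: every automorphism of `Gal(F/K)` is conjugation by an
automorphism of `F`. -/
theorem kummer_full (q : ℕ) (hq : 0 < q) [CharZero k] [FiniteDimensional k K] [IsGalois k K]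
    (ζ : K) (hζ : IsPrimitiveRoot ζ q) (hirr : Irreducible (cyclotomic q k))
    (b : k) (β : F) (hβ : β ^ q = algebraMap k F b)
    (hF : IntermediateField.adjoin K {β} = ⊤) (hdeg : Module.finrank K F = q) :
    IsGalois K F ∧ IsCyclic (galSub K F) ∧ Nat.card (galSub K F) = q ∧
      ∀ φ : galSub K F ≃* galSub K F, ∃ γ : F ≃+* F, ∀ g : galSub K F,
        ((φ g : galSub K F) : F ≃+* F) = γ * g * γ⁻¹ := by
  have hne : NeZero q := ⟨hq.ne'⟩
  have hfd : FiniteDimensional K F := FiniteDimensional.of_finrank_pos (by rw [hdeg]; exact hq)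
  have hK : (primitiveRoots q K).Nonempty := ⟨ζ, (mem_primitiveRoots hq).2 hζ⟩
  have hK' : (primitiveRoots (Module.finrank K F) K).Nonempty := by rw [hdeg]; exact hK
  have hβ' : β ^ q = algebraMap K F (algebraMap k K b) := by
    rw [hβ, IsScalarTower.algebraMap_apply k K F]
  have hβ'' : β ^ Module.finrank K F = algebraMap K F (algebraMap k K b) := by rw [hdeg]; exact hβ'
  have H := irreducible_X_pow_sub_C_of_root_adjoin_eq_top hβ'' hF
  have hspl := isSplittingField_X_pow_sub_C_of_root_adjoin_eq_top hK' hβ'' hF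
  rw [hdeg] at H hspl
  have hgal : IsGalois K F := isGalois_of_isSplittingField_X_pow_sub_C hK H F
  let e := autEquivZmod H F hζ
  have hcyc : IsCyclic (F ≃ₐ[K] F) := isCyclic_of_isSplittingField_X_pow_sub_C hK H F
  refine ⟨hgal, isCyclic_of_surjective (galSubEquiv K F) (galSubEquiv K F).surjective, ?_, ?_⟩
  · rw [← Nat.card_congr (galSubEquiv K F).toEquiv, IsGalois.card_aut_eq_finrank, hdeg]
  intro φ
  -- the generator
  set σ1 : F ≃ₐ[K] F := e.symm (Multiplicative.ofAdd ((1 : ℕ) : ZMod q)) with hσ1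
  have hσ1β : σ1 β = ζ ^ 1 • β := autEquivZmod_symm_apply_natCast H F hβ' hζ 1
  rw [pow_one] at hσ1β
  have hgen : ∀ σ : F ≃ₐ[K] F, ∃ m : ℕ, σ = σ1 ^ m := by
    intro σ
    refine ⟨(Multiplicative.toAdd (e σ)).val, ?_⟩
    rw [hσ1, ← map_pow, ← ofAdd_nsmul, Nat.cast_one, nsmul_eq_mul, mul_one, ZMod.natCast_zmod_val]
    exact (e.symm_apply_apply σ).symm
  have hpow : ∀ (σ : F ≃ₐ[K] F) (t : ℕ), σ β = ζ ^ t • β → ∀ m, (σ ^ m) β = ζ ^ (t * m) • β := by
    intro σ t ht m
    induction m with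
    | zero => simp
    | succ m ih => rw [pow_succ', AlgEquiv.mul_apply, ih, map_smul, ht, smul_smul, ← pow_add]; ring_nf
  set g1 : galSub K F := galSubEquiv K F σ1 with hg1
  set ρ : F ≃ₐ[K] F := (galSubEquiv K F).symm (φ g1) with hρ
  obtain ⟨t, ht⟩ := hgen ρ
  have hρβ : ρ β = ζ ^ t • β := by
    rw [ht, hpow σ1 1 (by rw [pow_one]; exact hσ1β), one_mul]
  have hFa : Algebra.adjoin K {β} = ⊤ := by
    have h1 := IntermediateField.adjoin_simple_toSubalgebra_of_isAlgebraic
      (IsAlgebraic.of_finite K β)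
    rw [← h1, hF, IntermediateField.top_toSubalgebra]
  have hext : ∀ σ σ' : F ≃ₐ[K] F, σ β = σ' β → σ = σ' := by
    intro σ σ' h
    have : (σ : F →ₐ[K] F) = (σ' : F →ₐ[K] F) :=
      AlgHom.ext_of_adjoin_eq_top hFa (fun x hx => by rw [Set.mem_singleton_iff.1 hx]; exact h)
    ext x
    exact DFunLike.congr_fun this x
  have hcop : Nat.Coprime t q := by
    by_cases hq1 : q = 1
    · rw [hq1]; exact Nat.coprime_one_right t
    have hβ0 : β ≠ 0 := by
      rintro rfl
      have h0 : (algebraMap k K b) = 0 := by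
        rw [zero_pow hq.ne'] at hβ'
        exact ((map_eq_zero _).1 hβ'.symm)
      rw [h0, C_0, sub_zero] at H
      exact not_irreducible_pow hq1 H
    obtain ⟨r, hr⟩ := Nat.gcd_dvd_right t q
    obtain ⟨s, hs⟩ := Nat.gcd_dvd_left t q
    have h1 : ρ ^ r = 1 := by
      apply hext
      rw [hpow ρ t hρβ]
      have : t * r = q * s := by
        calc t * r = (t.gcd q * s) * r := by rw [← hs]
          _ = (t.gcd q * r) * s := by ring
          _ = q * s := by rw [← hr]
      rw [this, pow_mul, hζ.pow_eq_one, one_pow, one_smul]; rfl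
    have h2 : σ1 ^ r = 1 := by
      have h3 : φ (g1 ^ r) = 1 := by
        rw [map_pow]
        have : φ g1 = galSubEquiv K F ρ := by rw [hρ, MulEquiv.apply_symm_apply]
        rw [this, ← map_pow, h1, map_one]
      have h4 : g1 ^ r = 1 := by
        rwa [map_eq_one_iff φ φ.injective] at h3
      rw [hg1, ← map_pow] at h4
      exact (map_eq_one_iff _ (galSubEquiv K F).injective).1 h4
    have h5 := hpow σ1 1 (by rw [pow_one]; exact hσ1β) r
    rw [h2, one_mul] at h5
    have h6 : ζ ^ r = 1 := by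
      have h7 : (ζ ^ r) • β = (1 : K) • β := by rw [one_smul]; exact h5.symm
      exact smul_left_injective K hβ0 h7
    have h7 := hζ.dvd_of_pow_eq_one r h6
    have hr0 : 0 < r := by
      rcases Nat.eq_zero_or_pos r with h | h
      · rw [h, mul_zero] at hr; omega
      · exact h
    have h8 := Nat.le_of_dvd hr0 h7
    have h9 : Nat.gcd t q * r ≤ 1 * r := by rw [← hr, one_mul]; exact h8
    have h10 := Nat.le_of_mul_le_mul_right h9 hr0
    have h11 : 0 < Nat.gcd t q := Nat.gcd_pos_of_pos_right t hq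
    exact le_antisymm h10 h11
  -- the automorphism of K
  obtain ⟨τ, hτ⟩ : ∃ τ : K ≃ₐ[k] K, τ ζ = ζ ^ t := by
    have hmin : minpoly k ζ = cyclotomic q k := by
      refine (minpoly.eq_of_irreducible_of_monic hirr ?_ (cyclotomic.monic q k)).symm
      rw [aeval_def, ← eval_map, map_cyclotomic]
      exact hζ.isRoot_cyclotomic hq
    refine minpoly.exists_algEquiv_of_root' (IsAlgebraic.of_finite k ζ) ?_
    rw [hmin, aeval_def, ← eval_map, map_cyclotomic]
    exact (hζ.pow_of_coprime t hcop).isRoot_cyclotomic hq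
  obtain ⟨γ, hγ1, hγ2⟩ := exists_lift q hK b β hβ H τ
  refine ⟨γ, fun g => ?_⟩
  obtain ⟨σ, rfl⟩ := (galSubEquiv K F).surjective g
  obtain ⟨m, rfl⟩ := hgen σ
  -- the conjugate as a K-automorphism
  have hγs : ∀ x : K, γ.symm (algebraMap K F x) = algebraMap K F (τ.symm x) := by
    intro x
    rw [RingEquiv.symm_apply_eq, hγ1, AlgEquiv.apply_symm_apply]
  let κ : F ≃ₐ[K] F := AlgEquiv.ofRingEquiv (f := γ * ((σ1 ^ m : F ≃ₐ[K] F)).toRingEquiv * γ⁻¹) (by
    intro x
    change γ ((σ1 ^ m) (γ.symm (algebraMap K F x))) = _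
    rw [hγs, AlgEquiv.commutes, hγ1, AlgEquiv.apply_symm_apply])
  have hκ : κ = (galSubEquiv K F).symm (φ (galSubEquiv K F (σ1 ^ m))) := by
    apply hext
    have h1 : (galSubEquiv K F).symm (φ (galSubEquiv K F (σ1 ^ m))) = ρ ^ m := by
      rw [map_pow, map_pow, map_pow]
    rw [h1, hpow ρ t hρβ]
    change γ ((σ1 ^ m) (γ.symm β)) = _
    have h2 : γ.symm β = β := by rw [RingEquiv.symm_apply_eq, hγ2]
    rw [h2, hpow σ1 1 (by rw [pow_one]; exact hσ1β), one_mul, Algebra.smul_def, map_mul, hγ1, hγ2,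
      map_pow, hτ, ← pow_mul, Algebra.smul_def]
  have h3 : φ (galSubEquiv K F (σ1 ^ m)) = galSubEquiv K F κ := by
    rw [hκ, MulEquiv.apply_symm_apply]
  rw [h3]
  rfl

end Pool.Agent.Lib.MP_0e6cae_nt
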