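import Pool.Agent.Lib.MP_0e6cae_nt.K0c
import Pool.Agent.Lib.MP_0e6cae_nt.Det

/-!
Abstract part of the main theorem: Schanuel's lemma, and the comparison of the kernel of a free
cover with its semilinear twist.
-/

namespace Pool.Agent.Lib.MP_0e6cae_nt

section sch

variable {R : Type} [Ring R]

/-- Schanuel's lemma. -/
theorem schanuel {L L' P P' M : Type} [AddCommGroup L] [Module R L] [AddCommGroup L'] [Module R L']
    [AddCommGroup P] [Module R P] [AddCommGroup P'] [Module R P'] [AddCommGroup M] [Module R M]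
    [Module.Projective R P] [Module.Projective R P']
    (i : L →ₗ[R] P) (q : P →ₗ[R] M) (i' : L' →ₗ[R] P') (q' : P' →ₗ[R] M)
    (hi : Function.Injective i) (hex : Function.Exact i q) (hq : Function.Surjective q)
    (hi' : Function.Injective i') (hex' : Function.Exact i' q') (hq' : Function.Surjective q') :
    Nonempty ((L × P') ≃ₗ[R] (L' × P)) := by
  obtain ⟨σ, hσ⟩ := Module.projective_lifting_property q' q hq'
  obtain ⟨τ, hτ⟩ := Module.projective_lifting_property q q' hq
  have hσ' : ∀ x, q' (σ x) = q x := fun x => LinearMap.congr_fun hσ x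
  have hτ' : ∀ y, q (τ y) = q' y := fun y => LinearMap.congr_fun hτ y
  have hqi : ∀ z, q (i z) = 0 := fun z => hex.apply_apply_eq_zero z
  have hqi' : ∀ z, q' (i' z) = 0 := fun z => hex'.apply_apply_eq_zero z
  -- the pull back, projected in the two ways
  let W : Submodule R (P × P') := LinearMap.ker (q.comp (LinearMap.fst R P P') -
    q'.comp (LinearMap.snd R P P'))
  have hW : ∀ z : P × P', z ∈ W ↔ q z.1 = q' z.2 := fun z => by
    simp [W, sub_eq_zero]
  -- the first isomorphism
  let F : (L × P') →ₗ[R] (P × P') :=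
    ((i.comp (LinearMap.fst R L P')) + (τ.comp (LinearMap.snd R L P'))).prod
      (LinearMap.snd R L P')
  have hF : ∀ z, F z = (i z.1 + τ z.2, z.2) := fun z => rfl
  have hFW : ∀ z, F z ∈ W := fun z => by
    rw [hW, hF]
    change q (i z.1 + τ z.2) = q' z.2
    rw [map_add, hqi, hτ', zero_add]
  let F' : (L' × P) →ₗ[R] (P × P') :=
    (LinearMap.snd R L' P).prod
      ((i'.comp (LinearMap.fst R L' P)) + (σ.comp (LinearMap.snd R L' P)))
  have hF' : ∀ z, F' z = (z.2, i' z.1 + σ z.2) := fun z => rfl
  have hFW' : ∀ z, F' z ∈ W := fun z => by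
    rw [hW, hF']
    change q z.2 = q' (i' z.1 + σ z.2)
    rw [map_add, hqi', hσ', zero_add]
  have e1 : Function.Bijective (F.codRestrict W hFW) := by
    constructor
    · intro a b hab
      have h1 : F a = F b := congrArg Subtype.val hab
      rw [hF, hF, Prod.mk.injEq] at h1
      obtain ⟨h2, h3⟩ := h1
      rw [h3, add_left_inj] at h2
      exact Prod.ext (hi h2) h3
    · rintro ⟨⟨x, y⟩, hxy⟩
      rw [hW] at hxy
      change q x = q' y at hxy
      obtain ⟨z, hz⟩ := (hex (x - τ y)).1 (by rw [map_sub, hτ', hxy, sub_self])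
      refine ⟨(z, y), ?_⟩
      apply Subtype.ext
      change F (z, y) = (x, y)
      rw [hF, hz]
      simp
  have e2 : Function.Bijective (F'.codRestrict W hFW') := by
    constructor
    · intro a b hab
      have h1 : F' a = F' b := congrArg Subtype.val hab
      rw [hF', hF', Prod.mk.injEq] at h1
      obtain ⟨h3, h2⟩ := h1
      rw [h3, add_left_inj] at h2
      exact Prod.ext (hi' h2) h3
    · rintro ⟨⟨x, y⟩, hxy⟩
      rw [hW] at hxy
      change q x = q' y at hxy
      obtain ⟨z, hz⟩ := (hex' (y - σ x)).1 (by rw [map_sub, hσ', hxy, sub_self])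
      refine ⟨(z, x), ?_⟩
      apply Subtype.ext
      change F' (z, x) = (x, y)
      rw [hF', hz]
      simp
  exact ⟨(LinearEquiv.ofBijective _ e1).trans (LinearEquiv.ofBijective _ e2).symm⟩

end sch

variable {p : ℕ} {R : Type} [CommRing R]

/-- The image of a good ideal under an automorphism is good. -/
theorem Good.map_equiv (Φ : R ≃+* R) {I : Ideal R} (hI : Good p I) :
    Good p (I.map (Φ : R →+* R)) := by
  obtain ⟨n, hn, hnI⟩ := hI
  refine ⟨n, hn, ?_⟩
  have h1 := Ideal.mem_map_of_mem (Φ : R →+* R) hnI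
  rwa [map_intCast] at h1

theorem map_prod_equiv (Φ : R ≃+* R) {s : ℕ} (I : Fin s → Ideal R) :
    (∏ j, I j).map (Φ : R →+* R) = ∏ j, (I j).map (Φ : R →+* R) :=
  map_prod (Ideal.mapHom (Φ : R →+* R)) I Finset.univ

/-- the semilinear isomorphism `∏ I_j → ∏ Φ(I_j)` -/
theorem exists_semilinear (Φ : R ≃+* R) {s : ℕ} (I : Fin s → Ideal R) :
    ∃ t : (∀ j, I j) ≃+ (∀ j, (I j).map (Φ : R →+* R)), ∀ (r : R) x, t (r • x) = Φ r • t x := by
  have h1 : ∀ j (x : I j), Φ (x : R) ∈ (I j).map (Φ : R →+* R) := fun j x =>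
    Ideal.mem_map_of_mem (Φ : R →+* R) x.2
  have h2 : ∀ j (y : (I j).map (Φ : R →+* R)), Φ.symm (y : R) ∈ I j := by
    intro j y
    obtain ⟨x, hx, hxy⟩ := (Ideal.mem_map_of_equiv Φ (y : R)).1 y.2
    rw [← hxy, RingEquiv.symm_apply_apply]
    exact hx
  refine ⟨{ toFun := fun x j => ⟨Φ (x j : R), h1 j (x j)⟩
            invFun := fun y j => ⟨Φ.symm (y j : R), h2 j (y j)⟩
            left_inv := fun x => by
              funext j
              apply Subtype.ext
              exact Φ.symm_apply_apply _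
            right_inv := fun y => by
              funext j
              apply Subtype.ext
              exact Φ.apply_symm_apply _
            map_add' := fun x y => by
              funext j
              apply Subtype.ext
              exact map_add Φ _ _ }, ?_⟩
  intro r x
  funext j
  apply Subtype.ext
  exact map_mul Φ _ _

/-- The comparison. -/
theorem stable_key (h : GR p R) (Φ : R ≃+* R) {k l s : ℕ} {A₁ A₂ B₁ B₂ : Type}
    [AddCommGroup A₁] [Module R A₁] [AddCommGroup A₂] [Module R A₂]
    [AddCommGroup B₁] [Module R B₁] [AddCommGroup B₂] [Module R B₂]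
    (f : A₁ ≃+ A₂) (hf : ∀ (r : R) a, f (r • a) = Φ r • f a)
    (b₁ : B₁ ≃ₗ[R] (Fin k → R)) (b₂ : B₂ ≃ₗ[R] (Fin k → R))
    (c : (A₁ × B₂) ≃ₗ[R] (A₂ × B₁))
    (q : (Fin l → R) →ₗ[R] A₁) (hq : Function.Surjective q)
    (I : Fin s → Ideal R) (hI : ∀ j, Good p (I j)) (e : LinearMap.ker q ≃ₗ[R] (∀ j, I j)) :
    ∃ (d : ℤ) (v : R), ¬ (p : ℤ) ∣ d ∧
      Ideal.span {(d : R)} * (∏ j, I j).map (Φ : R →+* R) = Ideal.span {v} * ∏ j, I j := by
  -- the twisted cover
  let t : (Fin l → R) → (Fin l → R) := fun x i => Φ.symm (x i)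
  have ht : ∀ (r : R) x, t (r • x) = Φ.symm r • t x := fun r x => by
    funext i
    exact map_mul Φ.symm _ _
  have ht' : ∀ x y, t (x + y) = t x + t y := fun x y => by
    funext i
    exact map_add Φ.symm _ _
  let q₂ : (Fin l → R) →ₗ[R] A₂ :=
    { toFun := fun x => f (q (t x))
      map_add' := fun x y => by rw [ht', map_add, map_add]
      map_smul' := fun r x => by
        rw [ht, map_smul, hf, RingEquiv.apply_symm_apply, RingHom.id_apply] }
  have hq₂ : Function.Surjective q₂ := by
    intro a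
    obtain ⟨x, hx⟩ := hq (f.symm a)
    refine ⟨fun i => Φ (x i), ?_⟩
    have h1 : t (fun i => Φ (x i)) = x := by
      funext i
      exact Φ.symm_apply_apply _
    change f (q (t _)) = a
    rw [h1, hx, AddEquiv.apply_symm_apply]
  -- the inclusions
  obtain ⟨u, hu⟩ := exists_semilinear Φ I
  have husymm : ∀ (r : R) y, u.symm (r • y) = Φ.symm r • u.symm y := fun r y => by
    apply u.injective
    rw [AddEquiv.apply_symm_apply, hu, AddEquiv.apply_symm_apply, RingEquiv.apply_symm_apply]
  let i₂ : (∀ j, (I j).map (Φ : R →+* R)) →ₗ[R] (Fin l → R) :=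
    { toFun := fun y i => Φ ((e.symm (u.symm y) : Fin l → R) i)
      map_add' := fun x y => by
        funext i
        rw [map_add, map_add]
        exact map_add Φ _ _
      map_smul' := fun r y => by
        funext i
        rw [husymm, map_smul]
        change Φ (Φ.symm r * _) = r * _
        rw [map_mul, RingEquiv.apply_symm_apply] }
  have hti₂ : ∀ y, t (i₂ y) = (e.symm (u.symm y) : Fin l → R) := fun y => by
    funext i
    exact Φ.symm_apply_apply _
  have hi₂ : Function.Injective i₂ := by
    intro x y hxy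
    have h1 := congrArg t hxy
    rw [hti₂, hti₂] at h1
    exact u.symm.injective (e.symm.injective (Subtype.ext h1))
  have hex₂ : Function.Exact i₂ q₂ := by
    intro x
    constructor
    · intro hx
      have h1 : q (t x) = 0 := by
        apply f.injective
        rw [map_zero]
        exact hx
      refine ⟨u (e ⟨t x, h1⟩), ?_⟩
      funext i
      change Φ ((e.symm (u.symm (u (e ⟨t x, h1⟩))) : Fin l → R) i) = x i
      rw [AddEquiv.symm_apply_apply, LinearEquiv.symm_apply_apply]
      exact Φ.apply_symm_apply _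
    · rintro ⟨y, rfl⟩
      change f (q (t (i₂ y))) = 0
      rw [hti₂]
      have h1 : q (e.symm (u.symm y) : Fin l → R) = 0 := (e.symm (u.symm y)).2
      rw [h1, map_zero]
  let i₁ : (∀ j, I j) →ₗ[R] (Fin l → R) := (LinearMap.ker q).subtype.comp e.symm.toLinearMap
  have hi₁ : Function.Injective i₁ := Subtype.val_injective.comp e.symm.injective
  have hex₁ : Function.Exact i₁ q := by
    intro x
    constructor
    · intro hx
      refine ⟨e ⟨x, hx⟩, ?_⟩
      change ((e.symm (e ⟨x, hx⟩) : LinearMap.ker q) : Fin l → R) = x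
      rw [LinearEquiv.symm_apply_apply]
    · rintro ⟨y, rfl⟩
      exact (e.symm y).2
  -- the products with the free module
  let c' : (A₁ × (Fin k → R)) ≃ₗ[R] (A₂ × (Fin k → R)) :=
    ((LinearEquiv.prodCongr (LinearEquiv.refl R A₁) b₂.symm).trans c).trans
      (LinearEquiv.prodCongr (LinearEquiv.refl R A₂) b₁)
  obtain ⟨w⟩ := schanuel (R := R) (L := ∀ j, I j) (L' := ∀ j, (I j).map (Φ : R →+* R))
    (P := (Fin l → R) × (Fin k → R)) (P' := (Fin l → R) × (Fin k → R)) (M := A₂ × (Fin k → R))
    ((LinearMap.inl R (Fin l → R) (Fin k → R)).comp i₁)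
    (c'.toLinearMap.comp (q.prodMap LinearMap.id))
    ((LinearMap.inl R (Fin l → R) (Fin k → R)).comp i₂)
    (q₂.prodMap LinearMap.id)
    (LinearMap.inl_injective.comp hi₁)
    (by
      rintro ⟨x, y⟩
      constructor
      · intro hx
        have h1 : (q x, y) = (0 : A₁ × (Fin k → R)) := c'.map_eq_zero_iff.1 hx
        rw [Prod.mk_eq_zero] at h1
        obtain ⟨z, hz⟩ := (hex₁ x).1 h1.1
        exact ⟨z, Prod.ext hz h1.2.symm⟩
      · rintro ⟨z, hz⟩
        have h1 : i₁ z = x := congrArg Prod.fst hz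
        have h2 : 0 = y := congrArg Prod.snd hz
        change c' (q x, y) = 0
        rw [← h1, ← h2, hex₁.apply_apply_eq_zero]
        exact map_zero c')
    (by
      intro z
      obtain ⟨x, hx⟩ := hq (c'.symm z).1
      refine ⟨(x, (c'.symm z).2), ?_⟩
      change c' (q x, (c'.symm z).2) = z
      rw [hx]
      exact c'.apply_symm_apply z)
    (LinearMap.inl_injective.comp hi₂)
    (by
      rintro ⟨x, y⟩
      constructor
      · intro hx
        have h1 : (q₂ x, y) = (0 : A₂ × (Fin k → R)) := hx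
        rw [Prod.mk_eq_zero] at h1
        obtain ⟨z, hz⟩ := (hex₂ x).1 h1.1
        exact ⟨z, Prod.ext hz h1.2.symm⟩
      · rintro ⟨z, hz⟩
        have h1 : i₂ z = x := congrArg Prod.fst hz
        have h2 : 0 = y := congrArg Prod.snd hz
        change (q₂ x, y) = 0
        rw [← h1, ← h2, hex₂.apply_apply_eq_zero]
        rfl)
    (by
      rintro ⟨a, z⟩
      obtain ⟨x, hx⟩ := hq₂ a
      exact ⟨(x, z), Prod.ext hx rfl⟩)
  let fr : ((Fin l → R) × (Fin k → R)) ≃ₗ[R] (Fin (l + k) → R) :=
    (LinearEquiv.sumArrowLequivProdArrow (Fin l) (Fin k) R R).symm.trans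
      (LinearEquiv.funCongrLeft R R finSumFinEquiv.symm)
  rw [map_prod_equiv]
  exact prod_of_stable_equiv h I (fun j => (I j).map (Φ : R →+* R)) hI
    (fun j => (hI j).map_equiv Φ)
    (((LinearEquiv.prodCongr (LinearEquiv.refl R _) fr.symm).trans w).trans
      (LinearEquiv.prodCongr (LinearEquiv.refl R _) fr))

end Pool.Agent.Lib.MP_0e6cae_nt
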