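import Pool.Agent.Lib.MP_0e6cae_nt.Defs
import Pool.Agent.Lib.MP_f80667_ag.Hm.SUnit

/-!
The rank of the group of `S`-units (Dirichlet).
-/

open NumberField IsDedekindDomain

namespace Pool.Agent.Lib.MP_0e6cae_nt

variable {F : Type} [Field F] [NumberField F] {S : Set (HeightOneSpectrum (𝓞 F))}

/-- Dirichlet's theorem for `S`-units. -/
theorem finrank_US (hS : S.Finite) :
    Module.finrank ℤ (US S) + 1 = S.ncard + Fintype.card (InfinitePlace F) := by
  obtain ⟨S', rfl⟩ : ∃ S' : Finset (HeightOneSpectrum (𝓞 F)), S = ↑S' :=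
    ⟨hS.toFinset, hS.coe_toFinset.symm⟩
  have h1 : Module.finrank ℤ (US (S' : Set (HeightOneSpectrum (𝓞 F)))) =
      S'.card + Units.rank F := Hm.finrank_US F S'
  have h2 : 0 < Fintype.card (InfinitePlace F) := Fintype.card_pos
  rw [h1, Set.ncard_coe_finset, Units.rank]
  omega

theorem finrank_XS (hS : S.Finite) :
    Module.finrank ℤ (XS S) + 1 = S.ncard + Fintype.card (InfinitePlace F) := by
  classical
  obtain ⟨S', rfl⟩ : ∃ S' : Finset (HeightOneSpectrum (𝓞 F)), S = ↑S' :=
    ⟨hS.toFinset, hS.coe_toFinset.symm⟩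
  let j : (S' ⊕ InfinitePlace F) → Pl F := Sum.map Subtype.val id
  have hj : Function.Injective j := Sum.map_injective.2 ⟨Subtype.val_injective, fun _ _ h => h⟩
  let L : ((S' ⊕ InfinitePlace F) →₀ ℤ) →ₗ[ℤ] ℤ := Finsupp.linearCombination ℤ fun _ => (1 : ℤ)
  have hL : ∀ x, L x = x.sum fun _ n => n := fun x => by
    simp only [L, Finsupp.linearCombination_apply, smul_eq_mul, mul_one]
  have hsum : ∀ x : (S' ⊕ InfinitePlace F) →₀ ℤ,
      ((Finsupp.mapDomain j x).sum fun _ n => n) = x.sum fun _ n => n := fun x =>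
    Finsupp.sum_mapDomain_index (fun _ => rfl) (fun _ _ _ => rfl)
  let φ : LinearMap.ker L →+ XS (S' : Set (HeightOneSpectrum (𝓞 F))) :=
    { toFun := fun x => ⟨Finsupp.mapDomain j x.1, by
        refine ⟨fun w hw => ?_, ?_⟩
        · by_contra hwS
          apply hw
          refine Finsupp.mapDomain_of_notMem_range _ _ ?_
          rintro ⟨y, hy⟩
          rcases y with y | y
          · apply hwS
            have : (y : HeightOneSpectrum (𝓞 F)) = w := Sum.inl_injective hy
            rw [← this]
            exact y.2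
          · exact absurd hy (by simp [j])
        · rw [hsum, ← hL]
          exact x.2⟩
      map_zero' := Subtype.ext (Finsupp.mapDomain_zero (f := j))
      map_add' := fun x y => Subtype.ext (Finsupp.mapDomain_add (f := j)) }
  have hφi : Function.Injective φ := by
    intro x y hxy
    apply Subtype.ext
    exact Finsupp.mapDomain_injective hj (congrArg Subtype.val hxy)
  have hφs : Function.Surjective φ := by
    rintro ⟨f, hf, hf'⟩
    have hsub : (f.support : Set (Pl F)) ⊆ Set.range j := by
      intro w hw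
      rw [Finset.mem_coe, Finsupp.mem_support_iff] at hw
      rcases w with w | w
      · exact ⟨Sum.inl ⟨w, hf w hw⟩, rfl⟩
      · exact ⟨Sum.inr w, rfl⟩
    have hmc : Finsupp.mapDomain j (f.comapDomain j hj.injOn) = f :=
      Finsupp.mapDomain_comapDomain j hj f hsub
    refine ⟨⟨f.comapDomain j hj.injOn, ?_⟩, Subtype.ext hmc⟩
    rw [LinearMap.mem_ker, hL, ← hsum, hmc]
    exact hf'
  have e : LinearMap.ker L ≃+ XS (S' : Set (HeightOneSpectrum (𝓞 F))) :=
    AddEquiv.ofBijective φ ⟨hφi, hφs⟩
  have h1 : Module.finrank ℤ (LinearMap.ker L) =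
      Module.finrank ℤ (XS (S' : Set (HeightOneSpectrum (𝓞 F)))) := e.toIntLinearEquiv.finrank_eq
  have hLs : Function.Surjective L := by
    intro n
    obtain ⟨w⟩ : Nonempty (InfinitePlace F) := inferInstance
    refine ⟨Finsupp.single (Sum.inr w) n, ?_⟩
    rw [hL, Finsupp.sum_single_index rfl]
  have h2 := (LinearMap.ker L).finrank_quotient_add_finrank
  rw [(L.quotKerEquivOfSurjective hLs).finrank_eq, Module.finrank_self, h1,
    Module.finrank_finsupp_self, Fintype.card_sum, Fintype.card_coe] at h2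
  rw [Set.ncard_coe_finset]
  omega

end Pool.Agent.Lib.MP_0e6cae_nt
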