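import Pool.Agent.Lib.MP_0e6cae_nt.GR
import Pool.Agent.Lib.MP_0e6cae_nt.IndI
import Pool.Agent.Lib.MP_0e6cae_nt.Ind

/-!
Transfer to the group ring `ℤ[G]`, `G` cyclic of order `p^a`.
-/

open Polynomial

namespace Pool.Agent.Lib.MP_0e6cae_nt

/-- The group ring of a cyclic group as a commutative ring (the ring structure is the standard
one). -/
noncomputable abbrev crG (G : Type) [Group G] [IsCyclic G] : CommRing (MonoidAlgebra ℤ G) :=
  { (inferInstance : Ring (MonoidAlgebra ℤ G)) with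
    mul_comm := by
      letI := IsCyclic.commGroup (α := G)
      exact fun a b => mul_comm a b }

section Abs

variable {R : Type} [CommRing R] (π : ℤ[X] →+* R) (hπ : Function.Surjective π)

include hπ in
private theorem tr_inv (p a : ℕ) (hp : p.Prime) (hk : RingHom.ker π = Ideal.span {X ^ (p ^ a) - 1}) :
    Inv p R := by
  intro I n hn hnI
  have hm : π (X ^ (p ^ a) - 1) = 0 := by
    have h1 : (X ^ (p ^ a) - 1 : ℤ[X]) ∈ RingHom.ker π := by
      rw [hk]
      exact Ideal.mem_span_singleton_self _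
    exact h1
  have hC : π (C n) = (n : R) := by
    rw [show (C n : ℤ[X]) = ((n : ℤ) : ℤ[X]) from eq_intCast C n, map_intCast]
  obtain ⟨J, hJ⟩ := inv_poly p a hp (I.comap π) (by rw [Ideal.mem_comap, hm]; exact I.zero_mem) n hn
    (by rw [Ideal.mem_comap, hC]; exact hnI)
  refine ⟨J.map π, ?_⟩
  have h2 := congrArg (Ideal.map π) hJ
  rw [Ideal.map_sup, Ideal.map_sup, Ideal.map_mul, Ideal.map_span, Ideal.map_span,
    Set.image_singleton, Set.image_singleton, hm, hC, Ideal.map_comap_of_surjective π hπ] at h2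
  simpa using h2

include hπ in
private theorem tr_principal (p a : ℕ) (hp : p.Prime) (hp2 : p ≠ 2)
    (hk : RingHom.ker π = Ideal.span {X ^ (p ^ a) - 1}) (g : ℕ)
    (hg : ∀ u : (ZMod (p ^ (a + 1)))ˣ, ∃ j : ℕ,
      (u : ZMod (p ^ (a + 1))) = (g : ZMod (p ^ (a + 1))) ^ j)
    (Φ : R →+* R) (hΦ : Φ (π X) = π X ^ g) (I : Ideal R) (hI : Good p I) (d : ℤ) (v : R)
    (hd : ¬ (p : ℤ) ∣ d) (hv : Ideal.span {(d : R)} * I.map Φ = Ideal.span {v} * I) :
    ∃ w, I = Ideal.span {w} := by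
  have hm : π (X ^ (p ^ a) - 1) = 0 := by
    have h1 : (X ^ (p ^ a) - 1 : ℤ[X]) ∈ RingHom.ker π := by
      rw [hk]
      exact Ideal.mem_span_singleton_self _
    exact h1
  have hC : ∀ n : ℤ, π (C n) = (n : R) := by
    intro n
    rw [show (C n : ℤ[X]) = ((n : ℤ) : ℤ[X]) from eq_intCast C n, map_intCast]
  obtain ⟨n, hn, hnI⟩ := hI
  obtain ⟨v', rfl⟩ := hπ v
  have hcomp : π.comp ((expand ℤ g : ℤ[X] →ₐ[ℤ] ℤ[X]) : ℤ[X] →+* ℤ[X]) = Φ.comp π := by
    refine Polynomial.ringHom_ext (fun c => ?_) ?_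
    · change π (expand ℤ g (C c)) = Φ (π (C c))
      rw [expand_C, hC, map_intCast]
    · change π (expand ℤ g X) = Φ (π X)
      rw [expand_X, map_pow, hΦ]
  have key : Ideal.span {C d} * (I.comap π).map (expand ℤ g : ℤ[X] →ₐ[ℤ] ℤ[X]) ⊔
      Ideal.span {X ^ (p ^ a) - 1} =
      Ideal.span {v'} * (I.comap π) ⊔ Ideal.span {X ^ (p ^ a) - 1} := by
    have h3 : ∀ J : Ideal ℤ[X], J ⊔ Ideal.span {X ^ (p ^ a) - 1} = (J.map π).comap π := by
      intro J
      rw [Ideal.comap_map_of_surjective π hπ, ← hk]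
      rfl
    rw [h3, h3]
    congr 1
    rw [Ideal.map_mul, Ideal.map_mul, Ideal.map_span, Ideal.map_span, Set.image_singleton,
      Set.image_singleton, hC, Ideal.map_comap_of_surjective π hπ, ← hv]
    congr 1
    have h4 : ((I.comap π).map (expand ℤ g : ℤ[X] →ₐ[ℤ] ℤ[X])).map π =
        (I.comap π).map (π.comp ((expand ℤ g : ℤ[X] →ₐ[ℤ] ℤ[X]) : ℤ[X] →+* ℤ[X])) :=
      Ideal.map_map ((expand ℤ g : ℤ[X] →ₐ[ℤ] ℤ[X]) : ℤ[X] →+* ℤ[X]) π
    rw [h4, hcomp, ← Ideal.map_map, Ideal.map_comap_of_surjective π hπ]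
  obtain ⟨w, hw⟩ := principal_poly p a hp hp2 g hg (I.comap π)
    (by rw [Ideal.mem_comap, hm]; exact I.zero_mem) n hn (by rw [Ideal.mem_comap, hC]; exact hnI)
    d v' hd key
  refine ⟨π w, ?_⟩
  have h5 := congrArg (Ideal.map π) hw
  rw [Ideal.map_comap_of_surjective π hπ, Ideal.map_sup, Ideal.map_span, Ideal.map_span,
    Set.image_singleton, Set.image_singleton, hm] at h5
  simpa using h5

end Abs

section Grp

variable (G : Type) [Group G] [IsCyclic G]

/-- The map `X ↦ g0`. -/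
private noncomputable def trP (g0 : G) :
    letI := crG G
    ℤ[X] →+* MonoidAlgebra ℤ G :=
  letI := crG G
  Polynomial.eval₂RingHom (Int.castRingHom (MonoidAlgebra ℤ G)) (MonoidAlgebra.single g0 1)

private theorem trP_X (g0 : G) :
    letI := crG G
    trP G g0 X = MonoidAlgebra.single g0 1 := by
  letI := crG G
  unfold trP
  rw [Polynomial.coe_eval₂RingHom, Polynomial.eval₂_X]

private theorem trP_mon (g0 : G) (c : ℤ) (i : ℕ) :
    letI := crG G
    trP G g0 (C c * X ^ i) = MonoidAlgebra.single (g0 ^ i) c := by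
  letI := crG G
  rw [map_mul, map_pow, trP_X, MonoidAlgebra.single_pow, one_pow,
    show (C c : ℤ[X]) = ((c : ℤ) : ℤ[X]) from eq_intCast C c, map_intCast]
  rw [← zsmul_eq_mul]
  rw [MonoidAlgebra.smul_single]
  simp

private theorem trP_surj (g0 : G) (hg0 : ∀ x, x ∈ Subgroup.zpowers g0) (hfin : Finite G) :
    letI := crG G
    Function.Surjective (trP G g0) := by
  letI := crG G
  intro y
  induction y using MonoidAlgebra.induction_linear with
  | zero => exact ⟨0, map_zero _⟩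
  | add x y hx hy =>
    obtain ⟨f, rfl⟩ := hx
    obtain ⟨g, rfl⟩ := hy
    exact ⟨f + g, map_add _ _ _⟩
  | single x n =>
    obtain ⟨i, hi⟩ := (mem_powers_iff_mem_zpowers (x := g0)).2 (hg0 x)
    exact ⟨C n * X ^ i, by rw [trP_mon]; exact congrArg (fun z => MonoidAlgebra.single z n) hi⟩

private theorem trP_ker (g0 : G) (q : ℕ) (hq : q ≠ 0) (ho : orderOf g0 = q) :
    letI := crG G
    RingHom.ker (trP G g0) = Ideal.span {X ^ q - 1} := by
  letI := crG G
  have hm : trP G g0 (X ^ q - 1) = 0 := by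
    rw [map_sub, map_pow, trP_X, map_one, MonoidAlgebra.single_pow, one_pow, ← ho,
      pow_orderOf_eq_one, sub_eq_zero]
    rfl
  have hmon : (X ^ q - 1 : ℤ[X]).Monic := by
    have := monic_X_pow_sub_C (1 : ℤ) hq
    simpa using this
  apply le_antisymm
  · intro f hf
    rw [RingHom.mem_ker] at hf
    rw [Ideal.mem_span_singleton, ← modByMonic_eq_zero_iff_dvd hmon]
    set r := f %ₘ (X ^ q - 1 : ℤ[X]) with hr
    have hr0 : trP G g0 r = 0 := by
      have h1 := modByMonic_add_div f (X ^ q - 1 : ℤ[X])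
      rw [← h1, map_add, map_mul, hm, zero_mul, add_zero] at hf
      exact hf
    have hdeg : r.degree < q := by
      have h2 := degree_modByMonic_lt f hmon
      have h3 : (X ^ q - 1 : ℤ[X]).degree = q := by
        have := degree_X_pow_sub_C (Nat.pos_of_ne_zero hq) (1 : ℤ)
        simpa using this
      rw [h3] at h2
      exact h2
    by_contra hne
    have hnat : r.natDegree < q := (natDegree_lt_iff_degree_lt hne).2 hdeg
    have hsum : r = ∑ i ∈ Finset.range q, C (r.coeff i) * X ^ i :=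
      as_sum_range_C_mul_X_pow' r hnat
    apply hne
    ext j
    rw [coeff_zero]
    by_cases hj : j < q
    · rw [hsum, map_sum] at hr0
      simp only [trP_mon] at hr0
      have h4 := congrArg (fun z : MonoidAlgebra ℤ G => z.coeff (g0 ^ j)) hr0
      simp only [MonoidAlgebra.coeff_sum, Finsupp.coe_finsetSum, Finset.sum_apply,
        MonoidAlgebra.coeff_single, MonoidAlgebra.coeff_zero, Finsupp.coe_zero,
        Pi.zero_apply] at h4
      rw [Finset.sum_eq_single j] at h4
      · simpa using h4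
      · intro i hi hij
        classical
        rw [Finsupp.single_apply, if_neg]
        intro h5
        apply hij
        rw [Finset.mem_range] at hi
        exact pow_injOn_Iio_orderOf (by rw [ho]; exact hi) (by rw [ho]; exact hj) h5
      · intro h5
        exact absurd (Finset.mem_range.2 hj) h5
    · exact coeff_eq_zero_of_natDegree_lt (hnat.trans_le (not_lt.1 hj))
  · rw [Ideal.span_singleton_le_iff_mem]
    exact hm

private theorem tr_pow (p a : ℕ) (hp : p.Prime) (hcard : Nat.card G = p ^ a)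
    (y : MonoidAlgebra ℤ G) :
    letI := crG G
    ∃ (N : ℤ) (t : MonoidAlgebra ℤ G), y ^ (p ^ a) = (N : MonoidAlgebra ℤ G) + p * t := by
  letI := crG G
  induction y using MonoidAlgebra.induction_linear with
  | zero =>
    exact ⟨0, 0, by simp [hp.ne_zero]⟩
  | add x y hx hy =>
    obtain ⟨N, t, h1⟩ := hx
    obtain ⟨M, u, h2⟩ := hy
    obtain ⟨r, hr⟩ := exists_add_pow_prime_pow_eq hp x y a
    refine ⟨N + M, t + u + x * y * r, ?_⟩
    rw [hr, h1, h2]
    push_cast
    ring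
  | single x n =>
    refine ⟨n ^ (p ^ a), 0, ?_⟩
    rw [MonoidAlgebra.single_pow, ← hcard, pow_card_eq_one', mul_zero, add_zero]
    exact (MonoidAlgebra.intCast_def _).symm

/-- The augmentation modulo `p`. -/
private noncomputable def trA (p : ℕ) :
    letI := crG G
    MonoidAlgebra ℤ G →+* ZMod p :=
  letI := crG G
  MonoidAlgebra.liftNCRingHom (Int.castRingHom (ZMod p)) (1 : G →* ZMod p)
    (fun _ _ => Commute.all _ _)

private theorem tr_loc (p a : ℕ) (hp : p.Prime) (hcard : Nat.card G = p ^ a) :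
    letI := crG G
    ∃ aug : MonoidAlgebra ℤ G →+* ZMod p, ∀ y, aug y ≠ 0 →
      ∃ z t : MonoidAlgebra ℤ G, y * z = 1 + (p : MonoidAlgebra ℤ G) * t := by
  letI := crG G
  haveI : Fact p.Prime := ⟨hp⟩
  refine ⟨trA G p, fun y hy => ?_⟩
  obtain ⟨N, t, h⟩ := tr_pow G p a hp hcard y
  have h1 : (trA G p y) ^ (p ^ a) = (N : ZMod p) := by
    rw [← map_pow, h, map_add, map_mul, map_intCast, map_natCast, CharP.cast_eq_zero, zero_mul,
      add_zero]
  have h2 : (N : ZMod p) ≠ 0 := by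
    rw [← h1]
    exact pow_ne_zero _ hy
  have h3 : IsCoprime N (p : ℤ) := by
    rw [Ne, ZMod.intCast_zmod_eq_zero_iff_dvd] at h2
    rw [isCoprime_comm]
    exact (Nat.prime_iff_prime_int.1 hp).coprime_iff_not_dvd.2 h2
  obtain ⟨b, c, hbc⟩ := h3
  have h4 : ((b : MonoidAlgebra ℤ G)) * N + c * p = 1 := by
    have := congrArg (Int.cast : ℤ → MonoidAlgebra ℤ G) hbc
    push_cast at this
    exact this
  refine ⟨y ^ (p ^ a - 1) * b, t * b - c, ?_⟩
  have h5 : y * (y ^ (p ^ a - 1) * (b : MonoidAlgebra ℤ G)) = y ^ (p ^ a) * b := by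
    rw [← mul_assoc, ← pow_succ', Nat.sub_add_cancel (Nat.one_le_pow _ _ hp.pos)]
  rw [h5, h]
  linear_combination h4

end Grp

/-- `ℤ[G]` satisfies the standing assumptions. -/
theorem gr_monoidAlgebra (p a : ℕ) (hp : p.Prime) (G : Type) [Group G] [IsCyclic G]
    (hcard : Nat.card G = p ^ a) : @GR p (MonoidAlgebra ℤ G) (crG G) := by
  letI := crG G
  have hfin : Finite G := Nat.finite_of_card_ne_zero (by rw [hcard]; exact pow_ne_zero _ hp.ne_zero)
  obtain ⟨g0, hg0⟩ := IsCyclic.exists_generator (α := G)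
  have ho : orderOf g0 = p ^ a := by rw [orderOf_eq_card_of_forall_mem_zpowers hg0, hcard]
  refine ⟨hp, ?_, ?_, ?_, ?_, tr_loc G p a hp hcard⟩
  · exact Module.Finite.equiv (MonoidAlgebra.coeffAddEquiv (R := ℤ) (M := G)).toIntLinearEquiv.symm
  · exact Module.Free.of_equiv (MonoidAlgebra.coeffAddEquiv (R := ℤ) (M := G)).toIntLinearEquiv.symm
  · infer_instance
  · exact tr_inv (trP G g0) (trP_surj G g0 hg0 hfin) p a hp
      (trP_ker G g0 (p ^ a) (pow_ne_zero _ hp.ne_zero) ho)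

/-- Good ideals of `ℤ[G]` which are isomorphic to all their images under the automorphisms of `G`
are principal. -/
theorem principal_monoidAlgebra (p a : ℕ) (hp : p.Prime) (hp2 : p ≠ 2) (G : Type) [Group G]
    [IsCyclic G] (hcard : Nat.card G = p ^ a) :
    let _ := crG G
    ∀ (I : Ideal (MonoidAlgebra ℤ G)), Good p I →
    (∀ φ : G ≃* G, ∃ (d : ℤ) (v : MonoidAlgebra ℤ G), ¬ (p : ℤ) ∣ d ∧
      Ideal.span {(d : MonoidAlgebra ℤ G)} *
        I.map (MonoidAlgebra.mapDomainRingHom ℤ (φ : G →* G)) = Ideal.span {v} * I) →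
    ∃ w, I = Ideal.span {w} := by
  intro _ I hI hφ
  have hfin : Finite G := Nat.finite_of_card_ne_zero (by rw [hcard]; exact pow_ne_zero _ hp.ne_zero)
  obtain ⟨g0, hg0⟩ := IsCyclic.exists_generator (α := G)
  have ho : orderOf g0 = p ^ a := by rw [orderOf_eq_card_of_forall_mem_zpowers hg0, hcard]
  haveI : NeZero (p ^ (a + 1)) := ⟨pow_ne_zero _ hp.ne_zero⟩
  haveI := ZMod.isCyclic_units_of_prime_pow p hp hp2 (a + 1)
  obtain ⟨u0, hu0⟩ := IsCyclic.exists_generator (α := (ZMod (p ^ (a + 1)))ˣ)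
  set g : ℕ := (u0 : ZMod (p ^ (a + 1))).val with hg
  have hgc : (g : ZMod (p ^ (a + 1))) = u0 := by
    rw [hg]
    exact ZMod.natCast_zmod_val _
  have hgen : ∀ u : (ZMod (p ^ (a + 1)))ˣ, ∃ j : ℕ,
      (u : ZMod (p ^ (a + 1))) = (g : ZMod (p ^ (a + 1))) ^ j := by
    intro u
    obtain ⟨j, hj⟩ := (mem_powers_iff_mem_zpowers (x := u0)).2 (hu0 u)
    refine ⟨j, ?_⟩
    rw [hgc, ← Units.val_pow_eq_pow_val]
    exact congrArg Units.val hj.symm
  have hcop : (Nat.card G).Coprime g := by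
    have h1 := ZMod.val_coe_unit_coprime u0
    rw [hcard]
    exact ((Nat.coprime_pow_right_iff (Nat.succ_pos a) _ _).1 h1).symm.pow_left a
  letI := IsCyclic.commGroup (α := G)
  let φ : G ≃* G := MulEquiv.ofBijective (powMonoidHom g) (powCoprime hcop).bijective
  obtain ⟨d, v, hd, hv⟩ := hφ φ
  refine tr_principal (trP G g0) (trP_surj G g0 hg0 hfin) p a hp hp2
    (trP_ker G g0 (p ^ a) (pow_ne_zero _ hp.ne_zero) ho) g hgen
    (MonoidAlgebra.mapDomainRingHom ℤ (φ : G →* G)) ?_ I hI d v hd hv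
  rw [trP_X, MonoidAlgebra.single_pow, one_pow, MonoidAlgebra.mapDomainRingHom_apply,
    MonoidAlgebra.mapDomain_single]
  rfl

end Pool.Agent.Lib.MP_0e6cae_nt
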