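import Pool.Agent.Lib.MP_0e6cae_nt.Defs

/-!
The action of a field automorphism on `S`-units and on `X_S`; twisted modules.
-/

open CategoryTheory NumberField IsDedekindDomain

namespace Pool.Agent.Lib.MP_0e6cae_nt

variable {F : Type} [Field F] [NumberField F]

theorem mem_actFin (γ : F ≃+* F) (w : HeightOneSpectrum (𝓞 F)) (x : 𝓞 F) :
    x ∈ (actFin γ w).asIdeal ↔ (RingOfIntegers.mapRingEquiv γ).symm x ∈ w.asIdeal := Iff.rfl

theorem actFin_symm_actFin (γ : F ≃+* F) (w : HeightOneSpectrum (𝓞 F)) :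
    actFin γ.symm (actFin γ w) = w := by
  ext x
  rw [mem_actFin, mem_actFin]
  have : (RingOfIntegers.mapRingEquiv γ).symm ((RingOfIntegers.mapRingEquiv γ.symm).symm x) = x := by
    apply NumberField.RingOfIntegers.ext
    simp
  rw [this]

theorem actFin_actFin_symm (γ : F ≃+* F) (w : HeightOneSpectrum (𝓞 F)) :
    actFin γ (actFin γ.symm w) = w := by
  have := actFin_symm_actFin γ.symm w
  rwa [RingEquiv.symm_symm] at this

theorem actInf_symm_actInf (γ : F ≃+* F) (w : InfinitePlace F) :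
    actInf γ.symm (actInf γ w) = w := by
  ext x
  simp only [actInf, InfinitePlace.comap_apply]
  congr 1
  simp

theorem actInf_actInf_symm (γ : F ≃+* F) (w : InfinitePlace F) :
    actInf γ (actInf γ.symm w) = w := by
  have := actInf_symm_actInf γ.symm w
  rwa [RingEquiv.symm_symm] at this

theorem actPl_symm_actPl (γ : F ≃+* F) (w : Pl F) : actPl γ.symm (actPl γ w) = w := by
  rcases w with w | w
  · simp only [actPl, Sum.map_inl, actFin_symm_actFin]
  · simp only [actPl, Sum.map_inr, actInf_symm_actInf]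

theorem actPl_actPl_symm (γ : F ≃+* F) (w : Pl F) : actPl γ (actPl γ.symm w) = w := by
  rcases w with w | w
  · simp only [actPl, Sum.map_inl, actFin_actFin_symm]
  · simp only [actPl, Sum.map_inr, actInf_actInf_symm]

theorem actPl_injective (γ : F ≃+* F) : Function.Injective (actPl γ : Pl F → Pl F) :=
  Function.LeftInverse.injective (actPl_symm_actPl γ)

/-- an element integral at `w` is mapped to an element integral at `γ w` -/
theorem valuation_actFin_le (γ : F ≃+* F) (w : HeightOneSpectrum (𝓞 F)) {x : F}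
    (hx : w.valuation F x ≤ 1) : (actFin γ w).valuation F (γ x) ≤ 1 := by
  obtain ⟨n, d, hnd⟩ := HeightOneSpectrum.exists_primeCompl_mul_eq_of_integer w x hx
  set e := RingOfIntegers.mapRingEquiv γ with he
  have hd : (actFin γ w).valuation F (γ (algebraMap (𝓞 F) F d)) = 1 := by
    have h1 : γ (algebraMap (𝓞 F) F d) = algebraMap (𝓞 F) F (e d) := rfl
    rw [h1, HeightOneSpectrum.valuation_of_algebraMap,
      HeightOneSpectrum.intValuation_eq_one_iff]
    intro hc
    rw [mem_actFin] at hc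
    have h2 : (RingOfIntegers.mapRingEquiv γ).symm (e (d : 𝓞 F)) = (d : 𝓞 F) := by
      rw [he, RingEquiv.symm_apply_apply]
    rw [h2] at hc
    exact d.2 hc
  have hn : (actFin γ w).valuation F (γ (algebraMap (𝓞 F) F n)) ≤ 1 := by
    have h1 : γ (algebraMap (𝓞 F) F n) = algebraMap (𝓞 F) F (e n) := rfl
    rw [h1]
    exact HeightOneSpectrum.valuation_le_one _ _
  have h3 := congrArg (fun y => (actFin γ w).valuation F (γ y)) hnd
  simp only [map_mul] at h3
  rw [hd, mul_one] at h3
  rw [h3]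
  exact hn

theorem valuation_actFin_eq_one (γ : F ≃+* F) (w : HeightOneSpectrum (𝓞 F)) {x : F}
    (hx : w.valuation F x = 1) : (actFin γ w).valuation F (γ x) = 1 := by
  refine le_antisymm (valuation_actFin_le γ w hx.le) ?_
  have h1 : w.valuation F x⁻¹ ≤ 1 := by
    rw [map_inv₀, hx, inv_one]
  have h2 := valuation_actFin_le γ w h1
  rw [map_inv₀, map_inv₀] at h2
  have hx0 : (actFin γ w).valuation F (γ x) ≠ 0 := by
    rw [Valuation.ne_zero_iff]
    intro h0
    rw [map_eq_zero] at h0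
    rw [h0, map_zero] at hx
    exact zero_ne_one hx
  exact (inv_le_one₀ (zero_lt_iff.mpr hx0)).mp h2

variable {S : Set (HeightOneSpectrum (𝓞 F))}

theorem mem_unit_iff (x : Fˣ) : x ∈ S.unit F ↔ ∀ v, v ∉ S → v.valuation F (x : F) = 1 := Iff.rfl

theorem map_mem_unit {γ : F ≃+* F} (hS : ∀ w, w ∈ S ↔ actFin γ w ∈ S) {x : Fˣ}
    (hx : x ∈ S.unit F) : Units.map (γ : F →* F) x ∈ S.unit F := by
  rw [mem_unit_iff] at hx ⊢
  intro v hv
  rw [← actFin_actFin_symm γ v] at hv ⊢
  rw [← hS] at hv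
  exact valuation_actFin_eq_one γ _ (hx _ hv)

/-- the action on the `S`-units -/
noncomputable def uMap (γ : F ≃+* F) (hS : ∀ w, w ∈ S ↔ actFin γ w ∈ S) : US S →+ US S :=
  MonoidHom.toAdditive (((Units.map (γ : F →* F)).comp (S.unit F).subtype).codRestrict (S.unit F)
    fun x => map_mem_unit hS x.2)

theorem coe_uMap (γ : F ≃+* F) (hS : ∀ w, w ∈ S ↔ actFin γ w ∈ S) (u : US S) :
    (((Additive.toMul (uMap γ hS u) : S.unit F) : Fˣ) : F) =
      γ (((Additive.toMul u : S.unit F) : Fˣ) : F) := rfl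

theorem US_ext {u u' : US S} (h : (((Additive.toMul u : S.unit F) : Fˣ) : F) =
    (((Additive.toMul u' : S.unit F) : Fˣ) : F)) : u = u' := by
  apply Additive.toMul.injective
  exact Subtype.ext (Units.ext h)

theorem hS_symm {γ : F ≃+* F} (hS : ∀ w, w ∈ S ↔ actFin γ w ∈ S) :
    ∀ w, w ∈ S ↔ actFin γ.symm w ∈ S := by
  intro w
  rw [hS (actFin γ.symm w), actFin_actFin_symm]

theorem uMap_uMap_symm (γ : F ≃+* F) (hS : ∀ w, w ∈ S ↔ actFin γ w ∈ S) (u : US S) :
    uMap γ hS (uMap γ.symm (hS_symm hS) u) = u := by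
  apply US_ext
  rw [coe_uMap, coe_uMap, RingEquiv.apply_symm_apply]

theorem uMap_symm_uMap (γ : F ≃+* F) (hS : ∀ w, w ∈ S ↔ actFin γ w ∈ S) (u : US S) :
    uMap γ.symm (hS_symm hS) (uMap γ hS u) = u := by
  apply US_ext
  rw [coe_uMap, coe_uMap, RingEquiv.symm_apply_apply]

theorem mapDomain_mem_XS {γ : F ≃+* F} (hS : ∀ w, w ∈ S ↔ actFin γ w ∈ S) {f : Pl F →₀ ℤ}
    (hf : f ∈ XS S) : Finsupp.mapDomain (actPl γ) f ∈ XS S := by
  refine ⟨?_, ?_⟩
  · intro w hw
    have h1 : (Sum.inl w : Pl F) = actPl γ (Sum.inl (actFin γ.symm w)) := by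
      simp only [actPl, Sum.map_inl, actFin_actFin_symm]
    rw [h1, Finsupp.mapDomain_apply (actPl_injective γ)] at hw
    have h2 := hf.1 _ hw
    rwa [hS, actFin_actFin_symm] at h2
  · rw [Finsupp.sum_mapDomain_index (fun _ => rfl) (fun _ _ _ => rfl)]
    exact hf.2

/-- the action on `X_S` -/
noncomputable def xMap (γ : F ≃+* F) (hS : ∀ w, w ∈ S ↔ actFin γ w ∈ S) : XS S →+ XS S :=
  ((Finsupp.mapDomain.addMonoidHom (actPl γ)).comp (XS S).subtype).codRestrict (XS S)
    fun x => mapDomain_mem_XS hS x.2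

theorem coe_xMap (γ : F ≃+* F) (hS : ∀ w, w ∈ S ↔ actFin γ w ∈ S) (x : XS S) :
    ((xMap γ hS x : XS S) : Pl F →₀ ℤ) = Finsupp.mapDomain (actPl γ) (x : Pl F →₀ ℤ) := rfl

theorem xMap_xMap_symm (γ : F ≃+* F) (hS : ∀ w, w ∈ S ↔ actFin γ w ∈ S) (x : XS S) :
    xMap γ hS (xMap γ.symm (hS_symm hS) x) = x := by
  apply Subtype.ext
  rw [coe_xMap, coe_xMap, ← Finsupp.mapDomain_comp]
  have : (actPl γ ∘ actPl γ.symm : Pl F → Pl F) = id := by
    funext w
    exact actPl_actPl_symm γ w
  rw [this, Finsupp.mapDomain_id]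

theorem xMap_injective (γ : F ≃+* F) (hS : ∀ w, w ∈ S ↔ actFin γ w ∈ S) :
    Function.Injective (xMap γ hS) := by
  intro x y h
  apply Subtype.ext
  have h' := congrArg (fun z : XS S => (z : Pl F →₀ ℤ)) h
  simp only [coe_xMap] at h'
  exact Finsupp.mapDomain_injective (actPl_injective γ) h'

/-! ### twisted modules -/

/-- the module `M` with the action twisted by the ring homomorphism `φ` -/
def Tw {R : Type} [Ring R] (_φ : R →+* R) (M : Type) : Type := M

instance {R : Type} [Ring R] (φ : R →+* R) (M : Type) [AddCommGroup M] :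
    AddCommGroup (Tw φ M) := inferInstanceAs (AddCommGroup M)

instance {R : Type} [Ring R] (φ : R →+* R) (M : Type) [AddCommGroup M] [Module R M] :
    Module R (Tw φ M) := Module.compHom M φ

/-- the identity -/
def toTw {R : Type} [Ring R] (φ : R →+* R) (M : Type) [AddCommGroup M] : M ≃+ Tw φ M :=
  AddEquiv.refl M

theorem smul_toTw {R : Type} [Ring R] (φ : R →+* R) (M : Type) [AddCommGroup M] [Module R M]
    (r : R) (m : M) : r • toTw φ M m = toTw φ M (φ r • m) := rfl

/-- an additive map which commutes with the group elements is linear over the group ring -/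
theorem map_smul_of_single {H : Type} [Group H] {A B : Type} [AddCommGroup A] [AddCommGroup B]
    [Module (MonoidAlgebra ℤ H) A] [Module (MonoidAlgebra ℤ H) B] (f : A →+ B)
    (hf : ∀ (g : H) (a : A), f (MonoidAlgebra.single g (1 : ℤ) • a) =
      MonoidAlgebra.single g (1 : ℤ) • f a) (r : MonoidAlgebra ℤ H) (a : A) :
    f (r • a) = r • f a := by
  induction r using MonoidAlgebra.induction_linear with
  | zero => rw [zero_smul, zero_smul, map_zero]
  | add x y hx hy => rw [add_smul, add_smul, map_add, hx, hy]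
  | single g n =>
    have h1 : (MonoidAlgebra.single g n : MonoidAlgebra ℤ H) = n • MonoidAlgebra.single g (1 : ℤ) := by
      rw [MonoidAlgebra.smul_single, smul_eq_mul, mul_one]
    rw [h1, smul_assoc, smul_assoc, map_zsmul, hf]

end Pool.Agent.Lib.MP_0e6cae_nt
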