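import Pool.Agent.Lib.MP_0e6cae_nt.Yon
import Pool.Agent.Lib.MP_0e6cae_nt.YonA

/-!
Covers and transports of 2-extensions.
-/

open CategoryTheory NumberField IsDedekindDomain

namespace Pool.Agent.Lib.MP_0e6cae_nt

variable {F : Type} [Field F] [NumberField F] {G : Subgroup (F ≃+* F)}
  {S : Set (HeightOneSpectrum (𝓞 F))}

/-- the pull back of `E.A` along `π` -/
noncomputable def TwoExt.pbc (E : TwoExt G S) (P : Type) [AddCommGroup P]
    [Module (MonoidAlgebra ℤ G) P] (π : P →ₗ[MonoidAlgebra ℤ G] E.B) :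
    Submodule (MonoidAlgebra ℤ G) (E.A × P) :=
  LinearMap.ker ((E.d.comp (LinearMap.fst _ _ _)) - π.comp (LinearMap.snd _ _ _))

theorem TwoExt.mem_pbc (E : TwoExt G S) (P : Type) [AddCommGroup P]
    [Module (MonoidAlgebra ℤ G) P] (π : P →ₗ[MonoidAlgebra ℤ G] E.B) (x : E.A × P) :
    x ∈ E.pbc P π ↔ E.d x.1 = π x.2 := by
  simp [TwoExt.pbc, sub_eq_zero]


/-- Pull back of a 2-extension along a surjection `π : P → E.B`. -/
theorem TwoExt.exists_cover (E : TwoExt G S) (P : Type) [AddCommGroup P]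
    [Module (MonoidAlgebra ℤ G) P] (π : P →ₗ[MonoidAlgebra ℤ G] E.B)
    (hπ : Function.Surjective π) :
    ∃ (E₁ : TwoExt G S) (b : E₁.B ≃ₗ[MonoidAlgebra ℤ G] P)
      (j : LinearMap.ker π →ₗ[MonoidAlgebra ℤ G] E₁.A) (f : E₁.A →ₗ[MonoidAlgebra ℤ G] E.A),
      E₁.Hom E ∧ Function.Injective j ∧ Function.Exact j f ∧ Function.Surjective f := by
  let i₁ : US S →+ E.pbc P π :=
    { toFun := fun u => ⟨(E.i u, 0), by rw [E.mem_pbc]; simp [E.d_i]⟩
      map_zero' := by ext <;> simp
      map_add' := fun u v => by ext <;> simp }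
  let E₁ : TwoExt G S :=
    { A := E.pbc P π
      B := P
      i := i₁
      d := (LinearMap.snd _ _ _).comp (E.pbc P π).subtype
      e := E.e.comp π.toAddMonoidHom
      i_equiv := by
        intro g u u' h
        apply Subtype.ext
        have h1 := E.i_equiv g u u' h
        refine Prod.ext ?_ ?_
        · exact h1
        · change (0 : P) = MonoidAlgebra.single g (1 : ℤ) • (0 : P)
          rw [smul_zero]
      e_equiv := by
        intro g b
        have h1 : (E.e.comp π.toAddMonoidHom) (MonoidAlgebra.single g (1 : ℤ) • b) =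
            E.e (MonoidAlgebra.single g (1 : ℤ) • π b) := by
          change E.e (π (MonoidAlgebra.single g (1 : ℤ) • b)) = _
          rw [map_smul]
        rw [h1]
        exact E.e_equiv g (π b)
      inj := by
        intro u v h
        have h1 := congrArg (fun z : E.pbc P π => z.1.1) h
        exact E.inj h1
      exA := by
        rintro ⟨⟨a, x⟩, hax⟩
        rw [E.mem_pbc] at hax
        change E.d a = π x at hax
        change x = 0 ↔ ∃ u, i₁ u = _
        constructor
        · rintro rfl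
          rw [map_zero] at hax
          obtain ⟨u, hu⟩ := (E.exA a).mp hax
          refine ⟨u, ?_⟩
          apply Subtype.ext
          exact Prod.ext hu rfl
        · rintro ⟨u, hu⟩
          have h1 := congrArg (fun z : E.pbc P π => z.1.2) hu
          exact h1.symm
      exB := by
        intro x
        change E.e (π x) = 0 ↔ _
        rw [E.exB]
        constructor
        · rintro ⟨a, ha⟩
          exact ⟨⟨(a, x), by rw [E.mem_pbc]; exact ha⟩, rfl⟩
        · rintro ⟨⟨⟨a, x'⟩, hax⟩, h⟩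
          rw [E.mem_pbc] at hax
          change x' = x at h
          subst h
          exact ⟨a, hax⟩
      surj := by
        intro z
        obtain ⟨b, hb⟩ := E.surj z
        obtain ⟨x, hx⟩ := hπ b
        exact ⟨x, by rw [← hb, ← hx]; rfl⟩ }
  let j : LinearMap.ker π →ₗ[MonoidAlgebra ℤ G] E.pbc P π :=
    ((LinearMap.inr (MonoidAlgebra ℤ G) E.A P).comp (LinearMap.ker π).subtype).codRestrict
      (E.pbc P π) (fun x => by
        rw [E.mem_pbc]
        have := x.2
        rw [LinearMap.mem_ker] at this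
        simp [this])
  refine ⟨E₁, LinearEquiv.refl _ P, j, (LinearMap.fst _ _ _).comp (E.pbc P π).subtype, ?_, ?_, ?_, ?_⟩
  · refine ⟨(LinearMap.fst _ _ _).comp (E.pbc P π).subtype, π, fun u => rfl, ?_, fun b => rfl⟩
    rintro ⟨⟨a, x⟩, hax⟩
    rw [E.mem_pbc] at hax
    exact hax.symm
  · intro x y h
    apply Subtype.ext
    exact congrArg (fun z : E.pbc P π => z.1.2) h
  · rintro ⟨⟨a, x⟩, hax⟩
    rw [E.mem_pbc] at hax
    change E.d a = π x at hax
    constructor
    · intro h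
      change a = 0 at h
      subst h
      rw [map_zero] at hax
      exact ⟨⟨x, LinearMap.mem_ker.mpr hax.symm⟩, rfl⟩
    · rintro ⟨y, hy⟩
      have h1 := congrArg (fun z : E.pbc P π => z.1.1) hy
      exact h1.symm
  · intro a
    obtain ⟨x, hx⟩ := hπ (E.d a)
    exact ⟨⟨(a, x), by rw [E.mem_pbc]; exact hx.symm⟩, rfl⟩

/-- conjugation by `γ` -/
def conjG (γ : F ≃+* F) (hγ : ∀ g, g ∈ G ↔ γ * g * γ⁻¹ ∈ G) : G →* G where
  toFun g := ⟨γ * g.1 * γ⁻¹, (hγ g.1).mp g.2⟩
  map_one' := by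
    apply Subtype.ext
    simp
  map_mul' a b := by
    apply Subtype.ext
    simp [mul_assoc]

/-- conjugation by `γ⁻¹` -/
def conjG' (γ : F ≃+* F) (hγ : ∀ g, g ∈ G ↔ γ * g * γ⁻¹ ∈ G) : G →* G where
  toFun g := ⟨γ⁻¹ * g.1 * γ, by
    rw [hγ]
    have : γ * (γ⁻¹ * g.1 * γ) * γ⁻¹ = g.1 := by group
    rw [this]
    exact g.2⟩
  map_one' := by
    apply Subtype.ext
    simp
  map_mul' a b := by
    apply Subtype.ext
    simp [mul_assoc]

theorem conjG'_eq (γ : F ≃+* F) (hγ : ∀ g, g ∈ G ↔ γ * g * γ⁻¹ ∈ G) (g g' : G)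
    (h : (g' : F ≃+* F) = γ * g * γ⁻¹) : conjG' γ hγ g' = g := by
  apply Subtype.ext
  change γ⁻¹ * (g' : F ≃+* F) * γ = g
  rw [h]
  group

theorem conjG'_apply (γ : F ≃+* F) (hγ : ∀ g, g ∈ G ↔ γ * g * γ⁻¹ ∈ G) (g : G) :
    ((conjG' γ hγ g : G) : F ≃+* F) = γ⁻¹ * g * γ := rfl

/-- the ring homomorphism -/
noncomputable def phiG (γ : F ≃+* F) (hγ : ∀ g, g ∈ G ↔ γ * g * γ⁻¹ ∈ G) :
    MonoidAlgebra ℤ G →+* MonoidAlgebra ℤ G :=
  MonoidAlgebra.mapDomainRingHom ℤ (conjG' γ hγ)

theorem phiG_single (γ : F ≃+* F) (hγ : ∀ g, g ∈ G ↔ γ * g * γ⁻¹ ∈ G) (g : G) (n : ℤ) :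
    phiG γ hγ (MonoidAlgebra.single g n) = MonoidAlgebra.single (conjG' γ hγ g) n := by
  simp [phiG]

theorem actPl_mul (a b : F ≃+* F) (w : Pl F) : actPl (a * b) w = actPl a (actPl b w) := by
  rcases w with w | w
  · simp only [actPl, Sum.map_inl]
    congr 1
  · simp only [actPl, Sum.map_inr]
    congr 1

/-- Existence of transports: `γ` normalizes `G` and stabilizes `S`. -/
theorem TwoExt.exists_transport (E : TwoExt G S) (γ : F ≃+* F) (hγ : ∀ g, g ∈ G ↔ γ * g * γ⁻¹ ∈ G)
    (hS : ∀ w, w ∈ S ↔ actFin γ w ∈ S) : ∃ E' : TwoExt G S, E.Transport γ E' := by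
  let E' : TwoExt G S :=
    { A := Tw (phiG γ hγ) E.A
      B := Tw (phiG γ hγ) E.B
      i := (toTw (phiG γ hγ) E.A).toAddMonoidHom.comp (E.i.comp (uMap γ.symm (hS_symm hS)))
      d :=
        { toFun := fun a => toTw (phiG γ hγ) E.B (E.d ((toTw (phiG γ hγ) E.A).symm a))
          map_add' := fun a b => by
            change E.d _ = E.d _ + E.d _
            rw [← map_add]
            rfl
          map_smul' := fun r a => by
            change E.d (phiG γ hγ r • ((toTw (phiG γ hγ) E.A).symm a)) = _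
            rw [map_smul]
            rfl }
      e := (xMap γ hS).comp (E.e.comp (toTw (phiG γ hγ) E.B).symm.toAddMonoidHom)
      i_equiv := by
        intro g u u' h
        change E.i (uMap γ.symm (hS_symm hS) u') =
          phiG γ hγ (MonoidAlgebra.single g 1) • E.i (uMap γ.symm (hS_symm hS) u)
        rw [phiG_single]
        apply E.i_equiv
        rw [coe_uMap, coe_uMap, h, conjG'_apply]
        change γ.symm (g.1 _) = γ⁻¹ (g.1 (γ (γ.symm _)))
        rw [RingEquiv.apply_symm_apply]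
        rfl
      e_equiv := by
        intro g b
        change (xMap γ hS (E.e (phiG γ hγ (MonoidAlgebra.single g 1) •
          ((toTw (phiG γ hγ) E.B).symm b))) : Pl F →₀ ℤ) = _
        rw [phiG_single, coe_xMap, E.e_equiv]
        change _ = Finsupp.mapDomain (actPl g.1)
          (xMap γ hS (E.e ((toTw (phiG γ hγ) E.B).symm b)) : Pl F →₀ ℤ)
        rw [coe_xMap, ← Finsupp.mapDomain_comp, ← Finsupp.mapDomain_comp]
        congr 1
        funext w
        simp only [Function.comp_apply]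
        rw [← actPl_mul, ← actPl_mul, conjG'_apply]
        congr 1
        group
      inj := by
        intro u v h
        have h1 : uMap γ.symm (hS_symm hS) u = uMap γ.symm (hS_symm hS) v := E.inj h
        rw [← uMap_uMap_symm γ hS u, h1, uMap_uMap_symm]
      exA := by
        intro a
        change E.d ((toTw (phiG γ hγ) E.A).symm a) = 0 ↔ ∃ u, E.i (uMap γ.symm (hS_symm hS) u) = _
        rw [E.exA]
        constructor
        · rintro ⟨u, hu⟩
          refine ⟨uMap γ hS u, ?_⟩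
          rw [uMap_symm_uMap]
          exact hu
        · rintro ⟨u, hu⟩
          exact ⟨_, hu⟩
      exB := by
        intro b
        change xMap γ hS (E.e ((toTw (phiG γ hγ) E.B).symm b)) = 0 ↔ _
        rw [map_eq_zero_iff _ (xMap_injective γ hS), E.exB]
        exact Iff.rfl
      surj := by
        intro z
        obtain ⟨b, hb⟩ := E.surj (xMap γ.symm (hS_symm hS) z)
        refine ⟨toTw (phiG γ hγ) E.B b, ?_⟩
        change xMap γ hS (E.e b) = z
        rw [hb, xMap_xMap_symm] }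
  refine ⟨E', toTw (phiG γ hγ) E.A, toTw (phiG γ hγ) E.B, ?_, ?_, ?_, ?_, ?_⟩
  · intro g g' a h
    change _ = toTw (phiG γ hγ) E.A (phiG γ hγ (MonoidAlgebra.single g' 1) • a)
    rw [phiG_single, conjG'_eq γ hγ g g' h]
  · intro g g' a h
    change _ = toTw (phiG γ hγ) E.B (phiG γ hγ (MonoidAlgebra.single g' 1) • a)
    rw [phiG_single, conjG'_eq γ hγ g g' h]
  · intro u u' h
    change E.i u = E.i (uMap γ.symm (hS_symm hS) u')
    congr 1
    apply US_ext
    rw [coe_uMap, h, RingEquiv.symm_apply_apply]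
  · intro a
    rfl
  · intro b
    rfl

/-- Transport is functorial. -/
theorem TwoExt.Transport.hom {γ : F ≃+* F} (hγ : ∀ g, g ∈ G ↔ γ * g * γ⁻¹ ∈ G)
    (hS : ∀ w, w ∈ S ↔ actFin γ w ∈ S) {E₁ E₂ E E' : TwoExt G S}
    (h : E₁.Hom E) (h₁ : E₁.Transport γ E₂) (h₂ : E.Transport γ E') : E₂.Hom E' := by
  obtain ⟨f, g, hi, hd, he⟩ := h
  obtain ⟨f₁, g₁, hf₁, hg₁, hi₁, hd₁, he₁⟩ := h₁
  obtain ⟨f₂, g₂, hf₂, hg₂, hi₂, hd₂, he₂⟩ := h₂
  have hc : ∀ x : G, ((x : G) : F ≃+* F) = γ * ((conjG' γ hγ x : G) : F ≃+* F) * γ⁻¹ := by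
    intro x
    rw [conjG'_apply]
    group
  let fA : E₂.A →+ E'.A := f₂.toAddMonoidHom.comp (f.toAddMonoidHom.comp f₁.symm.toAddMonoidHom)
  let fB : E₂.B →+ E'.B := g₂.toAddMonoidHom.comp (g.toAddMonoidHom.comp g₁.symm.toAddMonoidHom)
  have hA : ∀ (x : G) (a : E₂.A), fA (MonoidAlgebra.single x (1 : ℤ) • a) =
      MonoidAlgebra.single x (1 : ℤ) • fA a := by
    intro x a
    have h1 : f₁.symm (MonoidAlgebra.single x (1 : ℤ) • a) =
        MonoidAlgebra.single (conjG' γ hγ x) (1 : ℤ) • f₁.symm a := by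
      apply f₁.injective
      rw [hf₁ _ x _ (hc x), AddEquiv.apply_symm_apply, AddEquiv.apply_symm_apply]
    change f₂ (f (f₁.symm (MonoidAlgebra.single x (1 : ℤ) • a))) = _
    rw [h1, map_smul, hf₂ _ x _ (hc x)]
    rfl
  have hB : ∀ (x : G) (a : E₂.B), fB (MonoidAlgebra.single x (1 : ℤ) • a) =
      MonoidAlgebra.single x (1 : ℤ) • fB a := by
    intro x a
    have h1 : g₁.symm (MonoidAlgebra.single x (1 : ℤ) • a) =
        MonoidAlgebra.single (conjG' γ hγ x) (1 : ℤ) • g₁.symm a := by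
      apply g₁.injective
      rw [hg₁ _ x _ (hc x), AddEquiv.apply_symm_apply, AddEquiv.apply_symm_apply]
    change g₂ (g (g₁.symm (MonoidAlgebra.single x (1 : ℤ) • a))) = _
    rw [h1, map_smul, hg₂ _ x _ (hc x)]
    rfl
  refine ⟨⟨⟨fA, map_add fA⟩, map_smul_of_single fA hA⟩,
    ⟨⟨fB, map_add fB⟩, map_smul_of_single fB hB⟩, ?_, ?_, ?_⟩
  · intro u
    change f₂ (f (f₁.symm (E₂.i u))) = E'.i u
    have h1 : f₁ (E₁.i (uMap γ.symm (hS_symm hS) u)) = E₂.i u := by
      apply hi₁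
      rw [coe_uMap, RingEquiv.apply_symm_apply]
    rw [← h1, AddEquiv.symm_apply_apply, hi]
    apply hi₂
    rw [coe_uMap, RingEquiv.apply_symm_apply]
  · intro a
    change g₂ (g (g₁.symm (E₂.d a))) = E'.d (f₂ (f (f₁.symm a)))
    rw [← hd₂, ← hd]
    congr 2
    apply g₁.injective
    rw [AddEquiv.apply_symm_apply, hd₁, AddEquiv.apply_symm_apply]
  · intro b
    change E'.e (g₂ (g (g₁.symm b))) = E₂.e b
    apply Subtype.ext
    rw [he₂, he, ← he₁, AddEquiv.apply_symm_apply]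

end Pool.Agent.Lib.MP_0e6cae_nt
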