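import Pool.Agent.Lib.MP_0e6cae_nt.K0c
import Pool.Agent.Lib.MP_0e6cae_nt.Det
import Pool.Agent.Lib.MP_0e6cae_nt.Gor
import Pool.Agent.Lib.MP_0e6cae_nt.YonB
import Pool.Agent.Lib.MP_0e6cae_nt.SU
import Pool.Agent.Lib.MP_0e6cae_nt.Tr
import Pool.Agent.Lib.MP_0e6cae_nt.MainA
import Pool.Agent.Lib.MP_0e6cae_nt.MainB

/-!
The main theorem.
-/

open CategoryTheory NumberField IsDedekindDomain

namespace Pool.Agent.Lib.MP_0e6cae_nt

/-- The free `ℤ[G]`-modules are torsion free over `ℤ`. -/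
theorem free_torsion {G : Type} [Group G] {l : ℕ} (n : ℤ) (x : Fin l → MonoidAlgebra ℤ G)
    (hn : n ≠ 0) (hx : n • x = 0) : x = 0 := by
  funext i
  have h2 : n • x i = 0 := congrFun hx i
  ext a
  let φ : MonoidAlgebra ℤ G →+ ℤ :=
    { toFun := fun y => y.coeff a
      map_zero' := by simp
      map_add' := fun y z => by simp }
  have h3 : n * (x i).coeff a = 0 := by
    have h4 := map_zsmul φ n (x i)
    rw [h2, map_zero, smul_eq_mul] at h4
    exact h4.symm
  exact (mul_eq_zero.1 h3).resolve_left hn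

/-- The ring automorphism of `ℤ[G]` induced by an automorphism of `G`. -/
noncomputable def autZ {G : Type} [Group G] (φ : G ≃* G) : MonoidAlgebra ℤ G ≃+* MonoidAlgebra ℤ G where
  toFun := MonoidAlgebra.mapDomainRingHom ℤ (φ : G →* G)
  invFun := MonoidAlgebra.mapDomainRingHom ℤ (φ.symm : G →* G)
  left_inv := fun x => by
    induction x using MonoidAlgebra.induction_linear with
    | zero => simp
    | add x y hx hy => rw [map_add, map_add, hx, hy]
    | single g n => simp
  right_inv := fun x => by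
    induction x using MonoidAlgebra.induction_linear with
    | zero => simp
    | add x y hx hy => rw [map_add, map_add, hx, hy]
    | single g n => simp
  map_mul' := map_mul _
  map_add' := map_add _

theorem autZ_single {G : Type} [Group G] (φ : G ≃* G) (g : G) (n : ℤ) :
    autZ φ (MonoidAlgebra.single g n) = MonoidAlgebra.single (φ g) n := by
  change MonoidAlgebra.mapDomainRingHom ℤ (φ : G →* G) (MonoidAlgebra.single g n) = _
  simp

/-- Semilinearity from the group elements. -/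
theorem semilinear_of_single {G : Type} [Group G] (φ : G ≃* G) {A B : Type} [AddCommGroup A]
    [AddCommGroup B] [Module (MonoidAlgebra ℤ G) A] [Module (MonoidAlgebra ℤ G) B] (f : A ≃+ B)
    (hf : ∀ (g : G) (a : A), f (MonoidAlgebra.single g (1 : ℤ) • a) =
      MonoidAlgebra.single (φ g) (1 : ℤ) • f a) (r : MonoidAlgebra ℤ G) (a : A) :
    f (r • a) = autZ φ r • f a := by
  induction r using MonoidAlgebra.induction_on with
  | of g => rw [MonoidAlgebra.of_apply, autZ_single, hf]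
  | add r s hr hs => rw [add_smul, map_add, map_add, add_smul, hr, hs]
  | smul n r hr => rw [smul_assoc, map_zsmul, hr, map_zsmul, smul_assoc]

/-- The semilinear image of a free module is free. -/
theorem free_of_semilinear {R : Type} [Ring R] (Φ : R ≃+* R) {k : ℕ} {B₁ B₂ : Type} [AddCommGroup B₁]
    [Module R B₁] [AddCommGroup B₂] [Module R B₂] (g : B₁ ≃+ B₂)
    (hg : ∀ (r : R) b, g (r • b) = Φ r • g b) (b : B₁ ≃ₗ[R] (Fin k → R)) :
    Nonempty (B₂ ≃ₗ[R] (Fin k → R)) := by
  have hg' : ∀ (r : R) y, g.symm (r • y) = Φ.symm r • g.symm y := fun r y => by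
    apply g.injective
    rw [AddEquiv.apply_symm_apply, hg, AddEquiv.apply_symm_apply, RingEquiv.apply_symm_apply]
  let F : B₂ →ₗ[R] (Fin k → R) :=
    { toFun := fun y i => Φ (b (g.symm y) i)
      map_add' := fun x y => by
        funext i
        rw [map_add, map_add]
        exact map_add Φ _ _
      map_smul' := fun r y => by
        funext i
        rw [hg', map_smul]
        change Φ (Φ.symm r * _) = r * _
        rw [map_mul, RingEquiv.apply_symm_apply] }
  refine ⟨LinearEquiv.ofBijective F ⟨?_, ?_⟩⟩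
  · intro x y hxy
    apply g.symm.injective
    apply b.injective
    funext i
    exact Φ.injective (congrFun hxy i)
  · intro z
    refine ⟨g (b.symm fun i => Φ.symm (z i)), ?_⟩
    funext i
    change Φ (b (g.symm (g (b.symm fun i => Φ.symm (z i)))) i) = z i
    rw [AddEquiv.symm_apply_apply, LinearEquiv.apply_symm_apply, RingEquiv.apply_symm_apply]

section

variable {F : Type} [Field F] [NumberField F] {G : Subgroup (F ≃+* F)}
  {S : Set (HeightOneSpectrum (𝓞 F))}

theorem norm_of_full (φ : G ≃* G) (γ : F ≃+* F)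
    (hφ : ∀ g : G, ((φ g : G) : F ≃+* F) = γ * g * γ⁻¹) (g : F ≃+* F) :
    g ∈ G ↔ γ * g * γ⁻¹ ∈ G := by
  constructor
  · intro hg
    rw [← hφ ⟨g, hg⟩]
    exact (φ ⟨g, hg⟩).2
  · intro hg
    have h1 := hφ (φ.symm ⟨γ * g * γ⁻¹, hg⟩)
    rw [MulEquiv.apply_symm_apply] at h1
    have h2 : g = ((φ.symm ⟨γ * g * γ⁻¹, hg⟩ : G) : F ≃+* F) :=
      mul_left_cancel (mul_right_cancel h1)
    rw [h2]
    exact (φ.symm ⟨γ * g * γ⁻¹, hg⟩).2

theorem stable_of_norm
    (hS : ∀ γ : F ≃+* F, (∀ g, g ∈ G ↔ γ * g * γ⁻¹ ∈ G) → ∀ w ∈ S, actFin γ w ∈ S)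
    (γ : F ≃+* F) (hγ : ∀ g, g ∈ G ↔ γ * g * γ⁻¹ ∈ G) (w : HeightOneSpectrum (𝓞 F)) :
    w ∈ S ↔ actFin γ w ∈ S := by
  refine ⟨hS γ hγ w, fun hw => ?_⟩
  have h1 := hS γ.symm (fun g => by
    have h2 := hγ (γ⁻¹ * g * γ)
    have h3 : γ * (γ⁻¹ * g * γ) * γ⁻¹ = g := by group
    rw [h3] at h2
    have h4 : (γ.symm : F ≃+* F) * g * (γ.symm : F ≃+* F)⁻¹ = γ⁻¹ * g * γ := rfl
    rw [h4]
    exact h2.symm) _ hw
  rwa [actFin_symm_actFin] at h1

end

/-- Let `F` be a number field, `G` a cyclic group of automorphisms of `F` of odd prime power order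
`p ^ a`, `K` the fixed field of `G`. Suppose that every automorphism of `G` is of the form
`g ↦ γ g γ⁻¹` for an automorphism `γ` of the field `F`. Let `S` be a finite set of finite places
of `F` stable under the automorphisms of `F` which normalize `G`. Then for every exact sequence
`0 → U_S → A → B → X_S → 0` of `ℤ[G]`-modules, `A` and `B` finitely generated of finite projective
dimension, whose class in `Ext²_{ℤ[G]}(X_S, U_S)` is invariant under the automorphisms of `F`
which normalize `G` (for instance for a Tate sequence of `F/K`), one has `[A] = [B]` in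
`K₀(ℤ[G])`. -/
theorem main (p a : ℕ) (hp : p.Prime) (hp2 : p ≠ 2) (F : Type) [Field F] [NumberField F]
    (G : Subgroup (F ≃+* F)) (hcyc : IsCyclic G) (hcard : Nat.card G = p ^ a)
    (hfull : ∀ φ : G ≃* G, ∃ γ : F ≃+* F, ∀ g : G, ((φ g : G) : F ≃+* F) = γ * g * γ⁻¹)
    (S : Set (HeightOneSpectrum (𝓞 F))) (hSfin : S.Finite)
    (hS : ∀ γ : F ≃+* F, (∀ g, g ∈ G ↔ γ * g * γ⁻¹ ∈ G) → ∀ w ∈ S, actFin γ w ∈ S)
    (E : TwoExt G S)
    (hA : Module.Finite (MonoidAlgebra ℤ G) E.A)
    (hA' : ∃ n : ℕ, HasProjectiveDimensionLE (ModuleCat.of (MonoidAlgebra ℤ G) E.A) n)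
    (hB : Module.Finite (MonoidAlgebra ℤ G) E.B)
    (hB' : ∃ n : ℕ, HasProjectiveDimensionLE (ModuleCat.of (MonoidAlgebra ℤ G) E.B) n)
    (hE : ∀ γ : F ≃+* F, (∀ g, g ∈ G ↔ γ * g * γ⁻¹ ∈ G) → E.InvUnder γ) :
    K0.mk (⟨E.A, hA, hA'⟩ : FPMod (MonoidAlgebra ℤ G)) = K0.mk ⟨E.B, hB, hB'⟩ := by
  letI := crG G
  have h : GR p (MonoidAlgebra ℤ G) := gr_monoidAlgebra p a hp G hcard
  have hGfin : Finite G := Nat.finite_of_card_ne_zero (by rw [hcard]; exact pow_ne_zero _ hp.ne_zero)
  have hnoeth : IsNoetherianRing (MonoidAlgebra ℤ G) := h.noeth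
  have hRZ : Module.Finite ℤ (MonoidAlgebra ℤ G) := h.fin
  -- the cover of `B`
  obtain ⟨k, π, hπ⟩ := Module.Finite.exists_fin' (MonoidAlgebra ℤ G) E.B
  obtain ⟨E₁, b, j, f, hom1, hj, hjf, hf⟩ := E.exists_cover (Fin k → MonoidAlgebra ℤ G) π hπ
  have hK : Module.Finite (MonoidAlgebra ℤ G) (LinearMap.ker π) := inferInstance
  have hK' := fpd_left (LinearMap.ker π).subtype π Subtype.val_injective
    (LinearMap.exact_subtype_ker_map π) hπ hB'
  have hA1' := fpd_mid j f hj hjf hf hK' hA'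
  have hA1 : Module.Finite (MonoidAlgebra ℤ G) E₁.A :=
    Module.Finite.of_exact hjf hf
  -- the cover of `A`
  obtain ⟨l, q, hq⟩ := Module.Finite.exists_fin' (MonoidAlgebra ℤ G) E₁.A
  have hL : Module.Finite (MonoidAlgebra ℤ G) (LinearMap.ker q) := inferInstance
  obtain ⟨n, hn⟩ := fpd_left (LinearMap.ker q).subtype q Subtype.val_injective
    (LinearMap.exact_subtype_ker_map q) hq hA1'
  have hLp : Module.Projective (MonoidAlgebra ℤ G) (LinearMap.ker q) :=
    projective_of_lattice (LinearMap.ker q)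
      (fun m x hm hx => Subtype.ext (free_torsion m _ hm (congrArg Subtype.val hx))) n hn
  obtain ⟨s, I, hI, ⟨e⟩⟩ := exists_decomp h (LinearMap.ker q)
  -- the product of the ideals is principal
  obtain ⟨w, hw⟩ := principal_monoidAlgebra p a hp hp2 G hcard (∏ j, I j) (good_prod h I hI) (by
    intro φ
    obtain ⟨γ, hγ⟩ := hfull φ
    have hγn := norm_of_full φ γ hγ
    have hγS := stable_of_norm hS γ hγn
    obtain ⟨E', hE1, hE2⟩ := hE γ hγn
    obtain ⟨E₂, hE₂⟩ := E₁.exists_transport γ hγn hγS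
    have hom2 : E₂.Hom E' := TwoExt.Transport.hom hγn hγS hom1 hE₂ hE1
    have heq : E₁.Equiv E₂ :=
      (Relation.EqvGen.rel _ _ hom1).trans _ _ _ (hE2.trans _ _ _
        ((Relation.EqvGen.rel _ _ hom2).symm _ _))
    obtain ⟨f₁, g₁, hf₁, hg₁, -⟩ := hE₂
    have hf₁' := semilinear_of_single φ f₁ (fun g a => hf₁ g (φ g) a (hγ g))
    have hg₁' := semilinear_of_single φ g₁ (fun g a => hg₁ g (φ g) a (hγ g))
    obtain ⟨b₂⟩ := free_of_semilinear (autZ φ) g₁ hg₁' b
    have hp1 : Module.Projective (MonoidAlgebra ℤ G) E₁.B := Module.Projective.of_equiv b.symm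
    have hp2 : Module.Projective (MonoidAlgebra ℤ G) E₂.B := Module.Projective.of_equiv b₂.symm
    obtain ⟨c⟩ := TwoExt.cone E₁ E₂ hp2 (TwoExt.hom_of_equiv E₁ E₂ hp1 heq)
    exact stable_key h (autZ φ) f₁ hf₁' b b₂ c q hq I hI e)
  -- the ranks
  have hAZ : Module.Finite ℤ E.A := Module.Finite.trans (MonoidAlgebra ℤ G) E.A
  have hBZ : Module.Finite ℤ E.B := Module.Finite.trans (MonoidAlgebra ℤ G) E.B
  have hr := finrank_exact4 E.i E.d.toAddMonoidHom E.e E.inj E.exA E.exB E.surj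
  have hUS := finrank_US hSfin
  have hXS := finrank_XS hSfin
  have hrk : Module.finrank ℤ E.A = Module.finrank ℤ E.B := by omega
  have hls := rank_final h (LinearMap.ker π).subtype π Subtype.val_injective
    (LinearMap.exact_subtype_ker_map π) hπ j f hj hjf hf (LinearMap.ker q).subtype q
    Subtype.val_injective (LinearMap.exact_subtype_ker_map q) hq I hI e hrk
  exact k0_final (s := s) ⟨E.A, hA, hA'⟩ ⟨E.B, hB, hB'⟩ ⟨E₁.A, hA1, hA1'⟩
    ⟨LinearMap.ker π, hK, hK'⟩ (FPMod.ofProj (MonoidAlgebra ℤ G) (LinearMap.ker q))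
    (LinearMap.ker π).subtype π Subtype.val_injective
    (LinearMap.exact_subtype_ker_map π) hπ j f hj hjf hf (LinearMap.ker q).subtype q
    Subtype.val_injective (LinearMap.exact_subtype_ker_map q) hq
    (K0.mk_of_decomp h (LinearMap.ker q) I hI e w hw) hls

end Pool.Agent.Lib.MP_0e6cae_nt
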