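import Pool.Agent.Lib.MP_0e6cae_nt.GR

/-!
Projective modules over a ring `R` with `GR p R` are direct sums of good ideals.
-/

open CategoryTheory

namespace Pool.Agent.Lib.MP_0e6cae_nt

variable {p : ℕ} {R : Type} [CommRing R]

private theorem tf (h : GR p R) {n : ℤ} (hn : n ≠ 0) {x : R} (hx : (n : R) * x = 0) : x = 0 := by
  have := h.free
  have h1 : n • x = 0 := by
    rw [zsmul_eq_mul]
    exact hx
  exact (smul_eq_zero.1 h1).resolve_left hn

private theorem ne_zero_of_not_dvd {n : ℤ} (hpn : ¬ (p : ℤ) ∣ n) : n ≠ 0 := by
  rintro rfl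
  exact hpn (dvd_zero _)

/-- Good ideals are projective. -/
theorem Good.projective (h : GR p R) {I : Ideal R} (hI : Good p I) : Module.Projective R I := by
  classical
  obtain ⟨n, hpn, hn⟩ := hI
  have hn0 : n ≠ 0 := ne_zero_of_not_dvd hpn
  obtain ⟨J, hJ⟩ := h.inv I n hpn hn
  have hmem : (n : R) ∈ I * J := by
    rw [hJ]
    exact Ideal.mem_span_singleton_self _
  have key : ∀ r ∈ I * J, ∃ (M : Type) (_ : AddCommGroup M) (_ : Module R M)
      (_ : Module.Projective R M) (s : I →ₗ[R] M) (g : M →ₗ[R] I),
      ∀ x : I, (n : R) • g (s x) = r • x := by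
    intro r hr
    refine Submodule.mul_induction_on hr ?_ ?_
    · intro a ha b hb
      have hex : ∀ x : I, ∃ c : R, (n : R) * c = b * (x : R) := by
        intro x
        have h1 : (x : R) * b ∈ I * J := Ideal.mul_mem_mul x.2 hb
        rw [hJ, Ideal.mem_span_singleton'] at h1
        obtain ⟨c, hc⟩ := h1
        exact ⟨c, by rw [mul_comm, hc, mul_comm]⟩
      choose c hc using hex
      have huniq : ∀ u v : R, (n : R) * u = (n : R) * v → u = v := by
        intro u v huv
        have : (n : R) * (u - v) = 0 := by rw [mul_sub, huv, sub_self]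
        exact sub_eq_zero.1 (tf h hn0 this)
      refine ⟨R, inferInstance, inferInstance, inferInstance,
        { toFun := c
          map_add' := fun x y => huniq _ _ ?_
          map_smul' := fun r x => huniq _ _ ?_ }, LinearMap.toSpanSingleton R I ⟨a, ha⟩, ?_⟩
      · rw [hc, mul_add, hc, hc, Submodule.coe_add]
        ring
      · simp only [RingHom.id_apply, smul_eq_mul]
        rw [hc, mul_left_comm, hc]
        simp only [SetLike.val_smul, smul_eq_mul]
        ring
      · intro x
        apply Subtype.ext
        simp only [LinearMap.coe_mk, AddHom.coe_mk, LinearMap.toSpanSingleton_apply,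
          SetLike.val_smul, smul_eq_mul]
        rw [← mul_assoc, hc]
        ring
    · rintro x y ⟨M, i1, i2, i3, s, g, hsg⟩ ⟨M', i1', i2', i3', s', g', hsg'⟩
      refine ⟨M × M', inferInstance, inferInstance, inferInstance, s.prod s', g.coprod g', ?_⟩
      intro z
      have h1 : (g.coprod g') ((s.prod s') z) = g (s z) + g' (s' z) := rfl
      rw [h1, smul_add, hsg, hsg', add_smul]
  obtain ⟨M, i1, i2, i3, s, g, hsg⟩ := key _ hmem
  refine Module.Projective.of_split s g ?_
  ext x
  have h1 := congrArg (fun z : I => (z : R)) (hsg x)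
  simp only [SetLike.val_smul, smul_eq_mul] at h1
  have h2 : (n : R) * ((g (s x) : R) - (x : R)) = 0 := by rw [mul_sub, h1, sub_self]
  exact sub_eq_zero.1 (tf h hn0 h2)

/-- Nakayama over `ℤ` for a finitely generated group `M` with `p M = M`. -/
private theorem nak (M : Type) [AddCommGroup M] [Module.Finite ℤ M]
    (hM : ∀ x : M, ∃ y : M, x = (p : ℤ) • y) : ∃ r : ℤ, (p : ℤ) ∣ r - 1 ∧ ∀ x : M, r • x = 0 := by
  obtain ⟨r, hr1, hr2⟩ := Submodule.exists_sub_one_mem_and_smul_eq_zero_of_fg_of_le_smul
    (Ideal.span {(p : ℤ)}) (⊤ : Submodule ℤ M) Module.Finite.fg_top (by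
      intro x _
      obtain ⟨y, hy⟩ := hM x
      rw [hy]
      exact Submodule.smul_mem_smul (Ideal.mem_span_singleton_self _) Submodule.mem_top)
  exact ⟨r, Ideal.mem_span_singleton.1 hr1, fun x => hr2 x Submodule.mem_top⟩

private theorem not_dvd_of (h : GR p R) {r : ℤ} (hr : (p : ℤ) ∣ r - 1) : ¬ (p : ℤ) ∣ r := by
  intro h1
  have h2 : (p : ℤ) ∣ 1 := by
    have := dvd_sub h1 hr
    simpa using this
  have h3 : p ∣ 1 := by exact_mod_cast h2
  exact h.prime.one_lt.ne' (Nat.dvd_one.1 h3)

/-- An ideal which is not contained in the kernel of `aug` is good. -/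
theorem good_of_mem (h : GR p R) (aug : R →+* ZMod p)
    (haug : ∀ y, aug y ≠ 0 → ∃ z t : R, y * z = 1 + (p : R) * t) (I : Ideal R) (y : R) (hy : y ∈ I)
    (hy' : aug y ≠ 0) : Good p I := by
  obtain ⟨z, t, hzt⟩ := haug y hy'
  have h1 : 1 + (p : R) * t ∈ I := by
    rw [← hzt]
    exact I.mul_mem_right z hy
  have := h.fin
  have : Module.Finite ℤ (R ⧸ I) :=
    Module.Finite.of_surjective (Ideal.Quotient.mk I).toAddMonoidHom.toIntLinearMap
      Ideal.Quotient.mk_surjective
  obtain ⟨r, hr1, hr2⟩ := nak (p := p) (R ⧸ I) (by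
    intro x
    obtain ⟨u, rfl⟩ := Ideal.Quotient.mk_surjective x
    refine ⟨Ideal.Quotient.mk I (-(t * u)), ?_⟩
    rw [zsmul_eq_mul, ← map_intCast (Ideal.Quotient.mk I), ← map_mul, Ideal.Quotient.eq]
    have : u - ((p : ℤ) : R) * -(t * u) = (1 + (p : R) * t) * u := by
      push_cast
      ring
    rw [this]
    exact I.mul_mem_right u h1)
  refine ⟨r, not_dvd_of h hr1, ?_⟩
  have h2 := hr2 1
  rw [zsmul_eq_mul, mul_one, ← map_intCast (Ideal.Quotient.mk I), Ideal.Quotient.eq_zero_iff_mem]
    at h2
  exact h2

private theorem tfP (h : GR p R) (P : Type) [AddCommGroup P] [Module R P]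
    [Module.Projective R P] {n : ℤ} (hn : n ≠ 0) {x : P} (hx : n • x = 0) : x = 0 := by
  obtain ⟨s, hs⟩ := Module.projective_def'.1 (inferInstance : Module.Projective R P)
  have h1 : s x = 0 := by
    ext y
    have h2 : s (n • x) = 0 := by rw [hx, map_zero]
    rw [map_zsmul] at h2
    have h3 := DFunLike.congr_fun h2 y
    simp only [Finsupp.coe_smul, Pi.smul_apply, Finsupp.coe_zero, Pi.zero_apply,
      zsmul_eq_mul] at h3
    exact tf h hn h3
  have h4 := LinearMap.congr_fun hs x
  simp only [LinearMap.comp_apply, h1, map_zero, LinearMap.id_apply] at h4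
  exact h4.symm

private theorem exists_val (h : GR p R) (aug : R →+* ZMod p)
    (haug : ∀ y, aug y ≠ 0 → ∃ z t : R, y * z = 1 + (p : R) * t) (P : Type) [AddCommGroup P]
    [Module R P] [Module.Finite R P] [Module.Projective R P] (hP : Nontrivial P) :
    ∃ (f : P →ₗ[R] R) (x : P), aug (f x) ≠ 0 := by
  by_contra hcon
  push Not at hcon
  have := h.fin
  obtain ⟨s, hs⟩ := Module.projective_def'.1 (inferInstance : Module.Projective R P)
  obtain ⟨r, hr1, hr2⟩ := Submodule.exists_sub_one_mem_and_smul_eq_zero_of_fg_of_le_smul
    (RingHom.ker aug) (⊤ : Submodule R P) Module.Finite.fg_top (by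
      intro x _
      have h1 : x = Finsupp.linearCombination R id (s x) := (LinearMap.congr_fun hs x).symm
      rw [h1, Finsupp.linearCombination_apply, Finsupp.sum]
      refine Submodule.sum_mem _ fun y _ => ?_
      refine Submodule.smul_mem_smul ?_ Submodule.mem_top
      rw [RingHom.mem_ker]
      exact hcon ((Finsupp.lapply y) ∘ₗ s) x)
  have hr : aug r ≠ 0 := by
    have : Fact p.Prime := ⟨h.prime⟩
    have h2 : aug (r - 1) = 0 := hr1
    rw [map_sub, map_one, sub_eq_zero] at h2
    rw [h2]
    exact one_ne_zero
  obtain ⟨z, t, hzt⟩ := haug r hr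
  have : Module.Finite ℤ P := Module.Finite.trans R P
  obtain ⟨m, hm1, hm2⟩ := nak (p := p) P (by
    intro x
    refine ⟨-(t • x), ?_⟩
    have h3 : (1 + (p : R) * t) • x = 0 := by
      rw [← hzt, mul_comm, mul_smul, hr2 x Submodule.mem_top, smul_zero]
    rw [add_smul, one_smul, mul_smul] at h3
    rw [smul_neg, ← Int.cast_smul_eq_zsmul R]
    push_cast
    exact eq_neg_of_add_eq_zero_left h3)
  obtain ⟨x, hx⟩ := exists_ne (0 : P)
  exact hx (tfP (R := R) h P (ne_zero_of_not_dvd (not_dvd_of h hm1)) (hm2 x))

private theorem decomp_aux (h : GR p R) (aug : R →+* ZMod p)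
    (haug : ∀ y, aug y ≠ 0 → ∃ z t : R, y * z = 1 + (p : R) * t) : ∀ (N : ℕ) (P : Type)
    [AddCommGroup P] [Module R P] [Module.Finite R P] [Module.Projective R P],
    Module.finrank ℤ P = N →
    ∃ (s : ℕ) (I : Fin s → Ideal R), (∀ j, Good p (I j)) ∧
      Nonempty (P ≃ₗ[R] (∀ j, I j)) := by
  have hfin := h.fin
  have hnoeth : IsNoetherianRing R :=
    isNoetherian_of_tower ℤ (isNoetherian_of_isNoetherianRing_of_finite ℤ R)
  intro N
  induction N using Nat.strong_induction_on with
  | _ N ih =>
    intro P _ _ _ _ hN
    rcases subsingleton_or_nontrivial P with hP | hP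
    · refine ⟨0, Fin.elim0, fun j => j.elim0, ⟨?_⟩⟩
      exact { toFun := fun _ => fun j => j.elim0
              map_add' := fun _ _ => Subsingleton.elim _ _
              map_smul' := fun _ _ => Subsingleton.elim _ _
              invFun := fun _ => 0
              left_inv := fun _ => Subsingleton.elim _ _
              right_inv := fun _ => Subsingleton.elim _ _ }
    · obtain ⟨f, x, hfx⟩ := exists_val h aug haug P hP
      have hgood : Good p (LinearMap.range f) :=
        good_of_mem h aug haug (LinearMap.range f) (f x) ⟨x, rfl⟩ hfx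
      have hproj : Module.Projective R (LinearMap.range f) := Good.projective h hgood
      obtain ⟨sec, hsec⟩ := Module.projective_lifting_property f.rangeRestrict
        (LinearMap.id : LinearMap.range f →ₗ[R] LinearMap.range f) f.surjective_rangeRestrict
      have hsec' : ∀ z, f.rangeRestrict (sec z) = z := fun z => LinearMap.congr_fun hsec z
      have hk : ∀ z : P, z - sec (f.rangeRestrict z) ∈ LinearMap.ker f := by
        intro z
        rw [← LinearMap.ker_rangeRestrict f, LinearMap.mem_ker, map_sub, hsec', sub_self]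
      -- the splitting
      let pr : P →ₗ[R] LinearMap.ker f :=
        LinearMap.codRestrict (LinearMap.ker f) (LinearMap.id - sec ∘ₗ f.rangeRestrict)
          (fun z => by
            simpa using hk z)
      have hpr : ∀ z, ((pr z : LinearMap.ker f) : P) = z - sec (f.rangeRestrict z) := fun z => rfl
      have hker : ∀ z : LinearMap.ker f, f.rangeRestrict (z : P) = 0 := by
        intro z
        apply Subtype.ext
        exact z.2
      let e : P ≃ₗ[R] (LinearMap.range f × LinearMap.ker f) :=
        LinearEquiv.ofLinearMap (f.rangeRestrict.prod pr)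
          (sec.coprod (LinearMap.ker f).subtype)
          (by
            apply LinearMap.ext
            rintro ⟨a, b⟩
            have h1 : (f.rangeRestrict.prod pr) ((sec.coprod (LinearMap.ker f).subtype) (a, b)) =
                (f.rangeRestrict (sec a + (b : P)), pr (sec a + (b : P))) := rfl
            have h2 : f.rangeRestrict (sec a + (b : P)) = a := by
              rw [map_add, hsec', hker, add_zero]
            have h3 : pr (sec a + (b : P)) = b := by
              apply Subtype.ext
              rw [hpr, h2]
              abel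
            rw [LinearMap.comp_apply, h1, h2, h3]
            rfl)
          (by
            apply LinearMap.ext
            intro z
            have h1 : (sec.coprod (LinearMap.ker f).subtype) ((f.rangeRestrict.prod pr) z) =
                sec (f.rangeRestrict z) + ((pr z : LinearMap.ker f) : P) := rfl
            rw [LinearMap.comp_apply, h1, hpr]
            simp)
      have hKproj : Module.Projective R (LinearMap.ker f) := by
        refine Module.Projective.of_split (LinearMap.ker f).subtype pr ?_
        apply LinearMap.ext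
        intro z
        apply Subtype.ext
        rw [LinearMap.comp_apply, hpr]
        simp [hker]
      have hKfin : Module.Finite R (LinearMap.ker f) := inferInstance
      -- ranks
      have hPZ : Module.Finite ℤ P := Module.Finite.trans R P
      have hIZ : Module.Finite ℤ (LinearMap.range f) := Module.Finite.trans R _
      have hKZ : Module.Finite ℤ (LinearMap.ker f) := Module.Finite.trans R _
      have hItf : Module.IsTorsionFree ℤ (LinearMap.range f) :=
        Module.isTorsionFree_iff_smul_eq_zero.2 fun n z hz => by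
          rcases eq_or_ne n 0 with hn | hn
          · exact Or.inl hn
          · exact Or.inr (tfP (R := R) h _ hn hz)
      have hKtf : Module.IsTorsionFree ℤ (LinearMap.ker f) :=
        Module.isTorsionFree_iff_smul_eq_zero.2 fun n z hz => by
          rcases eq_or_ne n 0 with hn | hn
          · exact Or.inl hn
          · exact Or.inr (tfP (R := R) h _ hn hz)
      have hrank : Module.finrank ℤ P =
          Module.finrank ℤ (LinearMap.range f) + Module.finrank ℤ (LinearMap.ker f) := by
        rw [← Module.finrank_prod]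
        exact LinearEquiv.finrank_eq (e.restrictScalars ℤ)
      have hnt : Nontrivial (LinearMap.range f) := by
        refine ⟨⟨⟨f x, ⟨x, rfl⟩⟩, 0, ?_⟩⟩
        intro h0
        have h1 : f x = 0 := congrArg Subtype.val h0
        rw [h1, map_zero] at hfx
        exact hfx rfl
      have hpos : 0 < Module.finrank ℤ (LinearMap.range f) := Module.finrank_pos
      obtain ⟨s, I, hI, ⟨e'⟩⟩ := ih (Module.finrank ℤ (LinearMap.ker f)) (by omega)
        (LinearMap.ker f) rfl
      refine ⟨s + 1, Fin.cons (LinearMap.range f) I, ?_, ⟨?_⟩⟩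
      · intro j
        refine Fin.cases ?_ ?_ j
        · exact hgood
        · intro j
          exact hI j
      · exact (e.trans (LinearEquiv.prodCongr (LinearEquiv.refl R _) e')).trans
          (Fin.consLinearEquiv R
            (fun j : Fin (s + 1) => ((Fin.cons (LinearMap.range f) I : Fin (s + 1) → Ideal R) j)))

/-- A finitely generated projective module is a direct sum of good ideals. -/
theorem exists_decomp (h : GR p R) (P : Type) [AddCommGroup P] [Module R P] [Module.Finite R P]
    [Module.Projective R P] :
    ∃ (s : ℕ) (I : Fin s → Ideal R), (∀ j, Good p (I j)) ∧ Nonempty (P ≃ₗ[R] (∀ j, I j)) := by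
  obtain ⟨aug, haug⟩ := h.loc
  exact decomp_aux h aug haug _ P rfl

end Pool.Agent.Lib.MP_0e6cae_nt
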