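import Mathlib

/-!
Truncated polynomial rings `T = F_p[ε]/(ε^M)`, the endomorphisms `s_k : 1 + ε ↦ (1 + ε)^k` and
leading terms of one-units.
-/

open Polynomial

namespace Pool.Agent.Lib.MP_0e6cae_nt

/-- `F_p[ε]/(ε^M)`. -/
abbrev TT (p M : ℕ) : Type := AdjoinRoot ((X : (ZMod p)[X]) ^ M)

variable {p M : ℕ}

/-- the nilpotent generator -/
noncomputable abbrev ep (p M : ℕ) : TT p M := AdjoinRoot.root ((X : (ZMod p)[X]) ^ M)

theorem ep_pow : (ep p M) ^ M = 0 := by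
  have := AdjoinRoot.eval₂_root ((X : (ZMod p)[X]) ^ M)
  simpa using this

theorem TT.exists_rep (y : TT p M) : ∃ f : (ZMod p)[X], AdjoinRoot.mk ((X : (ZMod p)[X]) ^ M) f = y :=
  AdjoinRoot.mk_surjective y

/-- the power map endomorphisms -/
noncomputable def sk (p M k : ℕ) : TT p M →ₐ[ZMod p] TT p M :=
  AdjoinRoot.liftAlgHom ((X : (ZMod p)[X]) ^ M) (Algebra.ofId (ZMod p) (TT p M))
    ((1 + ep p M) ^ k - 1) (by
      have h : (ep p M) ∣ (1 + ep p M) ^ k - 1 := by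
        have := sub_dvd_pow_sub_pow (1 + ep p M) 1 k
        simpa using this
      obtain ⟨z, hz⟩ := h
      simp only [eval₂_pow, eval₂_X]
      rw [hz, mul_pow, ep_pow, zero_mul])

theorem sk_ep (k : ℕ) : sk p M k (ep p M) = (1 + ep p M) ^ k - 1 := by
  unfold sk
  exact AdjoinRoot.liftAlgHom_root _ _ _ _

theorem sk_one_add (k : ℕ) : sk p M k (1 + ep p M) = (1 + ep p M) ^ k := by
  rw [map_add, sk_ep, map_one]; ring

theorem sk_ext (f g : TT p M →ₐ[ZMod p] TT p M) (h : f (1 + ep p M) = g (1 + ep p M)) : f = g := by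
  apply AdjoinRoot.algHom_ext
  simpa using h

theorem sk_comp (k l : ℕ) : (sk p M k).comp (sk p M l) = sk p M (k * l) := by
  apply sk_ext
  rw [AlgHom.comp_apply, sk_one_add, map_pow, sk_one_add, sk_one_add, ← pow_mul]

theorem sk_comm (k l : ℕ) (y : TT p M) : sk p M k (sk p M l y) = sk p M l (sk p M k y) := by
  have h1 := sk_comp (p := p) (M := M) k l
  have h2 := sk_comp (p := p) (M := M) l k
  rw [mul_comm] at h2
  have := h1.trans h2.symm
  exact DFunLike.congr_fun this y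

theorem sub_dvd_sk (f : TT p M →ₐ[ZMod p] TT p M) (y : TT p M) :
    f (ep p M) - ep p M ∣ f y - y := by
  obtain ⟨g, rfl⟩ := TT.exists_rep y
  have h1 : AdjoinRoot.mk ((X : (ZMod p)[X]) ^ M) g = aeval (ep p M) g := by
    rw [AdjoinRoot.aeval_eq]
  rw [h1]
  have h2 : f (aeval (ep p M) g) = aeval (f (ep p M)) g := by
    rw [aeval_algHom_apply]
  rw [h2]
  rw [aeval_def, aeval_def, eval₂_eq_eval_map, eval₂_eq_eval_map]
  exact sub_dvd_eval_sub _ _ _

/-- `v = 1 + c ε^n + ...` -/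
def Lead (v : TT p M) (n : ℕ) (c : ZMod p) : Prop :=
  ∃ y, v = 1 + algebraMap (ZMod p) (TT p M) c * ep p M ^ n + ep p M ^ (n + 1) * y

theorem Lead.mul {v w : TT p M} {n : ℕ} (hn : 1 ≤ n) {c c' : ZMod p} (hv : Lead v n c)
    (hw : Lead w n c') : Lead (v * w) n (c + c') := by
  obtain ⟨y, rfl⟩ := hv
  obtain ⟨z, rfl⟩ := hw
  obtain ⟨m, rfl⟩ : ∃ m, n = m + 1 := ⟨n - 1, by omega⟩
  refine ⟨y * (1 + algebraMap (ZMod p) (TT p M) c' * ep p M ^ (m + 1) + ep p M ^ (m + 1 + 1) * z)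
    + z * (1 + algebraMap (ZMod p) (TT p M) c * ep p M ^ (m + 1))
    + algebraMap (ZMod p) (TT p M) c * algebraMap (ZMod p) (TT p M) c' * ep p M ^ m, ?_⟩
  rw [map_add]
  ring

theorem Lead.one (n : ℕ) : Lead (1 : TT p M) n 0 := ⟨0, by simp⟩

theorem Lead.pow {v : TT p M} {n : ℕ} (hn : 1 ≤ n) {c : ZMod p} (hv : Lead v n c) (k : ℕ) :
    Lead (v ^ k) n (k * c) := by
  induction k with
  | zero => simpa using Lead.one n
  | succ k ih =>
    have := ih.mul hn hv
    rw [← pow_succ] at this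
    convert this using 1
    push_cast; ring

theorem Lead.inv {v : (TT p M)ˣ} {n : ℕ} (hn : 1 ≤ n) {c : ZMod p} (hv : Lead (v : TT p M) n c) :
    Lead ((v⁻¹ : (TT p M)ˣ) : TT p M) n (-c) := by
  obtain ⟨y, hy⟩ := hv
  obtain ⟨m, rfl⟩ : ∃ m, n = m + 1 := ⟨n - 1, by omega⟩
  set a := algebraMap (ZMod p) (TT p M) c with ha
  set u : TT p M := ((v⁻¹ : (TT p M)ˣ) : TT p M) with hu
  have h1 : u * (v : TT p M) = 1 := by rw [hu]; exact v.inv_mul
  have h2 : u = 1 - u * (a * ep p M ^ (m + 1) + ep p M ^ (m + 1 + 1) * y) := by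
    have : u * (v : TT p M) = u + u * (a * ep p M ^ (m + 1) + ep p M ^ (m + 1 + 1) * y) := by
      rw [hy]; ring
    rw [h1] at this
    linear_combination -this
  refine ⟨a * u * (a + ep p M * y) * ep p M ^ m - u * y, ?_⟩
  rw [map_neg, ← ha]
  linear_combination (1 - a * ep p M ^ (m + 1)) * h2

theorem Lead.pow_char [Fact p.Prime] {v : TT p M} {n : ℕ} {c : ZMod p} (hv : Lead v n c) :
    Lead (v ^ p) (p * n) c := by
  obtain ⟨y, rfl⟩ := hv
  rcases Nat.eq_zero_or_pos M with hM | hM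
  · have h0 : (1 : TT p M) = 0 := by
      have := ep_pow (p := p) (M := M)
      rw [hM] at this ⊢
      simpa using this
    have : Subsingleton (TT p M) := subsingleton_of_zero_eq_one h0.symm
    exact ⟨0, Subsingleton.elim _ _⟩
  have hch : CharP (TT p M) p := by
    have : Nontrivial (TT p M) := by
      apply AdjoinRoot.nontrivial
      rw [degree_X_pow]
      exact_mod_cast hM.ne'
    exact charP_of_injective_algebraMap (algebraMap (ZMod p) (TT p M)).injective p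
  have : ExpChar (TT p M) p := ExpChar.prime Fact.out
  refine ⟨ep p M ^ (p - 1) * y ^ p, ?_⟩
  rw [add_pow_expChar, add_pow_expChar, one_pow, mul_pow, mul_pow, ← pow_mul, ← pow_mul,
    ← map_pow, ZMod.pow_card, mul_comm n p, ← mul_assoc, ← pow_add]
  congr 3
  have := (Fact.out : p.Prime).pos
  rw [Nat.add_mul]
  have : n * p = p * n := mul_comm _ _
  omega

/-- Every element which is `1` modulo `ε^n` has a leading term at `n`. -/
theorem exists_lead {v : TT p M} {n : ℕ} (h : ep p M ^ n ∣ v - 1) : ∃ c, Lead v n c := by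
  obtain ⟨z, hz⟩ := h
  obtain ⟨f, rfl⟩ := TT.exists_rep z
  have h1 : f = C (f.coeff 0) + X * f.divX := by
    rw [add_comm, mul_comm]; exact (divX_mul_X_add f).symm
  refine ⟨f.coeff 0, AdjoinRoot.mk _ f.divX, ?_⟩
  have h2 : AdjoinRoot.mk ((X : (ZMod p)[X]) ^ M) f =
      algebraMap (ZMod p) (TT p M) (f.coeff 0) + ep p M * AdjoinRoot.mk _ f.divX := by
    conv_lhs => rw [h1]
    rw [map_add, map_mul, AdjoinRoot.mk_X, AdjoinRoot.mk_C]
    rfl
  rw [h2] at hz
  linear_combination hz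

/-- Leading terms are unique below `M`. -/
theorem Lead.unique_zero [Fact p.Prime] {n : ℕ} (hn : n < M) {c : ZMod p} {y : TT p M}
    (h : algebraMap (ZMod p) (TT p M) c * ep p M ^ n = ep p M ^ (n + 1) * y) : c = 0 := by
  obtain ⟨f, rfl⟩ := TT.exists_rep y
  have h1 : AdjoinRoot.mk ((X : (ZMod p)[X]) ^ M) (C c * X ^ n - X ^ (n + 1) * f) = 0 := by
    rw [map_sub, map_mul, map_mul, map_pow, map_pow, AdjoinRoot.mk_X, AdjoinRoot.mk_C]
    exact sub_eq_zero.2 h
  rw [AdjoinRoot.mk_eq_zero] at h1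
  have h2 := (X_pow_dvd_iff.1 h1) n hn
  rw [coeff_sub, coeff_C_mul_X_pow, if_pos rfl, coeff_X_pow_mul', if_neg (by omega), sub_zero] at h2
  exact h2

theorem Lead.unique [Fact p.Prime] {v : TT p M} {n : ℕ} (hn : n < M) {c c' : ZMod p}
    (h : Lead v n c) (h' : Lead v n c') : c = c' := by
  obtain ⟨y, hy⟩ := h
  obtain ⟨z, hz⟩ := h'
  have : c - c' = 0 := by
    apply Lead.unique_zero hn (y := z - y)
    rw [map_sub]
    linear_combination hz - hy
  linear_combination this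

/-- A `p`-th power has no leading term at `n` when `p` does not divide `n`. -/
theorem Lead.pow_not_dvd [Fact p.Prime] {v : TT p M} {n : ℕ} (hn : n < M) (hpn : ¬ p ∣ n)
    {c : ZMod p} (h : Lead (v ^ p) n c) : c = 0 := by
  obtain ⟨z, hz⟩ := h
  obtain ⟨f, rfl⟩ := TT.exists_rep v
  obtain ⟨g, rfl⟩ := TT.exists_rep z
  have h1 : AdjoinRoot.mk ((X : (ZMod p)[X]) ^ M) (f ^ p - 1 - C c * X ^ n - X ^ (n + 1) * g) = 0 := by
    rw [map_sub, map_sub, map_sub, map_mul, map_mul, map_pow, map_pow, map_pow, map_one,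
      AdjoinRoot.mk_X, AdjoinRoot.mk_C, ← AdjoinRoot.algebraMap_eq]
    linear_combination hz
  rw [AdjoinRoot.mk_eq_zero] at h1
  have h2 := (X_pow_dvd_iff.1 h1) n hn
  have hn0 : n ≠ 0 := by rintro rfl; exact hpn (dvd_zero p)
  rw [coeff_sub, coeff_sub, coeff_sub, coeff_C_mul_X_pow, if_pos rfl, coeff_X_pow_mul',
    if_neg (by omega), sub_zero, coeff_one, if_neg hn0, sub_zero, ← ZMod.expand_card,
    coeff_expand (Fact.out : p.Prime).pos, if_neg hpn, zero_sub, neg_eq_zero] at h2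
  exact h2

/-- Action of an endomorphism `f` with `f ε = ε (1 + ε^r + ...)` on leading terms. -/
theorem Lead.endo (f : TT p M →ₐ[ZMod p] TT p M) {r : ℕ} (hr : 1 ≤ r) {w : TT p M}
    (hf : f (ep p M) = ep p M + ep p M ^ (r + 1) * (1 + ep p M * w)) {v u : (TT p M)ˣ} {n : ℕ}
    (hn : 1 ≤ n) {c : ZMod p} (h : Lead (v : TT p M) n c)
    (hu : (u : TT p M) * v = f v) : Lead (u : TT p M) (n + r) (n * c) := by
  obtain ⟨y, hy⟩ := h
  set e := ep p M with he
  set a := algebraMap (ZMod p) (TT p M) c with ha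
  obtain ⟨m, rfl⟩ : ∃ m, n = m + 1 := ⟨n - 1, by omega⟩
  -- f y = y + e^(r+1) * t
  obtain ⟨t, ht⟩ : ∃ t, f y = y + e ^ (r + 1) * t := by
    obtain ⟨t, ht⟩ := sub_dvd_sk f y
    rw [← he, hf] at ht
    exact ⟨(1 + e * w) * t, by linear_combination ht⟩
  -- (f e)^(k) = e^k + e^(k + r) * (k + e * s)
  have hpow : ∀ k : ℕ, ∃ s, (f e) ^ k = e ^ k + e ^ (k + r) * (k + e * s) := by
    intro k
    induction k with
    | zero => exact ⟨0, by simp⟩
    | succ k ih =>
      obtain ⟨s, hs⟩ := ih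
      refine ⟨s + w + e ^ (r - 1) * (k + e * s) * (1 + e * w), ?_⟩
      rw [pow_succ, hs, hf]
      obtain ⟨q, rfl⟩ : ∃ q, r = q + 1 := ⟨r - 1, by omega⟩
      simp only [Nat.add_sub_cancel]
      push_cast
      ring
  obtain ⟨s, hs⟩ := hpow (m + 1)
  obtain ⟨s', hs'⟩ := hpow (m + 1 + 1)
  -- f v - v = e^(n+r) * (n a + e * z)
  obtain ⟨z, hz⟩ : ∃ z, f (v : TT p M) = (v : TT p M) +
      e ^ (m + 1 + r) * (((m + 1 : ℕ) : TT p M) * a + e * z) := by
    refine ⟨a * s + e * t + ((m + 1 + 1 : ℕ) + e * s') * (y + e ^ (r + 1) * t), ?_⟩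
    have : f (v : TT p M) = 1 + a * (f e) ^ (m + 1) + (f e) ^ (m + 1 + 1) * f y := by
      rw [hy, map_add, map_add, map_one, map_mul, map_mul, map_pow, map_pow, ha, AlgHom.commutes]
    rw [this, hs, hs', ht, hy]
    push_cast
    ring
  -- divide by v
  have hvi : ((v⁻¹ : (TT p M)ˣ) : TT p M) = 1 - ((v⁻¹ : (TT p M)ˣ) : TT p M) *
      (a * e ^ (m + 1) + e ^ (m + 1 + 1) * y) := by
    have h1 : ((v⁻¹ : (TT p M)ˣ) : TT p M) * (v : TT p M) = 1 := v.inv_mul
    rw [hy] at h1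
    linear_combination h1
  set vi := ((v⁻¹ : (TT p M)ˣ) : TT p M) with hvidef
  have huv : (u : TT p M) = f (v : TT p M) * vi := by
    rw [← hu, mul_assoc, hvidef, v.mul_inv, mul_one]
  have hvv : (v : TT p M) * vi = 1 := v.mul_inv
  refine ⟨z * vi - (((m + 1 : ℕ) : TT p M) * a) * (vi * (a * e ^ m + e ^ (m + 1) * y)), ?_⟩
  rw [huv, hz, map_mul, map_natCast, ← ha]
  have e1 : ((v : TT p M) + e ^ (m + 1 + r) * (((m + 1 : ℕ) : TT p M) * a + e * z)) * vi =
      1 + e ^ (m + 1 + r) * (((m + 1 : ℕ) : TT p M) * a + e * z) * vi := by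
    rw [add_mul, hvv]
  rw [e1]
  push_cast
  linear_combination (e ^ (m + 1 + r) * (((m : TT p M) + 1) * a)) * hvi

end Pool.Agent.Lib.MP_0e6cae_nt
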