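import Pool.Agent.Lib.MP_0e6cae_nt.UA

/-!
Cyclotomic elements `(x^h - 1)/(x - 1)` of `F_p[ε]/(ε^M)`, `x = 1 + ε`.
-/

open Polynomial

namespace Pool.Agent.Lib.MP_0e6cae_nt

variable {p M : ℕ}

theorem Lead.map_lin (f : TT p M →ₐ[ZMod p] TT p M) {d : ZMod p} {w : TT p M}
    (hf : f (ep p M) = algebraMap (ZMod p) (TT p M) d * ep p M + ep p M ^ 2 * w) {v : TT p M}
    {n : ℕ} {c : ZMod p} (h : Lead v n c) : Lead (f v) n (d ^ n * c) := by
  obtain ⟨y, rfl⟩ := h
  have hpow : ∀ k : ℕ, ∃ s, (f (ep p M)) ^ k =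
      algebraMap (ZMod p) (TT p M) d ^ k * ep p M ^ k + ep p M ^ (k + 1) * s := by
    intro k
    induction k with
    | zero => exact ⟨0, by simp⟩
    | succ k ih =>
      obtain ⟨s, hs⟩ := ih
      refine ⟨algebraMap (ZMod p) (TT p M) d ^ k * w + s * (algebraMap (ZMod p) (TT p M) d +
        ep p M * w), ?_⟩
      rw [pow_succ, hs, hf]
      ring
  obtain ⟨s, hs⟩ := hpow n
  obtain ⟨s', hs'⟩ := hpow (n + 1)
  refine ⟨algebraMap (ZMod p) (TT p M) c * s +
    (algebraMap (ZMod p) (TT p M) d ^ (n + 1) + ep p M * s') * f y, ?_⟩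
  rw [map_add, map_add, map_one, map_mul, map_mul, map_pow, map_pow, AlgHom.commutes, hs, hs',
    map_mul, map_pow]
  ring

theorem one_add_pow_lin {A : Type*} [CommRing A] (e : A) (k : ℕ) :
    ∃ w, (1 + e) ^ k = 1 + k * e + e ^ 2 * w := by
  induction k with
  | zero => exact ⟨0, by simp⟩
  | succ k ih =>
    obtain ⟨w, hw⟩ := ih
    refine ⟨k + w * (1 + e), ?_⟩
    rw [pow_succ, hw]
    push_cast
    ring

theorem sk_lin (k : ℕ) : ∃ w, sk p M k (ep p M) =
    algebraMap (ZMod p) (TT p M) k * ep p M + ep p M ^ 2 * w := by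
  obtain ⟨w, hw⟩ := one_add_pow_lin (ep p M) k
  refine ⟨w, ?_⟩
  rw [sk_ep, hw, map_natCast]
  ring

theorem Lead.sk {v : TT p M} {n : ℕ} {c : ZMod p} (h : Lead v n c) (k : ℕ) :
    Lead (MP_0e6cae_nt.sk p M k v) n ((k : ZMod p) ^ n * c) := by
  obtain ⟨w, hw⟩ := sk_lin (p := p) (M := M) k
  exact h.map_lin _ hw

/-- upgrade by invariance -/
theorem dvd_succ_of_inv [Fact p.Prime] {δ : ℕ} (hδ : ∀ n, (δ : ZMod p) ^ n = 1 → (p - 1) ∣ n)
    {v : TT p M} (hv : sk p M δ v = v) {n : ℕ} (hn : n < M) (hpn : ¬ (p - 1) ∣ n)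
    (h : ep p M ^ n ∣ v - 1) : ep p M ^ (n + 1) ∣ v - 1 := by
  obtain ⟨c, hc⟩ := exists_lead h
  have h2 := hc.sk δ
  rw [hv] at h2
  have h3 := h2.unique hn hc
  have hc0 : c = 0 := by
    by_contra hne
    apply hpn
    apply hδ
    field_simp at h3
    exact h3
  obtain ⟨y, hy⟩ := hc
  refine ⟨y, ?_⟩
  rw [hc0, map_zero] at hy
  linear_combination hy

theorem dvd_mul_of_inv [Fact p.Prime] {δ : ℕ} (hδ : ∀ n, (δ : ZMod p) ^ n = 1 → (p - 1) ∣ n)
    {v : TT p M} (hv : sk p M δ v = v) {k : ℕ} (hk : (p - 1) * (k + 1) ≤ M)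
    (h : ep p M ^ ((p - 1) * k + 1) ∣ v - 1) : ep p M ^ ((p - 1) * (k + 1)) ∣ v - 1 := by
  have hp := (Fact.out : p.Prime).two_le
  have : ∀ t, 1 ≤ t → t ≤ p - 1 → ep p M ^ ((p - 1) * k + t) ∣ v - 1 := by
    intro t ht
    induction t, ht using Nat.le_induction with
    | base => intro _; exact h
    | succ t ht ih =>
      intro ht2
      have h1 := ih (by omega)
      rw [← add_assoc]
      refine dvd_succ_of_inv hδ hv ?_ ?_ h1
      · have : (p - 1) * (k + 1) = (p - 1) * k + (p - 1) := by ring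
        omega
      · intro hd
        have : (p - 1) ∣ t := (Nat.dvd_add_right (dvd_mul_right _ _)).1 hd
        have := Nat.le_of_dvd (by omega) this
        omega
  have h2 := this (p - 1) (by omega) le_rfl
  have h3 : (p - 1) * (k + 1) = (p - 1) * k + (p - 1) := by ring
  rw [h3]
  exact h2

/-- the geometric sums -/
noncomputable def gT (p M h : ℕ) : TT p M := ∑ i ∈ Finset.range h, (1 + ep p M) ^ i

theorem geom_mul {A : Type*} [CommRing A] (x : A) (k h : ℕ) :
    (∑ i ∈ Finset.range k, x ^ i) * (∑ i ∈ Finset.range h, (x ^ k) ^ i) =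
      ∑ i ∈ Finset.range (k * h), x ^ i := by
  induction h with
  | zero => simp
  | succ h ih =>
    rw [Finset.sum_range_succ, mul_add, ih, Nat.mul_succ, Finset.sum_range_add, Finset.sum_mul]
    congr 1
    refine Finset.sum_congr rfl fun i _ => ?_
    rw [← pow_mul, ← pow_add, add_comm]

theorem gT_mul (k h : ℕ) : gT p M k * sk p M k (gT p M h) = gT p M (k * h) := by
  unfold gT
  rw [map_sum]
  simp_rw [map_pow, sk_one_add]
  exact geom_mul _ _ _

theorem gT_isUnit [Fact p.Prime] {h : ℕ} (hh : ¬ p ∣ h) : IsUnit (gT p M h) := by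
  have h1 : ∀ k : ℕ, ∃ w, gT p M k = k + ep p M * w := by
    intro k
    induction k with
    | zero => exact ⟨0, by simp [gT]⟩
    | succ k ih =>
      obtain ⟨w, hw⟩ := ih
      have h2 : ep p M ∣ (1 + ep p M) ^ k - 1 := by
        have := sub_dvd_pow_sub_pow (1 + ep p M) 1 k
        simpa using this
      obtain ⟨z, hz⟩ := h2
      refine ⟨w + z, ?_⟩
      unfold gT at hw ⊢
      rw [Finset.sum_range_succ, hw]
      push_cast
      linear_combination hz
  obtain ⟨w, hw⟩ := h1 h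
  rw [hw]
  have hu : IsUnit ((h : ℕ) : TT p M) := by
    have : IsUnit ((h : ℕ) : ZMod p) := by
      rw [isUnit_iff_ne_zero]
      rwa [Ne, ZMod.natCast_eq_zero_iff]
    have h3 := this.map (algebraMap (ZMod p) (TT p M))
    rwa [map_natCast] at h3
  have hnil : IsNilpotent (ep p M * w) := ⟨M, by rw [mul_pow, ep_pow, zero_mul]⟩
  exact hnil.isUnit_add_left_of_commute hu (Commute.all _ _)

/-- the group of units of `T` generated by the cyclotomic elements -/
noncomputable def CT (p M : ℕ) : Subgroup (TT p M)ˣ :=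
  Subgroup.closure {w | ∃ h : ℕ, ¬ p ∣ h ∧ (w : TT p M) = gT p M h}

/-- the power maps on units -/
noncomputable abbrev skU (p M k : ℕ) : (TT p M)ˣ →* (TT p M)ˣ :=
  Units.map (sk p M k : TT p M →* TT p M)

theorem CT_gen [Fact p.Prime] {h : ℕ} (hh : ¬ p ∣ h) : ∃ w ∈ CT p M, (w : TT p M) = gT p M h :=
  ⟨(gT_isUnit hh).unit, Subgroup.subset_closure ⟨h, hh, rfl⟩, rfl⟩

theorem skU_mem [Fact p.Prime] {k : ℕ} (hk : ¬ p ∣ k) {w : (TT p M)ˣ} (hw : w ∈ CT p M) :
    skU p M k w ∈ CT p M := by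
  have hle : CT p M ≤ (CT p M).comap (skU p M k) := by
    unfold CT
    rw [Subgroup.closure_le]
    rintro w ⟨h, hh, hw⟩
    change skU p M k w ∈ CT p M
    obtain ⟨a, ha, ha'⟩ := CT_gen (p := p) (M := M) hk
    obtain ⟨b, hb, hb'⟩ := CT_gen (p := p) (M := M) (h := k * h)
      (fun hd => ((Fact.out : p.Prime).dvd_mul.1 hd).elim hk hh)
    have : skU p M k w = a⁻¹ * b := by
      rw [eq_inv_mul_iff_mul_eq]
      ext
      rw [Units.val_mul, ha', hb', ← gT_mul, Units.coe_map, hw]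
      rfl
    rw [this]
    exact mul_mem (inv_mem ha) hb
  exact hle hw

end Pool.Agent.Lib.MP_0e6cae_nt
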