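import Pool.Agent.Lib.MP_0e6cae_nt.UB

/-!
All levels are attained by invariant cyclotomic one-units.
-/

open Polynomial

namespace Pool.Agent.Lib.MP_0e6cae_nt

variable {p M : ℕ}

theorem charP_TT [Fact p.Prime] (hM : 0 < M) : CharP (TT p M) p := by
  have : Nontrivial (TT p M) := by
    apply AdjoinRoot.nontrivial
    rw [degree_X_pow]
    exact_mod_cast hM.ne'
  exact charP_of_injective_algebraMap (algebraMap (ZMod p) (TT p M)).injective p

/-- the level one element -/
theorem gT_succ [Fact p.Prime] : gT p M (p + 1) = 1 + ep p M ^ (p - 1) + ep p M ^ p := by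
  have hp := (Fact.out : p.Prime).two_le
  have key : (∑ i ∈ Finset.range (p + 1), (1 + (X : (ZMod p)[X])) ^ i) = 1 + X ^ (p - 1) + X ^ p := by
    have h1 := Commute.geom_sum₂_mul (Commute.all (1 + (X : (ZMod p)[X])) 1) (p + 1)
    have h2 := geom_sum_mul (1 + (X : (ZMod p)[X])) (p + 1)
    have h3 : (1 + (X : (ZMod p)[X])) ^ p = 1 + X ^ p := by
      rw [add_pow_char, one_pow]
    rw [pow_succ, h3] at h2
    have h4 : (∑ i ∈ Finset.range (p + 1), (1 + (X : (ZMod p)[X])) ^ i) * X =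
        (1 + X ^ (p - 1) + X ^ p) * X := by
      have e1 : (X : (ZMod p)[X]) ^ p = X ^ (p - 1) * X := by
        rw [← pow_succ]; congr 1; omega
      have : (1 + (X : (ZMod p)[X])) - 1 = X := by ring
      rw [this] at h2
      rw [h2]
      linear_combination e1
    exact mul_right_cancel₀ X_ne_zero h4
  have h5 := congrArg (aeval (ep p M)) key
  simp only [map_sum, map_pow, map_add, map_one, aeval_X] at h5
  exact h5

theorem lead_gT_succ [Fact p.Prime] : Lead (gT p M (p + 1)) (p - 1) 1 := by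
  have hp := (Fact.out : p.Prime).two_le
  refine ⟨1, ?_⟩
  rw [gT_succ, map_one]
  have : p - 1 + 1 = p := by omega
  rw [this]; ring

/-- `τ = s_{1+p}` -/
theorem sk_tau [Fact p.Prime] (hM : 0 < M) :
    sk p M (p + 1) (ep p M) = ep p M + ep p M ^ ((p - 1) + 1) * (1 + ep p M * 1) := by
  have hp := (Fact.out : p.Prime).two_le
  have := charP_TT (p := p) hM
  rw [sk_ep, pow_succ, add_pow_char, one_pow]
  have : p - 1 + 1 = p := by omega
  rw [this]; ring

/-- `τ^p = s_{(1+p)^p}` -/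
theorem sk_tau_pow [Fact p.Prime] (hp2 : p ≠ 2) (hM : 0 < M) : ∃ w,
    sk p M ((p + 1) ^ p) (ep p M) = ep p M + ep p M ^ ((p ^ 2 - 1) + 1) * (1 + ep p M * w) := by
  have hp := (Fact.out : p.Prime).two_le
  have hp3 : 3 ≤ p := by omega
  have hch := charP_TT (p := p) hM
  obtain ⟨y, hy⟩ := ZMod.exists_one_add_mul_pow_prime_eq (R := ℕ) (u := p) (v := p)
    (Fact.out : p.Prime) dvd_rfl (by
      change p * p * p ∣ p ^ p
      have : p * p * p = p ^ 3 := by ring
      rw [this]; exact pow_dvd_pow p hp3) 1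
  simp only [mul_one, Nat.cast_id] at hy
  have h1 : (1 + ep p M) ^ (p ^ 2) = 1 + ep p M ^ (p ^ 2) := by
    have : ExpChar (TT p M) p := ExpChar.prime Fact.out
    rw [add_pow_expChar_pow, one_pow]
  obtain ⟨w, hw⟩ := one_add_pow_lin (ep p M ^ (p ^ 2)) (1 + p * y)
  have h2 : (1 + ep p M) ^ ((p + 1) ^ p) = (1 + ep p M) *
      (1 + ep p M ^ (p ^ 2) + (ep p M ^ (p ^ 2)) ^ 2 * w) := by
    rw [add_comm p 1, hy, pow_add, pow_one]
    congr 1
    have : p * p * (1 + p * y) = p ^ 2 * (1 + p * y) := by ring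
    rw [this, pow_mul, h1, hw]
    push_cast
    rw [CharP.cast_eq_zero]
    ring
  obtain ⟨q, hq⟩ : ∃ q, p ^ 2 = q + 1 := ⟨p ^ 2 - 1, (Nat.sub_add_cancel (Nat.one_le_pow 2 p (by omega))).symm⟩
  refine ⟨1 + ep p M ^ q * (1 + ep p M) * w, ?_⟩
  rw [sk_ep, h2, hq]
  simp only [Nat.add_sub_cancel]
  ring

/-- `D w = τ w / w` -/
noncomputable def DD (p M : ℕ) : (TT p M)ˣ →* (TT p M)ˣ :=
  skU p M (p + 1) / MonoidHom.id _

theorem DD_apply (w : (TT p M)ˣ) : DD p M w = skU p M (p + 1) w / w := rfl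

theorem DD_lead [Fact p.Prime] (hM : 0 < M) {w : (TT p M)ˣ} {n : ℕ} (hn : 1 ≤ n) {c : ZMod p}
    (h : Lead (w : TT p M) n c) : Lead (DD p M w : TT p M) (n + (p - 1)) (n * c) := by
  have hp := (Fact.out : p.Prime).two_le
  refine Lead.endo (sk p M (p + 1)) (by omega) (sk_tau hM) hn h ?_
  rw [DD_apply, ← Units.val_mul, div_mul_cancel]
  rfl

theorem skU_comm (k l : ℕ) (w : (TT p M)ˣ) : skU p M k (skU p M l w) = skU p M l (skU p M k w) := by
  ext
  exact sk_comm k l _

theorem skU_mul (k l : ℕ) (w : (TT p M)ˣ) : skU p M k (skU p M l w) = skU p M (k * l) w := by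
  ext
  exact DFunLike.congr_fun (sk_comp k l) _

/-- invariant cyclotomic units -/
noncomputable def WT (p M δ : ℕ) : Subgroup (TT p M)ˣ where
  carrier := {w | w ∈ CT p M ∧ skU p M δ w = w}
  mul_mem' := by
    rintro a b ⟨ha, ha'⟩ ⟨hb, hb'⟩
    exact ⟨mul_mem ha hb, by rw [map_mul, ha', hb']⟩
  one_mem' := ⟨one_mem _, map_one _⟩
  inv_mem' := by
    rintro a ⟨ha, ha'⟩
    exact ⟨inv_mem ha, by rw [map_inv, ha']⟩

theorem not_dvd_succ [Fact p.Prime] : ¬ p ∣ p + 1 := by
  intro h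
  have h1 : p ∣ 1 := (Nat.dvd_add_right dvd_rfl).1 h
  exact (Fact.out : p.Prime).one_lt.ne' (Nat.dvd_one.1 h1)

theorem DD_mem [Fact p.Prime] {δ : ℕ} {w : (TT p M)ˣ} (hw : w ∈ WT p M δ) :
    DD p M w ∈ WT p M δ := by
  rw [DD_apply]
  refine div_mem ⟨skU_mem not_dvd_succ hw.1, ?_⟩ hw
  rw [skU_comm, hw.2]

theorem prod_lead [Fact p.Prime] {n : ℕ} (hn : 1 ≤ n) (f : ℕ → (TT p M)ˣ) (c : ZMod p)
    (h : ∀ j, Lead (f j : TT p M) n c) (k : ℕ) :
    Lead ((∏ j ∈ Finset.range k, f j : (TT p M)ˣ) : TT p M) n (k * c) := by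
  induction k with
  | zero => simpa using Lead.one n
  | succ k ih =>
    rw [Finset.prod_range_succ, Units.val_mul]
    have := ih.mul hn (h k)
    convert this using 1
    push_cast; ring

/-- Level one. -/
theorem level_one [Fact p.Prime] {δ : ℕ} (hδ0 : ¬ p ∣ δ)
    (hδM : sk p M (δ ^ (p - 1)) = AlgHom.id (ZMod p) (TT p M)) :
    ∃ w ∈ WT p M δ, ∃ c, c ≠ 0 ∧ Lead (w : TT p M) (p - 1) c := by
  have hp := (Fact.out : p.Prime).two_le
  obtain ⟨b, hb, hb'⟩ := CT_gen (p := p) (M := M) (h := p + 1) not_dvd_succ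
  refine ⟨∏ j ∈ Finset.range (p - 1), skU p M (δ ^ j) b, ⟨?_, ?_⟩, ((p - 1 : ℕ) : ZMod p) * 1, ?_, ?_⟩
  · refine prod_mem fun j _ => skU_mem ?_ hb
    intro h
    exact hδ0 ((Fact.out : p.Prime).dvd_of_dvd_pow h)
  · rw [map_prod]
    simp_rw [skU_mul, ← pow_succ']
    have h1 := Finset.prod_range_succ' (fun j => skU p M (δ ^ j) b) (p - 1)
    have h2 := Finset.prod_range_succ (fun j => skU p M (δ ^ j) b) (p - 1)
    have h3 : skU p M (δ ^ (p - 1)) b = skU p M (δ ^ 0) b := by
      ext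
      simp only [Units.coe_map, MonoidHom.coe_coe, pow_zero]
      rw [hδM]
      have : sk p M 1 = AlgHom.id (ZMod p) (TT p M) := by
        apply sk_ext
        rw [sk_one_add, pow_one]; rfl
      rw [this]
    rw [h1, h3] at h2
    exact mul_right_cancel h2
  · rw [mul_one, Ne, ZMod.natCast_eq_zero_iff]
    intro h
    have := Nat.le_of_dvd (by omega) h
    omega
  · refine prod_lead (by omega) _ 1 (fun j => ?_) (p - 1)
    have h1 := (lead_gT_succ (p := p) (M := M)).sk (δ ^ j)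
    have h2 : ((δ ^ j : ℕ) : ZMod p) ^ (p - 1) = 1 := by
      apply ZMod.pow_card_sub_one_eq_one
      rw [Ne, ZMod.natCast_eq_zero_iff]
      intro h
      exact hδ0 ((Fact.out : p.Prime).dvd_of_dvd_pow h)
    rw [h2, one_mul] at h1
    rw [Units.coe_map]
    simp only [MonoidHom.coe_coe]
    rw [hb']
    exact h1

theorem iter_lead [Fact p.Prime] (hM : 0 < M) {δ : ℕ} {v : (TT p M)ˣ} (hv : v ∈ WT p M δ) {j : ℕ}
    (hj : 1 ≤ j) (hj1 : j % p = 1) {c : ZMod p} (hc : c ≠ 0)
    (h : Lead (v : TT p M) ((p - 1) * j) c) (k : ℕ) (hk : k ≤ p - 1) :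
    (DD p M)^[k] v ∈ WT p M δ ∧
      ∃ c', c' ≠ 0 ∧ Lead ((DD p M)^[k] v : (TT p M)ˣ).val ((p - 1) * (j + k)) c' := by
  have hp := (Fact.out : p.Prime).two_le
  induction k with
  | zero => exact ⟨hv, c, hc, h⟩
  | succ k ih =>
    obtain ⟨h1, c', hc', h2⟩ := ih (by omega)
    rw [Function.iterate_succ_apply']
    refine ⟨DD_mem h1, (((p - 1) * (j + k) : ℕ) : ZMod p) * c', ?_, ?_⟩
    · refine mul_ne_zero ?_ hc'
      rw [Ne, ZMod.natCast_eq_zero_iff]
      intro hd
      rcases (Fact.out : p.Prime).dvd_mul.1 hd with h3 | h3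
      · have := Nat.le_of_dvd (by omega) h3
        omega
      · have h4 : (j + k) % p = 0 := Nat.mod_eq_zero_of_dvd h3
        rw [Nat.add_mod, hj1] at h4
        have h5 : k % p = k := Nat.mod_eq_of_lt (by omega)
        rw [h5, Nat.mod_eq_of_lt (by omega)] at h4
        omega
    · have h3 := DD_lead hM (n := (p - 1) * (j + k)) ?_ h2
      · have e : (p - 1) * (j + k) + (p - 1) = (p - 1) * (j + (k + 1)) := by ring
        rw [← e]
        exact h3
      · have : 1 ≤ (p - 1) * (j + k) := Nat.mul_pos (by omega) (by omega)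
        exact this

/-- The binomial identity for `τ^p - 1` and `D^p`. -/
theorem tau_pow [Fact p.Prime] (v : (TT p M)ˣ) :
    ∃ Y : (TT p M)ˣ, skU p M ((p + 1) ^ p) v / v = (DD p M)^[p] v * Y ^ p := by
  have hp := (Fact.out : p.Prime)
  -- the endomorphism ring
  let D : AddMonoid.End (Additive (TT p M)ˣ) := MonoidHom.toAdditive (DD p M)
  let T : AddMonoid.End (Additive (TT p M)ˣ) := MonoidHom.toAdditive (skU p M (p + 1))
  have hT : T = D + 1 := by
    refine AddMonoidHom.ext fun x => ?_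
    change skU p M (p + 1) x.toMul = DD p M x.toMul * x.toMul
    rw [DD_apply, div_mul_cancel]
  obtain ⟨r, hr⟩ := (Commute.one_right D).exists_add_pow_prime_eq hp
  have hTp : ∀ k : ℕ, ∀ x : Additive (TT p M)ˣ, (T ^ k) x = Additive.ofMul (skU p M ((p + 1) ^ k) x.toMul) := by
    intro k
    induction k with
    | zero =>
      intro x
      have : skU p M ((p + 1) ^ 0) x.toMul = x.toMul := by
        ext
        have : sk p M 1 = AlgHom.id (ZMod p) (TT p M) := by
          apply sk_ext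
          rw [sk_one_add, pow_one]; rfl
        simp only [pow_zero, Units.coe_map, MonoidHom.coe_coe]
        rw [this]; rfl
      rw [this]; rfl
    | succ k ih =>
      intro x
      rw [pow_succ']
      change T ((T ^ k) x) = _
      rw [ih]
      change Additive.ofMul (skU p M (p + 1) (skU p M ((p + 1) ^ k) x.toMul)) = _
      rw [skU_mul, ← pow_succ']
  have hDk : ∀ k : ℕ, ∀ x : Additive (TT p M)ˣ, (D ^ k) x = Additive.ofMul ((DD p M)^[k] x.toMul) := by
    intro k
    induction k with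
    | zero => intro x; rfl
    | succ k ih =>
      intro x
      rw [pow_succ', Function.iterate_succ_apply']
      change D ((D ^ k) x) = _
      rw [ih]; rfl
  refine ⟨(D * 1 * r) (Additive.ofMul v) |>.toMul, ?_⟩
  rw [← hT] at hr
  have h1 := congrArg (fun f : AddMonoid.End (Additive (TT p M)ˣ) => f (Additive.ofMul v)) hr
  change (T ^ p) (Additive.ofMul v) = _ at h1
  rw [hTp] at h1
  have h2 : ((D ^ p + 1 ^ p + (p : AddMonoid.End (Additive (TT p M)ˣ)) * D * 1 * r : AddMonoid.End (Additive (TT p M)ˣ)) (Additive.ofMul v)) =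
      (D ^ p) (Additive.ofMul v) + Additive.ofMul v + p • ((D * 1 * r) (Additive.ofMul v)) := by
    rw [one_pow, mul_assoc, mul_assoc, ← mul_assoc D]
    rfl
  rw [h2, hDk] at h1
  have h3 : skU p M ((p + 1) ^ p) v = (DD p M)^[p] v * v * ((D * 1 * r) (Additive.ofMul v)).toMul ^ p := h1
  rw [h3]
  rw [mul_right_comm, mul_div_assoc, div_self', mul_one]

/-- All levels are attained by invariant cyclotomic units. -/
theorem exists_level [Fact p.Prime] (hp2 : p ≠ 2) {δ : ℕ}
    (hδ : ∀ n, (δ : ZMod p) ^ n = 1 → (p - 1) ∣ n) (hδ0 : ¬ p ∣ δ)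
    (hδM : sk p M (δ ^ (p - 1)) = AlgHom.id (ZMod p) (TT p M)) (i : ℕ) (hi : 1 ≤ i)
    (hiM : (p - 1) * (i + 1) < M) :
    ∃ w ∈ WT p M δ, ∃ c, c ≠ 0 ∧ Lead (w : TT p M) ((p - 1) * i) c := by
  have hp := (Fact.out : p.Prime).two_le
  have hM : 0 < M := by omega
  induction i using Nat.strong_induction_on with
  | _ i ih =>
  rcases Nat.lt_or_ge 1 i with hi1 | hi1
  swap
  · have : i = 1 := by omega
    subst this
    rw [mul_one]
    exact level_one hδ0 hδM
  by_cases him : i % p = 1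
  · -- i = p m + 1
    obtain ⟨m, hm⟩ : ∃ m, i = p * m + 1 := ⟨i / p, by have := Nat.div_add_mod i p; omega⟩
    have hm1 : 1 ≤ m := by
      rcases Nat.eq_zero_or_pos m with h | h
      · subst h; omega
      · exact h
    have hpm : p ≤ p * m := Nat.le_mul_of_pos_right p hm1
    have hmono : ∀ a b : ℕ, a ≤ b → (p - 1) * a ≤ (p - 1) * b := fun a b h => Nat.mul_le_mul_left _ h
    -- the element of level j = i - p
    obtain ⟨j, hj⟩ : ∃ j, i = j + p := ⟨i - p, by omega⟩
    have hj1 : 1 ≤ j := by omega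
    have hjp : j % p = 1 := by
      rw [hj, Nat.add_mod_right] at him; exact him
    obtain ⟨v, hv, c, hc, hvl⟩ := ih j (by omega) hj1 (lt_of_le_of_lt (hmono _ _ (by omega)) hiM)
    obtain ⟨hz, cz, hcz, hzl⟩ := iter_lead hM hv hj1 hjp hc hvl (p - 1) le_rfl
    set z := (DD p M)^[p - 1] v with hzdef
    have e1 : j + (p - 1) = p * m := by omega
    rw [e1] at hzl
    -- the element of level m
    obtain ⟨y, hy, c0, hc0, hyl⟩ := ih m (by nlinarith) hm1
      (lt_of_le_of_lt (hmono _ _ (by nlinarith)) hiM)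
    have hyp := hyl.pow_char
    -- r = z / (y^p)^e
    set e := (cz / c0).val with he
    have hec : (e : ZMod p) * c0 = cz := by
      rw [he, ZMod.natCast_zmod_val, div_mul_cancel₀ _ hc0]
    have hype : Lead (((y ^ p) ^ e : (TT p M)ˣ) : TT p M) ((p - 1) * (p * m)) cz := by
      have h1 := hyp.pow (n := p * ((p - 1) * m)) (Nat.mul_pos (by omega) (Nat.mul_pos (by omega) hm1)) e
      rw [hec] at h1
      rw [Units.val_pow_eq_pow_val, Units.val_pow_eq_pow_val]
      have e2 : p * ((p - 1) * m) = (p - 1) * (p * m) := by ring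
      rw [← e2]; exact h1
    have hpos : 1 ≤ (p - 1) * (p * m) := Nat.mul_pos (by omega) (by omega)
    set r : (TT p M)ˣ := z * ((y ^ p) ^ e)⁻¹ with hr
    have hrW : r ∈ WT p M δ := mul_mem hz (inv_mem (pow_mem (pow_mem hy p) e))
    have hrl : Lead (r : TT p M) ((p - 1) * (p * m)) 0 := by
      have h1 := hzl.mul hpos (hype.inv hpos)
      rw [add_neg_cancel] at h1
      rw [hr, Units.val_mul]; exact h1
    have hrinv : sk p M δ (r : TT p M) = r := by
      have := hrW.2
      have h1 := congrArg (Units.val) this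
      exact h1
    have hrd : ep p M ^ ((p - 1) * (p * m) + 1) ∣ (r : TT p M) - 1 := by
      obtain ⟨t, ht⟩ := hrl
      refine ⟨t, ?_⟩
      rw [ht, map_zero]; ring
    have hmi : p * m + 1 = i := hm.symm
    have hrd2 : ep p M ^ ((p - 1) * i) ∣ (r : TT p M) - 1 := by
      have h1 := dvd_mul_of_inv hδ hrinv (k := p * m) (by rw [hmi]; exact (lt_of_le_of_lt (hmono _ _ (by omega)) hiM).le) hrd
      rw [hmi] at h1
      exact h1
    obtain ⟨cr, hcr⟩ := exists_lead hrd2
    by_cases hcr0 : cr = 0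
    swap
    · exact ⟨r, hrW, cr, hcr0, hcr⟩
    exfalso
    -- r is 1 to higher order
    have hrd3 : ep p M ^ ((p - 1) * i + 1) ∣ (r : TT p M) - 1 := by
      obtain ⟨t, ht⟩ := hcr
      refine ⟨t, ?_⟩
      rw [ht, hcr0, map_zero]; ring
    have hrd4 := dvd_mul_of_inv hδ hrinv (k := i) hiM.le hrd3
    obtain ⟨c', hc'⟩ := exists_lead hrd4
    have hDr := DD_lead hM (Nat.mul_pos (by omega) (by omega)) hc'
    have hDr0 : Lead (DD p M r : TT p M) ((p - 1) * (i + 1)) 0 := by
      obtain ⟨t, ht⟩ := hDr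
      obtain ⟨q, hq⟩ : ∃ q, p - 1 = q + 1 := ⟨p - 2, by omega⟩
      refine ⟨ep p M ^ q * (algebraMap (ZMod p) (TT p M) (((p - 1) * (i + 1) : ℕ) * c') + ep p M * t), ?_⟩
      rw [ht, map_zero, hq]
      ring
    -- compare with tau ^ p
    obtain ⟨Y, hY⟩ := tau_pow v
    have hDp : (DD p M)^[p] v = DD p M z := by
      have h1 := Function.iterate_succ_apply' (DD p M) (p - 1) v
      have h2 : (p - 1).succ = p := by omega
      rw [h2] at h1
      exact h1
    rw [hDp] at hY
    have hDz : DD p M z = DD p M r * ((DD p M y) ^ e) ^ p := by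
      have : z = r * (y ^ p) ^ e := by rw [hr, inv_mul_cancel_right]
      rw [this, map_mul, map_pow, map_pow, ← pow_mul, ← pow_mul, mul_comm p e]
    rw [hDz] at hY
    have hY2 : skU p M ((p + 1) ^ p) v / v * (DD p M r)⁻¹ = ((DD p M y) ^ e * Y) ^ p := by
      rw [hY, mul_pow]
      rw [mul_comm (DD p M r), mul_assoc, mul_assoc, mul_comm (DD p M r), mul_assoc, inv_mul_cancel,
        mul_one]
    obtain ⟨w, hw⟩ := sk_tau_pow (p := p) (M := M) hp2 hM
    have hp21 : 1 ≤ p ^ 2 - 1 := by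
      have : 2 ^ 2 ≤ p ^ 2 := Nat.pow_le_pow_left hp 2
      omega
    have hlv := Lead.endo (sk p M ((p + 1) ^ p)) hp21 hw (v := v)
      (u := skU p M ((p + 1) ^ p) v / v) (Nat.mul_pos (by omega) hj1) hvl (by
        rw [← Units.val_mul, div_mul_cancel]; rfl)
    have e3 : (p - 1) * j + (p ^ 2 - 1) = (p - 1) * (i + 1) := by
      obtain ⟨q, rfl⟩ : ∃ q, p = q + 1 := ⟨p - 1, by omega⟩
      have h1 : (q + 1) ^ 2 - 1 = q * (q + 2) := by
        have : (q + 1) ^ 2 = q * (q + 2) + 1 := by ring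
        omega
      rw [h1, hj]
      simp only [Nat.add_sub_cancel]
      ring
    rw [e3] at hlv
    have hpos2 : 1 ≤ (p - 1) * (i + 1) := Nat.mul_pos (by omega) (by omega)
    have hfin := hlv.mul hpos2 (hDr0.inv hpos2)
    rw [← Units.val_mul, hY2, Units.val_pow_eq_pow_val] at hfin
    have hnd : ¬ p ∣ (p - 1) * (i + 1) := by
      intro hd
      rcases (Fact.out : p.Prime).dvd_mul.1 hd with h3 | h3
      · have := Nat.le_of_dvd (by omega) h3
        omega
      · have h4 : (i + 1) % p = 0 := Nat.mod_eq_zero_of_dvd h3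
        rw [Nat.add_mod, him] at h4
        have h5 : 1 % p = 1 := Nat.mod_eq_of_lt (by omega)
        rw [h5, Nat.mod_eq_of_lt (by omega)] at h4
        omega
    have h0 := hfin.pow_not_dvd hiM hnd
    rw [neg_zero, add_zero] at h0
    rcases mul_eq_zero.1 h0 with h1 | h1
    · rw [ZMod.natCast_eq_zero_iff] at h1
      rcases (Fact.out : p.Prime).dvd_mul.1 h1 with h3 | h3
      · have := Nat.le_of_dvd (by omega) h3
        omega
      · have h4 : j % p = 0 := Nat.mod_eq_zero_of_dvd h3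
        omega
    · exact hc h1
  · -- i - 1 is not divisible by p
    obtain ⟨j, hj⟩ : ∃ j, i = j + 1 := ⟨i - 1, by omega⟩
    obtain ⟨v, hv, c, hc, hvl⟩ := ih j (by omega) (by omega)
      (lt_of_le_of_lt (Nat.mul_le_mul_left _ (by omega)) hiM)
    refine ⟨DD p M v, DD_mem hv, (((p - 1) * j : ℕ) : ZMod p) * c, ?_, ?_⟩
    · refine mul_ne_zero ?_ hc
      rw [Ne, ZMod.natCast_eq_zero_iff]
      intro hd
      rcases (Fact.out : p.Prime).dvd_mul.1 hd with h3 | h3
      · have := Nat.le_of_dvd (by omega) h3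
        omega
      · apply him
        obtain ⟨q, rfl⟩ := h3
        rw [hj, Nat.mul_add_mod, Nat.mod_eq_of_lt (by omega)]
    · have h3 := DD_lead hM (n := (p - 1) * j) (Nat.mul_pos (by omega) (by omega)) hvl
      have e : (p - 1) * j + (p - 1) = (p - 1) * i := by rw [hj]; ring
      rw [← e]; exact h3

end Pool.Agent.Lib.MP_0e6cae_nt
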