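import Pool.Agent.Lib.MP_0e6cae_nt.UC

/-!
Invariant one-units are cyclotomic; units which are invariant modulo a large subgroup belong to it.
-/

open Polynomial

namespace Pool.Agent.Lib.MP_0e6cae_nt

variable {p : ℕ}

/-- truncation -/
noncomputable def prT (p : ℕ) {m M : ℕ} (h : m ≤ M) : TT p M →ₐ[ZMod p] TT p m :=
  AdjoinRoot.liftAlgHom ((X : (ZMod p)[X]) ^ M) (Algebra.ofId (ZMod p) (TT p m)) (ep p m) (by
    simp only [eval₂_pow, eval₂_X]
    obtain ⟨k, rfl⟩ := Nat.exists_eq_add_of_le h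
    rw [pow_add, ep_pow, zero_mul])

theorem prT_ep {m M : ℕ} (h : m ≤ M) : prT p h (ep p M) = ep p m := by
  unfold prT
  exact AdjoinRoot.liftAlgHom_root _ _ _ _

theorem prT_sk {m M : ℕ} (h : m ≤ M) (k : ℕ) (y : TT p M) :
    prT p h (sk p M k y) = sk p m k (prT p h y) := by
  have : (prT p h).comp (sk p M k) = (sk p m k).comp (prT p h) := by
    apply AdjoinRoot.algHom_ext
    change prT p h (sk p M k (ep p M)) = sk p m k (prT p h (ep p M))
    rw [prT_ep, sk_ep, sk_ep, map_sub, map_pow, map_add, map_one, prT_ep]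
  exact DFunLike.congr_fun this y

theorem prT_gT {m M : ℕ} (h : m ≤ M) (k : ℕ) : prT p h (gT p M k) = gT p m k := by
  unfold gT
  rw [map_sum]
  simp_rw [map_pow, map_add, map_one, prT_ep]

theorem Lead.prT {m M : ℕ} (h : m ≤ M) {v : TT p M} {n : ℕ} {c : ZMod p} (hv : Lead v n c) :
    Lead (MP_0e6cae_nt.prT p h v) n c := by
  obtain ⟨y, rfl⟩ := hv
  refine ⟨MP_0e6cae_nt.prT p h y, ?_⟩
  rw [map_add, map_add, map_one, map_mul, map_mul, map_pow, map_pow, prT_ep, AlgHom.commutes]

theorem prT_CT {m M : ℕ} (h : m ≤ M) {w : (TT p M)ˣ} (hw : w ∈ CT p M) :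
    Units.map (prT p h : TT p M →* TT p m) w ∈ CT p m := by
  have hle : CT p M ≤ (CT p m).comap (Units.map (prT p h : TT p M →* TT p m)) := by
    unfold CT
    rw [Subgroup.closure_le]
    rintro w ⟨k, hk, hw⟩
    refine Subgroup.subset_closure ⟨k, hk, ?_⟩
    rw [Units.coe_map, hw]
    exact prT_gT h k
  exact hle hw

/-- Every invariant one-unit is a cyclotomic unit. -/
theorem mem_CT_of_inv [Fact p.Prime] (hp2 : p ≠ 2) {m M δ : ℕ} (hmM : m ≤ M)
    (hlev : ∀ i, 1 ≤ i → (p - 1) * i < m → (p - 1) * (i + 1) < M)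
    (hδ : ∀ n, (δ : ZMod p) ^ n = 1 → (p - 1) ∣ n) (hδ0 : ¬ p ∣ δ)
    (hδM : sk p M (δ ^ (p - 1)) = AlgHom.id (ZMod p) (TT p M))
    (v : (TT p m)ˣ) (hv : skU p m δ v = v) (hv1 : ep p m ∣ (v : TT p m) - 1) : v ∈ CT p m := by
  have hp := (Fact.out : p.Prime).two_le
  have key : ∀ t k : ℕ, m ≤ k + t → 1 ≤ k → ∀ v : (TT p m)ˣ, skU p m δ v = v →
      ep p m ^ k ∣ (v : TT p m) - 1 → v ∈ CT p m := by
    intro t
    induction t with
    | zero =>
      intro k hk _ v _ hv1
      obtain ⟨j, rfl⟩ := Nat.exists_eq_add_of_le (show m ≤ k by omega)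
      rw [pow_add, ep_pow, zero_mul, zero_dvd_iff, sub_eq_zero] at hv1
      have : v = 1 := Units.ext hv1
      rw [this]; exact one_mem _
    | succ t ih =>
      intro k hk hk1 v hv hv1
      rcases Nat.lt_or_ge k m with hkm | hkm
      swap
      · obtain ⟨j, rfl⟩ := Nat.exists_eq_add_of_le hkm
        rw [pow_add, ep_pow, zero_mul, zero_dvd_iff, sub_eq_zero] at hv1
        have : v = 1 := Units.ext hv1
        rw [this]; exact one_mem _
      have hvv : sk p m δ (v : TT p m) = v := congrArg Units.val hv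
      by_cases hpk : (p - 1) ∣ k
      swap
      · exact ih (k + 1) (by omega) (by omega) v hv (dvd_succ_of_inv hδ hvv hkm hpk hv1)
      obtain ⟨i, rfl⟩ := hpk
      have hi : 1 ≤ i := by
        rcases Nat.eq_zero_or_pos i with h | h
        · subst h; simp at hk1
        · exact h
      obtain ⟨w, hw, c, hc, hwl⟩ := exists_level (M := M) hp2 hδ hδ0 hδM i hi (hlev i hi hkm)
      set u : (TT p m)ˣ := Units.map (prT p hmM : TT p M →* TT p m) w with hu
      have hul : Lead (u : TT p m) ((p - 1) * i) c := hwl.prT hmM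
      have huC : u ∈ CT p m := prT_CT hmM hw.1
      have huinv : skU p m δ u = u := by
        have h2 : sk p M δ (w : TT p M) = w := congrArg Units.val hw.2
        have hu' : (u : TT p m) = prT p hmM (w : TT p M) := rfl
        ext
        rw [Units.coe_map]
        simp only [MonoidHom.coe_coe]
        rw [hu', ← prT_sk, h2]
      obtain ⟨cv, hcv⟩ := exists_lead hv1
      set e := (cv / c).val with he
      have hec : (e : ZMod p) * c = cv := by
        rw [he, ZMod.natCast_zmod_val, div_mul_cancel₀ _ hc]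
      have h1 := hul.pow hk1 e
      rw [hec, ← Units.val_pow_eq_pow_val] at h1
      have h2 := hcv.mul hk1 (h1.inv hk1)
      rw [add_neg_cancel, ← Units.val_mul] at h2
      have h3 : v * (u ^ e)⁻¹ ∈ CT p m := by
        refine ih ((p - 1) * i + 1) (by omega) (by omega) _ ?_ ?_
        · rw [map_mul, map_inv, map_pow, hv, huinv]
        · obtain ⟨t, ht⟩ := h2
          refine ⟨t, ?_⟩
          rw [ht, map_zero]; ring
      have h4 : v = v * (u ^ e)⁻¹ * u ^ e := by rw [inv_mul_cancel_right]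
      rw [h4]
      exact mul_mem h3 (pow_mem huC e)
  exact key m 1 (by omega) le_rfl v hv (by rw [pow_one]; exact hv1)

/-- the residue -/
theorem exists_residue [Fact p.Prime] {m : ℕ} (y : TT p m) :
    ∃ (c : ZMod p) (z : TT p m), y = algebraMap (ZMod p) (TT p m) c + ep p m * z := by
  obtain ⟨f, rfl⟩ := TT.exists_rep y
  refine ⟨f.coeff 0, AdjoinRoot.mk _ f.divX, ?_⟩
  conv_lhs => rw [(divX_mul_X_add f).symm]
  rw [map_add, map_mul, AdjoinRoot.mk_X, AdjoinRoot.mk_C]
  rw [add_comm, mul_comm]; rfl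

theorem gT_residue {m : ℕ} (k : ℕ) : ∃ w, gT p m k = k + ep p m * w := by
  induction k with
  | zero => exact ⟨0, by simp [gT]⟩
  | succ k ih =>
    obtain ⟨w, hw⟩ := ih
    have h2 : ep p m ∣ (1 + ep p m) ^ k - 1 := by
      have := sub_dvd_pow_sub_pow (1 + ep p m) 1 k
      simpa using this
    obtain ⟨z, hz⟩ := h2
    refine ⟨w + z, ?_⟩
    unfold gT at hw ⊢
    rw [Finset.sum_range_succ, hw]
    push_cast
    linear_combination hz

/-- A unit which is invariant modulo a subgroup containing the cyclotomic units belongs to it. -/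
theorem mem_of_inv_mod [Fact p.Prime] (hp2 : p ≠ 2) {m M δ : ℕ} (hm : 0 < m) (hmM : m ≤ M)
    (hlev : ∀ i, 1 ≤ i → (p - 1) * i < m → (p - 1) * (i + 1) < M)
    (hδ : ∀ n, (δ : ZMod p) ^ n = 1 → (p - 1) ∣ n) (hδ0 : ¬ p ∣ δ)
    (hδM : sk p M (δ ^ (p - 1)) = AlgHom.id (ZMod p) (TT p M))
    (H : Subgroup (TT p m)ˣ) (hCH : CT p m ≤ H)
    (c : (TT p m)ˣ) (hc : ∀ j, skU p m (δ ^ j) c / c ∈ H) : c ∈ H := by
  have hp := (Fact.out : p.Prime).two_le
  have hch := charP_TT (p := p) hm
  have hδm : sk p m (δ ^ (p - 1)) = AlgHom.id (ZMod p) (TT p m) := by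
    apply sk_ext
    have h1 := DFunLike.congr_fun hδM (1 + ep p M)
    rw [sk_one_add] at h1
    have h2 := congrArg (prT p hmM) h1
    simp only [map_pow, map_add, map_one, prT_ep, AlgHom.coe_id, id_eq] at h2
    rw [sk_one_add, h2]; rfl
  -- the norm
  set N : (TT p m)ˣ := ∏ j ∈ Finset.range (p - 1), skU p m (δ ^ j) c with hN
  have hNinv : skU p m δ N = N := by
    rw [hN, map_prod]
    simp_rw [skU_mul, ← pow_succ']
    have h1 := Finset.prod_range_succ' (fun j => skU p m (δ ^ j) c) (p - 1)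
    have h2 := Finset.prod_range_succ (fun j => skU p m (δ ^ j) c) (p - 1)
    have h3 : skU p m (δ ^ (p - 1)) c = skU p m (δ ^ 0) c := by
      ext
      simp only [Units.coe_map, MonoidHom.coe_coe, pow_zero]
      rw [hδm]
      have : sk p m 1 = AlgHom.id (ZMod p) (TT p m) := by
        apply sk_ext
        rw [sk_one_add, pow_one]; rfl
      rw [this]
    rw [h1, h3] at h2
    exact mul_right_cancel h2
  obtain ⟨c0, z, hcz⟩ := exists_residue (c : TT p m)
  have hc00 : c0 ≠ 0 := by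
    rintro rfl
    rw [map_zero, zero_add] at hcz
    have h1 : IsNilpotent (c : TT p m) := ⟨m, by rw [hcz, mul_pow, ep_pow, zero_mul]⟩
    have : Nontrivial (TT p m) := CharP.nontrivial_of_char_ne_one (v := p) (by omega)
    exact h1.not_isUnit c.isUnit
  have hNd : ep p m ∣ (N : TT p m) - 1 := by
    have h1 : ∀ k, ∃ w, ((∏ j ∈ Finset.range k, skU p m (δ ^ j) c : (TT p m)ˣ) : TT p m) =
        algebraMap (ZMod p) (TT p m) (c0 ^ k) + ep p m * w := by
      intro k
      induction k with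
      | zero => exact ⟨0, by simp⟩
      | succ k ih =>
        obtain ⟨w, hw⟩ := ih
        obtain ⟨u, hu⟩ := sk_lin (p := p) (M := m) (δ ^ k)
        have h2 : ((skU p m (δ ^ k) c : (TT p m)ˣ) : TT p m) = algebraMap (ZMod p) (TT p m) c0 +
            ep p m * ((algebraMap (ZMod p) (TT p m) (δ ^ k : ℕ) + ep p m * u) * sk p m (δ ^ k) z) := by
          rw [Units.coe_map]
          simp only [MonoidHom.coe_coe]
          rw [hcz, map_add, map_mul, hu, AlgHom.commutes]
          ring
        rw [Finset.prod_range_succ, Units.val_mul, hw, h2]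
        exact ⟨w * algebraMap (ZMod p) (TT p m) c0 + (algebraMap (ZMod p) (TT p m) (c0 ^ k) + ep p m * w) *
          ((algebraMap (ZMod p) (TT p m) (δ ^ k : ℕ) + ep p m * u) * sk p m (δ ^ k) z), by
            rw [pow_succ, map_mul]; ring⟩
    obtain ⟨w, hw⟩ := h1 (p - 1)
    rw [ZMod.pow_card_sub_one_eq_one hc00, map_one] at hw
    exact ⟨w, by rw [hN, hw]; ring⟩
  have hNH : N ∈ H := hCH (mem_CT_of_inv hp2 hmM hlev hδ hδ0 hδM N hNinv hNd)
  have hcp1 : c ^ (p - 1) ∈ H := by
    have h1 : N = (∏ j ∈ Finset.range (p - 1), skU p m (δ ^ j) c / c) * c ^ (p - 1) := by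
      rw [hN, Finset.prod_div_distrib, Finset.prod_const, Finset.card_range, div_mul_cancel]
    have h2 : (∏ j ∈ Finset.range (p - 1), skU p m (δ ^ j) c / c) ∈ H := prod_mem fun j _ => hc j
    rw [h1] at hNH
    exact (H.mul_mem_cancel_left h2).1 hNH
  -- p-power
  have hcpt : c ^ (p ^ m) ∈ H := by
    have hh : ¬ p ∣ c0.val := by
      intro hd
      apply hc00
      rw [← ZMod.natCast_zmod_val c0, ZMod.natCast_eq_zero_iff]
      exact hd
    obtain ⟨b, hb, hb'⟩ := CT_gen (p := p) (M := m) hh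
    obtain ⟨w, hw⟩ := gT_residue (p := p) (m := m) c0.val
    have hcb : (c : TT p m) - b = ep p m * (z - w) := by
      rw [hb', hw, hcz]
      have : algebraMap (ZMod p) (TT p m) c0 = ((c0.val : ℕ) : TT p m) := by
        conv_lhs => rw [← ZMod.natCast_zmod_val c0]
        rw [map_natCast]
      rw [this]; ring
    have h1 : (c : TT p m) ^ (p ^ m) = (b : TT p m) ^ (p ^ m) := by
      have : ExpChar (TT p m) p := ExpChar.prime Fact.out
      have h2 : ((c : TT p m) - b) ^ (p ^ m) = 0 := by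
        rw [hcb, mul_pow]
        have h3 : m ≤ p ^ m := (Nat.lt_pow_self (by omega)).le
        obtain ⟨j, hj⟩ := Nat.exists_eq_add_of_le h3
        rw [hj, pow_add (ep p m), ep_pow, zero_mul, zero_mul]
      rw [sub_pow_expChar_pow] at h2
      exact sub_eq_zero.1 h2
    have h2 : c ^ (p ^ m) = b ^ (p ^ m) := by
      ext
      rw [Units.val_pow_eq_pow_val, Units.val_pow_eq_pow_val, h1]
    rw [h2]
    exact pow_mem (hCH hb) _
  -- Bezout
  have hcop : Nat.Coprime (p - 1) (p ^ m) := by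
    apply Nat.Coprime.pow_right
    have : Nat.Coprime (p - 1) p := by
      have h := Nat.coprime_self_sub_right (m := 1) (n := p) (by omega)
      rw [Nat.coprime_comm]
      exact h.2 (Nat.coprime_one_right p)
    exact this
  have h1 : (c ^ (p - 1)) ^ (Nat.gcdA (p - 1) (p ^ m)) * (c ^ (p ^ m)) ^ (Nat.gcdB (p - 1) (p ^ m)) = c := by
    rw [← zpow_natCast, ← zpow_natCast, ← zpow_mul, ← zpow_mul, ← zpow_add,
      ← Nat.gcd_eq_gcd_ab, hcop]
    simp
  rw [← h1]
  exact mul_mem (zpow_mem hcp1 _) (zpow_mem hcpt _)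

end Pool.Agent.Lib.MP_0e6cae_nt
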