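import Pool.Agent.Lib.MP_0e6cae_nt.UD

/-!
The reduction `ℤ[X] → F_p[ε]/(ε^m)`, `X ↦ 1 + ε`, and liftings of units.
-/

open Polynomial

namespace Pool.Agent.Lib.MP_0e6cae_nt

variable {p m : ℕ}

/-- `X ↦ 1 + ε` -/
noncomputable def rho (p m : ℕ) : ℤ[X] →ₐ[ℤ] TT p m := aeval (1 + ep p m)

theorem rho_X : rho p m X = 1 + ep p m := aeval_X _

theorem rho_expand (k : ℕ) (f : ℤ[X]) : rho p m (expand ℤ k f) = sk p m k (rho p m f) := by
  unfold rho
  rw [expand_aeval]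
  have h : (sk p m k) (aeval (1 + ep p m) f) = aeval (sk p m k (1 + ep p m)) f := by
    have := Polynomial.aeval_algHom_apply ((sk p m k).restrictScalars ℤ) (1 + ep p m) f
    exact this.symm
  rw [h, sk_one_add]

theorem rho_modulus [Fact p.Prime] (b : ℕ) : rho p (p ^ b) (X ^ (p ^ b) - 1) = 0 := by
  have hp := (Fact.out : p.Prime)
  have := charP_TT (p := p) (M := p ^ b) (pow_pos hp.pos b)
  have : ExpChar (TT p (p ^ b)) p := ExpChar.prime hp
  rw [map_sub, map_pow, rho_X, map_one, add_pow_expChar_pow, one_pow, ep_pow]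
  ring

theorem cyclo_eq (hp : p.Prime) (b : ℕ) :
    cyclotomic (p ^ (b + 1)) ℤ = ∑ i ∈ Finset.range p, (X ^ (p ^ b)) ^ i :=
  cyclotomic_prime_pow_eq_geom_sum hp

theorem modulus_succ (hp : p.Prime) (b : ℕ) :
    (X : ℤ[X]) ^ (p ^ (b + 1)) - 1 = (X ^ (p ^ b) - 1) * cyclotomic (p ^ (b + 1)) ℤ := by
  rw [cyclo_eq hp, mul_comm, geom_sum_mul, ← pow_mul, ← pow_succ]

/-- `Φ ≡ p` modulo `X^m - 1`. -/
theorem modulus_dvd_cyclo_sub (hp : p.Prime) (b : ℕ) :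
    (X : ℤ[X]) ^ (p ^ b) - 1 ∣ cyclotomic (p ^ (b + 1)) ℤ - C (p : ℤ) := by
  rw [cyclo_eq hp]
  have : (∑ i ∈ Finset.range p, ((X : ℤ[X]) ^ (p ^ b)) ^ i) - C (p : ℤ) =
      ∑ i ∈ Finset.range p, (((X : ℤ[X]) ^ (p ^ b)) ^ i - 1) := by
    rw [Finset.sum_sub_distrib]
    simp
  rw [this]
  refine Finset.dvd_sum fun i _ => ?_
  have := sub_dvd_pow_sub_pow ((X : ℤ[X]) ^ (p ^ b)) 1 i
  rwa [one_pow] at this

theorem rho_cyclo [Fact p.Prime] (b : ℕ) : rho p (p ^ b) (cyclotomic (p ^ (b + 1)) ℤ) = 0 := by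
  have hp := (Fact.out : p.Prime)
  have := charP_TT (p := p) (M := p ^ b) (pow_pos hp.pos b)
  obtain ⟨t, ht⟩ := modulus_dvd_cyclo_sub hp b
  have h1 := congrArg (rho p (p ^ b)) ht
  rw [map_mul, rho_modulus, zero_mul, map_sub, sub_eq_zero] at h1
  rw [h1]
  simp

/-- The kernel of `rho`. -/
theorem rho_ker [Fact p.Prime] (b : ℕ) (f : ℤ[X]) (hf : rho p (p ^ b) f = 0) :
    ∃ s t : ℤ[X], f = C (p : ℤ) * s + (X ^ (p ^ b) - 1) * t := by
  have hp := (Fact.out : p.Prime)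
  set m := p ^ b with hm
  -- divisibility in F_p[X]
  have h1 : ∀ g : ℤ[X], rho p m g = AdjoinRoot.mk ((X : (ZMod p)[X]) ^ m)
      ((g.map (Int.castRingHom (ZMod p))).comp (1 + X)) := by
    intro g
    unfold rho
    have h2 : aeval (1 + ep p m) g = aeval (1 + ep p m) (g.map (Int.castRingHom (ZMod p))) := by
      rw [aeval_def, aeval_def, eval₂_map]
      congr 1
    rw [h2, ← AdjoinRoot.aeval_eq, aeval_comp, map_add, map_one, aeval_X]
  rw [h1, AdjoinRoot.mk_eq_zero] at hf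
  obtain ⟨q, hq⟩ := hf
  have h3 := congrArg (fun r : (ZMod p)[X] => r.comp (X - 1)) hq
  simp only [comp_assoc, add_comp, one_comp, X_comp, mul_comp, pow_comp] at h3
  have h4 : (1 : (ZMod p)[X]) + (X - 1) = X := by ring
  rw [h4, comp_X, hm, sub_pow_expChar_pow, one_pow, ← hm] at h3
  obtain ⟨t, ht⟩ := Polynomial.map_surjective (Int.castRingHom (ZMod p))
    (ZMod.intCast_surjective) (q.comp (X - 1))
  have h5 : C (p : ℤ) ∣ f - (X ^ m - 1) * t := by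
    rw [C_dvd_iff_dvd_coeff]
    intro i
    rw [← ZMod.intCast_zmod_eq_zero_iff_dvd]
    have h6 : (f - (X ^ m - 1) * t).map (Int.castRingHom (ZMod p)) = 0 := by
      rw [Polynomial.map_sub, Polynomial.map_mul, Polynomial.map_sub, Polynomial.map_pow, map_X,
        Polynomial.map_one, ht, h3, sub_self]
    have h7 := congrArg (fun r => coeff r i) h6
    simp only [coeff_map, coeff_zero] at h7
    exact h7
  obtain ⟨s, hs⟩ := h5
  exact ⟨s, t, by linear_combination hs⟩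

/-- The group of units of `F_p[ε]/(ε^m)` which lift to units modulo `h`. -/
noncomputable def UL (p m : ℕ) (h : ℤ[X]) (hh : rho p m h = 0) : Subgroup (TT p m)ˣ where
  carrier := {w | ∃ f f' : ℤ[X], rho p m f = w ∧ h ∣ f * f' - 1}
  mul_mem' := by
    rintro a b ⟨f, f', hf, hf'⟩ ⟨g, g', hg, hg'⟩
    refine ⟨f * g, f' * g', by rw [map_mul, hf, hg, Units.val_mul], ?_⟩
    have : f * g * (f' * g') - 1 = (f * f' - 1) * (g * g') + (g * g' - 1) := by ring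
    rw [this]
    exact dvd_add (hf'.mul_right _) hg'
  one_mem' := ⟨1, 1, by simp, by simp⟩
  inv_mem' := by
    rintro a ⟨f, f', hf, hf'⟩
    refine ⟨f', f, ?_, by rwa [mul_comm]⟩
    obtain ⟨t, ht⟩ := hf'
    have h1 := congrArg (rho p m) ht
    rw [map_mul, hh, zero_mul, map_sub, map_mul, map_one, hf, sub_eq_zero] at h1
    exact (Units.eq_inv_of_mul_eq_one_right (by rw [mul_comm]; exact h1))

theorem mem_UL {h : ℤ[X]} {hh : rho p m h = 0} {w : (TT p m)ˣ} :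
    w ∈ UL p m h hh ↔ ∃ f f' : ℤ[X], rho p m f = w ∧ h ∣ f * f' - 1 := Iff.rfl

theorem skU_mem_UL {h : ℤ[X]} {hh : rho p m h = 0} {k : ℕ} (hk : h ∣ expand ℤ k h)
    {w : (TT p m)ˣ} (hw : w ∈ UL p m h hh) : skU p m k w ∈ UL p m h hh := by
  obtain ⟨f, f', hf, hf'⟩ := hw
  refine ⟨expand ℤ k f, expand ℤ k f', ?_, ?_⟩
  · rw [rho_expand, hf]; rfl
  · obtain ⟨t, ht⟩ := hf'
    have h1 := congrArg (expand ℤ k) ht
    rw [map_sub, map_mul, map_one, map_mul] at h1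
    rw [h1]
    exact hk.mul_right _

/-- Cyclotomic elements lift to units of `ℤ[ζ]`. -/
theorem CT_le_UL [Fact p.Prime] (b : ℕ) :
    CT p (p ^ b) ≤ UL p (p ^ b) (cyclotomic (p ^ (b + 1)) ℤ) (rho_cyclo b) := by
  have hp := (Fact.out : p.Prime)
  unfold CT
  rw [Subgroup.closure_le]
  rintro w ⟨h, hh, hw⟩
  -- inverse exponent
  have hcop : Nat.Coprime h (p ^ (b + 1)) :=
    Nat.Coprime.pow_right _ ((Nat.coprime_comm.1 ((Nat.Prime.coprime_iff_not_dvd hp).2 hh)))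
  obtain ⟨h', hh'⟩ : ∃ h' : ℕ, h * h' ≡ 1 [MOD p ^ (b + 1)] := by
    obtain ⟨h', -, h2⟩ := Nat.exists_mul_mod_eq_one_of_coprime hcop
      (Nat.one_lt_pow (by omega) hp.one_lt)
    exact ⟨h', by rw [Nat.ModEq, h2, Nat.mod_eq_of_lt (Nat.one_lt_pow (by omega) hp.one_lt)]⟩
  obtain ⟨j, hj⟩ : ∃ j, h * h' = 1 + p ^ (b + 1) * j := by
    have hpos : 1 ≤ h * h' := by
      rcases Nat.eq_zero_or_pos (h * h') with h0 | h0
      · rw [h0, Nat.ModEq, Nat.zero_mod, Nat.mod_eq_of_lt (Nat.one_lt_pow (by omega) hp.one_lt)] at hh'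
        omega
      · exact h0
    obtain ⟨j, hj⟩ := (Nat.modEq_iff_dvd' hpos).1 hh'.symm
    exact ⟨j, by omega⟩
  refine ⟨∑ i ∈ Finset.range h, X ^ i, ∑ i ∈ Finset.range h', (X ^ h) ^ i, ?_, ?_⟩
  · rw [hw, gT, map_sum]
    simp_rw [map_pow, rho_X]
  · rw [geom_mul, hj, Finset.sum_range_add, Finset.sum_range_one, pow_zero, add_sub_cancel_left]
    have h1 : ∀ i, (X : ℤ[X]) ^ (1 + i) = X * X ^ i := fun i => by rw [pow_add, pow_one]
    simp_rw [h1]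
    rw [← Finset.mul_sum, ← geom_mul]
    refine Dvd.dvd.mul_left (Dvd.dvd.mul_right ?_ _) _
    exact cyclotomic_dvd_geom_sum_of_dvd ℤ dvd_rfl (Nat.one_lt_pow (by omega) hp.one_lt).ne' 

end Pool.Agent.Lib.MP_0e6cae_nt
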