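import Pool.Agent.Lib.MP_0e6cae_nt.Defs

/-!
Yoneda equivalence of 2-extensions with projective middle term.
-/

open CategoryTheory NumberField IsDedekindDomain

namespace Pool.Agent.Lib.MP_0e6cae_nt

variable {F : Type} [Field F] [NumberField F] {G : Subgroup (F ≃+* F)}
  {S : Set (HeightOneSpectrum (𝓞 F))}

theorem TwoExt.Hom.refl (E : TwoExt G S) : E.Hom E :=
  ⟨LinearMap.id, LinearMap.id, by simp, by simp, by simp⟩

theorem TwoExt.Hom.trans {E E' E'' : TwoExt G S} (h : E.Hom E') (h' : E'.Hom E'') :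
    E.Hom E'' := by
  obtain ⟨f, g, h1, h2, h3⟩ := h
  obtain ⟨f', g', h1', h2', h3'⟩ := h'
  refine ⟨f'.comp f, g'.comp g, fun u => ?_, fun a => ?_, fun b => ?_⟩
  · rw [LinearMap.comp_apply, h1, h1']
  · rw [LinearMap.comp_apply, LinearMap.comp_apply, h2, h2']
  · rw [LinearMap.comp_apply, h3', h3]

theorem TwoExt.d_i (E : TwoExt G S) (u : US S) : E.d (E.i u) = 0 := (E.exA _).2 ⟨u, rfl⟩

theorem TwoExt.e_d (E : TwoExt G S) (a : E.A) : E.e (E.d a) = 0 := (E.exB _).2 ⟨a, rfl⟩

/-- the pull back of the two maps to `X_S` -/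
def TwoExt.pb (E X : TwoExt G S) : Submodule (MonoidAlgebra ℤ G) (E.B × X.B) where
  carrier := {z | E.e z.1 = X.e z.2}
  zero_mem' := by
    change E.e (0 : E.B) = X.e (0 : X.B)
    rw [map_zero, map_zero]
  add_mem' := by
    intro a b ha hb
    change E.e (a.1 + b.1) = X.e (a.2 + b.2)
    rw [map_add, map_add, ha, hb]
  smul_mem' := by
    intro r z hz
    change E.e (r • z.1) = X.e (r • z.2)
    have key : ∀ z : E.B × X.B, E.e z.1 = X.e z.2 → E.e (r • z.1) = X.e (r • z.2) := by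
      induction r using MonoidAlgebra.induction_on with
      | of g =>
        intro z hz
        apply Subtype.ext
        rw [MonoidAlgebra.of_apply, E.e_equiv, X.e_equiv, hz]
      | add r s hr hs =>
        intro z hz
        rw [add_smul, add_smul, map_add, map_add, hr z hz, hs z hz]
      | smul n r hr =>
        intro z hz
        rw [smul_assoc, smul_assoc, map_zsmul, map_zsmul, hr z hz]
    exact key z hz

/-- lifting over `X_S` -/
theorem TwoExt.lift_e (E X : TwoExt G S) (hB : Module.Projective (MonoidAlgebra ℤ G) E.B) :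
    ∃ l : E.B →ₗ[MonoidAlgebra ℤ G] X.B, ∀ b, X.e (l b) = E.e b := by
  have hs : Function.Surjective
      ((LinearMap.fst (MonoidAlgebra ℤ G) E.B X.B).comp (E.pb X).subtype) := by
    intro b
    obtain ⟨x, hx⟩ := X.surj (E.e b)
    exact ⟨⟨(b, x), hx.symm⟩, rfl⟩
  obtain ⟨s, hs'⟩ := Module.projective_lifting_property
    ((LinearMap.fst (MonoidAlgebra ℤ G) E.B X.B).comp (E.pb X).subtype) LinearMap.id hs
  refine ⟨(LinearMap.snd (MonoidAlgebra ℤ G) E.B X.B).comp ((E.pb X).subtype.comp s),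
    fun b => ?_⟩
  have h1 : ((s b : E.pb X) : E.B × X.B).1 = b := LinearMap.congr_fun hs' b
  have h2 : E.e ((s b : E.pb X) : E.B × X.B).1 = X.e ((s b : E.pb X) : E.B × X.B).2 := (s b).2
  rw [h1] at h2
  exact h2.symm

/-- the backward step -/
theorem TwoExt.Hom.back {E X Y : TwoExt G S} (hB : Module.Projective (MonoidAlgebra ℤ G) E.B)
    (hE : E.Hom Y) (hX : X.Hom Y) : E.Hom X := by
  obtain ⟨φ, ψ, p1, p2, p3⟩ := hE
  obtain ⟨f, g, q1, q2, q3⟩ := hX
  obtain ⟨l, hl⟩ := TwoExt.lift_e E X hB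
  -- the homotopy
  have hr : ∀ b, (g.comp l - ψ) b ∈ LinearMap.range Y.d := by
    intro b
    have : Y.e ((g.comp l - ψ) b) = 0 := by
      rw [LinearMap.sub_apply, LinearMap.comp_apply, map_sub, q3, hl, p3, sub_self]
    obtain ⟨a, ha⟩ := (Y.exB _).1 this
    exact ⟨a, ha⟩
  obtain ⟨h, hh⟩ := Module.projective_lifting_property Y.d.rangeRestrict
    ((g.comp l - ψ).codRestrict (LinearMap.range Y.d) hr) Y.d.surjective_rangeRestrict
  have hh' : ∀ b, Y.d (h b) = g (l b) - ψ b := fun b =>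
    congrArg Subtype.val (LinearMap.congr_fun hh b)
  -- the corrected map
  let φ' : E.A →ₗ[MonoidAlgebra ℤ G] Y.A := φ + h.comp E.d
  have hφ' : ∀ a, φ' a = φ a + h (E.d a) := fun a => rfl
  have r1 : ∀ u, φ' (E.i u) = Y.i u := fun u => by
    rw [hφ', p1, TwoExt.d_i, map_zero, add_zero]
  have r2 : ∀ a, Y.d (φ' a) = g (l (E.d a)) := fun a => by
    rw [hφ', map_add, hh', ← p2]
    abel
  let Φ : X.A →ₗ[MonoidAlgebra ℤ G] Y.A × X.B := f.prod X.d
  let Ψ : E.A →ₗ[MonoidAlgebra ℤ G] Y.A × X.B := φ'.prod (l.comp E.d)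
  have hΦ : Function.Injective Φ := by
    rw [injective_iff_map_eq_zero]
    intro x hx
    have h1 : f x = 0 := congrArg Prod.fst hx
    have h2 : X.d x = 0 := congrArg Prod.snd hx
    obtain ⟨u, rfl⟩ := (X.exA x).1 h2
    rw [q1] at h1
    have : u = 0 := Y.inj (by rw [h1, map_zero])
    rw [this, map_zero]
  have hΨ : ∀ a, Ψ a ∈ LinearMap.range Φ := by
    intro a
    have h1 : X.e (l (E.d a)) = 0 := by rw [hl, TwoExt.e_d]
    obtain ⟨x, hx⟩ := (X.exB _).1 h1
    have h2 : Y.d (f x - φ' a) = 0 := by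
      rw [map_sub, ← q2, hx, r2, sub_self]
    obtain ⟨u, hu⟩ := (Y.exA _).1 h2
    refine ⟨x - X.i u, Prod.ext ?_ ?_⟩
    · change f (x - X.i u) = φ' a
      rw [map_sub, q1, hu]
      abel
    · change X.d (x - X.i u) = l (E.d a)
      rw [map_sub, TwoExt.d_i, sub_zero, hx]
  let k : E.A →ₗ[MonoidAlgebra ℤ G] X.A :=
    (LinearEquiv.ofInjective Φ hΦ).symm.toLinearMap.comp (Ψ.codRestrict _ hΨ)
  have hk : ∀ a, Φ (k a) = Ψ a := by
    intro a
    have h1 : LinearEquiv.ofInjective Φ hΦ (k a) = Ψ.codRestrict _ hΨ a :=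
      (LinearEquiv.ofInjective Φ hΦ).apply_symm_apply _
    exact congrArg Subtype.val h1
  refine ⟨k, l, fun u => ?_, fun a => ?_, hl⟩
  · apply hΦ
    rw [hk]
    refine Prod.ext ?_ ?_
    · change φ' (E.i u) = f (X.i u)
      rw [r1, q1]
    · change l (E.d (E.i u)) = X.d (X.i u)
      rw [TwoExt.d_i, TwoExt.d_i, map_zero]
  · exact (congrArg Prod.snd (hk a)).symm

/-- If `E.B` is projective, then every 2-extension Yoneda equivalent to `E` receives a morphism
from `E`. (Induction over the zigzag; backward steps: `E.B` is projective, and for a morphism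
`E₀ → E₁` with identities on the ends, `E₀.A` is the pull back of `E₁.A` to `im E₀.d`.) -/
theorem TwoExt.hom_of_equiv (E E' : TwoExt G S) (hB : Module.Projective (MonoidAlgebra ℤ G) E.B)
    (h : E.Equiv E') : E.Hom E' := by
  have key : ∀ X Y : TwoExt G S, Relation.EqvGen TwoExt.Hom X Y → (E.Hom X ↔ E.Hom Y) := by
    intro X Y hXY
    induction hXY with
    | rel X Y h => exact ⟨fun h' => h'.trans h, fun h' => TwoExt.Hom.back hB h' h⟩
    | refl X => exact Iff.rfl
    | symm X Y _ ih => exact ih.symm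
    | trans X Y Z _ _ ih1 ih2 => exact ih1.trans ih2
  exact (key E E' h).1 (TwoExt.Hom.refl E)

/-- Mapping cone: for a morphism `E → E'` the sequence `0 → A → A' × B → B' → 0` is exact, so it
splits if `B'` is projective. -/
theorem TwoExt.cone (E E' : TwoExt G S) (hB' : Module.Projective (MonoidAlgebra ℤ G) E'.B)
    (h : E.Hom E') : Nonempty ((E.A × E'.B) ≃ₗ[MonoidAlgebra ℤ G] (E'.A × E.B)) := by
  obtain ⟨f, g, h1, h2, h3⟩ := h
  let j : E.A →ₗ[MonoidAlgebra ℤ G] E'.A × E.B := f.prod E.d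
  let q : E'.A × E.B →ₗ[MonoidAlgebra ℤ G] E'.B := E'.d.coprod (-g)
  have hq : ∀ z, q z = E'.d z.1 - g z.2 := fun z => by
    rw [LinearMap.coprod_apply, LinearMap.neg_apply, sub_eq_add_neg]
  have hj0 : ∀ a, q (j a) = 0 := fun a => by
    rw [hq]
    change E'.d (f a) - g (E.d a) = 0
    rw [h2, sub_self]
  have hj : Function.Injective j := by
    rw [injective_iff_map_eq_zero]
    intro x hx
    have e1 : f x = 0 := congrArg Prod.fst hx
    have e2 : E.d x = 0 := congrArg Prod.snd hx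
    obtain ⟨u, rfl⟩ := (E.exA x).1 e2
    rw [h1] at e1
    have : u = 0 := E'.inj (by rw [e1, map_zero])
    rw [this, map_zero]
  have hsur : Function.Surjective q := by
    intro b'
    obtain ⟨b, hb⟩ := E.surj (E'.e b')
    have e1 : E'.e (b' - g b) = 0 := by rw [map_sub, h3, hb, sub_self]
    obtain ⟨a', ha'⟩ := (E'.exB _).1 e1
    refine ⟨(a', -b), ?_⟩
    rw [hq, map_neg, sub_neg_eq_add, ha']
    abel
  have hex : ∀ z, q z = 0 → ∃ a, j a = z := by
    rintro ⟨a', b⟩ hz
    rw [hq, sub_eq_zero] at hz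
    change E'.d a' = g b at hz
    have e1 : E.e b = 0 := by rw [← h3, ← hz, TwoExt.e_d]
    obtain ⟨a1, rfl⟩ := (E.exB _).1 e1
    have e2 : E'.d (a' - f a1) = 0 := by rw [map_sub, hz, h2, sub_self]
    obtain ⟨u, hu⟩ := (E'.exA _).1 e2
    refine ⟨a1 + E.i u, Prod.ext ?_ ?_⟩
    · change f (a1 + E.i u) = a'
      rw [map_add, h1, hu]
      abel
    · change E.d (a1 + E.i u) = E.d a1
      rw [map_add, TwoExt.d_i, add_zero]
  obtain ⟨s, hs⟩ := Module.projective_lifting_property q LinearMap.id hsur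
  have hs' : ∀ b, q (s b) = b := fun b => LinearMap.congr_fun hs b
  refine ⟨LinearEquiv.ofBijective (j.coprod s) ⟨?_, ?_⟩⟩
  · rw [injective_iff_map_eq_zero]
    rintro ⟨a, b⟩ hz
    rw [LinearMap.coprod_apply] at hz
    change j a + s b = 0 at hz
    have hb : b = 0 := by
      have e1 := congrArg q hz
      rwa [map_add, hj0, hs', zero_add, map_zero] at e1
    subst hb
    rw [map_zero, add_zero] at hz
    have ha : a = 0 := hj (by rw [hz, map_zero])
    rw [ha]
    rfl
  · intro z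
    obtain ⟨a, ha⟩ := hex (z - s (q z)) (by rw [map_sub, hs', sub_self])
    refine ⟨(a, q z), ?_⟩
    rw [LinearMap.coprod_apply]
    change j a + s (q z) = z
    rw [ha, sub_add_cancel]

end Pool.Agent.Lib.MP_0e6cae_nt
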